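import Pool.Agent.UQ.CutBad
import Pool.Agent.helper20.HP.S1

/-!
# Q10 BadTail : `bad` with a long past

`bad_shift`: fewer admissible cut times: `bad K P R N ≤ bad K (P + (R - l)) l N` for `l ≤ R` (same total number of steps, `ind_mono`).
`bad_tail`: `bad_shift` with `l = 2 r m`, `bad_le`, `qr_lower` (its hypotheses from `Par.green`: `2 r ≤ L`, and `h2`), and in `∑_{u ∈ Ioc r T} min u (2rm+N) * pt u o o`, `T = 2h + R + N ≤ L`: for `u ≤ S` use `min ≤ u`, for `u > S`
use `min ≤ 2rm+N` and `HP.cc_tail_le`: `≤ δ + (2rm+N) θ/(S+1)`. (`K.pt u o o = cc K u`.)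
`par_mono`: `Par` for a larger `h`.
-/

open Finset Pool.Agent.helper20.HP

namespace Pool.Agent.UQ

variable {V : Type} [Fintype V] [DecidableEq V] {K : HW V} {θ : ℝ} {h : ℕ}

theorem bad_shift (K : HW V) (P N : ℕ) {l R : ℕ} (hl : l ≤ R) :
    bad K P R N ≤ bad K (P + (R - l)) l N := by
  have hlen : P + (R - l) + l + N = P + R + N := by omega
  unfold bad
  rw [hlen]
  unfold avg
  apply div_le_div_of_nonneg_right _ (Nat.cast_nonneg _)
  apply Finset.sum_le_sum
  intro x _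
  apply W_mono
  intro m _
  have key : (¬ ∃ c, P < c ∧ c ≤ P + R ∧ List.Disjoint ((x :: m).take c) ((x :: m).drop c)) →
      ¬ ∃ c, P + (R - l) < c ∧ c ≤ P + (R - l) + l ∧
        List.Disjoint ((x :: m).take c) ((x :: m).drop c) := by
    rintro h1 ⟨c, hc1, hc2, hc3⟩
    exact h1 ⟨c, by omega, by omega, hc3⟩
  unfold Pool.Agent.UQ.ind
  by_cases h1 : ¬ ∃ c, P < c ∧ c ≤ P + R ∧ List.Disjoint ((x :: m).take c) ((x :: m).drop c)
  · rw [if_pos h1, if_pos (key h1)]
  · rw [if_neg h1]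
    split_ifs
    · exact le_refl _
    · exact zero_le_one

theorem BadTail_sum (hP : Par K θ h) {r : ℕ} (M S T : ℕ)
    (hT : T ≤ Nat.sqrt (Fintype.card V)) (o : V) {δ : ℝ}
    (h3 : ∑ u ∈ Ioc r S, ((u : ℝ) + 1) * K.pt u o o ≤ δ) :
    ∑ u ∈ Ioc r T, ((min u M : ℕ) : ℝ) * K.pt u o o ≤ δ + (M : ℝ) * (θ / ((S : ℝ) + 1)) := by
  have hpt : ∀ u, 0 ≤ K.pt u o o := fun u => pt_nonneg K u o o
  rw [← Finset.sum_filter_add_sum_filter_not (Ioc r T) (fun u => u ≤ S)]
  apply add_le_add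
  · refine le_trans ?_ h3
    have hsub : (Ioc r T).filter (fun u => u ≤ S) ⊆ Ioc r S := by
      intro u hu
      simp only [Finset.mem_filter, Finset.mem_Ioc] at hu ⊢
      exact ⟨hu.1.1, hu.2⟩
    refine le_trans ?_ (Finset.sum_le_sum_of_subset_of_nonneg hsub
      (fun u _ _ => mul_nonneg (by positivity) (hpt u)))
    apply Finset.sum_le_sum
    intro u _
    apply mul_le_mul_of_nonneg_right _ (hpt u)
    have : (min u M : ℕ) ≤ u := min_le_left _ _
    have h' : ((min u M : ℕ) : ℝ) ≤ (u : ℝ) := by exact_mod_cast this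
    linarith
  · have hsub : (Ioc r T).filter (fun u => ¬ u ≤ S) ⊆ Ico S (T + 1) := by
      intro u hu
      simp only [Finset.mem_filter, Finset.mem_Ioc, Finset.mem_Ico] at hu ⊢
      omega
    have h1 : ∑ u ∈ (Ioc r T).filter (fun u => ¬ u ≤ S), ((min u M : ℕ) : ℝ) * K.pt u o o
        ≤ ∑ u ∈ (Ioc r T).filter (fun u => ¬ u ≤ S), (M : ℝ) * K.pt u o o := by
      apply Finset.sum_le_sum
      intro u _
      apply mul_le_mul_of_nonneg_right _ (hpt u)
      have : (min u M : ℕ) ≤ M := min_le_right _ _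
      exact_mod_cast this
    refine le_trans h1 ?_
    rw [← Finset.mul_sum]
    apply mul_le_mul_of_nonneg_left _ (Nat.cast_nonneg _)
    refine le_trans (Finset.sum_le_sum_of_subset_of_nonneg hsub (fun u _ _ => hpt u)) ?_
    have h2 := cc_tail_le hP (j := S) (N := T + 1) (by omega)
    refine le_trans (le_of_eq ?_) h2
    apply Finset.sum_congr rfl
    intro u _
    exact cc_eq K u o

theorem bad_tail (hP : Par K θ h) {r : ℕ} (hr : 1 ≤ r) (m N R S : ℕ) (hR : 2 * r * m ≤ R)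
    (hT : 2 * h + R + N ≤ Nat.sqrt (Fintype.card V)) (hrL : 4 * r ≤ Nat.sqrt (Fintype.card V)) (o : V) {δ : ℝ}
    (h2 : ∑ u ∈ Ioc r (4 * r), ((u : ℝ) + 1) * K.pt u o o ≤ 1 / 2)
    (h3 : ∑ u ∈ Ioc r S, ((u : ℝ) + 1) * K.pt u o o ≤ δ) :
    bad K (2 * h) R N ≤ (1 - 1 / (2 * θ)) ^ m
      + m * (δ + ((2 * r * m + N : ℕ) : ℝ) * (θ / ((S : ℝ) + 1))) := by
  have hne : Nonempty V := ⟨o⟩
  refine le_trans (bad_shift K (2 * h) N hR) ?_
  refine le_trans (bad_le K hr (2 * h + (R - 2 * r * m)) m N o) ?_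
  have hTT : 2 * h + (R - 2 * r * m) + 2 * r * m + N = 2 * h + R + N := by omega
  rw [hTT]
  have hq1 : 1 / (2 * θ) ≤ qr K r o := by
    apply qr_lower K hP.one_le r o _ h2
    have h4 := cc_green_le hP (N := 2 * r + 1) (by omega)
    refine le_trans (le_of_eq ?_) h4
    apply Finset.sum_congr rfl
    intro u _
    rw [cc_eq K u o]
  apply add_le_add
  · apply pow_le_pow_left₀
    · have := qr_le_one K r o
      linarith
    · linarith
  · apply mul_le_mul_of_nonneg_left _ (Nat.cast_nonneg _)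
    exact BadTail_sum hP (2 * r * m + N) S (2 * h + R + N) hT o h3

theorem par_mono (hP : Par K θ h) {h' : ℕ} (hh : h ≤ h')
    (h16 : 16 * h' ≤ Nat.sqrt (Fintype.card V)) : Par K θ h' where
  one_le := hP.one_le
  green := hP.green
  mix := fun t ht x y => hP.mix t (le_trans hh ht) x y
  h_pos := le_trans hP.h_pos hh
  h_le := h16

end Pool.Agent.UQ
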