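import Pool.Agent.helper20.HP.Defs3
import Pool.Agent.helper20.HP.S1
import Pool.Agent.UQ.BadTail

/-!
# Q12 Asym : orders of magnitude along a setup

`n = card (S.V k) → ∞`, `a = S.a = min α (1/4) ∈ (0, 1/4]`, `w = ⌊n^(1/2 - a/8)⌋`, `L = Nat.sqrt n` (`n^(1/2) - 1 ≤ L`), `tmix + 1 ≤ ε n^(1/2 - a)` eventually for every `ε` (`HP.tmix_small`), `HP.par_eventually`, `par_mono`
(`16 (tmix + 1 + H₀) ≤ L` eventually).
-/

open Finset Filter Pool.Agent.helper20.HP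

namespace Pool.Agent.UQ

theorem Asym_rpow {p q : ℝ} (hpq : p < q) (hq : 0 < q) {c : ℝ} (hc : 0 < c) (C : ℝ) :
    ∀ᶠ x : ℝ in atTop, x ^ p + C ≤ c * (x ^ q - 1) := by
  have h1 : Tendsto (fun x : ℝ => x ^ (-(q - p))) atTop (nhds 0) :=
    tendsto_rpow_neg_atTop (by linarith)
  have h2 : Tendsto (fun x : ℝ => x ^ q) atTop atTop := tendsto_rpow_atTop hq
  have h3 : ∀ᶠ x : ℝ in atTop, x ^ (-(q - p)) < c / 2 :=
    h1.eventually_lt_const (by positivity)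
  have h4 : ∀ᶠ x : ℝ in atTop, 2 * (C + c) / c ≤ x ^ q := h2.eventually_ge_atTop _
  filter_upwards [h3, h4, eventually_gt_atTop (0 : ℝ)] with x hx3 hx4 hx0
  have hxq : 0 < x ^ q := Real.rpow_pos_of_pos hx0 q
  have e1 : x ^ p = x ^ (-(q - p)) * x ^ q := by
    rw [← Real.rpow_add hx0]
    congr 1
    ring
  have e2 : x ^ p ≤ c / 2 * x ^ q := by
    rw [e1]
    exact mul_le_mul_of_nonneg_right hx3.le hxq.le
  have e3 : C + c ≤ c / 2 * x ^ q := by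
    rw [div_le_iff₀ hc] at hx4
    linarith
  linarith

theorem asym (S : Setup) (K : ∀ k, HW (S.V k)) (hK : IsKer S K) (H₀ : ℕ) {η : ℝ} (hη : 0 < η) :
    ∀ᶠ k in atTop, Par (K k) (max S.θ 1) (tmix (S.G k) + 1 + H₀) ∧
      ((tmix (S.G k) + 1 + H₀ : ℕ) : ℝ) ≤ η * wd (Fintype.card (S.V k)) S.a ∧
      (wd (Fintype.card (S.V k)) S.a : ℝ) ≤ η * Nat.sqrt (Fintype.card (S.V k)) ∧
      1 ≤ η * wd (Fintype.card (S.V k)) S.a := by
  have ha0 : 0 < S.a := lt_min S.α_pos (by norm_num)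
  have ha1 : S.a ≤ 1 / 4 := min_le_right _ _
  have hn : Tendsto (fun k => ((Fintype.card (S.V k) : ℕ) : ℝ)) atTop atTop :=
    tendsto_natCast_atTop_atTop.comp S.card
  have F1 := hn.eventually (Asym_rpow (p := 0) (q := 1 / 2 - S.a / 8) (by linarith)
    (by linarith) hη 0)
  have F2 := hn.eventually (Asym_rpow (p := 1 / 2 - S.a / 8) (q := 1 / 2) (by linarith)
    (by norm_num) hη 0)
  have F3 := hn.eventually (Asym_rpow (p := 1 / 2 - S.a) (q := 1 / 2 - S.a / 8) (by linarith)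
    (by linarith) hη (H₀ : ℝ))
  have F4 := hn.eventually (Asym_rpow (p := 1 / 2 - S.a) (q := 1 / 2) (by linarith)
    (by norm_num) (c := 1 / 16) (by norm_num) (H₀ : ℝ))
  have F5 := tmix_small S 1 one_pos
  have F6 := par_eventually S K hK
  filter_upwards [F1, F2, F3, F4, F5, F6] with k f1 f2 f3 f4 f5 f6
  set n : ℕ := Fintype.card (S.V k) with hndef
  have hw1 : (n : ℝ) ^ (1 / 2 - S.a / 8) - 1 ≤ (wd n S.a : ℝ) := by
    unfold wd
    have := Nat.lt_floor_add_one ((n : ℝ) ^ (1 / 2 - S.a / 8))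
    linarith
  have hw2 : (wd n S.a : ℝ) ≤ (n : ℝ) ^ (1 / 2 - S.a / 8) := by
    unfold wd
    exact Nat.floor_le (Real.rpow_nonneg (Nat.cast_nonneg _) _)
  have hs : (n : ℝ) ^ (1 / 2 : ℝ) - 1 ≤ (Nat.sqrt n : ℝ) := by
    rw [← Real.sqrt_eq_rpow]
    have := Real.real_sqrt_le_nat_sqrt_succ (a := n)
    linarith
  have f5' : ((tmix (S.G k) + 1 : ℕ) : ℝ) ≤ (n : ℝ) ^ (1 / 2 - S.a) := by
    have := f5
    rw [one_mul] at this
    exact this
  have hsum : ((tmix (S.G k) + 1 + H₀ : ℕ) : ℝ) ≤ (n : ℝ) ^ (1 / 2 - S.a) + H₀ := by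
    push_cast at f5' ⊢
    linarith
  refine ⟨?_, ?_, ?_, ?_⟩
  · apply par_mono f6 (by omega)
    have h16 : (16 : ℝ) * ((tmix (S.G k) + 1 + H₀ : ℕ) : ℝ) ≤ (Nat.sqrt n : ℝ) := by linarith
    exact_mod_cast h16
  · have := mul_le_mul_of_nonneg_left hw1 hη.le
    linarith
  · have := mul_le_mul_of_nonneg_left hs hη.le
    linarith
  · have h0 : (1 : ℝ) ≤ η * ((n : ℝ) ^ (1 / 2 - S.a / 8) - 1) := by
      refine le_trans (le_of_eq ?_) f1
      rw [Real.rpow_zero, add_zero]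
    have h5 := mul_le_mul_of_nonneg_left hw1 hη.le
    exact le_trans h0 h5

end Pool.Agent.UQ
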