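import Pool.Agent.UQ.OneStep

/-!
# Q7 BadI : large degree

`psiI v l = 1` if `l = l' ++ [y]` with `y ∈ l'`, `y ≠ lst v l'`. For a walk `X_0 = v, …, X_{b+1}` with `b = 2h`: union over `j`, `1 ≤ j ≤ b - 1`, of `X_{b+1} = X_{b-j}`, `X_{b+1} ≠ X_b`, whose probability is
`ρ_j = ∑_{u ≠ x} pt j x u * K.p u x` (Markov property, homogeneity). `ρ_j ≤ pt (j+1) x x` and, as `pt j x u ≤ 1/D` for `u ≠ x` (induction: `pt (j+1) x u = pt j x u * K.p u u + ∑_{w ≠ u} pt j x w * K.p w u ≤ 1/(2D) + 1/(2D)`),
`ρ_j ≤ (1/D) * ∑_{u ≠ x} K.p u x ≤ 1/(2D)`. Use the second bound for `j < J`, the first one and `HP.cc_tail_le` for `j ≥ J`.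
`badI_hbad`: if `z^|stp γ y| ≠ z z^|γ|` then `y ∈ γ`; not a long hit: `y` is among the last `2h` vertices `l'`.
-/

open Finset Filter Pool.Agent.helper20.HP

namespace Pool.Agent.UQ

variable {V : Type} [Fintype V] [DecidableEq V] {K : HW V} {θ : ℝ} {h : ℕ} {Γ : List V}

noncomputable def psiI (v : V) (l : List V) : ℝ :=
  ind (∃ l' y, l = l' ++ [y] ∧ y ∈ l' ∧ y ≠ lst v l')

/-! ### auxiliary lemmas -/

theorem BadI_mem {V : Type} (v : V) (l : List V) (y : V) (J : ℕ) (hy : y ∈ l.rdrop J) :
    ∃ j ∈ Finset.Ico J l.length, y = lst v (l.take (l.length - j)) := by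
  rw [List.rdrop, List.mem_iff_getElem] at hy
  obtain ⟨i, hi, hy⟩ := hy
  have hi' : i < l.length - J := by
    rw [List.length_take] at hi; omega
  refine ⟨l.length - (i + 1), ?_, ?_⟩
  · rw [Finset.mem_Ico]; omega
  · have h1 : l.length - (l.length - (i + 1)) = i + 1 := by omega
    rw [h1]
    have hil : i < l.length := by omega
    rw [List.getElem_take] at hy
    rw [List.take_succ_eq_append_getElem hil]
    unfold lst
    rw [List.getLastD_eq_getLast?]
    simp [hy]

theorem BadI_term (K : HW V) (b j : ℕ) (hj : j ≤ b) (v : V) (φ : V → V → ℝ) :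
    W K b v (fun l => φ (lst v (l.take (b - j))) (lst v l))
      = W K (b - j) v (fun a => ∑ u, K.pt j (lst v a) u * φ (lst v a) u) := by
  have hb : b = (b - j) + j := by omega
  conv_lhs => rw [hb]
  rw [Pool.Agent.helper20.HP.W_split]
  refine Pool.Agent.helper20.HP.W_congr K _ v ?_
  intro a ha
  rw [← Pool.Agent.helper20.HP.W_lst K j (lst v a) (fun u => φ (lst v a) u)]
  refine Pool.Agent.helper20.HP.W_congr K _ _ ?_
  intro c _
  have h1 : (a ++ c).take ((b - j) + j - j) = a := by
    have : (b - j) + j - j = a.length := by omega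
    rw [this, List.take_left]
  simp only [h1, lst_append]

/-- last step of a word -/
theorem BadI_last (K : HW V) (b : ℕ) (v : V) (f : List V → ℝ) :
    W K (b + 1) v f = W K b v (fun l => ∑ y, K.p (lst v l) y * f (l ++ [y])) := by
  rw [Pool.Agent.helper20.HP.W_split]
  refine Pool.Agent.helper20.HP.W_congr K _ v ?_
  intro a _
  rw [show (1 : ℕ) = 0 + 1 from rfl, Pool.Agent.helper20.HP.W_succ]
  rfl

theorem BadI_pt_le (K : HW V) (hhalf : ∀ x, K.p x x = 1 / 2) {D : ℕ} (hD : 0 < D)
    (hdeg : ∀ x y, x ≠ y → K.p x y ≤ 1 / (2 * (D : ℝ))) (j : ℕ) (x u : V) (hxu : x ≠ u) :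
    K.pt j x u ≤ 1 / (D : ℝ) := by
  have hD' : (0 : ℝ) < D := by exact_mod_cast hD
  induction j with
  | zero =>
    rw [Pool.Agent.helper20.HP.pt_zero, if_neg hxu]
    positivity
  | succ j ih =>
    have h1 : K.pt (j + 1) x u = ∑ w, K.pt j x w * K.p w u := by
      rw [Pool.Agent.helper20.HP.pt_add]
      refine Finset.sum_congr rfl ?_
      intro w _
      congr 1
      rw [show (1 : ℕ) = 0 + 1 from rfl, Pool.Agent.helper20.HP.pt_succ]
      simp [Pool.Agent.helper20.HP.pt_zero]
    rw [h1, ← Finset.add_sum_erase _ _ (Finset.mem_univ u), hhalf u]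
    have h2 : ∑ w ∈ Finset.univ.erase u, K.pt j x w * K.p w u ≤ 1 / (2 * (D : ℝ)) := by
      calc ∑ w ∈ Finset.univ.erase u, K.pt j x w * K.p w u
          ≤ ∑ w ∈ Finset.univ.erase u, K.pt j x w * (1 / (2 * (D : ℝ))) := by
            refine Finset.sum_le_sum ?_
            intro w hw
            refine mul_le_mul_of_nonneg_left (hdeg w u (Finset.ne_of_mem_erase hw)) ?_
            exact Pool.Agent.helper20.HP.pt_nonneg K j x w
        _ ≤ ∑ w, K.pt j x w * (1 / (2 * (D : ℝ))) := by
            refine Finset.sum_le_sum_of_subset_of_nonneg (Finset.erase_subset _ _) ?_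
            intro w _ _
            have := Pool.Agent.helper20.HP.pt_nonneg K j x w
            positivity
        _ = 1 / (2 * (D : ℝ)) := by
            rw [← Finset.sum_mul, Pool.Agent.helper20.HP.pt_sum, one_mul]
    have h3 : K.pt j x u * (1 / 2) ≤ 1 / (D : ℝ) * (1 / 2) := by
      exact mul_le_mul_of_nonneg_right ih (by norm_num)
    have h4 : 1 / (D : ℝ) * (1 / 2) + 1 / (2 * (D : ℝ)) = 1 / (D : ℝ) := by
      field_simp
      norm_num
    linarith

theorem BadI_ret (K : HW V) (j : ℕ) (x : V) :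
    ∑ u, K.pt j x u * K.p u x = cc K (j + 1) := by
  rw [← Pool.Agent.helper20.HP.cc_eq K (j + 1) x, Pool.Agent.helper20.HP.pt_add]
  refine Finset.sum_congr rfl ?_
  intro w _
  congr 1
  rw [show (1 : ℕ) = 0 + 1 from rfl, Pool.Agent.helper20.HP.pt_succ]
  simp [Pool.Agent.helper20.HP.pt_zero]

theorem BadI_R1 (K : HW V) (j : ℕ) (x : V) :
    ∑ u, K.pt j x u * (K.p u x * ind (x ≠ u)) ≤ cc K (j + 1) := by
  rw [← BadI_ret K j x]
  refine Finset.sum_le_sum ?_
  intro u _
  have h1 := Pool.Agent.helper20.HP.pt_nonneg K j x u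
  have h2 := K.nonneg u x
  have h3 := ind_le_one (x ≠ u)
  refine mul_le_mul_of_nonneg_left ?_ h1
  nlinarith

theorem BadI_R2 (K : HW V) (hhalf : ∀ x, K.p x x = 1 / 2) {D : ℕ} (hD : 0 < D)
    (hdeg : ∀ x y, x ≠ y → K.p x y ≤ 1 / (2 * (D : ℝ))) (j : ℕ) (x : V) :
    ∑ u, K.pt j x u * (K.p u x * ind (x ≠ u)) ≤ 1 / (2 * (D : ℝ)) := by
  have hD' : (0 : ℝ) < D := by exact_mod_cast hD
  rw [← Finset.add_sum_erase _ _ (Finset.mem_univ x)]
  have h0 : ind (x ≠ x) = 0 := ind_false (by simp)
  rw [h0, mul_zero, mul_zero, zero_add]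
  have h5 : ∑ u, K.p u x = 1 := by
    rw [← K.sum_one x]
    exact Finset.sum_congr rfl (fun u _ => K.symm u x)
  have h6 : ∑ u ∈ Finset.univ.erase x, K.p u x = 1 / 2 := by
    have := Finset.add_sum_erase Finset.univ (fun u => K.p u x) (Finset.mem_univ x)
    simp only [hhalf] at this
    linarith
  calc ∑ u ∈ Finset.univ.erase x, K.pt j x u * (K.p u x * ind (x ≠ u))
      ≤ ∑ u ∈ Finset.univ.erase x, 1 / (D : ℝ) * K.p u x := by
        refine Finset.sum_le_sum ?_
        intro u hu
        have hxu : x ≠ u := (Finset.ne_of_mem_erase hu).symm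
        rw [ind_true hxu, mul_one]
        exact mul_le_mul_of_nonneg_right (BadI_pt_le K hhalf hD hdeg j x u hxu) (K.nonneg u x)
    _ = 1 / (2 * (D : ℝ)) := by
        rw [← Finset.mul_sum, h6]
        field_simp

theorem BadI_W_const_le (K : HW V) (k : ℕ) (x : V) (f : List V → ℝ) (c : ℝ)
    (hf : ∀ l, f l ≤ c) : W K k x f ≤ c := by
  calc W K k x f ≤ W K k x (fun _ => c) :=
        Pool.Agent.helper20.HP.W_mono K k x (fun l _ => hf l)
    _ = c := Pool.Agent.helper20.HP.W_const K k x c


theorem psiI_le (hP : Par K θ h) (hhalf : ∀ x, K.p x x = 1 / 2) {D : ℕ} (hD : 0 < D)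
    (hdeg : ∀ x y, x ≠ y → K.p x y ≤ 1 / (2 * (D : ℝ))) (J : ℕ) (v : V) :
    W K (2 * h + 1) v (psiI v) ≤ J / (2 * (D : ℝ)) + θ / ((J : ℝ) + 1) := by
  have hD' : (0 : ℝ) < D := by exact_mod_cast hD
  set b := 2 * h with hb
  -- union bound
  have h1 : W K (b + 1) v (psiI v) ≤ ∑ j ∈ Finset.Ico 1 b,
      W K b v (fun l => K.p (lst v l) (lst v (l.take (b - j))) *
        ind (lst v (l.take (b - j)) ≠ lst v l)) := by
    rw [BadI_last]
    rw [← Pool.Agent.helper20.HP.W_sum]
    refine Pool.Agent.helper20.HP.W_mono K b v ?_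
    intro l hl
    have h2 : ∀ y, psiI v (l ++ [y]) ≤ ∑ j ∈ Finset.Ico 1 b,
        (if y = lst v (l.take (b - j)) then ind (lst v (l.take (b - j)) ≠ lst v l) else 0) := by
      intro y
      unfold psiI
      by_cases hy : ∃ l' y', l ++ [y] = l' ++ [y'] ∧ y' ∈ l' ∧ y' ≠ lst v l'
      · rw [ind_true hy]
        obtain ⟨l', y', he, hm, hne⟩ := hy
        have he' := List.append_inj' he rfl
        obtain ⟨rfl, hyy⟩ := he'
        have : y = y' := by simpa using hyy
        subst this
        obtain ⟨j, hj, hyj⟩ := BadI_mem v l y 0 (by simpa [List.rdrop] using hm)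
        rw [hl] at hj hyj
        rw [Finset.mem_Ico] at hj
        have hj0 : j ≠ 0 := by
          rintro rfl
          apply hne
          rw [hyj, Nat.sub_zero, ← hl, List.take_length]
        have hmem : j ∈ Finset.Ico 1 b := by rw [Finset.mem_Ico]; omega
        have hterm : (1 : ℝ) ≤ (if y = lst v (l.take (b - j)) then
            ind (lst v (l.take (b - j)) ≠ lst v l) else 0) := by
          rw [if_pos hyj, ← hyj, ind_true hne]
        refine le_trans hterm ?_
        refine Finset.single_le_sum (f := fun j => (if y = lst v (l.take (b - j)) then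
            ind (lst v (l.take (b - j)) ≠ lst v l) else 0)) ?_ hmem
        intro i _
        split_ifs
        · exact ind_nonneg _
        · exact le_rfl
      · rw [ind_false hy]
        refine Finset.sum_nonneg ?_
        intro i _
        split_ifs
        · exact ind_nonneg _
        · exact le_rfl
    calc ∑ y, K.p (lst v l) y * psiI v (l ++ [y])
        ≤ ∑ y, K.p (lst v l) y * ∑ j ∈ Finset.Ico 1 b,
          (if y = lst v (l.take (b - j)) then ind (lst v (l.take (b - j)) ≠ lst v l) else 0) := by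
          refine Finset.sum_le_sum ?_
          intro y _
          exact mul_le_mul_of_nonneg_left (h2 y) (K.nonneg _ _)
      _ = ∑ j ∈ Finset.Ico 1 b, K.p (lst v l) (lst v (l.take (b - j))) *
        ind (lst v (l.take (b - j)) ≠ lst v l) := by
          simp only [Finset.mul_sum]
          rw [Finset.sum_comm]
          refine Finset.sum_congr rfl ?_
          intro j _
          simp
  -- each term
  have h3 : ∀ j ∈ Finset.Ico 1 b, W K b v (fun l => K.p (lst v l) (lst v (l.take (b - j))) *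
        ind (lst v (l.take (b - j)) ≠ lst v l)) = W K (b - j) v (fun a =>
          ∑ u, K.pt j (lst v a) u * (K.p u (lst v a) * ind (lst v a ≠ u))) := by
    intro j hj
    rw [Finset.mem_Ico] at hj
    exact BadI_term K b j (by omega) v (fun x u => K.p u x * ind (x ≠ u))
  have h4 : ∀ j ∈ Finset.Ico 1 b, W K b v (fun l => K.p (lst v l) (lst v (l.take (b - j))) *
        ind (lst v (l.take (b - j)) ≠ lst v l)) ≤
        (if j < J then 1 / (2 * (D : ℝ)) else 0) + (if J ≤ j then cc K (j + 1) else 0) := by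
    intro j hj
    rw [h3 j hj]
    by_cases hjJ : j < J
    · rw [if_pos hjJ, if_neg (by omega), add_zero]
      exact BadI_W_const_le K _ v _ _ (fun l => BadI_R2 K hhalf hD hdeg j (lst v l))
    · rw [if_neg hjJ, if_pos (by omega), zero_add]
      exact BadI_W_const_le K _ v _ _ (fun l => BadI_R1 K j (lst v l))
  refine h1.trans ((Finset.sum_le_sum h4).trans ?_)
  rw [Finset.sum_add_distrib]
  refine add_le_add ?_ ?_
  · rw [← Finset.sum_filter, Finset.sum_const, nsmul_eq_mul]
    have : ((Finset.Ico 1 b).filter (fun j => j < J)).card ≤ J := by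
      calc ((Finset.Ico 1 b).filter (fun j => j < J)).card ≤ (Finset.range J).card := by
            refine Finset.card_le_card ?_
            intro j hj
            rw [Finset.mem_filter] at hj
            exact Finset.mem_range.2 hj.2
        _ = J := Finset.card_range J
    have h5 : (((Finset.Ico 1 b).filter (fun j => j < J)).card : ℝ) ≤ J := by exact_mod_cast this
    calc (((Finset.Ico 1 b).filter (fun j => j < J)).card : ℝ) * (1 / (2 * (D : ℝ)))
        ≤ J * (1 / (2 * (D : ℝ))) := mul_le_mul_of_nonneg_right h5 (by positivity)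
      _ = J / (2 * (D : ℝ)) := by ring
  · rw [← Finset.sum_filter]
    have hsub : ∑ j ∈ (Finset.Ico 1 b).filter (fun j => J ≤ j), cc K (j + 1)
        ≤ ∑ t ∈ Finset.Ico (J + 1) (b + 1), cc K t := by
      rw [← Finset.sum_Ico_add' (fun t => cc K t) J b 1]
      refine Finset.sum_le_sum_of_subset_of_nonneg ?_ ?_
      · intro j hj
        rw [Finset.mem_filter, Finset.mem_Ico] at hj
        rw [Finset.mem_Ico]; omega
      · intro j _ _
        exact Pool.Agent.helper20.HP.cc_nonneg K _
    have hN : b + 1 ≤ Nat.sqrt (Fintype.card V) + 1 := by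
      have := hP.h_le
      omega
    have h6 := Pool.Agent.helper20.HP.cc_tail_le hP (j := J + 1) (N := b + 1) hN
    have hθ := hP.one_le
    have h7 : θ / (((J + 1 : ℕ) : ℝ) + 1) ≤ θ / ((J : ℝ) + 1) := by
      refine div_le_div_of_nonneg_left (by linarith) (by positivity) ?_
      push_cast
      linarith
    linarith

theorem badI (z : ℂ) : ∀ x ρ l l' y, (x :: ρ).Nodup → (∀ u ∈ x :: ρ, u ∈ Γ) →
      (∀ u ∈ l ++ l' ++ [y], u ∉ Γ) →
      Wk K x (l ++ l' ++ [y]) → l'.length = 2 * h → y ≠ lst x (l ++ l') →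
      z ^ (stp (run (x :: ρ) (l ++ l')) y).length ≠ z * z ^ sl x ρ (l ++ l') →
      ¬ LH (2 * h) x ρ (l ++ l') y → psiI (lst x l) (l' ++ [y]) = 1 := by
  intro x ρ l l' y _ _ _ _ hlen hy hz hLH
  have h1 : y ∈ run (x :: ρ) (l ++ l') := by
    by_contra hn
    apply hz
    unfold stp
    rw [if_neg hn, List.length_cons, pow_succ]
    unfold sl
    ring
  have h2 : y ∈ (x :: (l ++ l')).rtake (2 * h) := by
    by_contra hn
    exact hLH ⟨h1, hn⟩
  have h3 : (x :: (l ++ l')).rtake (2 * h) = l' := by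
    unfold List.rtake
    have : x :: (l ++ l') = (x :: l) ++ l' := rfl
    rw [this, List.length_append, hlen, Nat.add_sub_cancel, List.drop_left]
  rw [h3] at h2
  unfold psiI
  refine ind_true ⟨l', y, rfl, h2, ?_⟩
  rw [← lst_append]
  exact hy

end Pool.Agent.UQ
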