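import Pool.Agent.UQ.OneStep
import Pool.Agent.UQ.BadI

/-!
# Q8 BadII : z = -1, no short odd closed walk

`psiII J v l = 1` if `l = l' ++ [y]` and `y` is in `l'` but not only among its last `J` entries: `y ∈ l'.rdrop J`. Probability at most `∑_{j ≥ J} pt (j+1) ≤ θ/(J+1)` (`X_{b+1} = X_{b-j}`, `J ≤ j ≤ b-1`; `HP.cc_tail_le`).
`badII`: `l ++ l'` avoids `Γ ⊇ x :: ρ`, so `run (x::ρ) (l++l') = run [x] (l++l') ++ ρ` (`HP.run_avoid`); the step is to `y ∉ Γ`, `y ∈ γ`, so `y` is in `run [x] (l++l')`, at index `j ≥ 1` from the tip. Consecutive vertices of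
`run [x] l` are steps of the walk (invariant of `run`: the list is a chain for `fun a b => a ≠ b ∧ 0 < K.p b a`, using the symmetry of `K.p`, as each new vertex is put on top of the previous tip). `|stp γ y| = |γ| - j`; the condition says that `j` is even. So
`y = γ[j], …, γ[0], y` is an odd closed walk with `j + 1` steps, hence `j ≥ J`. By `HP.top_split` with `b = J`, `γ = τ ++ σ`, `|τ| ≤ J`: `y ∈ σ`, so `y ∉ (x :: l ++ l').rtake J`. Not a long hit: `y ∈ (x :: l ++ l').rtake (2h) = l'`. So `y ∈ l'.rdrop J`.
-/

open Finset Filter Pool.Agent.helper20.HP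

namespace Pool.Agent.UQ

variable {V : Type} [Fintype V] [DecidableEq V] {K : HW V} {θ : ℝ} {h : ℕ} {Γ : List V}

/-- there is an odd closed walk (without lazy steps) of length at most `J` -/
def OddCl (K : HW V) (J : ℕ) : Prop :=
  ∃ (v : V) (m : List V), m.length ≤ J ∧ Odd m.length ∧ lst v m = v ∧
    List.IsChain (fun a b => a ≠ b ∧ 0 < K.p a b) (v :: m)

noncomputable def psiII (J : ℕ) (l : List V) : ℝ :=
  ind (∃ l' y, l = l' ++ [y] ∧ y ∈ l'.rdrop J)

theorem psiII_le (hP : Par K θ h) (J : ℕ) (v : V) :
    W K (2 * h + 1) v (psiII J) ≤ θ / ((J : ℝ) + 1) := by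
  set b := 2 * h with hb
  have h1 : W K (b + 1) v (psiII J) ≤ ∑ j ∈ Finset.Ico J b,
      W K b v (fun l => K.p (lst v l) (lst v (l.take (b - j)))) := by
    rw [BadI_last]
    rw [← Pool.Agent.helper20.HP.W_sum]
    refine Pool.Agent.helper20.HP.W_mono K b v ?_
    intro l hl
    have h2 : ∀ y, psiII J (l ++ [y]) ≤ ∑ j ∈ Finset.Ico J b,
        (if y = lst v (l.take (b - j)) then (1 : ℝ) else 0) := by
      intro y
      unfold psiII
      by_cases hy : ∃ l' y', l ++ [y] = l' ++ [y'] ∧ y' ∈ l'.rdrop J
      · rw [ind_true hy]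
        obtain ⟨l', y', he, hm⟩ := hy
        have he' := List.append_inj' he rfl
        obtain ⟨rfl, hyy⟩ := he'
        have : y = y' := by simpa using hyy
        subst this
        obtain ⟨j, hj, hyj⟩ := BadI_mem v l y J hm
        rw [hl] at hj hyj
        have hterm : (1 : ℝ) ≤ (if y = lst v (l.take (b - j)) then (1 : ℝ) else 0) := by
          rw [if_pos hyj]
        refine le_trans hterm ?_
        refine Finset.single_le_sum (f := fun j => (if y = lst v (l.take (b - j)) then
            (1 : ℝ) else 0)) ?_ hj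
        intro i _
        split_ifs
        · exact zero_le_one
        · exact le_rfl
      · rw [ind_false hy]
        refine Finset.sum_nonneg ?_
        intro i _
        split_ifs
        · exact zero_le_one
        · exact le_rfl
    calc ∑ y, K.p (lst v l) y * psiII J (l ++ [y])
        ≤ ∑ y, K.p (lst v l) y * ∑ j ∈ Finset.Ico J b,
          (if y = lst v (l.take (b - j)) then (1 : ℝ) else 0) := by
          refine Finset.sum_le_sum ?_
          intro y _
          exact mul_le_mul_of_nonneg_left (h2 y) (K.nonneg _ _)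
      _ = ∑ j ∈ Finset.Ico J b, K.p (lst v l) (lst v (l.take (b - j))) := by
          simp only [Finset.mul_sum]
          rw [Finset.sum_comm]
          refine Finset.sum_congr rfl ?_
          intro j _
          simp
  have h4 : ∀ j ∈ Finset.Ico J b, W K b v (fun l => K.p (lst v l) (lst v (l.take (b - j))))
      ≤ cc K (j + 1) := by
    intro j hj
    rw [Finset.mem_Ico] at hj
    rw [BadI_term K b j (by omega) v (fun x u => K.p u x)]
    exact BadI_W_const_le K _ v _ _ (fun l => le_of_eq (BadI_ret K j (lst v l)))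
  refine h1.trans ((Finset.sum_le_sum h4).trans ?_)
  rw [Finset.sum_Ico_add' (fun t => cc K t) J b 1]
  have hN : b + 1 ≤ Nat.sqrt (Fintype.card V) + 1 := by
    have := hP.h_le
    omega
  have h6 := Pool.Agent.helper20.HP.cc_tail_le hP (j := J + 1) (N := b + 1) hN
  have hθ := hP.one_le
  have h7 : θ / (((J + 1 : ℕ) : ℝ) + 1) ≤ θ / ((J : ℝ) + 1) := by
    refine div_le_div_of_nonneg_left (by linarith) (by positivity) ?_
    push_cast
    linarith
  linarith

/-- consecutive vertices of the state are steps of the walk -/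
theorem BadII_chain (K : HW V) : ∀ (l : List V) (t : V) (γ : List V),
    List.IsChain (fun a b => a ≠ b ∧ 0 < K.p b a) (t :: γ) → Wk K t l →
    List.IsChain (fun a b => a ≠ b ∧ 0 < K.p b a) (run (t :: γ) l) := by
  intro l
  induction l with
  | nil => intro t γ hc _; exact hc
  | cons y l ih =>
    intro t γ hc hw
    have hw' : 0 < K.p t y ∧ Wk K y l := by
      unfold Wk at hw ⊢
      rwa [List.isChain_cons_cons] at hw
    rw [show run (t :: γ) (y :: l) = run (stp (t :: γ) y) l from rfl]
    obtain ⟨τ, hτ⟩ : ∃ τ, stp (t :: γ) y = y :: τ := by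
      obtain ⟨τ, hτ⟩ := run_head t γ [y]
      exact ⟨τ, hτ⟩
    rw [hτ]
    refine ih y τ ?_ hw'.2
    rw [← hτ]
    unfold stp
    split_ifs with hm
    · exact hc.suffix (List.dropWhile_suffix _)
    · rw [List.isChain_cons_cons]
      refine ⟨⟨?_, hw'.1⟩, hc⟩
      rintro rfl
      exact hm (List.mem_cons_self)

theorem BadII_drop {V : Type} [DecidableEq V] : ∀ (γ : List V) (j : ℕ) (y : V), γ.Nodup →
    ∀ hj : j < γ.length, γ[j] = y → γ.dropWhile (fun z => decide (z ≠ y)) = γ.drop j := by
  intro γ
  induction γ with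
  | nil => intro j y _ hj; exact absurd hj (by simp)
  | cons a γ ih =>
    intro j y hnd hj hy
    rw [List.nodup_cons] at hnd
    cases j with
    | zero =>
      have hay : a = y := by simpa using hy
      rw [List.dropWhile_cons, hay]
      simp
    | succ j =>
      have hj' : j < γ.length := by simpa using hj
      have hy' : γ[j] = y := by simpa using hy
      have hay : a ≠ y := by
        rintro rfl
        exact hnd.1 (hy' ▸ List.getElem_mem hj')
      rw [List.dropWhile_cons, if_pos (by simpa using hay)]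
      rw [ih j y hnd.2 hj' hy']
      rfl

theorem badII {J : ℕ} (hJ : J ≤ 2 * h) (hodd : ¬ OddCl K J) : ∀ x ρ l l' y, (x :: ρ).Nodup →
      (∀ u ∈ x :: ρ, u ∈ Γ) → (∀ u ∈ l ++ l' ++ [y], u ∉ Γ) →
      Wk K x (l ++ l' ++ [y]) → l'.length = 2 * h → y ≠ lst x (l ++ l') →
      (-1 : ℂ) ^ (stp (run (x :: ρ) (l ++ l')) y).length ≠ (-1) * (-1) ^ sl x ρ (l ++ l') →
      ¬ LH (2 * h) x ρ (l ++ l') y → psiII J (l' ++ [y]) = 1 := by
  intro x ρ l l' y hnd hsub hav hwk hlen hne hz hLH
  -- the step hits the state
  have hyγ : y ∈ run (x :: ρ) (l ++ l') := by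
    by_contra hn
    apply hz
    unfold stp
    rw [if_neg hn, List.length_cons, pow_succ]
    unfold sl
    ring
  have hmem : y ∈ l' := by
    have h2 : y ∈ (x :: (l ++ l')).rtake (2 * h) := by
      by_contra hn
      exact hLH ⟨hyγ, hn⟩
    have h3 : (x :: (l ++ l')).rtake (2 * h) = l' := by
      unfold List.rtake
      have : x :: (l ++ l') = (x :: l) ++ l' := rfl
      rw [this, List.length_append, hlen, Nat.add_sub_cancel, List.drop_left]
    rwa [h3] at h2
  have hγnd : (run (x :: ρ) (l ++ l')).Nodup := run_nodup hnd _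
  have hsplit : run (x :: ρ) (l ++ l') = run [x] (l ++ l') ++ ρ := by
    refine run_avoid x ρ (l ++ l') ?_
    intro u hu hρ
    exact hav u (List.mem_append_left _ hu) (hsub u (List.mem_cons_of_mem _ hρ))
  have hyρ : y ∉ ρ := fun hρ =>
    hav y (by simp) (hsub y (List.mem_cons_of_mem _ hρ))
  have hyδ : y ∈ run [x] (l ++ l') := by
    rw [hsplit, List.mem_append] at hyγ
    exact hyγ.resolve_right hyρ
  set δ := run [x] (l ++ l') with hδ
  obtain ⟨τ0, hτ0⟩ := run_head x [] (l ++ l')
  rw [← hδ] at hτ0
  obtain ⟨j, hj, hyj⟩ := List.mem_iff_getElem.1 hyδ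
  -- the chain
  have hwk' : Wk K x (l ++ l') ∧ 0 < K.p (lst x (l ++ l')) y := by
    have h1 : List.IsChain (fun a b => 0 < K.p a b) ((x :: (l ++ l')) ++ [y]) := hwk
    rw [List.isChain_append] at h1
    refine ⟨h1.1, ?_⟩
    refine h1.2.2 (lst x (l ++ l')) ?_ y (by simp)
    unfold lst
    rw [List.getLastD_eq_getLast?, List.getLast?_cons]
    simp
  have hch : List.IsChain (fun a b => a ≠ b ∧ 0 < K.p b a) δ := by
    rw [hδ]
    exact BadII_chain K (l ++ l') x [] (by simp) hwk'.1
  -- length of the new state
  have hj1 : j < (run (x :: ρ) (l ++ l')).length := by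
    rw [hsplit, List.length_append]; omega
  have hyj1 : (run (x :: ρ) (l ++ l'))[j] = y := by
    rw [← hyj]
    simp only [hsplit]
    exact List.getElem_append_left hj
  have hstp : (stp (run (x :: ρ) (l ++ l')) y).length = (run (x :: ρ) (l ++ l')).length - j := by
    unfold stp
    rw [if_pos hyγ, BadII_drop _ j y hγnd hj1 hyj1, List.length_drop]
  -- `j` is even
  have heven : Even j := by
    by_contra hodd'
    rw [Nat.not_even_iff_odd] at hodd'
    apply hz
    rw [hstp]
    unfold sl
    obtain ⟨k, hk⟩ : ∃ k, (run (x :: ρ) (l ++ l')).length = k + j :=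
      ⟨(run (x :: ρ) (l ++ l')).length - j, by omega⟩
    rw [hk, Nat.add_sub_cancel, pow_add, hodd'.neg_one_pow]
    ring
  -- the odd closed walk
  have hjJ : J ≤ j := by
    by_contra hlt
    apply hodd
    refine ⟨y, (δ.take j).reverse ++ [y], ?_, ?_, ?_, ?_⟩
    · rw [List.length_append, List.length_reverse, List.length_take]
      simp only [List.length_cons, List.length_nil]
      omega
    · rw [List.length_append, List.length_reverse, List.length_take, min_eq_left hj.le]
      simp only [List.length_cons, List.length_nil]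
      exact heven.add_one
    · exact lst_concat _ _ _
    · have h1 : y :: ((δ.take j).reverse ++ [y]) = (δ.take (j + 1)).reverse ++ [y] := by
        rw [List.take_succ_eq_append_getElem hj, List.reverse_append, hyj]
        rfl
      rw [h1, List.isChain_append, List.isChain_reverse]
      refine ⟨?_, by simp, ?_⟩
      · refine List.IsChain.imp ?_ (hch.take (j + 1))
        intro a b hab
        exact ⟨hab.1.symm, hab.2⟩
      · intro a ha c hc
        rw [List.getLast?_reverse, hτ0] at ha
        simp at ha
        simp at hc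
        subst hc
        rw [← ha]
        exact ⟨hne.symm, hwk'.2⟩
  -- location of `y`
  obtain ⟨τ, σ, hts, hτl, hσ, _⟩ := top_split J x ρ (l ++ l') hnd
  have hyσ : y ∈ σ := by
    have h1 : y ∉ τ := by
      intro hyτ
      obtain ⟨i, hi, hyi⟩ := List.mem_iff_getElem.1 hyτ
      have hi1 : i < (run (x :: ρ) (l ++ l')).length := by
        rw [hts, List.length_append]; omega
      have hyi1 : (run (x :: ρ) (l ++ l'))[i] = y := by
        rw [← hyi]
        simp only [hts]
        exact List.getElem_append_left hi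
      have : i = j := by
        exact (List.Nodup.getElem_inj_iff hγnd (hi := hi1) (hj := hj1)).1 (hyi1.trans hyj1.symm)
      omega
    rw [hts, List.mem_append] at hyγ
    exact hyγ.resolve_left h1
  have hyJ := hσ y hyσ
  have hrt : (x :: (l ++ l')).rtake J = l'.rtake J := by
    unfold List.rtake
    have : x :: (l ++ l') = (x :: l) ++ l' := rfl
    rw [this, List.length_append]
    have h1 : (x :: l).length + l'.length - J = (x :: l).length + (l'.length - J) := by omega
    rw [h1, List.drop_append]
    simp
  rw [hrt] at hyJ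
  have hyr : y ∈ l'.rdrop J := by
    have h1 : l'.rdrop J ++ l'.rtake J = l' := by simp [List.rdrop, List.rtake]
    rw [← h1, List.mem_append] at hmem
    exact hmem.resolve_right hyJ
  unfold psiII
  exact ind_true ⟨l', y, rfl, hyr⟩

end Pool.Agent.UQ
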