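import Mathlib
import Pool.Agent.helper20.HP.Defs

/-!
# Unit scale part (LOCK) of MP_5ae64c_pr : definitions

Part A: finite homogeneous kernels `K : HW V` (definitions of helper20: `W`, `run`, `lst`, ...).
Part B: labelled regular graphs `nb : V → Fin D → V` (possibly infinite), letters, infinite walks.
-/

open Finset Filter MeasureTheory
open Pool.Agent.helper20.HP

namespace Pool.Agent.UQ

/-- real valued indicator of a proposition -/
noncomputable def ind (P : Prop) : ℝ := by classical exact if P then 1 else 0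

/-! ### Part A: finite kernels -/

section A

variable {V : Type} [Fintype V] [DecidableEq V]

/-- uniform average -/
noncomputable def avg (f : V → ℝ) : ℝ := (∑ v, f v) / (Fintype.card V : ℝ)

/-- complex valued version of `W` -/
noncomputable def WC (K : HW V) : ℕ → V → (List V → ℂ) → ℂ
  | 0, _, f => f []
  | k + 1, x, f => ∑ y, (K.p x y : ℂ) * WC K k y (fun l => f (y :: l))

/-- state (loop erasure, head = tip) of a whole path `x₀, x₁, …` -/
def LEs : List V → List V
  | [] => []
  | x :: l => run [x] l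

/-- Cesaro averages of `z ^ level` over the future of a state -/
noncomputable def FN (K : HW V) (z : ℂ) (N : ℕ) : List V → ℂ
  | [] => 0
  | h :: t => (N : ℂ)⁻¹ * ∑ s ∈ range N, WC K s h (fun l => z ^ (run (h :: t) l).length)

/-- `FN` of a path -/
noncomputable def FP (K : HW V) (z : ℂ) (N : ℕ) (p : List V) : ℂ := FN K z N (LEs p)

/-- normalised version `conj (z ^ level) * FP` -/
noncomputable def cF (K : HW V) (z : ℂ) (N : ℕ) (p : List V) : ℂ :=
  (starRingEnd ℂ) (z ^ (LEs p).length) * FP K z N p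

/-- second moment of `FP` after `R` steps -/
noncomputable def aR (K : HW V) (z : ℂ) (N R : ℕ) : ℝ :=
  avg (fun x => W K R x (fun l => ‖FP K z N (x :: l)‖ ^ 2))

/-- first moment of `FP` after `R` steps -/
noncomputable def mR (K : HW V) (z : ℂ) (N R : ℕ) : ℝ :=
  avg (fun x => W K R x (fun l => ‖FP K z N (x :: l)‖))

/-- probability that a path with `R + l + N` steps has no range cut at a time `c ∈ (R, R + l]` -/
noncomputable def bad (K : HW V) (R l N : ℕ) : ℝ :=
  avg (fun x => W K (R + l + N) x (fun m =>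
    ind (¬ ∃ c, R < c ∧ c ≤ R + l ∧ List.Disjoint ((x :: m).take c) ((x :: m).drop c))))

/-- bound for the `l` step oscillation of `FP` after `R` steps -/
noncomputable def eta (K : HW V) (z : ℂ) (N R l : ℕ) : ℝ :=
  Real.sqrt (aR K z N (R + l) - aR K z N R + 4 * (l : ℝ) / (N : ℝ))

/-- total error of one comparison -/
noncomputable def EB (K : HW V) (z : ℂ) (N R l j : ℕ) : ℝ :=
  eta K z N R j + eta K z N (R + j) l + 2 * bad K (R + j) l N

/-- pointwise error: past `F` (a walk from its head, to be read backwards), then the path `α`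
(started at the head of `F`), then the future `B` (started at the last vertex of `α`).
Here `F`, `α`, `B` are whole paths (including their first vertex). -/
noncomputable def tau (K : HW V) (z : ℂ) (N : ℕ) (F α B : List V) : ℝ :=
  ‖FP K z N (F.reverse ++ α.tail) - FP K z N F.reverse‖
  + ‖FP K z N (F.reverse ++ α.tail ++ B.tail) - FP K z N (F.reverse ++ α.tail)‖
  + ‖cF K z N (F.reverse ++ α.tail ++ B.tail) - cF K z N B‖

/-- one sided (three arm type) local cut probability: two independent walks of `r` steps from `x`,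
the second one avoids the first one after time `0` -/
noncomputable def qr (K : HW V) (r : ℕ) (x : V) : ℝ :=
  W K r x (fun a => W K r x (fun b => ind (∀ u ∈ b, u ∉ x :: a)))

end A

/-- configuration 1: pasts `v::a`, `y::c` disjoint; futures `b` (from `v`), `e` (from `y`) avoid both
pasts except for their own starting point -/
def cfg1 {V : Type} (v y : V) (a c b e : List V) : Prop :=
  (∀ u ∈ v :: a, u ∉ y :: c) ∧ (∀ u ∈ b, u ∈ v :: a ∨ u ∈ y :: c → u = v)
    ∧ (∀ u ∈ e, u ∈ v :: a ∨ u ∈ y :: c → u = y)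

/-- configuration 2: `v :: α` is a simple closed path, `y` a vertex, `y :: f` a past meeting the cycle only
in `y`, `b` a future from `v` which avoids the cycle and the past -/
def cfg2 {V : Type} (v y : V) (α f b : List V) : Prop :=
  lst v α = v ∧ (v :: α).dropLast.Nodup ∧ (∀ u ∈ y :: f, u ∈ v :: α → u = y)
    ∧ (∀ u ∈ b, u ∈ v :: α ∨ u ∈ y :: f → u = v)

section A2

variable {V : Type} [Fintype V] [DecidableEq V]

/-- probability of configuration 1 -/
noncomputable def kap1 (K : HW V) (R l : ℕ) (v : V) : ℝ :=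
  ∑ y, K.p v y * W K R v (fun a => W K R y (fun c => W K l v (fun b => W K l y (fun e =>
    ind (cfg1 v y a c b e)))))

/-- probability of configuration 2, `g` = length of the cycle, `i` = position of `y` on it -/
noncomputable def kap2 (K : HW V) (g i R l : ℕ) (v : V) : ℝ :=
  W K g v (fun α => W K R ((v :: α).getD i v) (fun f => W K l v (fun b =>
    ind (cfg2 v ((v :: α).getD i v) α f b))))

end A2

/-! ### Part B: labelled graphs -/

/-- letters: `(true, i)` = step to the `i`-th neighbour, `(false, i)` = stay -/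
abbrev Lt (D : ℕ) : Type := Bool × Fin D

section B

variable {V : Type} {D : ℕ}

/-- one lazy step -/
def mv (nb : V → Fin D → V) (v : V) (l : Lt D) : V := if l.1 then nb v l.2 else v

/-- end point of the path from `v` with word `w` -/
def endp (nb : V → Fin D → V) : V → List (Lt D) → V
  | v, [] => v
  | v, l :: w => endp nb (mv nb v l) w

/-- regular simple graph with neighbours labelled by `Fin D` -/
structure Reg (nb : V → Fin D → V) : Prop where
  inj : ∀ v, Function.Injective (nb v)
  symm : ∀ v i, ∃ j, nb (nb v i) j = v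
  noloop : ∀ v i, nb v i ≠ v

def Adj (nb : V → Fin D → V) (x y : V) : Prop := ∃ i, nb x i = y

def IsAut (nb : V → Fin D → V) (φ : V ≃ V) : Prop := ∀ x y, Adj nb x y ↔ Adj nb (φ x) (φ y)

/-- vertex transitivity -/
def Tra (nb : V → Fin D → V) : Prop := ∀ x y, ∃ φ : V ≃ V, IsAut nb φ ∧ φ x = y

/-- connectedness -/
def Cnn (nb : V → Fin D → V) : Prop := ∀ x y, Relation.ReflTransGen (Adj nb) x y

/-- expectation over the `k` vertices following `x` in the lazy walk (same convention as `W`) -/
noncomputable def Ex (nb : V → Fin D → V) : ℕ → V → (List V → ℝ) → ℝ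
  | 0, _, f => f []
  | k + 1, x, f => (2 * (D : ℝ))⁻¹ * ∑ l : Lt D, Ex nb k (mv nb x l) (fun m => f (mv nb x l :: m))

/-- `t` step transition probabilities -/
noncomputable def pk (nb : V → Fin D → V) (t : ℕ) (x y : V) : ℝ :=
  Ex nb t x (fun m => ind (lst x m = y))

/-- `kap1` for labelled graphs -/
noncomputable def kp1 (nb : V → Fin D → V) (R l : ℕ) (v : V) : ℝ :=
  (2 * (D : ℝ))⁻¹ * ∑ s : Lt D, Ex nb R v (fun a => Ex nb R (mv nb v s) (fun c =>
    Ex nb l v (fun b => Ex nb l (mv nb v s) (fun e => ind (cfg1 v (mv nb v s) a c b e)))))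

/-- `kap2` for labelled graphs -/
noncomputable def kp2 (nb : V → Fin D → V) (g i R l : ℕ) (v : V) : ℝ :=
  Ex nb g v (fun α => Ex nb R ((v :: α).getD i v) (fun f => Ex nb l v (fun b =>
    ind (cfg2 v ((v :: α).getD i v) α f b))))

/-- prepend a letter -/
def consW (l : Lt D) (ω : ℕ → Lt D) : ℕ → Lt D
  | 0 => l
  | t + 1 => ω t

/-- prepend a word -/
def appW (w : List (Lt D)) (ω : ℕ → Lt D) : ℕ → Lt D := w.foldr consW ω

/-- drop `k` letters -/
def dropW (k : ℕ) (ω : ℕ → Lt D) : ℕ → Lt D := fun t => ω (k + t)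

/-- the infinite walk from `v` with letters `ω` -/
def Xi (nb : V → Fin D → V) (v : V) (ω : ℕ → Lt D) : ℕ → V
  | 0 => v
  | t + 1 => mv nb (Xi nb v ω t) (ω t)

/-- the letters are i.i.d. uniform under `μ` (self similar form) -/
structure LM (μ : Measure (ℕ → Lt D)) : Prop where
  prob : IsProbabilityMeasure μ
  cons : ∀ S : Set (ℕ → Lt D), MeasurableSet S →
    μ S = (2 * (D : ENNReal))⁻¹ * ∑ l : Lt D, μ (consW l ⁻¹' S)

/-- walks from `v` avoid `R` forever with positive probability -/
def Esc (nb : V → Fin D → V) (μ : Measure (ℕ → Lt D)) (R : Set V) (v : V) : Prop :=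
  0 < μ {ω | ∀ t, Xi nb v ω t ∉ R}

/-- `x` has a neighbour from which walks avoid `R` forever with positive probability -/
def Vis (nb : V → Fin D → V) (μ : Measure (ℕ → Lt D)) (R : Set V) (x : V) : Prop :=
  ∃ y, Adj nb x y ∧ Esc nb μ R y

/-- walks visit `R` only finitely often -/
def Thin (nb : V → Fin D → V) (μ : Measure (ℕ → Lt D)) (R : Set V) : Prop :=
  ∀ v, ∀ᵐ ω ∂μ, {t | Xi nb v ω t ∈ R}.Finite

/-- the set `S` is connected (as an induced subgraph; the empty set is connected) -/
def ConIn (nb : V → Fin D → V) (S : Set V) : Prop :=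
  ∀ a ∈ S, ∀ b ∈ S, Relation.ReflTransGen (fun x y => Adj nb x y ∧ y ∈ S) a b

/-- connected set containing a tail of the sequence `A` -/
def Half (nb : V → Fin D → V) (S : Set V) (A : ℕ → V) : Prop :=
  ConIn nb S ∧ ∃ k, ∀ t, k ≤ t → A t ∈ S

/-- lazy walk, visiting every vertex finitely often -/
def TrWalk (nb : V → Fin D → V) (A : ℕ → V) : Prop :=
  (∀ t, A (t + 1) = A t ∨ Adj nb (A t) (A (t + 1))) ∧ ∀ x, {t | A t = x}.Finite

/-- two disjoint halves `HA`, `HC` joined by the simple path `x 0, …, x j`, with both ends visible -/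
structure Cfg (nb : V → Fin D → V) (μ : Measure (ℕ → Lt D)) (A C : ℕ → V) (HA HC : Set V) (x : ℕ → V)
    (j : ℕ) : Prop where
  hA : Half nb HA A
  hC : Half nb HC C
  dis : Disjoint HA HC
  adj : ∀ s, s < j → Adj nb (x s) (x (s + 1))
  inj : ∀ s t, s ≤ j → t ≤ j → x s = x t → s = t
  xA : ∀ s, s ≤ j → x s ∉ HA
  xC : ∀ s, s ≤ j → x s ∉ HC
  endA : ∃ a ∈ HA, Adj nb (x 0) a
  endC : ∃ c ∈ HC, Adj nb (x j) c
  vis0 : Vis nb μ (HA ∪ HC ∪ {u | ∃ s, s ≤ j ∧ x s = u}) (x 0)
  visj : Vis nb μ (HA ∪ HC ∪ {u | ∃ s, s ≤ j ∧ x s = u}) (x j)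

/-- a half `H` attached to the set `Z` by the simple path `x 0 ∈ Z, …, x l`, with visible `x l` -/
structure Cf3 (nb : V → Fin D → V) (μ : Measure (ℕ → Lt D)) (C : ℕ → V) (Z H : Set V) (x : ℕ → V)
    (l : ℕ) : Prop where
  hC : Half nb H C
  dis : Disjoint Z H
  x0 : x 0 ∈ Z
  xZ : ∀ s, 0 < s → s ≤ l → x s ∉ Z
  xH : ∀ s, s ≤ l → x s ∉ H
  adj : ∀ s, s < l → Adj nb (x s) (x (s + 1))
  inj : ∀ s t, s ≤ l → t ≤ l → x s = x t → s = t
  endC : ∃ c ∈ H, Adj nb (x l) c
  vis : Vis nb μ (Z ∪ H ∪ {u | ∃ s, s ≤ l ∧ x s = u}) (x l)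

/-- summability of the Green function with weight `t + 1` -/
def Smb (nb : V → Fin D → V) (θ : ℝ) : Prop :=
  ∀ (x : V) (T : ℕ), ∑ t ∈ range T, ((t : ℝ) + 1) * pk nb t x x ≤ θ

/-- standing assumptions on the infinite graph -/
structure GInf (nb : V → Fin D → V) (θ : ℝ) : Prop where
  reg : Reg nb
  tra : Tra nb
  cnn : Cnn nb
  smb : Smb nb θ
  deg : 3 ≤ D
  infV : Infinite V

end B

end Pool.Agent.UQ
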