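import Pool.Agent.UQ.Base

/-!
# B15 E0 : boundaries of finite sets in an infinite transitive graph of degree ≥ 3 have at least 3 points

`∂W = {u ∉ W | ∃ w ∈ W, Adj w u}` (finite). `|∂W| ≥ 1` for finite nonempty `W` (connected, infinite).
Let `k` be the minimum of `|∂W|`, suppose `k ≤ 2`, and let `a` be the minimum of `|W|` among the finite nonempty `W` with
`|∂W| = k`; an ATOM is a `W` with `|∂W| = k`, `|W| = a`. Submodularity shows that two atoms which meet are equal; automorphisms map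
atoms to atoms, so every vertex lies in an atom. Take an atom `A`, a point of `∂A` and its atom `B`, disjoint from `A`; opposite corners
(`|∂(A \ N[B])| + |∂(B \ N[A])| ≤ |∂A| + |∂B|`) give `A ⊆ ∂B` or `B ⊆ ∂A`, so `a ≤ k ≤ 2`. The cases `a = 1, 2` are done by hand.
-/

open Finset

namespace Pool.Agent.UQ

variable {V : Type} {D : ℕ} {nb : V → Fin D → V}

section E0aux

open Classical

/-- vertex boundary of a finite set -/
noncomputable def E0_dN (nb : V → Fin D → V) (W : Finset V) : Finset V :=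
  (W.biUnion (fun w => Finset.univ.image (nb w))) \ W

theorem E0_mem {W : Finset V} {u : V} :
    u ∈ E0_dN nb W ↔ u ∉ W ∧ ∃ w ∈ W, Adj nb w u := by
  unfold E0_dN Adj
  simp only [Finset.mem_sdiff, Finset.mem_biUnion, Finset.mem_image, Finset.mem_univ, true_and]
  tauto

theorem E0_symm (hr : Reg nb) {x y : V} (h : Adj nb x y) : Adj nb y x := by
  obtain ⟨i, rfl⟩ := h
  exact hr.symm x i

theorem E0_irr (hr : Reg nb) {x : V} (h : Adj nb x x) : False := by
  obtain ⟨i, hi⟩ := h
  exact hr.noloop x i hi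

/-- the boundary of a finite nonempty set is nonempty -/
theorem E0_ne (hc : Cnn nb) [Infinite V] {W : Finset V} (hW : W.Nonempty) :
    (E0_dN nb W).Nonempty := by
  by_contra hcon
  rw [Finset.not_nonempty_iff_eq_empty] at hcon
  obtain ⟨w, hw⟩ := hW
  have key : ∀ y, Relation.ReflTransGen (Adj nb) w y → y ∈ W := by
    intro y hy
    induction hy with
    | refl => exact hw
    | tail _ hab ih =>
      by_contra hn
      have : _ ∈ E0_dN nb W := E0_mem.2 ⟨hn, _, ih, hab⟩
      rw [hcon] at this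
      simp at this
  have : (Set.univ : Set V).Finite := W.finite_toSet.subset (fun y _ => key y (hc w y))
  exact Set.infinite_univ this

/-- submodularity -/
theorem E0_sub (A B : Finset V) :
    (E0_dN nb (A ∩ B)).card + (E0_dN nb (A ∪ B)).card
      ≤ (E0_dN nb A).card + (E0_dN nb B).card := by
  have e1 : (E0_dN nb (A ∩ B)).card + (A ∩ B).card = ((E0_dN nb (A ∩ B)) ∪ (A ∩ B)).card := by
    rw [Finset.card_union_of_disjoint]
    rw [Finset.disjoint_left]; intro x hx hx'
    exact (E0_mem.1 hx).1 hx'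
  have e2 : (E0_dN nb (A ∪ B)).card + (A ∪ B).card = ((E0_dN nb (A ∪ B)) ∪ (A ∪ B)).card := by
    refine (Finset.card_union_of_disjoint ?_).symm
    rw [Finset.disjoint_left]; intro x hx hx'
    exact (E0_mem.1 hx).1 hx'
  have e3 : (E0_dN nb A).card + A.card = ((E0_dN nb A) ∪ A).card := by
    rw [Finset.card_union_of_disjoint]
    rw [Finset.disjoint_left]; intro x hx hx'
    exact (E0_mem.1 hx).1 hx'
  have e4 : (E0_dN nb B).card + B.card = ((E0_dN nb B) ∪ B).card := by
    rw [Finset.card_union_of_disjoint]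
    rw [Finset.disjoint_left]; intro x hx hx'
    exact (E0_mem.1 hx).1 hx'
  have e5 : (A ∪ B).card + (A ∩ B).card = A.card + B.card := Finset.card_union_add_card_inter A B
  have e6 := Finset.card_union_add_card_inter ((E0_dN nb A) ∪ A) ((E0_dN nb B) ∪ B)
  have s1 : (E0_dN nb (A ∪ B)) ∪ (A ∪ B) ⊆ ((E0_dN nb A) ∪ A) ∪ ((E0_dN nb B) ∪ B) := by
    intro x hx
    simp only [Finset.mem_union, E0_mem] at hx ⊢
    rcases hx with ⟨hx, w, hw, hwx⟩ | hx | hx
    · rcases hw with hw | hw
      · left; by_cases hA : x ∈ A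
        · right; exact hA
        · left; exact ⟨hA, w, hw, hwx⟩
      · right; by_cases hB : x ∈ B
        · right; exact hB
        · left; exact ⟨hB, w, hw, hwx⟩
    · left; right; exact hx
    · right; right; exact hx
  have s2 : (E0_dN nb (A ∩ B)) ∪ (A ∩ B) ⊆ ((E0_dN nb A) ∪ A) ∩ ((E0_dN nb B) ∪ B) := by
    intro x hx
    simp only [Finset.mem_union, Finset.mem_inter, E0_mem] at hx ⊢
    rcases hx with ⟨hx, w, hw, hwx⟩ | hx
    · constructor
      · by_cases hA : x ∈ A
        · right; exact hA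
        · left; exact ⟨hA, w, hw.1, hwx⟩
      · by_cases hB : x ∈ B
        · right; exact hB
        · left; exact ⟨hB, w, hw.2, hwx⟩
    · exact ⟨Or.inr hx.1, Or.inr hx.2⟩
  have c1 := Finset.card_le_card s1
  have c2 := Finset.card_le_card s2
  omega

/-- opposite corners -/
theorem E0_opp (hr : Reg nb) {A B : Finset V} (hAB : Disjoint A B) :
    (E0_dN nb (A \ E0_dN nb B)).card + (E0_dN nb (B \ E0_dN nb A)).card
      ≤ (E0_dN nb A).card + (E0_dN nb B).card := by
  have hd : ∀ x, x ∈ A → x ∈ B → False := fun x h1 h2 => Finset.disjoint_left.1 hAB h1 h2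
  have s1 : E0_dN nb (A \ E0_dN nb B) ⊆ (E0_dN nb A \ B) ∪ (A ∩ E0_dN nb B) := by
    intro x hx
    obtain ⟨hx, w, hw, hwx⟩ := E0_mem.1 hx
    rw [Finset.mem_sdiff] at hw
    simp only [Finset.mem_union, Finset.mem_sdiff, Finset.mem_inter]
    by_cases hA : x ∈ A
    · right
      refine ⟨hA, ?_⟩
      by_contra hn
      exact hx (Finset.mem_sdiff.2 ⟨hA, hn⟩)
    · left
      refine ⟨E0_mem.2 ⟨hA, w, hw.1, hwx⟩, ?_⟩
      intro hB
      exact hw.2 (E0_mem.2 ⟨fun h => hd w hw.1 h, x, hB, E0_symm hr hwx⟩)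
  have s2 : E0_dN nb (B \ E0_dN nb A) ⊆ (E0_dN nb B \ A) ∪ (B ∩ E0_dN nb A) := by
    intro x hx
    obtain ⟨hx, w, hw, hwx⟩ := E0_mem.1 hx
    rw [Finset.mem_sdiff] at hw
    simp only [Finset.mem_union, Finset.mem_sdiff, Finset.mem_inter]
    by_cases hB : x ∈ B
    · right
      refine ⟨hB, ?_⟩
      by_contra hn
      exact hx (Finset.mem_sdiff.2 ⟨hB, hn⟩)
    · left
      refine ⟨E0_mem.2 ⟨hB, w, hw.1, hwx⟩, ?_⟩
      intro hA
      exact hw.2 (E0_mem.2 ⟨fun h => hd w h hw.1, x, hA, E0_symm hr hwx⟩)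
  have c1 := (Finset.card_le_card s1).trans (Finset.card_union_le _ _)
  have c2 := (Finset.card_le_card s2).trans (Finset.card_union_le _ _)
  have c3 : (E0_dN nb A \ B).card + (B ∩ E0_dN nb A).card = (E0_dN nb A).card := by
    rw [Finset.inter_comm]; exact Finset.card_sdiff_add_card_inter _ _
  have c4 : (E0_dN nb B \ A).card + (A ∩ E0_dN nb B).card = (E0_dN nb B).card := by
    rw [Finset.inter_comm]; exact Finset.card_sdiff_add_card_inter _ _
  omega

/-- atoms -/
def E0_Atom (nb : V → Fin D → V) (k a : ℕ) (W : Finset V) : Prop :=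
  W.Nonempty ∧ (E0_dN nb W).card = k ∧ W.card = a

theorem E0_eq {k a : ℕ} (hk : ∀ W : Finset V, W.Nonempty → k ≤ (E0_dN nb W).card)
    (ha : ∀ W : Finset V, W.Nonempty → (E0_dN nb W).card = k → a ≤ W.card)
    {A B : Finset V} (hA : E0_Atom nb k a A) (hB : E0_Atom nb k a B) (hAB : ¬ Disjoint A B) :
    A = B := by
  have hne : (A ∩ B).Nonempty := by
    rw [Finset.not_disjoint_iff] at hAB
    obtain ⟨x, h1, h2⟩ := hAB
    exact ⟨x, Finset.mem_inter.2 ⟨h1, h2⟩⟩
  have hne' : (A ∪ B).Nonempty := hne.mono (fun x hx => Finset.mem_union_left _ (Finset.mem_inter.1 hx).1)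
  have h1 := hk _ hne
  have h2 := hk _ hne'
  have h3 := E0_sub (nb := nb) A B
  rw [hA.2.1, hB.2.1] at h3
  have h4 : (E0_dN nb (A ∩ B)).card = k := by omega
  have h5 := ha _ hne h4
  have h6 : A ∩ B = A := Finset.eq_of_subset_of_card_le Finset.inter_subset_left (by rw [hA.2.2]; exact h5)
  have h7 : A ∩ B = B := Finset.eq_of_subset_of_card_le Finset.inter_subset_right (by rw [hB.2.2]; exact h5)
  rw [← h6, h7]

theorem E0_map {φ : V ≃ V} (hφ : IsAut nb φ) (W : Finset V) :
    E0_dN nb (W.map φ.toEmbedding) = (E0_dN nb W).map φ.toEmbedding := by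
  ext x
  simp only [E0_mem, Finset.mem_map, Equiv.coe_toEmbedding]
  constructor
  · rintro ⟨hx, w, ⟨w', hw', rfl⟩, hwx⟩
    refine ⟨φ.symm x, ⟨?_, w', hw', ?_⟩, by simp⟩
    · intro h; exact hx ⟨_, h, by simp⟩
    · rw [hφ]; simpa using hwx
  · rintro ⟨y, ⟨hy, w, hw, hwy⟩, rfl⟩
    refine ⟨?_, φ w, ⟨w, hw, rfl⟩, (hφ _ _).1 hwy⟩
    rintro ⟨z, hz, hzy⟩
    rw [φ.injective hzy] at hz
    exact hy hz

theorem E0_cover (ht : Tra nb) {k a : ℕ} {A : Finset V} (hA : E0_Atom nb k a A) (v : V) :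
    ∃ B, E0_Atom nb k a B ∧ v ∈ B := by
  obtain ⟨w, hw⟩ := hA.1
  obtain ⟨φ, hφ, hφw⟩ := ht w v
  refine ⟨A.map φ.toEmbedding, ⟨?_, ?_, ?_⟩, ?_⟩
  · exact hA.1.map
  · rw [E0_map hφ, Finset.card_map]; exact hA.2.1
  · rw [Finset.card_map]; exact hA.2.2
  · rw [Finset.mem_map]; exact ⟨w, hw, hφw⟩

theorem E0_le (hr : Reg nb) (ht : Tra nb) (hc : Cnn nb) [Infinite V] {k a : ℕ}
    (hk : ∀ W : Finset V, W.Nonempty → k ≤ (E0_dN nb W).card)
    (ha : ∀ W : Finset V, W.Nonempty → (E0_dN nb W).card = k → a ≤ W.card)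
    {A : Finset V} (hA : E0_Atom nb k a A) : a ≤ k := by
  obtain ⟨u, hu⟩ := E0_ne hc hA.1
  obtain ⟨B, hB, huB⟩ := E0_cover ht hA u
  have hAB : Disjoint A B := by
    by_contra h
    have := E0_eq hk ha hA hB h
    exact (E0_mem.1 hu).1 (this ▸ huB)
  have ho := E0_opp hr hAB
  rw [hA.2.1, hB.2.1] at ho
  by_cases h1 : (A \ E0_dN nb B).Nonempty
  · by_cases h2 : (B \ E0_dN nb A).Nonempty
    · exfalso
      have k1 := hk _ h1
      have k2 := hk _ h2
      have k3 : (E0_dN nb (B \ E0_dN nb A)).card = k := by omega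
      have k4 := ha _ h2 k3
      have k5 : B \ E0_dN nb A = B :=
        Finset.eq_of_subset_of_card_le Finset.sdiff_subset (by rw [hB.2.2]; exact k4)
      have : u ∈ B \ E0_dN nb A := by rw [k5]; exact huB
      exact (Finset.mem_sdiff.1 this).2 hu
    · rw [Finset.not_nonempty_iff_eq_empty, Finset.sdiff_eq_empty_iff_subset] at h2
      have := Finset.card_le_card h2
      rw [hB.2.2, hA.2.1] at this
      exact this
  · rw [Finset.not_nonempty_iff_eq_empty, Finset.sdiff_eq_empty_iff_subset] at h1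
    have := Finset.card_le_card h1
    rw [hA.2.2, hB.2.1] at this
    exact this

/-- the neighbours of `x` -/
noncomputable def E0_nn (nb : V → Fin D → V) (x : V) : Finset V := Finset.univ.image (nb x)

theorem E0_nn_mem {x y : V} : y ∈ E0_nn nb x ↔ Adj nb x y := by
  unfold E0_nn Adj; simp

theorem E0_nn_card (hr : Reg nb) (x : V) : (E0_nn nb x).card = D := by
  unfold E0_nn
  rw [Finset.card_image_of_injective _ (hr.inj x), Finset.card_univ, Fintype.card_fin]

/-- structure of a two point set with boundary of two points -/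
theorem E0_two (hr : Reg nb) (hD : 3 ≤ D) {u v : V} (huv : u ≠ v)
    (h : (E0_dN nb {u, v}).card = 2) :
    Adj nb u v ∧ (∀ x ∈ E0_dN nb {u, v}, Adj nb u x) ∧
      ∀ x, Adj nb u x → x = v ∨ x ∈ E0_dN nb {u, v} := by
  have h0 : ∀ x, Adj nb u x → x = v ∨ x ∈ E0_dN nb {u, v} := by
    intro x hx
    by_cases hxv : x = v
    · exact Or.inl hxv
    · right
      rw [E0_mem]
      refine ⟨?_, u, by simp, hx⟩
      simp only [Finset.mem_insert, Finset.mem_singleton, not_or]
      refine ⟨?_, hxv⟩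
      rintro rfl
      exact E0_irr hr hx
  have hs : (E0_nn nb u).erase v ⊆ E0_dN nb {u, v} := by
    intro x hx
    rw [Finset.mem_erase, E0_nn_mem] at hx
    rcases h0 x hx.2 with h | h
    · exact absurd h hx.1
    · exact h
  have hadj : Adj nb u v := by
    by_contra hn
    have : (E0_nn nb u).erase v = E0_nn nb u := Finset.erase_eq_of_notMem (by rw [E0_nn_mem]; exact hn)
    rw [this] at hs
    have := Finset.card_le_card hs
    rw [E0_nn_card hr, h] at this
    omega
  refine ⟨hadj, ?_, h0⟩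
  have hcard : ((E0_nn nb u).erase v).card = D - 1 := by
    rw [Finset.card_erase_of_mem (E0_nn_mem.2 hadj), E0_nn_card hr]
  have heq : (E0_nn nb u).erase v = E0_dN nb {u, v} :=
    Finset.eq_of_subset_of_card_le hs (by rw [h, hcard]; omega)
  intro x hx
  rw [← heq, Finset.mem_erase, E0_nn_mem] at hx
  exact hx.2

theorem E0_main (hr : Reg nb) (ht : Tra nb) (hc : Cnn nb) (hD : 3 ≤ D) [Infinite V] (W : Finset V)
    (hne : W.Nonempty) : 3 ≤ (E0_dN nb W).card := by
  by_contra hcon
  push Not at hcon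
  -- minimal boundary
  obtain ⟨k, ⟨A0, hA0, hA0k⟩, hkmin⟩ : ∃ k, (∃ A : Finset V, A.Nonempty ∧ (E0_dN nb A).card = k) ∧
      ∀ k', (∃ A : Finset V, A.Nonempty ∧ (E0_dN nb A).card = k') → k ≤ k' := by
    have hex : ∃ k, ∃ A : Finset V, A.Nonempty ∧ (E0_dN nb A).card = k := ⟨_, W, hne, rfl⟩
    exact ⟨Nat.find hex, Nat.find_spec hex, fun k' hk' => Nat.find_min' hex hk'⟩
  have hk : ∀ W : Finset V, W.Nonempty → k ≤ (E0_dN nb W).card := fun W hW => hkmin _ ⟨W, hW, rfl⟩
  obtain ⟨a, ⟨A, hA, hAk, hAa⟩, hamin⟩ : ∃ a, (∃ A : Finset V, A.Nonempty ∧ (E0_dN nb A).card = k ∧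
      A.card = a) ∧ ∀ a', (∃ A : Finset V, A.Nonempty ∧ (E0_dN nb A).card = k ∧ A.card = a') → a ≤ a' := by
    have hex : ∃ a, ∃ A : Finset V, A.Nonempty ∧ (E0_dN nb A).card = k ∧ A.card = a :=
      ⟨_, A0, hA0, hA0k, rfl⟩
    exact ⟨Nat.find hex, Nat.find_spec hex, fun k' hk' => Nat.find_min' hex hk'⟩
  have ha : ∀ W : Finset V, W.Nonempty → (E0_dN nb W).card = k → a ≤ W.card :=
    fun W hW h => hamin _ ⟨W, hW, h, rfl⟩
  have hAt : E0_Atom nb k a A := ⟨hA, hAk, hAa⟩
  have hak := E0_le hr ht hc hk ha hAt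
  have hk2 : k ≤ 2 := (hk W hne).trans (by omega)
  have ha1 : 1 ≤ a := by rw [← hAa]; exact hA.card_pos
  have hk1 : 1 ≤ k := by rw [← hAk]; exact (E0_ne hc hA).card_pos
  have ha2 : a ≤ 2 := hak.trans hk2
  interval_cases a
  · -- one point
    obtain ⟨w, rfl⟩ := Finset.card_eq_one.1 hAa
    have hs : E0_nn nb w ⊆ E0_dN nb {w} := by
      intro x hx
      rw [E0_nn_mem] at hx
      rw [E0_mem]
      refine ⟨?_, w, by simp, hx⟩
      simp only [Finset.mem_singleton]
      rintro rfl
      exact E0_irr hr hx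
    have := Finset.card_le_card hs
    rw [E0_nn_card hr, hAk] at this
    omega
  · -- two points
    have hk2' : k = 2 := by omega
    subst hk2'
    obtain ⟨u, v, huv, rfl⟩ := Finset.card_eq_two.1 hAa
    have hvu : ({v, u} : Finset V) = {u, v} := Finset.pair_comm _ _
    obtain ⟨a1, a2, a3⟩ := E0_two hr hD huv hAk
    obtain ⟨b1, b2, b3⟩ := E0_two hr hD huv.symm (by rw [hvu]; exact hAk)
    rw [hvu] at b2 b3
    -- the union is closed
    have hcl : E0_dN nb ({u, v} ∪ E0_dN nb {u, v}) = ∅ := by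
      rw [Finset.eq_empty_iff_forall_notMem]
      intro y hy
      obtain ⟨hy1, x, hx, hxy⟩ := E0_mem.1 hy
      rw [Finset.mem_union, not_or] at hy1
      rcases Finset.mem_union.1 hx with hx | hx
      · rw [Finset.mem_insert, Finset.mem_singleton] at hx
        rcases hx with rfl | rfl
        · rcases a3 y hxy with h | h
          · exact hy1.1 (by simp [h])
          · exact hy1.2 h
        · rcases b3 y hxy with h | h
          · exact hy1.1 (by simp [h])
          · exact hy1.2 h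
      · -- `x` in the boundary; its atom
        obtain ⟨B, hB, hxB⟩ := E0_cover ht hAt x
        obtain ⟨p, q, hpq, hBpq⟩ := Finset.card_eq_two.1 hB.2.2
        -- write B = {x, z}
        obtain ⟨z, hxz, hBz⟩ : ∃ z, x ≠ z ∧ B = {x, z} := by
          rw [hBpq, Finset.mem_insert, Finset.mem_singleton] at hxB
          rcases hxB with h | h
          · exact ⟨q, by rw [h]; exact hpq, by rw [hBpq, h]⟩
          · exact ⟨p, by rw [h]; exact hpq.symm, by rw [hBpq, h, Finset.pair_comm]⟩
        subst hBz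
        have hdis : Disjoint ({u, v} : Finset V) {x, z} := by
          by_contra h
          have := E0_eq hk ha hAt hB h
          exact (E0_mem.1 hx).1 (this ▸ hxB)
        have hz : z ∉ ({u, v} : Finset V) := fun h =>
          Finset.disjoint_left.1 hdis h (by simp)
        have hzx : ({z, x} : Finset V) = {x, z} := Finset.pair_comm _ _
        obtain ⟨c1, c2, c3⟩ := E0_two hr hD hxz hB.2.1
        obtain ⟨d1, d2, d3⟩ := E0_two hr hD hxz.symm (by rw [hzx]; exact hB.2.1)
        rw [hzx] at d2 d3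
        have hu : u ∈ E0_dN nb {x, z} := by
          rw [E0_mem]
          exact ⟨fun h => Finset.disjoint_left.1 hdis (by simp) h, x, by simp, E0_symm hr (a2 x hx)⟩
        have hv : v ∈ E0_dN nb {x, z} := by
          rw [E0_mem]
          exact ⟨fun h => Finset.disjoint_left.1 hdis (by simp) h, x, by simp, E0_symm hr (b2 x hx)⟩
        have hs : ({u, v} : Finset V) = E0_dN nb {x, z} := by
          apply Finset.eq_of_subset_of_card_le
          · intro t ht'
            rw [Finset.mem_insert, Finset.mem_singleton] at ht'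
            rcases ht' with rfl | rfl
            · exact hu
            · exact hv
          · rw [hB.2.1, hAa]
        rcases c3 y hxy with h | h
        · -- y = z
          subst h
          have := d2 u hu
          exact hy1.2 (E0_mem.2 ⟨hz, u, by simp, E0_symm hr this⟩)
        · rw [← hs] at h
          exact hy1.1 h
    have hne2 : ({u, v} ∪ E0_dN nb {u, v} : Finset V).Nonempty := hA.mono Finset.subset_union_left
    have := hk _ hne2
    rw [hcl] at this
    simp at this

end E0aux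

theorem bdry (hr : Reg nb) (ht : Tra nb) (hc : Cnn nb) (hD : 3 ≤ D) [Infinite V] {W : Set V}
    (hW : W.Finite) (hne : W.Nonempty) : 3 ≤ {u | u ∉ W ∧ ∃ w ∈ W, Adj nb w u}.ncard := by
  classical
  have h := E0_main hr ht hc hD hW.toFinset (by simpa using hne)
  have he : {u | u ∉ W ∧ ∃ w ∈ W, Adj nb w u} = (E0_dN nb hW.toFinset : Set V) := by
    ext x
    simp only [Set.mem_ofPred_eq, Finset.mem_coe, E0_mem, Set.Finite.mem_toFinset]
  rw [he, Set.ncard_coe_finset]
  exact h

end Pool.Agent.UQ
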