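import Pool.Agent.UQ.P3
import Pool.Agent.UQ.E0

/-!
# B18 Br : bridge lemma

Let `S a b := Adj a b ∧ b ∉ R`. `W = {v | ∃ u ∈ I, ReflTransGen S u v}`; every `v ∈ W` is in `I` or outside `R`. `W` is nonempty.
If `v ∈ W`, `v ∉ I` then `¬ Esc R v`: otherwise (`esc_reach'`) the first vertex `b₁ ∉ R` of a chain from `u ∈ I` to `v` satisfies `Esc R b₁`, `Adj u b₁`, so `Vis R u`.
Suppose that no `v ∈ W` has a neighbour in `R \ (I ∪ Φ)`. Then every neighbour of a point of `W` is in `W` or in `Φ` (if it is not in `R` it is in `W`; if it is in `R` then it is in `I ⊆ W` or in `Φ`). By `finw`, `W` is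
finite; its boundary is contained in `Φ`, so has at most 2 points, contradicting `bdry`. So there are `v ∈ W`, `r ∈ R \ (I ∪ Φ)` with `Adj v r`; `v` is reached from `u ∈ I`.
If `v ∈ I`: take `u := v`, `K = ∅`. Otherwise `K := {b | ReflTransGen S v b}`: `K ∩ R = ∅`, connected (`adj_symm`), contains `v`, contains the first vertex `b₁` of the chain from `u` to `v` (reverse the chain),
and all its points are trapped (same argument as for `W`).
-/

open Finset MeasureTheory Pool.Agent.helper20.HP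

namespace Pool.Agent.UQ

variable {V : Type} {D : ℕ} {nb : V → Fin D → V} {μ : Measure (ℕ → Lt D)}

theorem Br_notMem {R : Set V} {x y : V} (hx : x ∉ R)
    (h : Relation.ReflTransGen (fun a b => Adj nb a b ∧ b ∉ R) x y) : y ∉ R := by
  rcases Relation.ReflTransGen.cases_tail h with h | ⟨c, _, h2⟩
  · rw [h]; exact hx
  · exact h2.2

theorem Br_rev (hr : Reg nb) {R : Set V} {x y : V} (hx : x ∉ R)
    (h : Relation.ReflTransGen (fun a b => Adj nb a b ∧ b ∉ R) x y) :
    Relation.ReflTransGen (fun a b => Adj nb a b ∧ b ∉ R) y x := by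
  induction h with
  | refl => exact Relation.ReflTransGen.refl
  | tail h1 h2 ih =>
    exact Relation.ReflTransGen.head ⟨adj_symm hr h2.1, Br_notMem hx h1⟩ ih

theorem bridge {θ : ℝ} (G : GInf nb θ) (hμ : LM μ) {R I Φ : Set V} (hI : I.Finite) (hIn : I.Nonempty)
    (hIR : I ⊆ R) (hΦ : Φ.Finite) (hΦ2 : Φ.ncard ≤ 2) (hΦR : Φ ⊆ R) (hd : Disjoint I Φ)
    (hinv : ∀ u ∈ I, ¬ Vis nb μ R u) :
    ∃ u ∈ I, ∃ r ∈ R, r ∉ I ∧ r ∉ Φ ∧ ∃ K : Set V, Disjoint K R ∧ ConIn nb K ∧
      (∀ b ∈ K, ¬ Esc nb μ R b) ∧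
      ((K = ∅ ∧ Adj nb u r) ∨ ((∃ b ∈ K, Adj nb u b) ∧ ∃ b ∈ K, Adj nb b r)) := by
  classical
  set S : V → V → Prop := fun a b => Adj nb a b ∧ b ∉ R with hS
  set W : Set V := {v | ∃ u ∈ I, Relation.ReflTransGen S u v} with hW
  have hIW : ∀ u ∈ I, u ∈ W := fun u hu => ⟨u, hu, Relation.ReflTransGen.refl⟩
  -- points of W are in I or outside R
  have hA : ∀ v ∈ W, v ∈ I ∨ v ∉ R := by
    rintro v ⟨u, hu, h⟩
    rcases Relation.ReflTransGen.cases_tail h with h | ⟨c, _, h2⟩
    · left; rw [h]; exact hu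
    · right; exact h2.2
  -- points of W outside I are trapped
  have hB : ∀ v ∈ W, v ∉ I → ¬ Esc nb μ R v := by
    rintro v ⟨u, hu, h⟩ hvI hesc
    rcases Relation.ReflTransGen.cases_head h with h | ⟨b, h1, h2⟩
    · exact hvI (h ▸ hu)
    · exact hinv u hu ⟨b, h1.1, esc_reach' hμ h1.2 h2 hesc⟩
  -- a point of W with a neighbour in R outside I and Φ
  have hC : ∃ v ∈ W, ∃ r ∈ R, r ∉ I ∧ r ∉ Φ ∧ Adj nb v r := by
    by_contra hno
    push Not at hno
    have hcl : ∀ w ∈ W, ∀ u, Adj nb w u → u ∈ W ∨ u ∈ Φ := by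
      intro w hw u hwu
      by_cases huR : u ∈ R
      · by_cases huI : u ∈ I
        · exact Or.inl (hIW u huI)
        · by_cases huΦ : u ∈ Φ
          · exact Or.inr huΦ
          · exact absurd hwu (hno w hw u huR huI huΦ)
      · obtain ⟨u0, hu0, h⟩ := hw
        exact Or.inl ⟨u0, hu0, h.tail ⟨hwu, huR⟩⟩
    have hR : ∀ w ∈ W, w ∈ R → w ∈ I := by
      intro w hw hwR
      rcases hA w hw with h | h
      · exact h
      · exact absurd hwR h
    have hfin : W.Finite := finw G hμ hI hΦ hcl hR hB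
    have hne : W.Nonempty := by
      obtain ⟨u, hu⟩ := hIn
      exact ⟨u, hIW u hu⟩
    have := G.infV
    have h3 := bdry G.reg G.tra G.cnn G.deg hfin hne
    have hsub : {u | u ∉ W ∧ ∃ w ∈ W, Adj nb w u} ⊆ Φ := by
      rintro u ⟨huW, w, hw, hwu⟩
      rcases hcl w hw u hwu with h | h
      · exact absurd h huW
      · exact h
    have h4 := Set.ncard_le_ncard hsub hΦ
    omega
  obtain ⟨v, hv, r, hrR, hrI, hrΦ, hvr⟩ := hC
  by_cases hvI : v ∈ I
  · refine ⟨v, hvI, r, hrR, hrI, hrΦ, ∅, ?_, conIn_empty, ?_, Or.inl ⟨rfl, hvr⟩⟩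
    · exact Set.disjoint_left.mpr fun x hx => absurd hx (Set.notMem_empty x)
    · intro b hb
      exact absurd hb (Set.notMem_empty b)
  · have hvR : v ∉ R := by
      rcases hA v hv with h | h
      · exact absurd h hvI
      · exact h
    obtain ⟨u, hu, huv⟩ := hv
    rcases Relation.ReflTransGen.cases_head huv with h | ⟨b1, h1, h2⟩
    · exact absurd (h ▸ hu) hvI
    · have hKW : ∀ b, Relation.ReflTransGen S v b → b ∈ W := fun b hb => ⟨u, hu, huv.trans hb⟩
      have hKR : ∀ b, Relation.ReflTransGen S v b → b ∉ R := fun b hb => Br_notMem hvR hb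
      refine ⟨u, hu, r, hrR, hrI, hrΦ, {b | Relation.ReflTransGen S v b}, ?_, ?_, ?_, Or.inr ⟨?_, ?_⟩⟩
      · exact Set.disjoint_left.mpr fun x hx => hKR x hx
      · intro a ha b hb
        have h3 : Relation.ReflTransGen (fun x y => Adj nb x y ∧ y ∈ {b | Relation.ReflTransGen S v b})
            a v := by
          have ha' : Relation.ReflTransGen S v a := ha
          clear ha
          induction ha' with
          | refl => exact Relation.ReflTransGen.refl
          | tail h1 h2 ih => exact Relation.ReflTransGen.head ⟨adj_symm G.reg h2.1, h1⟩ ih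
        have h4 : Relation.ReflTransGen (fun x y => Adj nb x y ∧ y ∈ {b | Relation.ReflTransGen S v b})
            v b := by
          have hb' : Relation.ReflTransGen S v b := hb
          clear hb
          induction hb' with
          | refl => exact Relation.ReflTransGen.refl
          | tail h1 h2 ih => exact ih.tail ⟨h2.1, h1.tail h2⟩
        exact h3.trans h4
      · intro b hb
        exact hB b (hKW b hb) (fun hbI => hKR b hb (hIR hbI))
      · exact ⟨b1, Br_rev G.reg h1.2 h2, h1.1⟩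
      · exact ⟨v, Relation.ReflTransGen.refl, hvr⟩

end Pool.Agent.UQ
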