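import Pool.Agent.UQ.YL

/-!
# B20 Ch2 : two consecutive connected blocks with visible points give a configuration

`HA | β | β' | HC` pairwise disjoint, consecutive ones adjacent via `a₁ ~ p`, `q ~ q'`, `r' ~ c₁` (`a₁ ∈ HA`, `p, q ∈ β`, `q', r' ∈ β'`, `c₁ ∈ HC`), visible points `x ∈ β`, `x' ∈ β'` w.r.t.
`R = HA ∪ β ∪ β' ∪ HC`. Apply `ylem` in `β` to `(p, q, x)`: `w, Hp, Hq, Hx`; and in `β'` to `(q', r', x')`: `w', Hq', Hr', Hx'`.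
`HA' = HA ∪ Hp`, `HC' = HC ∪ Hr'` (halves by `conIn_union`; if `Hp = ∅` then `w = p ~ a₁`; else `w` is adjacent to a point of `Hp`).
`Y = {w} ∪ Hq ∪ Hq' ∪ {w'}` is connected (if `Hq = ∅` then `w = q`, etc.; `q ~ q'`): simple path `x 0 = w, …, x j = w'` in `Y`, `j ≥ 1` since `w ∈ β`, `w' ∈ β'`.
`R' = HA' ∪ HC' ∪ path ⊆ R`. `Vis R' w`: if `Hx = ∅` then `w = x` and `vis_mono`. Otherwise `x ∈ Hx` has a neighbour `y` with `Esc R y`, so `Esc R' y`; `x ∉ R'`, so `Esc R' x` (`esc_adj`), and along `Hx` (connected, disjoint from `R'`)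
`Esc R' h` for `h ∈ Hx` adjacent to `w` (`esc_reach`). Same for `w'`.
-/

open Finset MeasureTheory Pool.Agent.helper20.HP

namespace Pool.Agent.UQ

variable {V : Type} {D : ℕ} {nb : V → Fin D → V} {μ : Measure (ℕ → Lt D)}

theorem Ch2_att (hr : Reg nb) {H : Set V} {w u : V} (hH : ConIn nb H)
    (h : (w = u ∧ H = ∅) ∨ (u ∈ H ∧ ∃ h ∈ H, Adj nb w h)) :
    ConIn nb ({w} ∪ H) ∧ u ∈ ({w} : Set V) ∪ H := by
  rcases h with ⟨h1, h2⟩ | ⟨h1, k, hk, hwk⟩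
  · subst h1; subst h2
    rw [Set.union_empty]
    exact ⟨conIn_singleton w, rfl⟩
  · exact ⟨conIn_union hr (conIn_singleton w) hH ⟨w, rfl, k, hk, Or.inr hwk⟩, Or.inr h1⟩

theorem Ch2_half (hr : Reg nb) {HA H : Set V} {A : ℕ → V} {w u a : V} (hA : Half nb HA A)
    (hH : ConIn nb H) (ha : a ∈ HA) (hau : Adj nb a u)
    (h : (w = u ∧ H = ∅) ∨ (u ∈ H ∧ ∃ h ∈ H, Adj nb w h)) :
    Half nb (HA ∪ H) A ∧ ∃ b ∈ HA ∪ H, Adj nb w b := by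
  obtain ⟨h3, k, hk⟩ := hA
  rcases h with ⟨h1, h2⟩ | ⟨h1, b, hb, hwb⟩
  · subst h1; subst h2
    rw [Set.union_empty]
    exact ⟨⟨h3, k, hk⟩, a, ha, adj_symm hr hau⟩
  · exact ⟨⟨conIn_union hr h3 hH ⟨a, ha, u, h1, Or.inr hau⟩, k, fun t ht => Or.inl (hk t ht)⟩,
      b, Or.inr hb, hwb⟩

theorem Ch2_vis (hr : Reg nb) (hμ : LM μ) {R R' H : Set V} {w x : V} (hsub : R' ⊆ R)
    (hv : Vis nb μ R x) (hc : ConIn nb H) (hd : ∀ y ∈ H, y ∉ R')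
    (h : (w = x ∧ H = ∅) ∨ (x ∈ H ∧ ∃ h ∈ H, Adj nb w h)) : Vis nb μ R' w := by
  rcases h with ⟨h1, h2⟩ | ⟨h1, b, hb, hwb⟩
  · subst h1
    exact vis_mono hsub hv
  · obtain ⟨y, hxy, hy⟩ := hv
    have h3 : Esc nb μ R' x := esc_adj hμ hxy (hd x h1) (esc_mono hsub hy)
    refine ⟨b, hwb, esc_reach hr hμ ?_ h3⟩
    exact EscB_mono (fun a c hac => ⟨hac.1, hd c hac.2⟩) (hc x h1 b hb)

theorem chain2 (hr : Reg nb) (hμ : LM μ) {A C : ℕ → V} {HA β β' HC : Set V}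
    (hA : Half nb HA A) (hC : Half nb HC C) (hβ : ConIn nb β) (hβ' : ConIn nb β')
    (d1 : Disjoint HA β) (d2 : Disjoint HA β') (d3 : Disjoint HA HC) (d4 : Disjoint β β')
    (d5 : Disjoint β HC) (d6 : Disjoint β' HC)
    (a1 : ∃ a ∈ HA, ∃ b ∈ β, Adj nb a b) (a2 : ∃ a ∈ β, ∃ b ∈ β', Adj nb a b)
    (a3 : ∃ a ∈ β', ∃ b ∈ HC, Adj nb a b)
    (hx : ∃ x ∈ β, Vis nb μ (HA ∪ β ∪ β' ∪ HC) x) (hx' : ∃ x ∈ β', Vis nb μ (HA ∪ β ∪ β' ∪ HC) x) :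
    ∃ HA' HC' x j, 1 ≤ j ∧ Cfg nb μ A C HA' HC' x j := by
  obtain ⟨a₁, ha₁, p, hp, hap⟩ := a1
  obtain ⟨q, hq, q', hq', hqq⟩ := a2
  obtain ⟨r', hr', c₁, hc₁, hrc⟩ := a3
  obtain ⟨x, hxβ, hxv⟩ := hx
  obtain ⟨x', hxβ', hxv'⟩ := hx'
  obtain ⟨w, hw, Hp, Hq, Hx, sp, sq, sx, wp, wq, wx, dpq, dpx, dqx, cp, cq, cx, ep, eq, ex⟩ :=
    ylem hr hβ hp hq hxβ
  obtain ⟨w', hw', Kq, Kr, Kx, tq, tr, tx, vq, vr, vx, dqr, dqx', drx, kq, kr, kx, fq, fr, fx⟩ :=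
    ylem hr hβ' hq' hr' hxβ'
  obtain ⟨y1, y2⟩ := Ch2_att hr cq eq
  obtain ⟨z1, z2⟩ := Ch2_att hr kq fq
  have hY : ConIn nb (({w} ∪ Hq) ∪ ({w'} ∪ Kq)) :=
    conIn_union hr y1 z1 ⟨q, y2, q', z2, Or.inr hqq⟩
  obtain ⟨g, j, g0, gj, gadj, ginj, gY⟩ := simple_path hY (a := w) (b := w')
    (Or.inl (Or.inl rfl)) (Or.inr (Or.inl rfl))
  obtain ⟨hA1, hA2⟩ := Ch2_half hr hA cp ha₁ hap ep
  obtain ⟨hC1, hC2⟩ := Ch2_half hr hC kr hc₁ (adj_symm hr hrc) fr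
  have D1 : ∀ y, y ∈ HA → y ∉ β := fun y h1 h2 => Set.disjoint_left.mp d1 h1 h2
  have D2 : ∀ y, y ∈ HA → y ∉ β' := fun y h1 h2 => Set.disjoint_left.mp d2 h1 h2
  have D3 : ∀ y, y ∈ HA → y ∉ HC := fun y h1 h2 => Set.disjoint_left.mp d3 h1 h2
  have D4 : ∀ y, y ∈ β → y ∉ β' := fun y h1 h2 => Set.disjoint_left.mp d4 h1 h2
  have D5 : ∀ y, y ∈ β → y ∉ HC := fun y h1 h2 => Set.disjoint_left.mp d5 h1 h2
  have D6 : ∀ y, y ∈ β' → y ∉ HC := fun y h1 h2 => Set.disjoint_left.mp d6 h1 h2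
  have E1 : ∀ y, y ∈ Hp → y ∉ Hq := fun y h1 h2 => Set.disjoint_left.mp dpq h1 h2
  have E2 : ∀ y, y ∈ Hp → y ∉ Hx := fun y h1 h2 => Set.disjoint_left.mp dpx h1 h2
  have E3 : ∀ y, y ∈ Hq → y ∉ Hx := fun y h1 h2 => Set.disjoint_left.mp dqx h1 h2
  have F1 : ∀ y, y ∈ Kq → y ∉ Kr := fun y h1 h2 => Set.disjoint_left.mp dqr h1 h2
  have F2 : ∀ y, y ∈ Kq → y ∉ Kx := fun y h1 h2 => Set.disjoint_left.mp dqx' h1 h2
  have F3 : ∀ y, y ∈ Kr → y ∉ Kx := fun y h1 h2 => Set.disjoint_left.mp drx h1 h2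
  have gY' : ∀ s, s ≤ j → (g s = w ∨ g s ∈ Hq) ∨ (g s = w' ∨ g s ∈ Kq) := fun s hs => gY s hs
  have hβY : ∀ s, s ≤ j → g s ∈ β ∨ g s ∈ β' := by
    intro s hs
    rcases gY' s hs with (h | h) | (h | h)
    · left; rw [h]; exact hw
    · left; exact sq h
    · right; rw [h]; exact hw'
    · right; exact tq h
  have hsub : (HA ∪ Hp) ∪ (HC ∪ Kr) ∪ {u | ∃ s, s ≤ j ∧ g s = u} ⊆ HA ∪ β ∪ β' ∪ HC := by
    rintro y (((h | h) | (h | h)) | ⟨s, hs, rfl⟩)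
    · exact Or.inl (Or.inl (Or.inl h))
    · exact Or.inl (Or.inl (Or.inr (sp h)))
    · exact Or.inr h
    · exact Or.inl (Or.inr (tr h))
    · rcases hβY s hs with h | h
      · exact Or.inl (Or.inl (Or.inr h))
      · exact Or.inl (Or.inr h)
  refine ⟨HA ∪ Hp, HC ∪ Kr, g, j, ?_, hA1, hC1, ?_, gadj, ginj, ?_, ?_, ?_, ?_, ?_, ?_⟩
  · rcases Nat.eq_zero_or_pos j with h | h
    · exfalso
      rw [h, g0] at gj
      exact D4 w hw (gj ▸ hw')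
    · exact h
  · rw [Set.disjoint_left]
    rintro y (h | h) (k | k)
    · exact D3 y h k
    · exact D2 y h (tr k)
    · exact D5 y (sp h) k
    · exact D4 y (sp h) (tr k)
  · rintro s hs (h | h)
    · rcases hβY s hs with k | k
      · exact D1 _ h k
      · exact D2 _ h k
    · rcases gY' s hs with (k | k) | (k | k)
      · rw [k] at h; exact wp h
      · exact E1 _ h k
      · rw [k] at h; exact D4 _ (sp h) hw'
      · exact D4 _ (sp h) (tq k)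
  · rintro s hs (h | h)
    · rcases hβY s hs with k | k
      · exact D5 _ k h
      · exact D6 _ k h
    · rcases gY' s hs with (k | k) | (k | k)
      · rw [k] at h; exact D4 _ hw (tr h)
      · exact D4 _ (sq k) (tr h)
      · rw [k] at h; exact vr h
      · exact F1 _ k h
  · rw [g0]; exact hA2
  · rw [gj]; exact hC2
  · rw [g0]
    refine Ch2_vis hr hμ hsub hxv cx ?_ ex
    rintro y hy (((h | h) | (h | h)) | ⟨s, hs, rfl⟩)
    · exact D1 y h (sx hy)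
    · exact E2 y h hy
    · exact D5 y (sx hy) h
    · exact D4 y (sx hy) (tr h)
    · rcases gY' s hs with (k | k) | (k | k)
      · rw [k] at hy; exact wx hy
      · exact E3 _ k hy
      · rw [k] at hy; exact D4 _ (sx hy) hw'
      · exact D4 _ (sx hy) (tq k)
  · rw [gj]
    refine Ch2_vis hr hμ hsub hxv' kx ?_ fx
    rintro y hy (((h | h) | (h | h)) | ⟨s, hs, rfl⟩)
    · exact D2 y h (tx hy)
    · exact D4 y (sp h) (tx hy)
    · exact D6 y (tx hy) h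
    · exact F3 y h hy
    · rcases gY' s hs with (k | k) | (k | k)
      · rw [k] at hy; exact D4 _ hw (tx hy)
      · exact D4 _ (sq k) (tx hy)
      · rw [k] at hy; exact vx hy
      · exact F2 _ k hy

/-- reading the configuration backwards -/
theorem Cfg.swap (hr : Reg nb) {A C : ℕ → V} {HA HC : Set V} {x : ℕ → V} {j : ℕ}
    (h : Cfg nb μ A C HA HC x j) : Cfg nb μ C A HC HA (fun s => x (j - s)) j := by
  have hset : HC ∪ HA ∪ {u | ∃ s, s ≤ j ∧ x (j - s) = u} = HA ∪ HC ∪ {u | ∃ s, s ≤ j ∧ x s = u} := by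
    rw [Set.union_comm HC HA]
    congr 1
    ext u
    constructor
    · rintro ⟨s, hs, hu⟩
      exact ⟨j - s, Nat.sub_le j s, hu⟩
    · rintro ⟨s, hs, hu⟩
      refine ⟨j - s, Nat.sub_le j s, ?_⟩
      rw [Nat.sub_sub_self hs]
      exact hu
  refine ⟨h.hC, h.hA, h.dis.symm, ?_, ?_, ?_, ?_, ?_, ?_, ?_, ?_⟩
  · intro s hs
    have h1 := h.adj (j - (s + 1)) (by omega)
    rw [show j - (s + 1) + 1 = j - s by omega] at h1
    exact adj_symm hr h1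
  · intro s t hs ht hst
    have h1 := h.inj (j - s) (j - t) (Nat.sub_le j s) (Nat.sub_le j t) hst
    omega
  · intro s _
    exact h.xC (j - s) (Nat.sub_le j s)
  · intro s _
    exact h.xA (j - s) (Nat.sub_le j s)
  · exact h.endC
  · show ∃ c ∈ HA, Adj nb (x (j - j)) c
    rw [Nat.sub_self]
    exact h.endA
  · show Vis nb μ (HC ∪ HA ∪ {u | ∃ s, s ≤ j ∧ x (j - s) = u}) (x (j - 0))
    rw [hset]
    exact h.visj
  · show Vis nb μ (HC ∪ HA ∪ {u | ∃ s, s ≤ j ∧ x (j - s) = u}) (x (j - j))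
    rw [hset, Nat.sub_self]
    exact h.vis0

end Pool.Agent.UQ
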