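import Pool.Agent.UQ.CutBlk

/-!
# A6 CutBad : probability of having no range cut

Deterministic: let `p` be a path with `P + 2rm + N` steps (list of length `P + 2rm + N + 1`), `r ≥ 1`. If there is no `c ∈ (P, P + 2rm]` with
`p.take c` disjoint from `p.drop c`, then either `nocut r m (p.drop P)`, or for some `j < m`, with
`c = P + 2rj + r`, there are times `s < c ≤ t ≤ P + 2rm + N` with `p_s = p_t` and `t - s > r` (otherwise `s ≥ c - r` and
`t ≤ c - 1 + r`, and the local cut in the middle of block `j` is violated).
For fixed `c` and `u = t - s` there are at most `u` pairs, and at most `2rm + N` pairs (the values of `t` are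
in `[c, P + 2rm + N]`, `c > P`). Probability of `p_s = p_t`: `W_coinc`. First event: `W_append` (P steps) and
`W_noblock` (with `W_take` for the last `N` steps). Sum over `j < m`.
-/

open Finset Pool.Agent.helper20.HP

namespace Pool.Agent.UQ

variable {V : Type} [Fintype V] [DecidableEq V] (K : HW V)

omit [Fintype V] [DecidableEq V] in
theorem CutBad_drop (x : V) (a : List V) : (x :: a).drop a.length = [lst x a] := by
  induction a generalizing x with
  | nil => rfl
  | cons b a ih =>
    have h := ih b
    change (b :: a).drop a.length = [(b :: a).getLastD x]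
    rw [List.getLastD_cons]
    exact h

omit [Fintype V] [DecidableEq V] in
theorem CutBad_nocut_take (r m : ℕ) (p : List V) :
    nocut r m p ↔ nocut r m (p.take (2 * r * m + 1)) := by
  unfold nocut
  refine forall_congr' fun j => ?_
  refine imp_congr_right fun hj => ?_
  have h1 : 2 * r * j + 2 * r ≤ 2 * r * m := by
    calc 2 * r * j + 2 * r = 2 * r * (j + 1) := by ring
      _ ≤ 2 * r * m := Nat.mul_le_mul_left _ hj
  have e1 : ((p.take (2 * r * m + 1)).drop (2 * r * j)).take r = (p.drop (2 * r * j)).take r := by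
    rw [List.drop_take, List.take_take]
    congr 1
    omega
  have e2 : ((p.take (2 * r * m + 1)).drop (2 * r * j + r)).take (r + 1)
      = (p.drop (2 * r * j + r)).take (r + 1) := by
    rw [List.drop_take, List.take_take]
    congr 1
    omega
  rw [e1, e2]

theorem CutBad_first (r P m N : ℕ) (x o : V) :
    W K (P + 2 * r * m + N) x (fun l => ind (nocut r m ((x :: l).drop P)))
      = (1 - qr K r o) ^ m := by
  have e : P + 2 * r * m + N = P + (2 * r * m + N) := by ring
  rw [e, W_append]
  have h1 : W K P x (fun l => W K (2 * r * m + N) (lst x l)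
      (fun b => ind (nocut r m ((x :: (l ++ b)).drop P)))) = W K P x (fun _ => (1 - qr K r o) ^ m) := by
    refine W_congr K fun l hl => ?_
    have h2 : ∀ b : List V, (x :: (l ++ b)).drop P = lst x l :: b := by
      intro b
      have h3 : x :: (l ++ b) = (x :: l) ++ b := rfl
      rw [h3, List.drop_append_of_le_length (by simp [hl]), ← hl, CutBad_drop]
      rfl
    have h4 : W K (2 * r * m + N) (lst x l) (fun b => ind (nocut r m ((x :: (l ++ b)).drop P)))
        = W K (2 * r * m + N) (lst x l)
          (fun b => (fun c => ind (nocut r m (lst x l :: c))) (b.take (2 * r * m))) := by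
      refine W_congr K fun b _ => ?_
      rw [h2 b, ind_congr (CutBad_nocut_take r m (lst x l :: b))]
      rfl
    rw [h4]
    exact (W_take K (2 * r * m) N (lst x l) (fun c => ind (nocut r m (lst x l :: c)))).trans
      (W_noblock K r m _ o)
  rw [h1, W_const]

omit [Fintype V] [DecidableEq V] in
/-- the deterministic alternative -/
theorem CutBad_det {r : ℕ} (P m N : ℕ) (x : V) (l : List V)
    (hl : l.length = P + 2 * r * m + N) (hr : 1 ≤ r)
    (h : ¬ ∃ c, P < c ∧ c ≤ P + 2 * r * m ∧ List.Disjoint ((x :: l).take c) ((x :: l).drop c))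
    (hn : ¬ nocut r m ((x :: l).drop P)) :
    ∃ j, j < m ∧ ∃ s t, s < P + 2 * r * j + r ∧ P + 2 * r * j + r ≤ t ∧ t ≤ P + 2 * r * m + N ∧
      r < t - s ∧ (x :: l).getD s x = (x :: l).getD t x := by
  unfold nocut at hn
  push Not at hn
  obtain ⟨j, hj, hdis⟩ := hn
  have h1 : 2 * r * j + 2 * r ≤ 2 * r * m := by
    calc 2 * r * j + 2 * r = 2 * r * (j + 1) := by ring
      _ ≤ 2 * r * m := Nat.mul_le_mul_left _ hj
  set p := x :: l with hp
  have hpl : p.length = P + 2 * r * m + N + 1 := by rw [hp]; simp [hl]
  have hc := not_exists.mp h (P + 2 * r * j + r)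
  have hc2 : ¬ List.Disjoint (p.take (P + 2 * r * j + r)) (p.drop (P + 2 * r * j + r)) := by
    intro hd
    exact hc ⟨by omega, by omega, hd⟩
  unfold List.Disjoint at hc2
  push Not at hc2
  obtain ⟨v, hv1, hv2, -⟩ := hc2
  obtain ⟨s, hs, hsv⟩ := List.mem_iff_getElem.mp hv1
  obtain ⟨t, ht, htv⟩ := List.mem_iff_getElem.mp hv2
  rw [List.getElem_take] at hsv
  rw [List.getElem_drop] at htv
  rw [List.length_take] at hs
  rw [List.length_drop] at ht
  have hs1 : s < P + 2 * r * j + r := lt_of_lt_of_le hs (min_le_left _ _)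
  have hs2 : s < p.length := lt_of_lt_of_le hs (min_le_right _ _)
  have ht2 : P + 2 * r * j + r + t < p.length := by omega
  refine ⟨j, hj, s, P + 2 * r * j + r + t, hs1, by omega, by omega, ?_, ?_⟩
  · by_contra hle
    have hle' : P + 2 * r * j + r + t - s ≤ r := not_lt.mp hle
    have m1 : v ∈ ((p.drop P).drop (2 * r * j)).take r := by
      rw [List.mem_iff_getElem]
      refine ⟨s - (P + 2 * r * j), ?_, ?_⟩
      · rw [List.length_take, List.length_drop, List.length_drop]
        omega
      · rw [List.getElem_take, List.getElem_drop, List.getElem_drop, ← hsv]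
        congr 1
        omega
    have m2 : v ∈ ((p.drop P).drop (2 * r * j + r)).take (r + 1) := by
      rw [List.mem_iff_getElem]
      refine ⟨t, ?_, ?_⟩
      · rw [List.length_take, List.length_drop, List.length_drop]
        omega
      · rw [List.getElem_take, List.getElem_drop, List.getElem_drop, ← htv]
        congr 1
        omega
    exact hdis m1 m2
  · rw [List.getD_eq_getElem _ _ hs2, List.getD_eq_getElem _ _ ht2, hsv, htv]

theorem bad_le [Nonempty V] {r : ℕ} (hr : 1 ≤ r) (P m N : ℕ) (o : V) :
    bad K P (2 * r * m) N ≤ (1 - qr K r o) ^ m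
      + m * ∑ u ∈ Ioc r (P + 2 * r * m + N),
          ((min u (2 * r * m + N) : ℕ) : ℝ) * K.pt u o o := by
  unfold bad
  set T := P + 2 * r * m + N with hT
  set B : ℝ := ∑ u ∈ Ioc r T, ((min u (2 * r * m + N) : ℕ) : ℝ) * K.pt u o o with hB
  have hmain : ∀ x : V, W K T x (fun l => ind (¬ ∃ c, P < c ∧ c ≤ P + 2 * r * m ∧
      List.Disjoint ((x :: l).take c) ((x :: l).drop c))) ≤ (1 - qr K r o) ^ m + m * B := by
    intro x
    let S : ℕ → ℕ → Finset ℕ := fun j u =>
      (Icc (P + 2 * r * j + r) T).filter (fun t => u ≤ t ∧ t - u < P + 2 * r * j + r)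
    have hle : W K T x (fun l => ind (¬ ∃ c, P < c ∧ c ≤ P + 2 * r * m ∧
      List.Disjoint ((x :: l).take c) ((x :: l).drop c)))
        ≤ W K T x (fun l => ind (nocut r m ((x :: l).drop P))
          + ∑ j ∈ range m, ∑ u ∈ Ioc r T, ∑ t ∈ S j u,
            ind ((x :: l).getD (t - u) x = (x :: l).getD t x)) := by
      refine W_mono K fun l hl => ?_
      have hnn : 0 ≤ ∑ j ∈ range m, ∑ u ∈ Ioc r T, ∑ t ∈ S j u,
            ind ((x :: l).getD (t - u) x = (x :: l).getD t x) :=
        Finset.sum_nonneg fun _ _ => Finset.sum_nonneg fun _ _ => Finset.sum_nonneg fun _ _ =>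
          ind_nonneg _
      by_cases h : ¬ ∃ c, P < c ∧ c ≤ P + 2 * r * m ∧
          List.Disjoint ((x :: l).take c) ((x :: l).drop c)
      · by_cases hn : nocut r m ((x :: l).drop P)
        · rw [ind_true h, ind_true hn]; linarith
        · obtain ⟨j, hj, s, t, h1, h2, h3, h4, h5⟩ := CutBad_det P m N x l hl hr h hn
          rw [ind_true h, ind_false hn, zero_add]
          have hst : t - (t - s) = s := by omega
          have ht : t ∈ S j (t - s) := by
            simp only [S, Finset.mem_filter, Finset.mem_Icc]
            omega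
          have hu : t - s ∈ Ioc r T := by
            rw [Finset.mem_Ioc]; omega
          have e1 : ind ((x :: l).getD (t - (t - s)) x = (x :: l).getD t x) = 1 := by
            rw [hst]; exact ind_true h5
          calc (1 : ℝ) = ind ((x :: l).getD (t - (t - s)) x = (x :: l).getD t x) := e1.symm
            _ ≤ ∑ t' ∈ S j (t - s), ind ((x :: l).getD (t' - (t - s)) x = (x :: l).getD t' x) :=
                Finset.single_le_sum (f := fun t' =>
                  ind ((x :: l).getD (t' - (t - s)) x = (x :: l).getD t' x))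
                  (fun _ _ => ind_nonneg _) ht
            _ ≤ ∑ u ∈ Ioc r T, ∑ t' ∈ S j u, ind ((x :: l).getD (t' - u) x = (x :: l).getD t' x) :=
                Finset.single_le_sum (f := fun u => ∑ t' ∈ S j u,
                  ind ((x :: l).getD (t' - u) x = (x :: l).getD t' x))
                  (fun _ _ => Finset.sum_nonneg fun _ _ => ind_nonneg _) hu
            _ ≤ _ := Finset.single_le_sum (f := fun j => ∑ u ∈ Ioc r T, ∑ t' ∈ S j u,
                  ind ((x :: l).getD (t' - u) x = (x :: l).getD t' x))
                  (fun _ _ => Finset.sum_nonneg fun _ _ => Finset.sum_nonneg fun _ _ =>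
                    ind_nonneg _) (Finset.mem_range.mpr hj)
      · rw [ind_false h]
        exact add_nonneg (ind_nonneg _) hnn
    refine hle.trans ?_
    rw [W_add, CutBad_first K r P m N x o, W_sum]
    refine add_le_add le_rfl ?_
    have hj : ∀ j ∈ range m, W K T x (fun l => ∑ u ∈ Ioc r T, ∑ t ∈ S j u,
        ind ((x :: l).getD (t - u) x = (x :: l).getD t x)) ≤ B := by
      intro j hj
      rw [W_sum, hB]
      refine Finset.sum_le_sum fun u hu => ?_
      rw [W_sum]
      have hc : ∀ t ∈ S j u, W K T x (fun l =>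
          ind ((x :: l).getD (t - u) x = (x :: l).getD t x)) = K.pt u o o := by
        intro t ht
        simp only [S, Finset.mem_filter, Finset.mem_Icc] at ht
        have := W_coinc K (s := t - u) (t := t) (k := T) (by omega) (by omega) x o
        rw [this]
        congr 1
        omega
      rw [Finset.sum_congr rfl hc, Finset.sum_const, nsmul_eq_mul]
      refine mul_le_mul_of_nonneg_right ?_ (pt_nonneg K u o o)
      have hjm : j < m := Finset.mem_range.mp hj
      have h1 : 2 * r * j + 2 * r ≤ 2 * r * m := by
        calc 2 * r * j + 2 * r = 2 * r * (j + 1) := by ring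
          _ ≤ 2 * r * m := Nat.mul_le_mul_left _ hjm
      have hcard : (S j u).card ≤ min u (2 * r * m + N) := by
        refine le_min ?_ ?_
        · have hsub : S j u ⊆ Ico (P + 2 * r * j + r) (P + 2 * r * j + r + u) := by
            intro t ht
            simp only [S, Finset.mem_filter, Finset.mem_Icc] at ht
            rw [Finset.mem_Ico]; omega
          refine (Finset.card_le_card hsub).trans ?_
          rw [Nat.card_Ico]; omega
        · have hsub : S j u ⊆ Icc (P + 2 * r * j + r) T := Finset.filter_subset _ _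
          refine (Finset.card_le_card hsub).trans ?_
          rw [Nat.card_Icc]; omega
      exact_mod_cast hcard
    refine (Finset.sum_le_sum hj).trans ?_
    rw [Finset.sum_const, Finset.card_range, nsmul_eq_mul]
  refine (avg_mono hmain).trans ?_
  rw [avg_const]

theorem bad_nonneg (R l N : ℕ) : 0 ≤ bad K R l N :=
  avg_nonneg fun _ => W_nonneg K fun _ _ => ind_nonneg _

/-- consequence used for bounded horizons -/
theorem bad_le' [Nonempty V] {θ : ℝ} (hθ : 1 ≤ θ) {r : ℕ} (hr : 1 ≤ r) (P m N : ℕ) (o : V)
    (h1 : ∑ u ∈ range (2 * r + 1), ((u : ℝ) + 1) * K.pt u o o ≤ θ)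
    (h2 : ∑ u ∈ Ioc r (4 * r), ((u : ℝ) + 1) * K.pt u o o ≤ 1 / 2) :
    bad K P (2 * r * m) N ≤ (1 - 1 / (2 * θ)) ^ m
      + m * ∑ u ∈ Ioc r (P + 2 * r * m + N), ((u : ℝ) + 1) * K.pt u o o := by
  refine (bad_le K hr P m N o).trans (add_le_add ?_ ?_)
  · have hq := qr_lower K hθ r o h1 h2
    have hq1 := qr_le_one K r o
    exact pow_le_pow_left₀ (by linarith) (by linarith) m
  · refine mul_le_mul_of_nonneg_left ?_ (Nat.cast_nonneg _)
    refine Finset.sum_le_sum fun u _ => mul_le_mul_of_nonneg_right ?_ (pt_nonneg K u o o)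
    have : ((min u (2 * r * m + N) : ℕ) : ℝ) ≤ (u : ℝ) := by exact_mod_cast min_le_left _ _
    linarith

end Pool.Agent.UQ
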