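import Pool.Agent.UQ.CutLI

/-!
# A5 CutBlk : independent local cut events

* `W_localcut`: the local cut event at the middle of a walk of `2r` steps has probability `qr`, from any
  start. Both sides do not depend on the start (`W_homog`), so take `avg`; by `avg_W_two_sided` applied to the
  first `r` steps (`W_append`) the event `X_{0..r-1} ∩ X_{r..2r} = ∅` becomes
  `avg_v W r v (a ↦ W r v (b ↦ ind (a ∩ (v::b) = ∅)))`, and swapping the two walks (`W_comm`) this is `avg_v qr K r v`.
* `W_noblock`: block `j` of a walk of `2 r m` steps consists of the times `2rj, …, 2r(j+1)`; the probability that none of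
  the `m` blocks has a local cut in its middle is `(1 - qr)^m`: induction on `m` with `W_append` (first block, then the rest).
-/

open Finset Pool.Agent.helper20.HP

namespace Pool.Agent.UQ

variable {V : Type} [Fintype V] [DecidableEq V] (K : HW V)

omit [Fintype V] [DecidableEq V] in
theorem CutBlk_middle (r : ℕ) (v : V) (a m : List V) (ha : a.length = r) :
    ind (List.Disjoint ((((v :: a).reverse) ++ m).take r) ((((v :: a).reverse) ++ m).drop r))
      = ind (∀ u ∈ a, u ∉ v :: m) := by
  have hl : a.reverse.length = r := by rw [List.length_reverse, ha]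
  have e1 : (((v :: a).reverse) ++ m) = a.reverse ++ (v :: m) := by simp
  have e2 : (a.reverse ++ (v :: m)).take r = a.reverse := by rw [← hl, List.take_left]
  have e3 : (a.reverse ++ (v :: m)).drop r = v :: m := by rw [← hl, List.drop_left]
  rw [e1, e2, e3]
  refine ind_congr ?_
  constructor
  · intro h u hu hu'
    exact h (List.mem_reverse.mpr hu) hu'
  · intro h u hu hu'
    exact h u (List.mem_reverse.mp hu) hu'

theorem W_localcut (r : ℕ) (x o : V) :
    W K (2 * r) x (fun m => ind (List.Disjoint ((x :: m).take r) ((x :: m).drop r))) = qr K r o := by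
  have : Nonempty V := ⟨o⟩
  have h1 : ∀ y : V, W K (2 * r) y (fun m => ind (List.Disjoint ((y :: m).take r) ((y :: m).drop r)))
      = W K (2 * r) x (fun m => ind (List.Disjoint ((x :: m).take r) ((x :: m).drop r))) := by
    intro y
    refine W_homog K (fun y m => ind (List.Disjoint ((y :: m).take r) ((y :: m).drop r)))
      (fun σ _ z l => ?_) y x
    refine ind_congr ?_
    have e : σ z :: l.map σ = (z :: l).map σ := rfl
    rw [e, ← List.map_take, ← List.map_drop]
    constructor
    · intro h u hu hu'
      exact h (List.mem_map_of_mem hu) (List.mem_map_of_mem hu')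
    · intro h u hu hu'
      obtain ⟨u1, hu1, rfl⟩ := List.mem_map.mp hu
      obtain ⟨u2, hu2, e2⟩ := List.mem_map.mp hu'
      have := σ.injective e2
      subst this
      exact h hu1 hu2
  have h2 : avg (fun y => W K (2 * r) y
      (fun m => ind (List.Disjoint ((y :: m).take r) ((y :: m).drop r))))
      = W K (2 * r) x (fun m => ind (List.Disjoint ((x :: m).take r) ((x :: m).drop r))) := by
    have : (fun y => W K (2 * r) y
      (fun m => ind (List.Disjoint ((y :: m).take r) ((y :: m).drop r))))
      = fun _ => W K (2 * r) x (fun m => ind (List.Disjoint ((x :: m).take r) ((x :: m).drop r))) :=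
      funext h1
    rw [this, avg_const]
  rw [← h2]
  have h3 : (fun y => W K (2 * r) y
      (fun m => ind (List.Disjoint ((y :: m).take r) ((y :: m).drop r))))
      = fun y => W K r y (fun l => (fun v p => W K r v (fun m =>
          ind (List.Disjoint ((p ++ m).take r) ((p ++ m).drop r)))) (lst y l) (y :: l)) := by
    funext y
    rw [two_mul, W_append]
    rfl
  rw [h3, ← avg_W_two_sided K r (fun v p => W K r v (fun m =>
          ind (List.Disjoint ((p ++ m).take r) ((p ++ m).drop r))))]
  have h4 : (fun v => W K r v (fun a => (fun v p => W K r v (fun m =>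
          ind (List.Disjoint ((p ++ m).take r) ((p ++ m).drop r)))) v (v :: a).reverse))
      = fun _ => qr K r o := by
    funext v
    have e5 : qr K r v = W K r v (fun a => W K r v (fun m => ind (∀ u ∈ a, u ∉ v :: m))) :=
      W_comm K r r v v (fun a b => ind (∀ u ∈ b, u ∉ v :: a))
    rw [qr_homog K r o v, e5]
    refine W_congr K fun a ha => ?_
    refine W_congr K fun m _ => ?_
    exact CutBlk_middle r v a m ha
  rw [h4, avg_const]

/-- `nocut r m p`: no local cut in the middle of the first `m` blocks of length `2r` of the path `p` -/
def nocut (r m : ℕ) (p : List V) : Prop :=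
  ∀ j, j < m → ¬ List.Disjoint ((p.drop (2 * r * j)).take r) ((p.drop (2 * r * j + r)).take (r + 1))

omit [Fintype V] [DecidableEq V] in
theorem CutBlk_nocut (r m : ℕ) (x : V) (l l' : List V) (hl : l.length = 2 * r) :
    nocut r (m + 1) (x :: (l ++ l')) ↔
      ¬ List.Disjoint ((x :: l).take r) ((x :: l).drop r) ∧ nocut r m (lst x l :: l') := by
  have hxl : (x :: l).length = 2 * r + 1 := by simp [hl]
  have e0 : x :: (l ++ l') = (x :: l) ++ l' := rfl
  have e1 : ((x :: (l ++ l')).drop (2 * r * 0)).take r = (x :: l).take r := by
    rw [e0, Nat.mul_zero, List.drop_zero, List.take_append_of_le_length (by omega)]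
  have e2 : ((x :: (l ++ l')).drop (2 * r * 0 + r)).take (r + 1) = (x :: l).drop r := by
    have : ((x :: l).drop r).length = r + 1 := by rw [List.length_drop, hxl]; omega
    rw [e0, Nat.mul_zero, Nat.zero_add, List.drop_append_of_le_length (by omega), ← this,
      List.take_left]
  have e3 : (x :: (l ++ l')).drop (2 * r) = lst x l :: l' := by
    have h1 : (x :: l).drop (2 * r) = [lst x l] := by
      have hne : x :: l ≠ [] := by simp
      have h2 : (x :: l).drop (2 * r) = (x :: l).drop ((x :: l).length - 1) := by
        rw [hxl]; rfl
      rw [h2, List.drop_length_sub_one hne]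
      congr 1
      unfold lst
      rw [List.getLastD_eq_getLast?]
      cases l with
      | nil => simp
      | cons z l => simp [List.getLast?_eq_some_getLast]
    rw [e0, List.drop_append_of_le_length (by omega), h1]
    rfl
  have e4 : ∀ j, (x :: (l ++ l')).drop (2 * r * (j + 1)) = (lst x l :: l').drop (2 * r * j) := by
    intro j
    rw [← e3, List.drop_drop]
    congr 1
    ring
  have e5 : ∀ j, (x :: (l ++ l')).drop (2 * r * (j + 1) + r)
      = (lst x l :: l').drop (2 * r * j + r) := by
    intro j
    rw [← e3, List.drop_drop]
    congr 1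
    ring
  constructor
  · intro h
    refine ⟨?_, fun j hj => ?_⟩
    · have := h 0 (Nat.succ_pos m)
      rwa [e1, e2] at this
    · have := h (j + 1) (by omega)
      rwa [e4, e5] at this
  · rintro ⟨h1, h2⟩ j hj
    cases j with
    | zero => rwa [e1, e2]
    | succ j =>
      rw [e4, e5]
      exact h2 j (by omega)

theorem W_noblock (r m : ℕ) (x o : V) :
    W K (2 * r * m) x (fun l => ind (nocut r m (x :: l))) = (1 - qr K r o) ^ m := by
  induction m generalizing x with
  | zero =>
    have : ∀ l : List V, ind (nocut r 0 (x :: l)) = 1 := fun l =>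
      ind_true (fun j hj => absurd hj (Nat.not_lt_zero j))
    simp only [this, pow_zero]
    rw [W_const]
  | succ m ih =>
    have e : 2 * r * (m + 1) = 2 * r + 2 * r * m := by ring
    rw [e, W_append]
    have h1 : W K (2 * r) x (fun l => W K (2 * r * m) (lst x l)
        (fun l' => ind (nocut r (m + 1) (x :: (l ++ l')))))
        = W K (2 * r) x (fun l => (1 - qr K r o) ^ m *
          (1 - ind (List.Disjoint ((x :: l).take r) ((x :: l).drop r)))) := by
      refine W_congr K fun l hl => ?_
      have h2 : ∀ l' : List V, ind (nocut r (m + 1) (x :: (l ++ l')))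
          = (1 - ind (List.Disjoint ((x :: l).take r) ((x :: l).drop r))) *
            ind (nocut r m (lst x l :: l')) := by
        intro l'
        rw [ind_congr (CutBlk_nocut r m x l l' hl), ind_and, ind_not]
      simp only [h2]
      rw [W_mul_left, ih (lst x l), mul_comm]
    rw [h1, W_mul_left, W_sub, W_const, W_localcut K r x o, pow_succ]

end Pool.Agent.UQ
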