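import Pool.Agent.UQ.PT

/-!
# A4 CutLI : last intersection bound

Let `a`, `b` be independent walks of `2r` steps from `x`, `A = x :: a`, `B = x :: b`. Deterministic fact: there are
`s, t ≤ 2r` with `A_s = B_t` and either `r < s ∨ r < t`, or `s, t ≤ r` and `B(t, t+r]` is disjoint from `A[s, s+r]`
(take `t` maximal such that `B_t ∈ A`, then `s` maximal with `A_s = B_t`; `s = t = 0` shows that the set is nonempty;
in fact `B(t, 2r]` is disjoint from all of `A`).
Expectation: `1 ≤ ∑_{s,t ≤ r} P(A_s = B_t, B(t,t+r] ∩ A[s,s+r] = ∅) + ∑_{s,t ≤ 2r, r < s ∨ r < t} P(A_s = B_t)`.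
By the Markov property (for both walks), `P(A_s = B_t = y, …) = P(A_s = y) P(B_t = y) qr K r y`, and `qr K r y = qr K r x`
(`W_homog`), so the first sum is `qr * ∑_{s,t ≤ r} pt (s+t) x x ≤ qr * ∑_{u ≤ 2r} (u+1) pt u x x`
(at most `u+1` pairs with `s + t = u`), and the second one is at most `∑_{u ∈ Ioc r (4r)} (u+1) pt u x x`.
Hence `1 ≤ qr θ + 1/2`.
-/

open Finset Pool.Agent.helper20.HP

namespace Pool.Agent.UQ

variable {V : Type} [Fintype V] [DecidableEq V] (K : HW V)

theorem qr_homog (r : ℕ) (x y : V) : qr K r x = qr K r y := by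
  unfold qr
  refine W_homog K (k := r) (fun x a => W K r x (fun b => ind (∀ u ∈ b, u ∉ x :: a))) ?_ x y
  intro σ hσ x l
  rw [W_map K σ hσ]
  refine W_congr K (fun b _ => ind_congr ?_)
  have h1 : (σ x :: l.map σ) = (x :: l).map σ := rfl
  rw [h1]
  constructor
  · intro h u hu hu'
    exact h (σ u) (List.mem_map_of_mem hu) (List.mem_map_of_mem hu')
  · intro h u hu hu'
    obtain ⟨v, hv, rfl⟩ := List.mem_map.mp hu
    obtain ⟨w, hw, hw'⟩ := List.mem_map.mp hu'
    rw [σ.injective hw'] at hw
    exact h v hv hw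

theorem qr_nonneg (r : ℕ) (x : V) : 0 ≤ qr K r x :=
  W_nonneg K (fun _ _ => W_nonneg K (fun _ _ => ind_nonneg _))

theorem qr_le_one (r : ℕ) (x : V) : qr K r x ≤ 1 := by
  have h : qr K r x ≤ W K r x (fun _ => 1) := by
    refine W_mono K (fun a _ => ?_)
    have h2 : W K r x (fun b => ind (∀ u ∈ b, u ∉ x :: a)) ≤ W K r x (fun _ => 1) :=
      W_mono K (fun b _ => ind_le_one _)
    rwa [W_const] at h2
  rwa [W_const] at h

/-- the event that the walks `a`, `b` meet at the times `s`, `t` and that `b` afterwards avoids `a` after `s` -/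
noncomputable def CutLI_P (x : V) (s t : ℕ) (a b : List V) : ℝ :=
  ind ((x :: a).getD s x = (x :: b).getD t x ∧ ∀ u ∈ b.drop t, u ∉ (x :: a).drop s)

omit [Fintype V] [DecidableEq V] in
theorem CutLI_getD_lst (x d : V) (a : List V) : (x :: a).getD a.length d = lst x a := by
  induction a generalizing x with
  | nil => rfl
  | cons y a ih =>
    rw [WBasic_lst_cons, ← ih y]
    rfl

omit [Fintype V] [DecidableEq V] in
theorem CutLI_getD_append (x d : V) (a1 a2 : List V) (s : ℕ) (hs : a1.length = s) :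
    (x :: (a1 ++ a2)).getD s d = lst x a1 := by
  subst hs
  rw [← CutLI_getD_lst x d a1, ← List.cons_append, List.getD_append]
  simp

omit [Fintype V] [DecidableEq V] in
theorem CutLI_drop_append (x : V) (a1 a2 : List V) (s : ℕ) (hs : a1.length = s) :
    (x :: (a1 ++ a2)).drop s = lst x a1 :: a2 := by
  subst hs
  induction a1 generalizing x with
  | nil => rfl
  | cons y a ih =>
    rw [WBasic_lst_cons, ← ih y]
    rfl

/-- expectation of the first type of terms -/
theorem CutLI_term (r s t : ℕ) (x : V) :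
    W K (s + r) x (fun a => W K (t + r) x (fun b => CutLI_P x s t a b))
      = qr K r x * K.pt (s + t) x x := by
  have h1 : ∀ a1 : List V, a1.length = s →
      W K r (lst x a1) (fun a2 => W K (t + r) x (fun b => CutLI_P x s t (a1 ++ a2) b))
        = W K t x (fun b1 => qr K r x * ind (lst x a1 = lst x b1)) := by
    intro a1 ha1
    have h2 : ∀ a2 : List V, W K (t + r) x (fun b => CutLI_P x s t (a1 ++ a2) b)
        = W K t x (fun b1 => W K r (lst x b1) (fun b2 =>
          ind (lst x a1 = lst x b1) * ind (∀ u ∈ b2, u ∉ lst x a1 :: a2))) := by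
      intro a2
      rw [W_append]
      refine W_congr K (fun b1 hb1 => W_congr K (fun b2 _ => ?_))
      unfold CutLI_P
      rw [CutLI_getD_append x x a1 a2 s ha1, CutLI_getD_append x x b1 b2 t hb1,
        CutLI_drop_append x a1 a2 s ha1, ← ind_and]
      have : (b1 ++ b2).drop t = b2 := by
        rw [← hb1, List.drop_left']
        rfl
      rw [this]
    simp only [h2]
    rw [W_comm K r t (lst x a1) x (fun a2 b1 => W K r (lst x b1) (fun b2 =>
          ind (lst x a1 = lst x b1) * ind (∀ u ∈ b2, u ∉ lst x a1 :: a2)))]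
    refine W_congr K (fun b1 _ => ?_)
    simp only [W_mul_left]
    by_cases h : lst x a1 = lst x b1
    · rw [← h, ind_true rfl, one_mul, mul_one]
      exact qr_homog K r _ _
    · rw [ind_false h]
      ring
  rw [W_append, W_congr K (fun a1 ha1 => h1 a1 ha1)]
  simp only [W_mul_left]
  congr 1
  rw [← W_meet K (le_refl s) (le_refl t) x]
  refine W_congr K (fun a ha => W_congr K (fun b hb => ?_))
  rw [← ha, ← hb, CutLI_getD_lst, CutLI_getD_lst]

omit [Fintype V] in
/-- the deterministic fact -/
theorem CutLI_det (r : ℕ) (x : V) (a b : List V) (ha : a.length = 2 * r) (hb : b.length = 2 * r) :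
    (1 : ℝ) ≤ (∑ p ∈ range (r + 1) ×ˢ range (r + 1),
        CutLI_P x p.1 p.2 (a.take (p.1 + r)) (b.take (p.2 + r)))
      + ∑ p ∈ (range (2 * r + 1) ×ˢ range (2 * r + 1)).filter (fun p => r < p.1 ∨ r < p.2),
        ind ((x :: a).getD p.1 x = (x :: b).getD p.2 x) := by
  classical
  have hn1 : 0 ≤ ∑ p ∈ range (r + 1) ×ˢ range (r + 1),
        CutLI_P x p.1 p.2 (a.take (p.1 + r)) (b.take (p.2 + r)) :=
    Finset.sum_nonneg (fun _ _ => ind_nonneg _)
  have hn2 : 0 ≤ ∑ p ∈ (range (2 * r + 1) ×ˢ range (2 * r + 1)).filter (fun p => r < p.1 ∨ r < p.2),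
        ind ((x :: a).getD p.1 x = (x :: b).getD p.2 x) :=
    Finset.sum_nonneg (fun _ _ => ind_nonneg _)
  set t := Nat.findGreatest (fun t => (x :: b).getD t x ∈ x :: a) (2 * r) with ht
  have ht1 : t ≤ 2 * r := Nat.findGreatest_le _
  have ht2 : (x :: b).getD t x ∈ x :: a :=
    Nat.findGreatest_spec (P := fun t => (x :: b).getD t x ∈ x :: a) (Nat.zero_le (2 * r))
      (by simp)
  have ht3 : ∀ t', t < t' → t' ≤ 2 * r → (x :: b).getD t' x ∉ x :: a :=
    fun t' h1 h2 => Nat.findGreatest_is_greatest h1 h2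
  obtain ⟨s, hs, hs'⟩ := List.mem_iff_getElem.mp ht2
  have hs1 : s ≤ 2 * r := by
    simp only [List.length_cons, ha] at hs
    omega
  have hs2 : (x :: a).getD s x = (x :: b).getD t x := by
    rw [← hs', List.getD_eq_getElem _ _ hs]
  by_cases hcase : r < s ∨ r < t
  · have : ind ((x :: a).getD s x = (x :: b).getD t x) ≤
        ∑ p ∈ (range (2 * r + 1) ×ˢ range (2 * r + 1)).filter (fun p => r < p.1 ∨ r < p.2),
        ind ((x :: a).getD p.1 x = (x :: b).getD p.2 x) := by
      refine Finset.single_le_sum (s := (range (2 * r + 1) ×ˢ range (2 * r + 1)).filter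
        (fun p => r < p.1 ∨ r < p.2)) (f := fun p => ind ((x :: a).getD p.1 x = (x :: b).getD p.2 x))
        (fun _ _ => ind_nonneg _) (a := (s, t)) ?_
      simp only [mem_filter, mem_product, mem_range]
      exact ⟨⟨by omega, by omega⟩, hcase⟩
    rw [ind_true hs2] at this
    linarith
  · push Not at hcase
    have : CutLI_P x s t (a.take (s + r)) (b.take (t + r)) ≤ ∑ p ∈ range (r + 1) ×ˢ range (r + 1),
        CutLI_P x p.1 p.2 (a.take (p.1 + r)) (b.take (p.2 + r)) := by
      refine Finset.single_le_sum (s := range (r + 1) ×ˢ range (r + 1))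
        (f := fun p => CutLI_P x p.1 p.2 (a.take (p.1 + r)) (b.take (p.2 + r)))
        (fun _ _ => ind_nonneg _) (a := (s, t)) ?_
      simp only [mem_product, mem_range]
      exact ⟨by omega, by omega⟩
    have hP : CutLI_P x s t (a.take (s + r)) (b.take (t + r)) = 1 := by
      unfold CutLI_P
      refine ind_true ⟨?_, ?_⟩
      · have e1 : (x :: a.take (s + r)).getD s x = (x :: a).getD s x := by
          cases s with
          | zero => rfl
          | succ s =>
            rw [List.getD_cons_succ, List.getD_cons_succ, List.getD_eq_getElem?_getD,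
              List.getD_eq_getElem?_getD, List.getElem?_take]
            rw [if_pos (by omega)]
        have e2 : (x :: b.take (t + r)).getD t x = (x :: b).getD t x := by
          clear_value t
          cases t with
          | zero => rfl
          | succ t =>
            rw [List.getD_cons_succ, List.getD_cons_succ, List.getD_eq_getElem?_getD,
              List.getD_eq_getElem?_getD, List.getElem?_take]
            rw [if_pos (by omega)]
        rw [e1, e2]
        exact hs2
      · intro u hu hu'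
        have hu1 : u ∈ b.drop t := by
          rw [List.drop_take] at hu
          exact List.mem_of_mem_take hu
        obtain ⟨i, hi, hi'⟩ := List.mem_iff_getElem.mp hu1
        rw [List.length_drop, hb] at hi
        have hA : u ∈ x :: a := by
          have h3 := List.mem_of_mem_drop hu'
          rcases List.mem_cons.mp h3 with h3 | h3
          · rw [h3]; simp
          · exact List.mem_cons_of_mem _ (List.mem_of_mem_take h3)
        refine ht3 (t + i + 1) (by omega) (by omega) ?_
        have : (x :: b).getD (t + i + 1) x = u := by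
          rw [List.getD_cons_succ, List.getD_eq_getElem _ _ (by rw [hb]; omega), ← hi',
            List.getElem_drop]
        rw [this]
        exact hA
    rw [hP] at this
    linarith

theorem CutLI_count (S : Finset (ℕ × ℕ)) (T : Finset ℕ) (g : ℕ → ℝ) (hg : ∀ u, 0 ≤ g u)
    (h : ∀ p ∈ S, p.1 + p.2 ∈ T) :
    ∑ p ∈ S, g (p.1 + p.2) ≤ ∑ u ∈ T, ((u : ℝ) + 1) * g u := by
  classical
  rw [← Finset.sum_fiberwise_of_maps_to h]
  refine Finset.sum_le_sum (fun u _ => ?_)
  have h1 : ∑ p ∈ S with p.1 + p.2 = u, g (p.1 + p.2)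
      = ((S.filter (fun p => p.1 + p.2 = u)).card : ℝ) * g u := by
    rw [Finset.sum_congr rfl (g := fun _ => g u), Finset.sum_const, nsmul_eq_mul]
    intro p hp
    rw [(mem_filter.mp hp).2]
  rw [h1]
  refine mul_le_mul_of_nonneg_right ?_ (hg u)
  have h2 : (S.filter (fun p => p.1 + p.2 = u)).card ≤ (Finset.HasAntidiagonal.antidiagonal u).card := by
    refine Finset.card_le_card (fun p hp => ?_)
    rw [Finset.HasAntidiagonal.mem_antidiagonal]
    exact (mem_filter.mp hp).2
  rw [Finset.Nat.card_antidiagonal] at h2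
  exact_mod_cast h2

/-- last intersection inequality -/
theorem last_intersection (r : ℕ) (x : V) :
    1 ≤ qr K r x * ∑ u ∈ range (2 * r + 1), ((u : ℝ) + 1) * K.pt u x x
      + ∑ u ∈ Ioc r (4 * r), ((u : ℝ) + 1) * K.pt u x x := by
  classical
  have h0 : (1 : ℝ) = W K (2 * r) x (fun _ => W K (2 * r) x (fun _ => 1)) := by
    rw [W_const, W_const]
  have h1 : (1 : ℝ) ≤ W K (2 * r) x (fun a => W K (2 * r) x (fun b =>
      (∑ p ∈ range (r + 1) ×ˢ range (r + 1),
        CutLI_P x p.1 p.2 (a.take (p.1 + r)) (b.take (p.2 + r)))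
      + ∑ p ∈ (range (2 * r + 1) ×ˢ range (2 * r + 1)).filter (fun p => r < p.1 ∨ r < p.2),
        ind ((x :: a).getD p.1 x = (x :: b).getD p.2 x))) := by
    conv_lhs => rw [h0]
    exact W_mono K (fun a ha => W_mono K (fun b hb => CutLI_det r x a b ha hb))
  simp only [W_add, W_sum] at h1
  have h2 : ∀ p ∈ range (r + 1) ×ˢ range (r + 1),
      W K (2 * r) x (fun a => W K (2 * r) x (fun b =>
        CutLI_P x p.1 p.2 (a.take (p.1 + r)) (b.take (p.2 + r))))
      = qr K r x * K.pt (p.1 + p.2) x x := by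
    intro p hp
    simp only [mem_product, mem_range] at hp
    rw [← CutLI_term]
    have e1 : 2 * r = (p.1 + r) + (r - p.1) := by omega
    have e2 : 2 * r = (p.2 + r) + (r - p.2) := by omega
    have e3 : ∀ a : List V, W K (2 * r) x (fun b =>
        CutLI_P x p.1 p.2 (a.take (p.1 + r)) (b.take (p.2 + r)))
        = W K (p.2 + r) x (fun b => CutLI_P x p.1 p.2 (a.take (p.1 + r)) b) := by
      intro a
      conv_lhs => rw [e2]
      exact W_take K (p.2 + r) (r - p.2) x (fun b => CutLI_P x p.1 p.2 (a.take (p.1 + r)) b)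
    simp only [e3]
    conv_lhs => rw [e1]
    exact W_take K (p.1 + r) (r - p.1) x
      (fun a => W K (p.2 + r) x (fun b => CutLI_P x p.1 p.2 a b))
  have h3 : ∀ p ∈ (range (2 * r + 1) ×ˢ range (2 * r + 1)).filter (fun p => r < p.1 ∨ r < p.2),
      W K (2 * r) x (fun a => W K (2 * r) x (fun b =>
        ind ((x :: a).getD p.1 x = (x :: b).getD p.2 x)))
      = K.pt (p.1 + p.2) x x := by
    intro p hp
    simp only [mem_filter, mem_product, mem_range] at hp
    exact W_meet K (by omega) (by omega) x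
  have hs1 : (∑ p ∈ range (r + 1) ×ˢ range (r + 1), W K (2 * r) x (fun a => W K (2 * r) x (fun b =>
        CutLI_P x p.1 p.2 (a.take (p.1 + r)) (b.take (p.2 + r)))))
      ≤ qr K r x * ∑ u ∈ range (2 * r + 1), ((u : ℝ) + 1) * K.pt u x x := by
    rw [Finset.sum_congr rfl h2, ← Finset.mul_sum]
    refine mul_le_mul_of_nonneg_left ?_ (qr_nonneg K r x)
    refine CutLI_count _ _ (fun u => K.pt u x x) (fun u => pt_nonneg K u x x) ?_
    intro p hp
    simp only [mem_product, mem_range] at hp ⊢
    omega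
  have hs2 : (∑ p ∈ (range (2 * r + 1) ×ˢ range (2 * r + 1)).filter (fun p => r < p.1 ∨ r < p.2),
      W K (2 * r) x (fun a => W K (2 * r) x (fun b =>
        ind ((x :: a).getD p.1 x = (x :: b).getD p.2 x))))
      ≤ ∑ u ∈ Ioc r (4 * r), ((u : ℝ) + 1) * K.pt u x x := by
    rw [Finset.sum_congr rfl h3]
    refine CutLI_count _ _ (fun u => K.pt u x x) (fun u => pt_nonneg K u x x) ?_
    intro p hp
    simp only [mem_filter, mem_product, mem_range, mem_Ioc] at hp ⊢
    omega
  linarith

theorem qr_lower {θ : ℝ} (hθ : 1 ≤ θ) (r : ℕ) (x : V)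
    (h1 : ∑ u ∈ range (2 * r + 1), ((u : ℝ) + 1) * K.pt u x x ≤ θ)
    (h2 : ∑ u ∈ Ioc r (4 * r), ((u : ℝ) + 1) * K.pt u x x ≤ 1 / 2) :
    1 / (2 * θ) ≤ qr K r x := by
  have h := last_intersection K r x
  have h3 : qr K r x * ∑ u ∈ range (2 * r + 1), ((u : ℝ) + 1) * K.pt u x x ≤ qr K r x * θ :=
    mul_le_mul_of_nonneg_left h1 (qr_nonneg K r x)
  have h4 : 1 / 2 ≤ qr K r x * θ := by linarith
  rw [div_le_iff₀ (by linarith)]
  linarith

end Pool.Agent.UQ
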