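import Pool.Agent.UQ.Base

/-!
# B25 Cyc : an odd closed walk gives a simple odd cycle

Take an odd `g` minimal such that there is `c : ℕ → V` with `Adj (c s) (c (s+1))` for `s < g` and `c g = c 0`. If `c s = c t` with `s < t < g`, then one of the two closed walks
(`t - s` steps, or `g - (t - s)` steps) is odd and shorter. `g = 1` is impossible by `noloop`.
-/

open Finset

namespace Pool.Agent.UQ

variable {V : Type} {D : ℕ} {nb : V → Fin D → V}

theorem Cyc_app (x : V) (w w' : List (Lt D)) :
    endp nb x (w ++ w') = endp nb (endp nb x w) w' := by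
  induction w generalizing x with
  | nil => rfl
  | cons l w ih => exact ih (mv nb x l)

theorem cyc (hr : Reg nb) (o : V) (w : List (Fin D)) (hw : Odd w.length)
    (hcl : endp nb o (w.map (fun i => ((true, i) : Lt D))) = o) :
    ∃ g, Odd g ∧ 3 ≤ g ∧ ∃ c : ℕ → V, (∀ s, s < g → Adj nb (c s) (c (s + 1))) ∧ c g = c 0 ∧
      ∀ s t, s < g → t < g → c s = c t → s = t := by
  classical
  set P : ℕ → Prop := fun g => Odd g ∧ ∃ c : ℕ → V,
    (∀ s, s < g → Adj nb (c s) (c (s + 1))) ∧ c g = c 0 with hP
  have hex : ∃ g, P g := by
    refine ⟨w.length, hw, fun s => endp nb o ((w.take s).map (fun i => ((true, i) : Lt D))), ?_, ?_⟩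
    · intro s hs
      refine ⟨w[s], ?_⟩
      simp only
      rw [List.take_succ_eq_append_getElem hs, List.map_append, Cyc_app]
      rfl
    · simp only [List.take_length, List.take_zero, List.map_nil]
      rw [hcl]
      rfl
  obtain ⟨hodd, c, hc1, hc2⟩ := Nat.find_spec hex
  have hmin : ∀ m, m < Nat.find hex → ¬ P m := fun m hm => Nat.find_min hex hm
  set g := Nat.find hex with hg
  have key : ∀ s t, s < t → t < g → c s ≠ c t := by
    intro s t hst htg hcst
    have h1 : ¬ Odd (t - s) := by
      intro ho
      apply hmin (t - s) (by omega)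
      refine ⟨ho, fun i => c (s + i), ?_, ?_⟩
      · intro i hi
        exact hc1 (s + i) (by omega)
      · simp only [Nat.add_zero]
        rw [show s + (t - s) = t by omega, hcst]
    have h2 : ¬ Odd (g - (t - s)) := by
      intro ho
      apply hmin (g - (t - s)) (by omega)
      refine ⟨ho, fun i => if i ≤ s then c i else c (i + (t - s)), ?_, ?_⟩
      · intro i hi
        simp only
        rcases lt_trichotomy i s with h | h | h
        · rw [if_pos h.le, if_pos (by omega)]
          exact hc1 i (by omega)
        · rw [if_pos h.le, if_neg (by omega), h, hcst]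
          rw [show s + 1 + (t - s) = t + 1 by omega]
          exact hc1 t htg
        · rw [if_neg (by omega), if_neg (by omega)]
          rw [show i + 1 + (t - s) = i + (t - s) + 1 by omega]
          exact hc1 (i + (t - s)) (by omega)
      · simp only
        rw [if_neg (by omega), if_pos (Nat.zero_le s)]
        rw [show g - (t - s) + (t - s) = g by omega]
        exact hc2
    rw [Nat.not_odd_iff_even] at h1 h2
    have h3 : Even ((t - s) + (g - (t - s))) := h1.add h2
    rw [show (t - s) + (g - (t - s)) = g by omega] at h3
    exact (Nat.not_odd_iff_even.mpr h3) hodd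
  refine ⟨g, hodd, ?_, c, hc1, hc2, ?_⟩
  · by_contra h3
    have h4 : g = 1 := by
      obtain ⟨k, hk⟩ := hodd
      omega
    rw [h4] at hc1 hc2
    obtain ⟨i, hi⟩ := hc1 0 (by norm_num)
    rw [Nat.zero_add, hc2] at hi
    exact hr.noloop (c 0) i hi
  · intro s t hs ht hst
    rcases lt_trichotomy s t with h | h | h
    · exact absurd hst (key s t h ht)
    · exact h
    · exact absurd hst.symm (key t s h hs)

end Pool.Agent.UQ
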