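import Pool.Agent.UQ.LO
import Pool.Agent.UQ.CutBad

/-!
# A11 D1 : the modulus of FP is nearly constant; A12 ERR : the total error of one comparison

`D1`. For every `v`, `W R v (a ↦ ‖FP (v::a).reverse‖) = mR` (`W_homog`: `FP` is invariant under automorphisms, and `avg_W_two_sided`).
Let `g(v,a) = ‖FP (v::a).reverse‖` and `h(v,b) = ‖FP (v::b)‖`. By `avg_W_two_sided`, `NL_one` and `LO_avg` (and `norm_cF`),
`avg_v W R v (a) W j v (b) |g - h| ≤ eta + 2 bad`. Averaging over `a` first, `avg_v W j v |mR - h| ≤ eta + 2 bad` (`abs_W_le`), and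
`|g - mR| ≤ |g - h| + |h - mR|`.

`ERR`. By `avg_W_two_sided` for the past `f` (R steps), then `W_append` (the past extended by `α` is a path with `R + j` steps):
first term of `tau` by `NL_one R j`, second one by `NL_one (R+j) l`, third one by `LO_avg (R+j) l`.
In all three terms `(y::f).reverse = x :: l'` for a path with `R` steps ending at `y`.
-/

open Finset Pool.Agent.helper20.HP

namespace Pool.Agent.UQ

variable {V : Type} [Fintype V] [DecidableEq V] (K : HW V)

omit [Fintype V] in
theorem D1_stp_map (σ : Equiv.Perm V) (γ : List V) (y : V) :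
    stp (γ.map σ) (σ y) = (stp γ y).map σ := by
  unfold stp
  by_cases h : y ∈ γ
  · rw [if_pos h, if_pos (List.mem_map_of_mem h), List.dropWhile_map]
    congr 2
    funext z
    simp only [Function.comp_apply, ne_eq, decide_not, EmbeddingLike.apply_eq_iff_eq]
  · have h' : σ y ∉ γ.map σ := by
      intro hm
      obtain ⟨u, hu, hue⟩ := List.mem_map.mp hm
      exact h (σ.injective hue ▸ hu)
    rw [if_neg h, if_neg h', List.map_cons]

omit [Fintype V] in
theorem D1_run_map (σ : Equiv.Perm V) (γ l : List V) :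
    run (γ.map σ) (l.map σ) = (run γ l).map σ := by
  unfold run
  induction l generalizing γ with
  | nil => rfl
  | cons y l ih =>
    rw [List.map_cons, List.foldl_cons, List.foldl_cons, D1_stp_map, ih]

theorem D1_FN_map (z : ℂ) (N : ℕ) (σ : Equiv.Perm V) (hσ : ∀ u v, K.p (σ u) (σ v) = K.p u v)
    (γ : List V) : FN K z N (γ.map σ) = FN K z N γ := by
  cases γ with
  | nil => rfl
  | cons h t =>
    have e1 : ∀ s, WC K s (σ h) (fun l => z ^ (run (σ h :: t.map σ) l).length)
        = WC K s h (fun l => z ^ (run (h :: t) l).length) := by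
      intro s
      rw [WC_map K σ hσ]
      refine WC_congr K fun l _ => ?_
      rw [← List.map_cons, D1_run_map, List.length_map]
    show (N : ℂ)⁻¹ * ∑ s ∈ range N, WC K s (σ h) (fun l => z ^ (run (σ h :: t.map σ) l).length) = _
    rw [Finset.sum_congr rfl fun s _ => e1 s]
    rfl

theorem D1_FP_map (z : ℂ) (N : ℕ) (σ : Equiv.Perm V) (hσ : ∀ u v, K.p (σ u) (σ v) = K.p u v)
    (p : List V) : FP K z N (p.map σ) = FP K z N p := by
  unfold FP
  have h : LEs (p.map σ) = (LEs p).map σ := by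
    rw [LEs_eq_run, LEs_eq_run, ← D1_run_map, List.map_nil]
  rw [h, D1_FN_map K z N σ hσ]

theorem W_norm_FP_rev [Nonempty V] (z : ℂ) (N R : ℕ) (v : V) :
    W K R v (fun a => ‖FP K z N (v :: a).reverse‖) = mR K z N R := by
  unfold mR
  rw [← avg_W_two_sided K R (fun _ p => ‖FP K z N p‖)]
  have h : ∀ x, W K R x (fun a => ‖FP K z N (x :: a).reverse‖)
      = W K R v (fun a => ‖FP K z N (v :: a).reverse‖) := by
    intro x
    refine W_homog K (fun x a => ‖FP K z N (x :: a).reverse‖) ?_ x v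
    intro σ hσ x l
    have : (σ x :: l.map σ).reverse = ((x :: l).reverse).map σ := by
      rw [← List.map_cons, List.map_reverse]
    rw [this, D1_FP_map K z N σ hσ]
  have h2 : (fun x => W K R x (fun a => ‖FP K z N (x :: a).reverse‖))
      = fun _ => W K R v (fun a => ‖FP K z N (v :: a).reverse‖) := funext h
  rw [h2, avg_const]

theorem D1_A [Nonempty V] {z : ℂ} (hz : ‖z‖ = 1) {N : ℕ} (hN : 0 < N) (R j : ℕ) :
    avg (fun v => W K R v (fun a => W K j v (fun b =>
      |‖FP K z N (v :: a).reverse‖ - ‖FP K z N (v :: b)‖|))) ≤ eta K z N R j + 2 * bad K R j N := by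
  rw [avg_W_two_sided K R (fun v p => W K j v (fun b => |‖FP K z N p‖ - ‖FP K z N (v :: b)‖|))]
  refine le_trans ?_ (add_le_add (NL_one K hz hN R j) (LO_avg K hz hN R j))
  rw [← avg_add]
  refine avg_mono fun x => ?_
  rw [← W_add]
  refine W_mono K fun l _ => ?_
  rw [← W_add]
  refine W_mono K fun b _ => ?_
  have h1 : |‖FP K z N (x :: l)‖ - ‖FP K z N (x :: l ++ b)‖|
      ≤ ‖FP K z N (x :: l ++ b) - FP K z N (x :: l)‖ := by
    rw [norm_sub_rev]
    exact abs_norm_sub_norm_le _ _
  have h2 : |‖FP K z N (x :: l ++ b)‖ - ‖FP K z N (lst x l :: b)‖|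
      ≤ ‖cF K z N (x :: l ++ b) - cF K z N (lst x l :: b)‖ := by
    rw [← norm_cF K hz N (x :: l ++ b), ← norm_cF K hz N (lst x l :: b)]
    exact abs_norm_sub_norm_le _ _
  calc |‖FP K z N (x :: l)‖ - ‖FP K z N (lst x l :: b)‖|
      ≤ |‖FP K z N (x :: l)‖ - ‖FP K z N (x :: l ++ b)‖|
        + |‖FP K z N (x :: l ++ b)‖ - ‖FP K z N (lst x l :: b)‖| := abs_sub_le _ _ _
    _ ≤ _ := add_le_add h1 h2

theorem D1 [Nonempty V] {z : ℂ} (hz : ‖z‖ = 1) {N : ℕ} (hN : 0 < N) (R j : ℕ) :
    avg (fun v => W K R v (fun a => |‖FP K z N (v :: a).reverse‖ - mR K z N R|))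
      ≤ 2 * (eta K z N R j + 2 * bad K R j N) := by
  have hA := D1_A K hz hN R j
  have hB : avg (fun v => W K j v (fun b => |‖FP K z N (v :: b)‖ - mR K z N R|))
      ≤ eta K z N R j + 2 * bad K R j N := by
    refine le_trans (avg_mono fun v => ?_) hA
    rw [W_comm K R j v v (fun a b => |‖FP K z N (v :: a).reverse‖ - ‖FP K z N (v :: b)‖|)]
    refine W_mono K fun b _ => ?_
    calc |‖FP K z N (v :: b)‖ - mR K z N R|
        = |W K R v (fun a => ‖FP K z N (v :: a).reverse‖ - ‖FP K z N (v :: b)‖)| := by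
          rw [W_sub, W_const, W_norm_FP_rev K z N R v, abs_sub_comm]
      _ ≤ _ := abs_W_le K R v _
  have h2 : avg (fun v => W K R v (fun a => |‖FP K z N (v :: a).reverse‖ - mR K z N R|))
      ≤ avg (fun v => W K R v (fun a => W K j v (fun b =>
      |‖FP K z N (v :: a).reverse‖ - ‖FP K z N (v :: b)‖|))
        + W K j v (fun b => |‖FP K z N (v :: b)‖ - mR K z N R|)) := by
    refine avg_mono fun v => ?_
    have e1 : W K j v (fun b => |‖FP K z N (v :: b)‖ - mR K z N R|)
        = W K R v (fun _ => W K j v (fun b => |‖FP K z N (v :: b)‖ - mR K z N R|)) :=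
      (W_const K R v _).symm
    rw [e1, ← W_add]
    refine W_mono K fun a _ => ?_
    rw [← W_add]
    have e2 : |‖FP K z N (v :: a).reverse‖ - mR K z N R|
        = W K j v (fun _ => |‖FP K z N (v :: a).reverse‖ - mR K z N R|) := (W_const K j v _).symm
    rw [e2]
    exact W_mono K fun b _ => abs_sub_le _ _ _
  rw [avg_add] at h2
  linarith

theorem ERR [Nonempty V] {z : ℂ} (hz : ‖z‖ = 1) {N : ℕ} (hN : 0 < N) (R l j : ℕ) :
    avg (fun y => W K R y (fun f => W K j y (fun α => W K l (lst y α) (fun b =>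
      tau K z N (y :: f) (y :: α) (lst y α :: b))))) ≤ EB K z N R l j := by
  have h0 := avg_W_two_sided K R (fun y p => W K j y (fun α => W K l (lst y α) (fun b =>
    ‖FP K z N (p ++ α) - FP K z N p‖ + ‖FP K z N (p ++ α ++ b) - FP K z N (p ++ α)‖
      + ‖cF K z N (p ++ α ++ b) - cF K z N (lst y α :: b)‖)))
  have h1 : (fun y => W K R y (fun f => W K j y (fun α => W K l (lst y α) (fun b =>
      tau K z N (y :: f) (y :: α) (lst y α :: b)))))
      = fun v => W K R v (fun a => (fun y p => W K j y (fun α => W K l (lst y α) (fun b =>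
    ‖FP K z N (p ++ α) - FP K z N p‖ + ‖FP K z N (p ++ α ++ b) - FP K z N (p ++ α)‖
      + ‖cF K z N (p ++ α ++ b) - cF K z N (lst y α :: b)‖))) v (v :: a).reverse) := rfl
  rw [h1, h0]
  unfold EB
  refine le_trans ?_ (add_le_add (add_le_add (NL_one K hz hN R j) (NL_one K hz hN (R + j) l))
    (LO_avg K hz hN (R + j) l))
  rw [← avg_add, ← avg_add]
  refine avg_mono fun x => ?_
  rw [W_append K R j x (fun l' => W K l (lst x l') (fun b =>
      ‖FP K z N (x :: l' ++ b) - FP K z N (x :: l')‖)),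
    W_append K R j x (fun l' => W K l (lst x l') (fun b =>
      ‖cF K z N (x :: l' ++ b) - cF K z N (lst x l' :: b)‖)), ← W_add, ← W_add]
  refine W_mono K fun p _ => ?_
  rw [← W_add, ← W_add]
  refine W_mono K fun α _ => ?_
  have e1 : ‖FP K z N (x :: p ++ α) - FP K z N (x :: p)‖
      = W K l (lst (lst x p) α) (fun _ => ‖FP K z N (x :: p ++ α) - FP K z N (x :: p)‖) :=
    (W_const K l _ _).symm
  rw [LO_lst_append, e1, ← W_add, ← W_add]
  refine W_mono K fun b _ => ?_
  rw [W_const]
  exact le_rfl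

end Pool.Agent.UQ
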