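import Pool.Agent.UQ.NL

/-!
# A13 P0 : the pointwise comparison

Past `F = y :: f` (read backwards), simple path `y :: α` from `y` to `v = lst y α` meeting `F` only in `y`, future
`b` from `v` which meets `F` and `y :: α` only in `v`. With `n₀ = |LEs F.reverse|`, by `length_join` (twice) and `LEs_of_nodup`:
`|LEs (F.reverse ++ α)| = n₀ + |α|` and `|LEs (F.reverse ++ α ++ b)| + 1 = n₀ + |α| + |LEs (v::b)|`.
Multiplying the third term of `tau` by the unimodular number `z ^ |LEs (v::b)|`: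
`‖z * conj (z^(n₀+|α|)) * FP (F.reverse ++ α ++ b) - FP (v :: b)‖ = third term`; then two triangle inequalities.
-/

open Finset Pool.Agent.helper20.HP

namespace Pool.Agent.UQ

variable {V : Type} [Fintype V] [DecidableEq V] (K : HW V)

theorem P0_conj_mul {z : ℂ} (hz : ‖z‖ = 1) (n : ℕ) : z ^ n * (starRingEnd ℂ) (z ^ n) = 1 := by
  rw [Complex.mul_conj, Complex.normSq_eq_norm_sq, norm_pow, hz]
  simp

theorem P0 {z : ℂ} (hz : ‖z‖ = 1) (N : ℕ) (y : V) (f α b : List V)
    (h1 : (y :: α).Nodup) (h2 : ∀ u ∈ y :: f, u ∈ y :: α → u = y)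
    (h3 : ∀ u ∈ b, u ∈ y :: f ∨ u ∈ y :: α → u = lst y α) :
    ‖z * (starRingEnd ℂ) (z ^ ((LEs (y :: f).reverse).length + α.length)) * FP K z N (y :: f).reverse
        - FP K z N (lst y α :: b)‖ ≤ tau K z N (y :: f) (y :: α) (lst y α :: b) := by
  have hlast1 : ((y :: f).reverse).getLast? = some y := by simp
  have hj1 := length_join ((y :: f).reverse) y α hlast1 (by
    intro u hu hup
    exact h2 u (List.mem_reverse.mp hup) (List.mem_cons_of_mem _ hu))
  have hLEα : (LEs (y :: α)).length = α.length + 1 := by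
    rw [LEs_of_nodup _ h1]; simp
  have hlast2 : ((y :: f).reverse ++ α).getLast? = some (lst y α) := by
    unfold lst
    rcases List.eq_nil_or_concat α with h | ⟨α', a, h⟩
    · subst h; simp
    · rw [List.concat_eq_append] at h
      subst h
      rw [← List.append_assoc, List.getLast?_append]
      simp
  have hj2 := length_join ((y :: f).reverse ++ α) (lst y α) b hlast2 (by
    intro u hu hup
    apply h3 u hu
    rw [List.mem_append] at hup
    rcases hup with h | h
    · left; exact List.mem_reverse.mp h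
    · right; exact List.mem_cons_of_mem _ h)
  set p := (y :: f).reverse with hp
  set v := lst y α with hv
  set n₀ := (LEs p).length with hn₀
  set L1 := (LEs (p ++ α ++ b)).length with hL1
  set L2 := (LEs (v :: b)).length with hL2
  have hL : L1 + 1 = n₀ + α.length + L2 := by omega
  set c : ℂ := z * (starRingEnd ℂ) (z ^ (n₀ + α.length)) with hc
  have hcn : ‖c‖ = 1 := by
    rw [hc, norm_mul, RCLike.norm_conj, norm_pow, hz]; simp
  have hck : z ^ L2 * (starRingEnd ℂ) (z ^ L1) = c := by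
    have e1 : z ^ 1 * (starRingEnd ℂ) (z ^ 1) = 1 := P0_conj_mul hz 1
    have e2 : z ^ L2 * (starRingEnd ℂ) (z ^ L2) = 1 := P0_conj_mul hz L2
    have e3 : (starRingEnd ℂ) (z ^ (L1 + 1)) = (starRingEnd ℂ) (z ^ (n₀ + α.length + L2)) := by rw [hL]
    rw [pow_add, pow_add z (n₀ + α.length), map_mul, map_mul] at e3
    calc z ^ L2 * (starRingEnd ℂ) (z ^ L1)
        = z ^ L2 * (starRingEnd ℂ) (z ^ L1) * (z ^ 1 * (starRingEnd ℂ) (z ^ 1)) := by rw [e1]; ring
      _ = z ^ L2 * z * ((starRingEnd ℂ) (z ^ L1) * (starRingEnd ℂ) (z ^ 1)) := by ring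
      _ = z ^ L2 * z * ((starRingEnd ℂ) (z ^ (n₀ + α.length)) * (starRingEnd ℂ) (z ^ L2)) := by rw [e3]
      _ = z * (starRingEnd ℂ) (z ^ (n₀ + α.length)) * (z ^ L2 * (starRingEnd ℂ) (z ^ L2)) := by ring
      _ = c := by rw [e2, mul_one]
  have h3rd : ‖c * FP K z N (p ++ α ++ b) - FP K z N (v :: b)‖
      = ‖cF K z N (p ++ α ++ b) - cF K z N (v :: b)‖ := by
    have : c * FP K z N (p ++ α ++ b) - FP K z N (v :: b)
        = z ^ L2 * (cF K z N (p ++ α ++ b) - cF K z N (v :: b)) := by
      unfold cF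
      rw [← hL1, ← hL2, mul_sub, ← mul_assoc, ← mul_assoc, hck, P0_conj_mul hz L2, one_mul]
    rw [this, norm_mul, norm_pow, hz, one_pow, one_mul]
  have htau : tau K z N (y :: f) (y :: α) (v :: b) =
      ‖FP K z N (p ++ α) - FP K z N p‖ + ‖FP K z N (p ++ α ++ b) - FP K z N (p ++ α)‖
        + ‖cF K z N (p ++ α ++ b) - cF K z N (v :: b)‖ := by
    simp only [tau, List.tail_cons, ← hp]
  rw [htau]
  have hdec : c * FP K z N p - FP K z N (v :: b)
      = -(c * (FP K z N (p ++ α) - FP K z N p)) + -(c * (FP K z N (p ++ α ++ b) - FP K z N (p ++ α)))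
        + (c * FP K z N (p ++ α ++ b) - FP K z N (v :: b)) := by ring
  rw [hdec]
  refine (norm_add₃_le).trans (le_of_eq ?_)
  rw [h3rd, norm_neg, norm_neg, norm_mul c (FP K z N (p ++ α) - FP K z N p),
    norm_mul c (FP K z N (p ++ α ++ b) - FP K z N (p ++ α)), hcn, one_mul, one_mul]

end Pool.Agent.UQ
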