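import Pool.Agent.UQ.D1
import Pool.Agent.UQ.P0

/-!
# A14 D5 : configuration 1 excludes a lock with z² ≠ 1

Expectation over `v` uniform, `y` with probability `K.p v y`, and independent walks `a` (R steps from `v`), `c` (R steps from `y`), `b` (`l` steps from `v`),
`e` (`l` steps from `y`). On `cfg1 v y a c b e` (in particular `v ≠ y`), with `f_a = conj(z^|LEs A.rev|) FP A.rev`, `A = v::a`, and `f_c` likewise:
* `P0` with `(F, α, b) = (v::a, [v], b)` and `(y::c, [y, v], b)`: `‖f_a - conj z * f_c‖ ≤ tau (v::a) [v] (v::b) + tau (y::c) [y,v] (v::b)`;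
* `P0` with `(y::c, [y], e)` and `(v::a, [v,y], e)`: `‖f_c - conj z * f_a‖ ≤ tau (y::c) [y] (y::e) + tau (v::a) [v,y] (y::e)`.
Hence `‖1 - z²‖ ‖FP A.rev‖ = ‖f_a - conj z ² f_a‖ ≤` the sum of the four `tau`.
Expectations of the four `tau`: by `ERR` with `j = 0` or `j = 1` (for `[y,v]`: `avg_edge` turns `v` uniform, `y ~ p v ·` into `y` uniform,
`v ~ p y ·`; `W K 1 y f = ∑ v, p y v * f [v]`; the other variables are integrated out with `W_comm`, `W_const`): total `≤ 2 EB 0 + 2 EB 1`.
Finally `ind cfg * mR ≤ ind cfg * ‖FP A.rev‖ + |‖FP A.rev‖ - mR|` and `D1` (with `‖1 - z²‖ ≤ 2`, and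
`eta R l + 2 bad R l N ≤ EB 0`): `‖1-z²‖ * mR * avg kap1 ≤ 2 EB 0 + 2 EB 1 + 2 * 2 * EB 0`.
-/

open Finset Pool.Agent.helper20.HP

namespace Pool.Agent.UQ

variable {V : Type} [Fintype V] [DecidableEq V] (K : HW V)

omit [Fintype V] [DecidableEq V] in
theorem D5_lst_nil (x : V) : lst x [] = x := by simp [lst]

omit [Fintype V] [DecidableEq V] in
theorem D5_lst_one (x y : V) : lst x [y] = y := by simp [lst]

/-- the full expectation -/
noncomputable def D5_E (R l : ℕ) (ψ : V → V → List V → List V → List V → List V → ℝ) : ℝ :=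
  avg (fun v => ∑ y, K.p v y * W K R v (fun a => W K R y (fun c => W K l v (fun b =>
    W K l y (fun e => ψ v y a c b e)))))

theorem D5_E_mono {R l : ℕ} {ψ φ : V → V → List V → List V → List V → List V → ℝ}
    (h : ∀ v y a c b e, ψ v y a c b e ≤ φ v y a c b e) : D5_E K R l ψ ≤ D5_E K R l φ := by
  unfold D5_E
  refine avg_mono fun v => sum_le_sum fun y _ => mul_le_mul_of_nonneg_left ?_ (K.nonneg v y)
  exact W_mono K fun a _ => W_mono K fun c _ => W_mono K fun b _ => W_mono K fun e _ => h _ _ _ _ _ _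

theorem D5_E_add (R l : ℕ) (ψ φ : V → V → List V → List V → List V → List V → ℝ) :
    D5_E K R l (fun v y a c b e => ψ v y a c b e + φ v y a c b e)
      = D5_E K R l ψ + D5_E K R l φ := by
  unfold D5_E
  rw [← avg_add]
  congr 1
  funext v
  rw [← sum_add_distrib]
  refine sum_congr rfl fun y _ => ?_
  rw [← mul_add]
  congr 1
  simp only [W_add]

theorem D5_E_mul (R l : ℕ) (c₀ : ℝ) (ψ : V → V → List V → List V → List V → List V → ℝ) :
    D5_E K R l (fun v y a c b e => c₀ * ψ v y a c b e) = c₀ * D5_E K R l ψ := by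
  unfold D5_E
  rw [← avg_mul_left]
  congr 1
  funext v
  rw [mul_sum]
  refine sum_congr rfl fun y _ => ?_
  simp only [W_mul_left]
  ring

theorem D5_sum_p (v : V) (g : ℝ) : ∑ y, K.p v y * g = g := by
  rw [← sum_mul, K.sum_one, one_mul]

/-- a function of `v, a, b` -/
theorem D5_E_vab (R l : ℕ) (ψ : V → List V → List V → ℝ) :
    D5_E K R l (fun v _ a _ b _ => ψ v a b) = avg (fun v => W K R v (fun a => W K l v (fun b => ψ v a b))) := by
  unfold D5_E
  simp only [W_const]
  congr 1
  funext v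
  rw [D5_sum_p]

/-- a function of `v, y, a, e` -/
theorem D5_E_vyae (R l : ℕ) (ψ : V → V → List V → List V → ℝ) :
    D5_E K R l (fun v y a _ _ e => ψ v y a e)
      = avg (fun v => ∑ y, K.p v y * W K R v (fun a => W K l y (fun e => ψ v y a e))) := by
  unfold D5_E
  simp only [W_const]

/-- a function of `v, y, c, b` -/
theorem D5_E_vycb (R l : ℕ) (ψ : V → V → List V → List V → ℝ) :
    D5_E K R l (fun v y _ c b _ => ψ v y c b)
      = avg (fun v => ∑ y, K.p v y * W K R y (fun c => W K l v (fun b => ψ v y c b))) := by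
  unfold D5_E
  simp only [W_const]

/-- a function of `y, c, e` -/
theorem D5_E_yce (R l : ℕ) (ψ : V → List V → List V → ℝ) :
    D5_E K R l (fun _ y _ c _ e => ψ y c e) = avg (fun v => W K R v (fun a => W K l v (fun b => ψ v a b))) := by
  unfold D5_E
  simp only [W_const]
  rw [avg_edge K (fun _ y => W K R y (fun c => W K l y (fun e => ψ y c e)))]
  congr 1
  funext v
  rw [D5_sum_p]

theorem D5_ERR0 [Nonempty V] {z : ℂ} (hz : ‖z‖ = 1) {N : ℕ} (hN : 0 < N) (R l : ℕ) :
    avg (fun v => W K R v (fun a => W K l v (fun b => tau K z N (v :: a) [v] (v :: b))))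
      ≤ EB K z N R l 0 := by
  have h := ERR K hz hN R l 0
  refine le_of_eq_of_le ?_ h
  congr 1

theorem D5_ERR1 [Nonempty V] {z : ℂ} (hz : ‖z‖ = 1) {N : ℕ} (hN : 0 < N) (R l : ℕ) :
    avg (fun v => ∑ y, K.p v y * W K R v (fun a => W K l y (fun e =>
      tau K z N (v :: a) [v, y] (y :: e)))) ≤ EB K z N R l 1 := by
  have h := ERR K hz hN R l 1
  refine le_of_eq_of_le ?_ h
  congr 1
  funext v
  have h1 : ∀ (f : List V → ℝ), W K 1 v f = ∑ y, K.p v y * f [y] := fun f => rfl
  simp only [h1, D5_lst_one]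
  rw [W_sum]
  refine sum_congr rfl fun y _ => ?_
  rw [W_mul_left]

theorem D5_pt {z : ℂ} (hz : ‖z‖ = 1) (N : ℕ) {v y : V} {a c b e : List V}
    (h : cfg1 v y a c b e) :
    ‖1 - z ^ 2‖ * ‖FP K z N (v :: a).reverse‖ ≤
      tau K z N (v :: a) [v] (v :: b) + tau K z N (y :: c) [y, v] (v :: b)
      + (tau K z N (y :: c) [y] (y :: e) + tau K z N (v :: a) [v, y] (y :: e)) := by
  obtain ⟨hd, hb, he⟩ := h
  have hvy : v ≠ y := fun hvy => hd v (by simp) (by simp [hvy])
  have p1 := P0 K hz N v a [] b (by simp) (by simp) (by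
    intro u hu hu'
    rw [D5_lst_nil]
    rcases hu' with hu' | hu'
    · exact hb u hu (Or.inl hu')
    · simpa using hu')
  have p2 := P0 K hz N y c [v] b (by simp [hvy.symm]) (by
    intro u hu hu'
    simp only [List.mem_cons, List.not_mem_nil, or_false] at hu'
    rcases hu' with hu' | hu'
    · exact hu'
    · subst hu'
      exact absurd hu (hd u (by simp))) (by
    intro u hu hu'
    rw [D5_lst_one]
    rcases hu' with hu' | hu'
    · exact hb u hu (Or.inr hu')
    · simp only [List.mem_cons, List.not_mem_nil, or_false] at hu'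
      rcases hu' with hu' | hu'
      · exact hb u hu (Or.inr (by simp [hu']))
      · exact hu')
  have p3 := P0 K hz N y c [] e (by simp) (by simp) (by
    intro u hu hu'
    rw [D5_lst_nil]
    rcases hu' with hu' | hu'
    · exact he u hu (Or.inr hu')
    · simpa using hu')
  have p4 := P0 K hz N v a [y] e (by simp [hvy]) (by
    intro u hu hu'
    simp only [List.mem_cons, List.not_mem_nil, or_false] at hu'
    rcases hu' with hu' | hu'
    · exact hu'
    · subst hu'
      exact absurd (List.mem_cons_self) (hd u hu)) (by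
    intro u hu hu'
    rw [D5_lst_one]
    rcases hu' with hu' | hu'
    · exact he u hu (Or.inl hu')
    · simp only [List.mem_cons, List.not_mem_nil, or_false] at hu'
      rcases hu' with hu' | hu'
      · exact he u hu (Or.inl (by simp [hu']))
      · exact hu')
  rw [D5_lst_nil] at p1 p3
  rw [D5_lst_one] at p2 p4
  simp only [List.length_nil, List.length_cons, Nat.add_zero, Nat.zero_add, pow_add, pow_one,
    map_mul] at p1 p2 p3 p4
  set A : ℂ := FP K z N (v :: a).reverse with hA
  set C : ℂ := FP K z N (y :: c).reverse with hC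
  set B : ℂ := FP K z N (v :: b) with hB
  set E : ℂ := FP K z N (y :: e) with hE
  set w : ℂ := (starRingEnd ℂ) z with hw
  set wa : ℂ := (starRingEnd ℂ) (z ^ (LEs (v :: a).reverse).length) with hwa
  set wc : ℂ := (starRingEnd ℂ) (z ^ (LEs (y :: c).reverse).length) with hwc
  have hwn : ‖w‖ = 1 := by rw [hw, RCLike.norm_conj, hz]
  have hwan : ‖wa‖ = 1 := by rw [hwa, RCLike.norm_conj, norm_pow, hz, one_pow]
  have hzw : z * w = 1 := by
    rw [hw, Complex.mul_conj, Complex.normSq_eq_norm_sq, hz]; norm_num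
  have e1 : ‖wa * A - w * (wc * C)‖ ≤ tau K z N (v :: a) [v] (v :: b) + tau K z N (y :: c) [y, v] (v :: b) := by
    have : ‖z * (wa * A - w * (wc * C))‖ = ‖wa * A - w * (wc * C)‖ := by
      rw [norm_mul, hz, one_mul]
    rw [← this]
    have h2 : z * (wa * A - w * (wc * C)) = (z * wa * A - B) - (z * (wc * w) * C - B) := by ring
    rw [h2]
    exact le_trans (norm_sub_le _ _) (add_le_add p1 p2)
  have e2 : ‖wc * C - w * (wa * A)‖ ≤ tau K z N (y :: c) [y] (y :: e) + tau K z N (v :: a) [v, y] (y :: e) := by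
    have : ‖z * (wc * C - w * (wa * A))‖ = ‖wc * C - w * (wa * A)‖ := by
      rw [norm_mul, hz, one_mul]
    rw [← this]
    have h2 : z * (wc * C - w * (wa * A)) = (z * wc * C - E) - (z * (wa * w) * A - E) := by ring
    rw [h2]
    exact le_trans (norm_sub_le _ _) (add_le_add p3 p4)
  have hnorm : ‖1 - z ^ 2‖ * ‖A‖ = ‖(1 - w ^ 2) * (wa * A)‖ := by
    rw [norm_mul, norm_mul, hwan, one_mul]
    congr 1
    have : (1 - w ^ 2) = (starRingEnd ℂ) (1 - z ^ 2) := by
      rw [map_sub, map_pow, map_one]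
    rw [this, RCLike.norm_conj]
  rw [hnorm]
  have h3 : (1 - w ^ 2) * (wa * A) = (wa * A - w * (wc * C)) + w * (wc * C - w * (wa * A)) := by ring
  rw [h3]
  refine le_trans (norm_add_le _ _) ?_
  rw [norm_mul, hwn, one_mul]
  exact add_le_add e1 e2

theorem D5_tau_nonneg (z : ℂ) (N : ℕ) (F α B : List V) : 0 ≤ tau K z N F α B := by
  unfold tau; positivity

theorem D5_EB0 (z : ℂ) (N R l : ℕ) : eta K z N R l + 2 * bad K R l N ≤ EB K z N R l 0 := by
  unfold EB
  have h0 : 0 ≤ eta K z N R 0 := Real.sqrt_nonneg _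
  simp only [Nat.add_zero]
  linarith

theorem D5 [Nonempty V] {z : ℂ} (hz : ‖z‖ = 1) {N : ℕ} (hN : 0 < N) (R l : ℕ) :
    ‖1 - z ^ 2‖ * mR K z N R * avg (kap1 K R l) ≤ 6 * EB K z N R l 0 + 2 * EB K z N R l 1 := by
  have hkap : avg (kap1 K R l) = D5_E K R l (fun v y a c b e => ind (cfg1 v y a c b e)) := rfl
  rw [hkap, ← D5_E_mul]
  have h2 : ‖1 - z ^ 2‖ ≤ 2 := by
    refine le_trans (norm_sub_le _ _) ?_
    rw [norm_one, norm_pow, hz]; norm_num
  have hmR : 0 ≤ mR K z N R := by
    unfold mR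
    exact avg_nonneg fun v => W_nonneg K fun a _ => norm_nonneg _
  have step : D5_E K R l (fun v y a c b e => ‖1 - z ^ 2‖ * mR K z N R * ind (cfg1 v y a c b e)) ≤
      D5_E K R l (fun v y a c b e =>
        (tau K z N (v :: a) [v] (v :: b) + tau K z N (y :: c) [y, v] (v :: b)
        + (tau K z N (y :: c) [y] (y :: e) + tau K z N (v :: a) [v, y] (y :: e)))
        + 2 * |‖FP K z N (v :: a).reverse‖ - mR K z N R|) := by
    refine D5_E_mono K fun v y a c b e => ?_
    by_cases h : cfg1 v y a c b e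
    · rw [ind_true h, mul_one]
      have h1 := D5_pt K hz N h
      have h3 : mR K z N R ≤ ‖FP K z N (v :: a).reverse‖ + |‖FP K z N (v :: a).reverse‖ - mR K z N R| := by
        have := neg_abs_le (‖FP K z N (v :: a).reverse‖ - mR K z N R)
        linarith
      calc ‖1 - z ^ 2‖ * mR K z N R
          ≤ ‖1 - z ^ 2‖ * (‖FP K z N (v :: a).reverse‖ + |‖FP K z N (v :: a).reverse‖ - mR K z N R|) :=
            mul_le_mul_of_nonneg_left h3 (norm_nonneg _)
        _ = ‖1 - z ^ 2‖ * ‖FP K z N (v :: a).reverse‖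
            + ‖1 - z ^ 2‖ * |‖FP K z N (v :: a).reverse‖ - mR K z N R| := by ring
        _ ≤ _ := add_le_add h1 (mul_le_mul_of_nonneg_right h2 (abs_nonneg _))
    · rw [ind_false h, mul_zero]
      have t1 := D5_tau_nonneg K z N (v :: a) [v] (v :: b)
      have t2 := D5_tau_nonneg K z N (y :: c) [y, v] (v :: b)
      have t3 := D5_tau_nonneg K z N (y :: c) [y] (y :: e)
      have t4 := D5_tau_nonneg K z N (v :: a) [v, y] (y :: e)
      positivity
  refine le_trans step ?_
  rw [D5_E_add, D5_E_add, D5_E_add, D5_E_add, D5_E_mul]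
  have q1 : D5_E K R l (fun v _ a _ b _ => tau K z N (v :: a) [v] (v :: b)) ≤ EB K z N R l 0 := by
    rw [D5_E_vab K R l (fun v a b => tau K z N (v :: a) [v] (v :: b))]
    exact D5_ERR0 K hz hN R l
  have q2 : D5_E K R l (fun v y _ c b _ => tau K z N (y :: c) [y, v] (v :: b)) ≤ EB K z N R l 1 := by
    rw [D5_E_vycb K R l (fun v y c b => tau K z N (y :: c) [y, v] (v :: b)),
      avg_edge K (fun v y => W K R y (fun c => W K l v (fun b =>
        tau K z N (y :: c) [y, v] (v :: b))))]
    exact D5_ERR1 K hz hN R l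
  have q3 : D5_E K R l (fun _ y _ c _ e => tau K z N (y :: c) [y] (y :: e)) ≤ EB K z N R l 0 := by
    rw [D5_E_yce K R l (fun y c e => tau K z N (y :: c) [y] (y :: e))]
    exact D5_ERR0 K hz hN R l
  have q4 : D5_E K R l (fun v y a _ _ e => tau K z N (v :: a) [v, y] (y :: e)) ≤ EB K z N R l 1 := by
    rw [D5_E_vyae K R l (fun v y a e => tau K z N (v :: a) [v, y] (y :: e))]
    exact D5_ERR1 K hz hN R l
  have q5 : D5_E K R l (fun v _ a _ _ _ => |‖FP K z N (v :: a).reverse‖ - mR K z N R|)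
      ≤ 2 * EB K z N R l 0 := by
    rw [D5_E_vab K R l (fun v a _ => |‖FP K z N (v :: a).reverse‖ - mR K z N R|)]
    simp only [W_const]
    have h1 := D1 K hz hN R l
    have h3 := D5_EB0 K z N R l
    linarith
  linarith

end Pool.Agent.UQ
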