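import Pool.Agent.UQ.WSym

/-!
# A15 D6 : configuration 2 (a cycle of length g, arcs of lengths i and g - i)

`v` uniform, `α` = walk of `g` steps from `v` (`c_0 = v, c_1, …, c_g`), `y = c_i`, `f` = walk of `R` steps from `y`, `b` = walk of `l` steps from `v`.
On `cfg2`: arcs `y :: α₁` with `α₁ = [c_{i-1}, …, c_0]` and `y :: α₂`, `α₂ = [c_{i+1}, …, c_g]`, both simple paths from `y` to `v`. `P0` for both, same `b`:
`‖conj(z^(n₀+i)) FP F.rev - conj(z^(n₀+g-i)) FP F.rev‖ ≤ tau F (y::α₁) (v::b) + tau F (y::α₂) (v::b)` and the left side is
`‖z^i - z^(g-i)‖ ‖FP F.rev‖`.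
`marg1`, `marg2`: the joint law of `(y, f, α₁, b)`, resp. of `(y, f, α₂, b)` on the event `c_g = v`, is dominated by the law of
(y uniform, f from y, arc from y, b from the end of the arc). Proof: `W_append` at time `i` splits `α` into `α' ` (i steps from `v` to `y`) and
`α₂` (g-i steps from `y`); reversal of the first part (`avg_W_two_sided`) makes `y` uniform and `α₁` a walk of `i` steps from `y` to `v`. For `marg1` integrate out
`α₂`. For `marg2` replace on the event `lst α₂ = v` the start `v` of `b` by `lst α₂` and then drop the indicator and integrate out `α₁`.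
Then `ERR` with `j = i` and `j = g - i`; and `D1` for `y` (uniform) with `‖z^i - z^(g-i)‖ ≤ 2`.
-/

open Finset Pool.Agent.helper20.HP

namespace Pool.Agent.UQ

variable {V : Type} [Fintype V] [DecidableEq V] (K : HW V)

omit [Fintype V] [DecidableEq V] in
/-- the vertex at time `i` of a path with at least `i` steps -/
theorem D6M_getD (v : V) : ∀ (a b : List V), (v :: (a ++ b)).getD a.length v = lst v a := by
  intro a
  induction a using List.reverseRecOn with
  | nil => intro b; simp [lst]
  | append_singleton a x _ =>
    intro b
    simp [lst, List.getD_eq_getElem?_getD]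

omit [Fintype V] [DecidableEq V] in
theorem D6M_take (v : V) (a b : List V) :
    (v :: (a ++ b)).take a.length = (v :: a).dropLast := by
  rw [List.dropLast_eq_take]
  simp only [List.length_cons, Nat.add_sub_cancel]
  rw [← List.cons_append, List.take_append_of_le_length (by simp)]

omit [Fintype V] [DecidableEq V] in
theorem D6M_rev (v : V) (a : List V) :
    (v :: a).reverse = lst v a :: (v :: a).dropLast.reverse := by
  have h : (v :: a) = (v :: a).dropLast ++ [lst v a] := by
    have h1 := List.dropLast_append_getLast (l := v :: a) (by simp)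
    have h2 : (v :: a).getLast (by simp) = lst v a := by
      unfold lst
      rw [List.getLastD_eq_getLast?]
      cases a with
      | nil => simp
      | cons x a =>
        simp only [List.getLast_cons_cons]
        rw [List.getLast?_eq_some_getLast (by simp)]
        simp
    rw [h2] at h1
    exact h1.symm
  conv_lhs => rw [h]
  rw [List.reverse_append]
  simp

theorem marg1 (g i R l : ℕ) (hi : i ≤ g) (ψ : V → List V → List V → List V → ℝ)
    (hψ : ∀ y f α b, 0 ≤ ψ y f α b) :
    avg (fun v => W K g v (fun α => W K R ((v :: α).getD i v) (fun f => W K l v (fun b =>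
      ψ ((v :: α).getD i v) f ((v :: α).take i).reverse b))))
    ≤ avg (fun y => W K R y (fun f => W K i y (fun α => W K l (lst y α) (fun b => ψ y f α b)))) := by
  obtain ⟨j, rfl⟩ := Nat.exists_eq_add_of_le hi
  have h1 : ∀ v : V, W K (i + j) v (fun α => W K R ((v :: α).getD i v) (fun f => W K l v (fun b =>
      ψ ((v :: α).getD i v) f ((v :: α).take i).reverse b))) =
      W K i v (fun a => (fun (u : V) (p : List V) => W K R (p.headD u) (fun f => W K l u (fun b =>
        ψ (p.headD u) f p.tail b))) v (v :: a).reverse) := by
    intro v
    rw [W_append]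
    refine W_congr K fun a ha => ?_
    have : ∀ m : List V, W K R ((v :: (a ++ m)).getD i v) (fun f => W K l v (fun b =>
        ψ ((v :: (a ++ m)).getD i v) f ((v :: (a ++ m)).take i).reverse b)) =
        (fun (u : V) (p : List V) => W K R (p.headD u) (fun f => W K l u (fun b =>
        ψ (p.headD u) f p.tail b))) v (v :: a).reverse := by
      intro m
      subst ha
      rw [D6M_getD, D6M_take, D6M_rev]
      simp
    simp only [this]
    exact W_const K j (lst v a) _
  have h2 := avg_W_two_sided K i (fun (u : V) (p : List V) => W K R (p.headD u) (fun f =>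
    W K l u (fun b => ψ (p.headD u) f p.tail b)))
  simp only [h1]
  refine le_of_eq (h2.trans ?_)
  congr 1
  funext y
  simp only [List.headD_cons, List.tail_cons]
  exact W_comm K i R y y _

theorem marg2 (g i R l : ℕ) (hi : i ≤ g) (ψ : V → List V → List V → List V → ℝ)
    (hψ : ∀ y f α b, 0 ≤ ψ y f α b) :
    avg (fun v => W K g v (fun α => W K R ((v :: α).getD i v) (fun f => W K l v (fun b =>
      ind (lst v α = v) * ψ ((v :: α).getD i v) f (α.drop i) b))))
    ≤ avg (fun y => W K R y (fun f => W K (g - i) y (fun α => W K l (lst y α) (fun b =>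
      ψ y f α b)))) := by
  obtain ⟨j, rfl⟩ := Nat.exists_eq_add_of_le hi
  have hj : i + j - i = j := by omega
  rw [hj]
  have h1 : ∀ v : V, W K (i + j) v (fun α => W K R ((v :: α).getD i v) (fun f => W K l v (fun b =>
      ind (lst v α = v) * ψ ((v :: α).getD i v) f (α.drop i) b))) ≤
      W K i v (fun a => (fun y => W K j y (fun α => W K R y (fun f => W K l (lst y α) (fun b =>
        ψ y f α b)))) (lst v a)) := by
    intro v
    rw [W_append]
    refine W_mono K fun a ha => ?_
    refine W_mono K fun m hm => ?_
    subst ha
    rw [D6M_getD]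
    refine W_mono K fun f hf => ?_
    rw [List.drop_left]
    have hl : lst v (a ++ m) = lst (lst v a) m := by
      unfold lst
      cases m using List.reverseRecOn with
      | nil => simp
      | append_singleton m x => simp [← List.append_assoc]
    rw [hl]
    by_cases h : lst (lst v a) m = v
    · rw [ind_true h, h]
      simp
    · rw [ind_false h]
      simp only [zero_mul]
      rw [W_const]
      exact W_nonneg K fun b _ => hψ _ _ _ _
  have h3 := avg_W_last K i (fun y => W K j y (fun α => W K R y (fun f => W K l (lst y α) (fun b =>
    ψ y f α b))))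
  refine (avg_mono h1).trans (le_of_eq (h3.trans ?_))
  congr 1
  funext y
  exact W_comm K j R y y _

end Pool.Agent.UQ
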