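import Pool.Agent.UQ.D1
import Pool.Agent.UQ.P0
import Pool.Agent.UQ.D6M

/-!
# A15 D6 : configuration 2 (a cycle of length g, arcs of lengths i and g - i)

`v` uniform, `α` = walk of `g` steps from `v` (`c_0 = v, c_1, …, c_g`), `y = c_i`, `f` = walk of `R` steps from `y`, `b` = walk of `l` steps from `v`.
On `cfg2`: arcs `y :: α₁` with `α₁ = [c_{i-1}, …, c_0]` and `y :: α₂`, `α₂ = [c_{i+1}, …, c_g]`, both simple paths from `y` to `v`. `P0` for both, same `b`:
`‖conj(z^(n₀+i)) FP F.rev - conj(z^(n₀+g-i)) FP F.rev‖ ≤ tau F (y::α₁) (v::b) + tau F (y::α₂) (v::b)` and the left side is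
`‖z^i - z^(g-i)‖ ‖FP F.rev‖`.
`marg1`, `marg2`: the joint law of `(y, f, α₁, b)`, resp. of `(y, f, α₂, b)` on the event `c_g = v`, is dominated by the law of
(y uniform, f from y, arc from y, b from the end of the arc). Proof: `W_append` at time `i` splits `α` into `α' ` (i steps from `v` to `y`) and
`α₂` (g-i steps from `y`); reversal of the first part (`avg_W_two_sided`) makes `y` uniform and `α₁` a walk of `i` steps from `y` to `v`. For `marg1` integrate out
`α₂`. For `marg2` replace on the event `lst α₂ = v` the start `v` of `b` by `lst α₂` and then drop the indicator and integrate out `α₁`.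
Then `ERR` with `j = i` and `j = g - i`; and `D1` for `y` (uniform) with `‖z^i - z^(g-i)‖ ≤ 2`.
-/

open Finset Pool.Agent.helper20.HP

namespace Pool.Agent.UQ

variable {V : Type} [Fintype V] [DecidableEq V] (K : HW V)

theorem D6_tau_nonneg (z : ℂ) (N : ℕ) (F α B : List V) : 0 ≤ tau K z N F α B := by
  unfold tau; positivity

/-- combinatorics of a closed path `v :: α` of length `g`, cut at `i` -/
theorem D6_comb {g i : ℕ} (hi : 0 < i) (hig : i < g) (v : V) (α : List V) (hα : α.length = g)
    (hl : lst v α = v) (hnd : (v :: α).dropLast.Nodup) :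
    ((v :: α).getD i v :: ((v :: α).take i).reverse).Nodup ∧
    ((v :: α).getD i v :: α.drop i).Nodup ∧
    lst ((v :: α).getD i v) ((v :: α).take i).reverse = v ∧
    lst ((v :: α).getD i v) (α.drop i) = v ∧
    (∀ u ∈ (v :: α).getD i v :: ((v :: α).take i).reverse, u ∈ v :: α) ∧
    (∀ u ∈ (v :: α).getD i v :: α.drop i, u ∈ v :: α) := by
  have hlen : (v :: α).length = g + 1 := by simp [hα]
  have hilt : i < (v :: α).length := by omega
  have hy : (v :: α).getD i v = (v :: α)[i] := List.getD_eq_getElem _ _ hilt
  have hymem : (v :: α).getD i v ∈ v :: α := by rw [hy]; exact List.getElem_mem hilt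
  have hne : α ≠ [] := by
    intro h; subst h; simp at hα; omega
  have hαl : α.dropLast ++ [v] = α := by
    have h1 : α.getLast hne = v := by
      unfold lst at hl
      rw [List.getLastD_eq_getLast?, List.getLast?_eq_some_getLast hne] at hl
      simpa using hl
    have h2 := List.dropLast_append_getLast hne
    rw [h1] at h2; exact h2
  have hdl : (v :: α).dropLast = v :: α.dropLast := List.dropLast_cons_of_ne_nil hne
  rw [hdl] at hnd
  have hnd' := List.nodup_cons.mp hnd
  have hαnd : α.Nodup := by
    rw [← hαl]
    refine List.Nodup.append hnd'.2 (List.nodup_singleton v) ?_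
    intro a ha hb
    rw [List.mem_singleton] at hb
    subst hb
    exact hnd'.1 ha
  have htake : (v :: α).take i ++ [(v :: α).getD i v] = (v :: α).take (i + 1) := by
    rw [hy]; exact List.take_concat_get' _ _ hilt
  have hdrop : (v :: α).getD i v :: α.drop i = (v :: α).drop i := by
    rw [hy, List.drop_eq_getElem_cons hilt]
    simp
  have htake2 : (v :: α).take (i + 1) = (v :: α.dropLast).take (i + 1) := by
    conv_lhs => rw [← hαl]
    rw [← List.cons_append, List.take_append_of_le_length]
    simp only [List.length_cons, List.length_dropLast, hα]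
    omega
  refine ⟨?_, ?_, ?_, ?_, ?_, ?_⟩
  · have h1 : ((v :: α).getD i v :: ((v :: α).take i).reverse) = ((v :: α).take (i + 1)).reverse := by
      rw [← htake]; simp
    rw [h1, List.nodup_reverse, htake2]
    exact hnd.sublist (List.take_sublist _ _)
  · rw [hdrop]
    obtain ⟨k, rfl⟩ : ∃ k, i = k + 1 := ⟨i - 1, by omega⟩
    rw [List.drop_succ_cons]
    exact hαnd.sublist (List.drop_sublist _ _)
  · obtain ⟨k, rfl⟩ : ∃ k, i = k + 1 := ⟨i - 1, by omega⟩
    unfold lst
    rw [List.take_succ_cons, List.reverse_cons]
    simp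
  · unfold lst at hl ⊢
    have hne2 : α.drop i ≠ [] := by
      intro h
      have := congrArg List.length h
      simp at this; omega
    have h1 : (α.drop i).getLast hne2 = α.getLast hne := List.getLast_drop hne2
    rw [List.getLastD_eq_getLast?, List.getLast?_eq_some_getLast hne] at hl
    rw [List.getLastD_eq_getLast?, List.getLast?_eq_some_getLast hne2, h1]
    simpa using hl
  · intro u hu
    rcases List.mem_cons.mp hu with h | h
    · rw [h]; exact hymem
    · rw [List.mem_reverse] at h
      exact List.mem_of_mem_take h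
  · intro u hu
    rcases List.mem_cons.mp hu with h | h
    · rw [h]; exact hymem
    · exact List.mem_cons_of_mem _ (List.mem_of_mem_drop h)

/-- the pointwise inequality on the configuration -/
theorem D6_pt {z : ℂ} (hz : ‖z‖ = 1) (N : ℕ) {g i : ℕ} (hi : 0 < i)
    (hig : i < g) (v : V) (α f b : List V) (hα : α.length = g)
    (hc : cfg2 v ((v :: α).getD i v) α f b) :
    ‖z ^ i - z ^ (g - i)‖ * ‖FP K z N (((v :: α).getD i v) :: f).reverse‖
      ≤ tau K z N (((v :: α).getD i v) :: f) (((v :: α).getD i v) :: ((v :: α).take i).reverse)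
          (lst ((v :: α).getD i v) ((v :: α).take i).reverse :: b)
        + tau K z N (((v :: α).getD i v) :: f) (((v :: α).getD i v) :: α.drop i)
          (lst ((v :: α).getD i v) (α.drop i) :: b) := by
  obtain ⟨hl, hnd, h2, h3⟩ := hc
  obtain ⟨n1, n2, l1, l2, m1, m2⟩ := D6_comb hi hig v α hα hl hnd
  have hlen1 : ((v :: α).take i).reverse.length = i := by
    rw [List.length_reverse, List.length_take, List.length_cons, hα]; omega
  have hlen2 : (α.drop i).length = g - i := by rw [List.length_drop, hα]
  set y := (v :: α).getD i v with hy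
  have p1 := P0 K hz N y f ((v :: α).take i).reverse b n1
    (fun u hu hu' => h2 u hu (m1 u hu'))
    (fun u hu hu' => by
      rw [l1]; apply h3 u hu
      rcases hu' with h | h
      · right; exact h
      · left; exact m1 u h)
  have p2 := P0 K hz N y f (α.drop i) b n2
    (fun u hu hu' => h2 u hu (m2 u hu'))
    (fun u hu hu' => by
      rw [l2]; apply h3 u hu
      rcases hu' with h | h
      · right; exact h
      · left; exact m2 u h)
  rw [hlen1] at p1
  rw [hlen2] at p2
  rw [l1] at p1 ⊢
  rw [l2] at p2 ⊢
  set n₀ := (LEs (y :: f).reverse).length with hn₀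
  set A := FP K z N (y :: f).reverse with hA
  set B := FP K z N (v :: b) with hB
  have key : ‖z ^ i - z ^ (g - i)‖ * ‖A‖ =
      ‖(z * (starRingEnd ℂ) (z ^ (n₀ + i)) * A - B)
        - (z * (starRingEnd ℂ) (z ^ (n₀ + (g - i))) * A - B)‖ := by
    have e : (z * (starRingEnd ℂ) (z ^ (n₀ + i)) * A - B)
        - (z * (starRingEnd ℂ) (z ^ (n₀ + (g - i))) * A - B)
        = z * ((starRingEnd ℂ) (z ^ n₀)) * ((starRingEnd ℂ) (z ^ i - z ^ (g - i))) * A := by
      rw [pow_add, pow_add, map_mul, map_mul, map_sub]; ring
    rw [e, norm_mul, norm_mul, norm_mul, RCLike.norm_conj, RCLike.norm_conj, norm_pow, hz]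
    simp
  rw [key]
  refine (norm_sub_le _ _).trans (add_le_add p1 p2)

theorem D6 [Nonempty V] {z : ℂ} (hz : ‖z‖ = 1) {N : ℕ} (hN : 0 < N) {g i : ℕ} (hi : 0 < i)
    (hig : i < g) (R l : ℕ) :
    ‖z ^ i - z ^ (g - i)‖ * mR K z N R * avg (kap2 K g i R l)
      ≤ EB K z N R l i + EB K z N R l (g - i) + 4 * EB K z N R l 0 := by
  set D := ‖z ^ i - z ^ (g - i)‖ with hD
  set m := mR K z N R with hm
  have hD2 : D ≤ 2 := by
    rw [hD]
    refine (norm_sub_le _ _).trans ?_
    rw [norm_pow, norm_pow, hz]; norm_num
  have hD0 : 0 ≤ D := norm_nonneg _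
  let ψ : V → List V → List V → List V → ℝ := fun y f α b =>
    tau K z N (y :: f) (y :: α) (lst y α :: b)
  have hψ : ∀ y f α b, 0 ≤ ψ y f α b := fun y f α b => D6_tau_nonneg K z N _ _ _
  let h : V → List V → ℝ := fun y f => |‖FP K z N (y :: f).reverse‖ - m|
  have hpt : ∀ (v : V) (α f b : List V), α.length = g →
      D * m * ind (cfg2 v ((v :: α).getD i v) α f b)
      ≤ ψ ((v :: α).getD i v) f ((v :: α).take i).reverse b
        + ind (lst v α = v) * ψ ((v :: α).getD i v) f (α.drop i) b
        + 2 * h ((v :: α).getD i v) f := by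
    intro v α f b hα
    by_cases hc : cfg2 v ((v :: α).getD i v) α f b
    · rw [ind_true hc, mul_one, ind_true hc.1, one_mul]
      have h1 := D6_pt K hz N hi hig v α f b hα hc
      have h2 : D * m ≤ D * ‖FP K z N (((v :: α).getD i v) :: f).reverse‖
          + 2 * h ((v :: α).getD i v) f := by
        have h3 : m ≤ ‖FP K z N (((v :: α).getD i v) :: f).reverse‖
            + h ((v :: α).getD i v) f := by
          have := neg_abs_le (‖FP K z N (((v :: α).getD i v) :: f).reverse‖ - m)
          simp only [h]; linarith
        have h4 : 0 ≤ h ((v :: α).getD i v) f := abs_nonneg _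
        nlinarith
      simp only [ψ]
      linarith
    · rw [ind_false hc, mul_zero]
      have h1 := hψ ((v :: α).getD i v) f ((v :: α).take i).reverse b
      have h2 := hψ ((v :: α).getD i v) f (α.drop i) b
      have h3 := ind_nonneg (lst v α = v)
      have h4 : 0 ≤ h ((v :: α).getD i v) f := abs_nonneg _
      positivity
  have hL : D * m * avg (kap2 K g i R l) = avg (fun v => W K g v (fun α =>
      W K R ((v :: α).getD i v) (fun f => W K l v (fun b =>
        D * m * ind (cfg2 v ((v :: α).getD i v) α f b))))) := by
    rw [← avg_mul_left]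
    congr 1
    funext v
    unfold kap2
    simp only [W_mul_left]
  have hstep : avg (fun v => W K g v (fun α =>
      W K R ((v :: α).getD i v) (fun f => W K l v (fun b =>
        D * m * ind (cfg2 v ((v :: α).getD i v) α f b)))))
      ≤ avg (fun v => W K g v (fun α => W K R ((v :: α).getD i v) (fun f => W K l v (fun b =>
          ψ ((v :: α).getD i v) f ((v :: α).take i).reverse b))))
        + avg (fun v => W K g v (fun α => W K R ((v :: α).getD i v) (fun f => W K l v (fun b =>
          ind (lst v α = v) * ψ ((v :: α).getD i v) f (α.drop i) b))))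
        + avg (fun v => W K g v (fun α => W K R ((v :: α).getD i v) (fun f => W K l v (fun _ =>
          2 * h ((v :: α).getD i v) f)))) := by
    rw [← avg_add, ← avg_add]
    apply avg_mono
    intro v
    rw [← W_add, ← W_add]
    apply W_mono
    intro α hα
    rw [← W_add, ← W_add]
    apply W_mono
    intro f _
    rw [← W_add, ← W_add]
    apply W_mono
    intro b _
    exact hpt v α f b hα
  have hM1 := marg1 K g i R l hig.le ψ hψ
  have hM2 := marg2 K g i R l hig.le ψ hψ
  have hE1 := ERR K hz hN R l i
  have hE2 := ERR K hz hN R l (g - i)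
  have hT3 : avg (fun v => W K g v (fun α => W K R ((v :: α).getD i v) (fun f => W K l v (fun _ =>
          2 * h ((v :: α).getD i v) f)))) = 2 * avg (fun y => W K R y (h y)) := by
    have h1 : ∀ v : V, W K g v (fun α => W K R ((v :: α).getD i v) (fun f => W K l v (fun _ =>
          2 * h ((v :: α).getD i v) f))) = W K i v (fun α => 2 * W K R (lst v α) (h (lst v α))) := by
      intro v
      obtain ⟨k, rfl⟩ : ∃ k, g = i + k := ⟨g - i, by omega⟩
      rw [W_append]
      apply W_congr
      intro α hα
      have h2 : ∀ m : List V, (v :: (α ++ m)).getD i v = lst v α := by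
        intro m
        unfold lst
        rw [← List.cons_append]
        rw [List.getD_append _ _ _ _ (by simp [hα])]
        rcases List.eq_nil_or_concat α with h | ⟨α', a, h⟩
        · subst h; simp at hα; omega
        · rw [List.concat_eq_append] at h
          subst h
          have : i = (v :: α').length := by simp at hα ⊢; omega
          rw [this, ← List.cons_append]
          rw [List.getD_append_right _ _ _ _ (le_refl _)]
          simp
      simp only [h2, W_const]
      rw [← W_mul_left]
    simp only [h1]
    rw [avg_W_last K i (fun y => 2 * W K R y (h y)), avg_mul_left]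
  have hD1 := D1 K hz hN R l
  have hEB0 : eta K z N R l + 2 * bad K R l N ≤ EB K z N R l 0 := by
    unfold EB
    simp only [Nat.add_zero]
    have : 0 ≤ eta K z N R 0 := Real.sqrt_nonneg _
    linarith
  rw [hL]
  have hD1' : avg (fun y => W K R y (h y)) ≤ 2 * (eta K z N R l + 2 * bad K R l N) := hD1
  have hM1' : avg (fun v => W K g v (fun α => W K R ((v :: α).getD i v) (fun f => W K l v (fun b =>
      ψ ((v :: α).getD i v) f ((v :: α).take i).reverse b)))) ≤ EB K z N R l i := hM1.trans hE1
  have hM2' : avg (fun v => W K g v (fun α => W K R ((v :: α).getD i v) (fun f => W K l v (fun b =>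
      ind (lst v α = v) * ψ ((v :: α).getD i v) f (α.drop i) b)))) ≤ EB K z N R l (g - i) :=
    hM2.trans hE2
  linarith [hstep, hT3, hM1', hM2', hD1', hEB0]

end Pool.Agent.UQ
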