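import Pool.Agent.UQ.Trans

/-!
# B17 P4 : a thin infinite set is visible far away

`R` infinite, `Φ` finite: choose `v ∈ R` with `Esc Φ v` (`nonesc_finite`). Almost surely the walk from `v` visits `R` finitely often and it starts in `R`, so there is a last visit `t`; on an event of positive probability the walk avoids `Φ`
and the last visit is at time `t` (some `t`, countable union), and then for some word `w` of length `t+1` (finitely many): the walk starts with `w`, `x = endp v (w.take t) ∈ R \ Φ`, and from `y = endp v w ∉ R` on it avoids `R`.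
So `Esc R y`, and `y ≠ x` so `Adj x y`.
-/


open Finset MeasureTheory Pool.Agent.helper20.HP

namespace Pool.Agent.UQ

variable {V : Type} {D : ℕ} {nb : V → Fin D → V} {μ : Measure (ℕ → Lt D)}

theorem vis_far {θ : ℝ} (G : GInf nb θ) (hμ : LM μ) {R Φ : Set V} (hinf : R.Infinite)
    (hthin : Thin nb μ R) (hΦ : Φ.Finite) : ∃ x ∈ R, x ∉ Φ ∧ Vis nb μ R x := by
  have hcount := countable_of_cnn G.cnn
  obtain ⟨v, hvR, hv⟩ := (hinf.sdiff (nonesc_finite G hμ hΦ)).nonempty
  have hE : Esc nb μ Φ v := by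
    by_contra h
    exact hv h
  have hfreq : ∃ᶠ ω in ae μ, ∀ t, Xi nb v ω t ∉ Φ := by
    rw [frequently_ae_iff]
    exact hE.ne'
  have h1 : ∀ᵐ ω ∂μ, ∀ (y : V) (t : ℕ), ¬ Esc nb μ R y →
      ¬ ∀ s, Xi nb y (dropW (t + 1) ω) s ∉ R := by
    rw [ae_all_iff]
    intro y
    rw [ae_all_iff]
    intro t
    by_cases hy : Esc nb μ R y
    · exact Filter.Eventually.of_forall fun ω h => absurd hy h
    · have h2 : ∀ᵐ η ∂μ, ¬ ∀ s, Xi nb y η s ∉ R := by
        rw [ae_iff]
        simp only [not_not]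
        by_contra h0
        exact hy (pos_iff_ne_zero.mpr h0)
      filter_upwards [nul1 hμ h2 [] (t + 1)] with ω hω _
      exact hω
  obtain ⟨ω, hω1, hω2, hω3⟩ := (hfreq.and_eventually (h1.and (hthin v))).exists
  -- last visit
  have hne : {t | Xi nb v ω t ∈ R}.Nonempty := ⟨0, hvR⟩
  obtain ⟨t, ht, hmax⟩ := Set.exists_max_image _ (fun t : ℕ => t) hω3 hne
  have hafter : ∀ s, Xi nb v ω (t + 1 + s) ∉ R := fun s hs => by
    have := hmax (t + 1 + s) hs
    omega
  have hesc : Esc nb μ R (Xi nb v ω (t + 1)) := by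
    by_contra h
    refine hω2 (Xi nb v ω (t + 1)) t h fun s => ?_
    rw [Xi_drop]
    exact hafter s
  refine ⟨Xi nb v ω t, ht, hω1 t, Xi nb v ω (t + 1), ?_, hesc⟩
  rcases Xi_step nb v ω t with h | h
  · exact absurd (h ▸ ht) (hafter 0)
  · exact h

end Pool.Agent.UQ
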