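import Pool.Agent.UQ.ExAut

/-!
# B3 PK : transition probabilities on labelled graphs

* `pk_symm`: for finite `V` this is symmetry of the one step kernel; here by induction using one step at the beginning and one step at the
  end: `pk (t+1) x y = (2D)⁻¹ ∑_l pk t (mv x l) y` and (`Ex_append` with the last step at the end) `pk (t+1) x y = (2D)⁻¹ ∑_l pk t x (mv y l)`, the
  latter because for fixed `y` the letters `l` with `mv u l = y` (over all `u`) correspond to the `mv y l` (`Reg`): for every function `h` with finite support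
  `(2D)⁻¹ ∑_l ind (mv u l = y) = (2D)⁻¹ ∑_l ind (mv y l = u)` (one step symmetry: `#{i | nb u i = y} = #{i | nb y i = u}` is `1` or `0`).
* `pk_supp`: the finset `ball nb t x` of end points of words of length `t`; `pk t x y ≠ 0 → y ∈ ball`.
* `pk_add`: `Ex_append`.
* `pk_le`: Cauchy-Schwarz `pk (2s) x y = ∑_z pk s x z pk s z y ≤ (pk (2s) x x pk (2s) y y)^{1/2} = pk (2s) o o`, and `pk (2s+1) x y ≤ sup`.
-/

open Finset Pool.Agent.helper20.HP

namespace Pool.Agent.UQ

variable {V : Type} {D : ℕ} {nb : V → Fin D → V}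

theorem PK_lst_cons (x y : V) (m : List V) : lst x (y :: m) = lst y m := by
  unfold lst
  rw [List.getLastD_cons]

theorem PK_lst_append (x : V) (l m : List V) : lst x (l ++ m) = lst (lst x l) m := by
  unfold lst
  rcases List.eq_nil_or_concat m with rfl | ⟨m', b, rfl⟩
  · simp
  · simp [← List.append_assoc]

theorem PK_zero (x y : V) : pk nb 0 x y = ind (x = y) := by
  simp [pk, Ex, lst]

theorem PK_succ (t : ℕ) (x y : V) :
    pk nb (t + 1) x y = (2 * (D : ℝ))⁻¹ * ∑ l : Lt D, pk nb t (mv nb x l) y := by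
  simp only [pk, Ex, PK_lst_cons]

theorem pk_nonneg (t : ℕ) (x y : V) : 0 ≤ pk nb t x y :=
  Ex_nonneg nb (fun _ _ => ind_nonneg _)

theorem pk_le_one (hD : 0 < D) (t : ℕ) (x y : V) : pk nb t x y ≤ 1 := by
  calc pk nb t x y ≤ Ex nb t x (fun _ => 1) := Ex_mono nb (fun _ _ => ind_le_one _)
    _ = 1 := Ex_const nb hD t x 1

theorem pk_reach {t : ℕ} {x y : V} (h : pk nb t x y ≠ 0) :
    ∃ w : List (Lt D), w.length = t ∧ endp nb x w = y := by
  induction t generalizing x with
  | zero =>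
    rw [PK_zero] at h
    have hxy : x = y := by
      by_contra hne
      exact h (ind_false hne)
    exact ⟨[], rfl, hxy⟩
  | succ t ih =>
    rw [PK_succ] at h
    have h2 : ∑ l : Lt D, pk nb t (mv nb x l) y ≠ 0 := by
      intro h0
      rw [h0, mul_zero] at h
      exact h rfl
    obtain ⟨l, -, hl⟩ := Finset.exists_ne_zero_of_sum_ne_zero h2
    obtain ⟨w, hw, hw'⟩ := ih hl
    exact ⟨l :: w, by simp [hw], by simpa [endp] using hw'⟩

theorem PK_step_ne {t : ℕ} {x z : V} (l : Lt D) (h : pk nb t (mv nb x l) z ≠ 0) :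
    pk nb (t + 1) x z ≠ 0 := by
  rw [PK_succ]
  have hD : 0 < D := Fin.pos l.2
  have hD' : (0 : ℝ) < (2 * (D : ℝ))⁻¹ := by positivity
  have h1 : 0 < pk nb t (mv nb x l) z := lt_of_le_of_ne (pk_nonneg _ _ _) (Ne.symm h)
  have h2 : pk nb t (mv nb x l) z ≤ ∑ l : Lt D, pk nb t (mv nb x l) z :=
    Finset.single_le_sum (f := fun l => pk nb t (mv nb x l) z) (fun i _ => pk_nonneg _ _ _)
      (Finset.mem_univ l)
  have : 0 < (2 * (D : ℝ))⁻¹ * ∑ l : Lt D, pk nb t (mv nb x l) z := mul_pos hD' (lt_of_lt_of_le h1 h2)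
  exact this.ne'

theorem PK_Ex_lst (s : ℕ) (x : V) (g : V → ℝ) (F : Finset V) (hF : ∀ z, pk nb s x z ≠ 0 → z ∈ F) :
    Ex nb s x (fun l => g (lst x l)) = ∑ z ∈ F, pk nb s x z * g z := by
  classical
  induction s generalizing x with
  | zero =>
    have hx : x ∈ F := hF x (by rw [PK_zero, ind_true rfl]; norm_num)
    rw [Finset.sum_eq_single_of_mem x hx]
    · rw [PK_zero, ind_true rfl, one_mul]
      simp [Ex, lst]
    · intro z _ hz
      rw [PK_zero, ind_false (fun h => hz h.symm), zero_mul]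
  | succ s ih =>
    have h1 : ∀ l : Lt D, Ex nb s (mv nb x l) (fun m => g (lst (mv nb x l) m)) =
        ∑ z ∈ F, pk nb s (mv nb x l) z * g z := by
      intro l
      exact ih (mv nb x l) (fun z hz => hF z (PK_step_ne l hz))
    simp only [Ex, PK_lst_cons]
    rw [Finset.sum_congr rfl (fun l _ => h1 l), Finset.sum_comm, Finset.mul_sum]
    apply Finset.sum_congr rfl
    intro z _
    rw [PK_succ, ← Finset.sum_mul, mul_assoc]

/-- Chapman-Kolmogorov over any finite set containing the support -/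
theorem pk_add (s t : ℕ) (x y : V) (F : Finset V) (hF : ∀ z, pk nb s x z ≠ 0 → z ∈ F) :
    pk nb (s + t) x y = ∑ z ∈ F, pk nb s x z * pk nb t z y := by
  have h1 : pk nb (s + t) x y = Ex nb s x (fun l => pk nb t (lst x l) y) := by
    unfold pk
    rw [Ex_append]
    simp only [PK_lst_append]
  rw [h1, PK_Ex_lst s x (fun z => pk nb t z y) F hF]

theorem pk_sum (hD : 0 < D) (t : ℕ) (x : V) (F : Finset V) (hF : ∀ z, pk nb t x z ≠ 0 → z ∈ F) :
    ∑ z ∈ F, pk nb t x z = 1 := by
  have h := PK_Ex_lst t x (fun _ => 1) F hF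
  rw [Ex_const nb hD] at h
  rw [h]
  simp

theorem PK_adj_symm (hr : Reg nb) {x y : V} (h : Adj nb x y) : Adj nb y x := by
  obtain ⟨i, rfl⟩ := h
  exact hr.symm x i

theorem PK_nbsum (hr : Reg nb) (x z : V) : ∑ i, ind (nb x i = z) = ind (Adj nb x z) := by
  classical
  by_cases h : Adj nb x z
  · obtain ⟨i, hi⟩ := h
    rw [ind_true (show Adj nb x z from ⟨i, hi⟩)]
    rw [Finset.sum_eq_single_of_mem i (Finset.mem_univ i)]
    · exact ind_true hi
    · intro j _ hj
      apply ind_false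
      intro h2
      exact hj (hr.inj x (h2.trans hi.symm))
  · rw [ind_false h]
    apply Finset.sum_eq_zero
    intro i _
    exact ind_false (fun h2 => h ⟨i, h2⟩)

theorem PK_one_symm (hr : Reg nb) (x z : V) :
    ∑ l : Lt D, ind (mv nb x l = z) = ∑ l : Lt D, ind (mv nb z l = x) := by
  have key : ∀ x z : V, ∑ l : Lt D, ind (mv nb x l = z) = (D : ℝ) * ind (x = z) + ind (Adj nb x z) := by
    intro x z
    rw [Fintype.sum_prod_type, Fintype.sum_bool]
    simp only [mv, if_true, Bool.false_eq_true, if_false]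
    rw [PK_nbsum hr, Finset.sum_const]
    simp
    ring
  rw [key, key]
  congr 1
  · congr 1
    exact ind_congr ⟨fun h => h.symm, fun h => h.symm⟩
  · exact ind_congr ⟨PK_adj_symm hr, PK_adj_symm hr⟩

theorem PK_one (x z : V) : pk nb 1 x z = (2 * (D : ℝ))⁻¹ * ∑ l : Lt D, ind (mv nb x l = z) := by
  rw [PK_succ]
  simp only [PK_zero]

theorem pk_symm (hr : Reg nb) (t : ℕ) (x y : V) : pk nb t x y = pk nb t y x := by
  induction t generalizing x y with
  | zero =>
    rw [PK_zero, PK_zero]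
    exact ind_congr ⟨fun h => h.symm, fun h => h.symm⟩
  | succ t ih =>
    have h1 : pk nb (t + 1) y x = Ex nb t y (fun l => pk nb 1 (lst y l) x) := by
      unfold pk
      rw [Ex_append]
      simp only [PK_lst_append]
    have h2 : ∀ z, pk nb 1 z x = (2 * (D : ℝ))⁻¹ * ∑ l : Lt D, ind (z = mv nb x l) := by
      intro z
      rw [PK_one, PK_one_symm hr z x]
      congr 1
      apply Finset.sum_congr rfl
      intro l _
      exact ind_congr ⟨fun h => h.symm, fun h => h.symm⟩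
    rw [h1]
    simp only [h2]
    rw [Ex_mul_left, Ex_sum, PK_succ]
    congr 1
    apply Finset.sum_congr rfl
    intro l _
    exact ih (mv nb x l) y

/-- the finite set of end points of words of length `t` -/
theorem PK_ball (t : ℕ) (x : V) : ∃ F : Finset V, ∀ z, pk nb t x z ≠ 0 → z ∈ F := by
  classical
  refine ⟨(Finset.univ : Finset (Fin t → Lt D)).image (fun w => endp nb x (List.ofFn w)), ?_⟩
  intro z hz
  obtain ⟨w, hw, hw'⟩ := pk_reach hz
  rw [Finset.mem_image]
  subst hw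
  exact ⟨w.get, Finset.mem_univ _, by rw [List.ofFn_get]; exact hw'⟩

theorem PK_even (hr : Reg nb) (ht : Tra nb) (s : ℕ) (x y o : V) :
    pk nb (2 * s) x y ≤ pk nb (2 * s) o o := by
  classical
  obtain ⟨F1, hF1⟩ := PK_ball (nb := nb) s x
  obtain ⟨F2, hF2⟩ := PK_ball (nb := nb) s y
  have h1 : ∀ z, pk nb s x z ≠ 0 → z ∈ F1 ∪ F2 := fun z hz => Finset.mem_union_left _ (hF1 z hz)
  have h2 : ∀ z, pk nb s y z ≠ 0 → z ∈ F1 ∪ F2 := fun z hz => Finset.mem_union_right _ (hF2 z hz)
  have e1 : pk nb (2 * s) x y = ∑ z ∈ F1 ∪ F2, pk nb s x z * pk nb s z y := by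
    rw [two_mul]; exact pk_add s s x y _ h1
  have e2 : pk nb (2 * s) x x = ∑ z ∈ F1 ∪ F2, pk nb s x z * pk nb s z x := by
    rw [two_mul]; exact pk_add s s x x _ h1
  have e3 : pk nb (2 * s) y y = ∑ z ∈ F1 ∪ F2, pk nb s y z * pk nb s z y := by
    rw [two_mul]; exact pk_add s s y y _ h2
  have hx : pk nb (2 * s) x x = pk nb (2 * s) o o := pk_homog hr ht _ _ _
  have hy : pk nb (2 * s) y y = pk nb (2 * s) o o := pk_homog hr ht _ _ _
  have h3 : 2 * pk nb (2 * s) x y ≤ pk nb (2 * s) x x + pk nb (2 * s) y y := by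
    rw [e1, e2, e3, Finset.mul_sum, ← Finset.sum_add_distrib]
    apply Finset.sum_le_sum
    intro z _
    rw [pk_symm hr s z y, pk_symm hr s z x]
    nlinarith [sq_nonneg (pk nb s x z - pk nb s y z)]
  linarith

theorem pk_le (hr : Reg nb) (ht : Tra nb) (hD : 0 < D) (t : ℕ) (x y o : V) :
    pk nb t x y ≤ pk nb (2 * (t / 2)) o o := by
  rcases Nat.even_or_odd' t with ⟨s, rfl | rfl⟩
  · rw [show 2 * s / 2 = s by omega]
    exact PK_even hr ht s x y o
  · rw [show (2 * s + 1) / 2 = s by omega, PK_succ]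
    have hD' : (0 : ℝ) < D := by exact_mod_cast hD
    have h1 : ∑ l : Lt D, pk nb (2 * s) (mv nb x l) y ≤ ∑ _l : Lt D, pk nb (2 * s) o o :=
      Finset.sum_le_sum (fun l _ => PK_even hr ht s _ y o)
    rw [Finset.sum_const, Finset.card_univ, Fintype.card_prod, Fintype.card_bool, Fintype.card_fin,
      nsmul_eq_mul] at h1
    push_cast at h1
    calc (2 * (D : ℝ))⁻¹ * ∑ l : Lt D, pk nb (2 * s) (mv nb x l) y
        ≤ (2 * (D : ℝ))⁻¹ * (2 * (D : ℝ) * pk nb (2 * s) o o) :=
          mul_le_mul_of_nonneg_left h1 (by positivity)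
      _ = pk nb (2 * s) o o := by field_simp

theorem Smb_half (hr : Reg nb) (ht : Tra nb) {θ : ℝ} (h : Smb nb θ) (o : V) (T : ℕ) :
    ∑ t ∈ range T, ((t : ℝ) + 1) * pk nb (2 * (t / 2)) o o ≤ 3 * θ := by
  have _ := hr
  have _ := ht
  have h1 : ∀ m : ℕ, ∑ t ∈ range (2 * m), ((t : ℝ) + 1) * pk nb (2 * (t / 2)) o o ≤
      3 * ∑ t ∈ range (2 * m), ((t : ℝ) + 1) * pk nb t o o := by
    intro m
    induction m with
    | zero => simp
    | succ m ih =>
      rw [show 2 * (m + 1) = 2 * m + 1 + 1 by ring, Finset.sum_range_succ, Finset.sum_range_succ,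
        Finset.sum_range_succ _ (2 * m + 1), Finset.sum_range_succ _ (2 * m)]
      rw [show 2 * m / 2 = m by omega, show (2 * m + 1) / 2 = m by omega]
      have p1 := pk_nonneg (nb := nb) (2 * m) o o
      have p2 := pk_nonneg (nb := nb) (2 * m + 1) o o
      have hm : (0 : ℝ) ≤ (m : ℝ) := Nat.cast_nonneg m
      push_cast
      nlinarith [mul_nonneg hm p1, mul_nonneg hm p2]
  calc ∑ t ∈ range T, ((t : ℝ) + 1) * pk nb (2 * (t / 2)) o o
      ≤ ∑ t ∈ range (2 * T), ((t : ℝ) + 1) * pk nb (2 * (t / 2)) o o := by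
        apply Finset.sum_le_sum_of_subset_of_nonneg
        · intro a ha
          rw [Finset.mem_range] at ha ⊢
          omega
        · intro i _ _
          exact mul_nonneg (by positivity) (pk_nonneg _ _ _)
    _ ≤ 3 * ∑ t ∈ range (2 * T), ((t : ℝ) + 1) * pk nb t o o := h1 T
    _ ≤ 3 * θ := by
        have := h o (2 * T)
        linarith

/-- the tails of the Green function: for every `ε` there is `T₀` such that all sums beyond `T₀` are `≤ ε` -/
theorem Smb_tail (hr : Reg nb) (ht : Tra nb) {θ : ℝ} (h : Smb nb θ) (o : V) {ε : ℝ} (hε : 0 < ε) :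
    ∃ T₀ : ℕ, ∀ T : ℕ, ∑ t ∈ Ico T₀ T, ((t : ℝ) + 1) * pk nb (2 * (t / 2)) o o ≤ ε := by
  have hnn : ∀ t : ℕ, 0 ≤ ((t : ℝ) + 1) * pk nb (2 * (t / 2)) o o := fun t =>
    mul_nonneg (by positivity) (pk_nonneg _ _ _)
  have hs : Summable (fun t : ℕ => ((t : ℝ) + 1) * pk nb (2 * (t / 2)) o o) :=
    summable_of_sum_range_le hnn (fun T => Smb_half hr ht h o T)
  obtain ⟨T₀, hT⟩ := (Metric.tendsto_atTop.1 hs.hasSum.tendsto_sum_nat) ε hε
  refine ⟨T₀, fun T => ?_⟩
  by_cases hTT : T₀ ≤ T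
  · rw [Finset.sum_Ico_eq_sub _ hTT]
    have h1 : ∑ t ∈ range T, ((t : ℝ) + 1) * pk nb (2 * (t / 2)) o o ≤
        ∑' t : ℕ, ((t : ℝ) + 1) * pk nb (2 * (t / 2)) o o := hs.sum_le_tsum _ (fun i _ => hnn i)
    have h2 := hT T₀ le_rfl
    rw [Real.dist_eq, abs_lt] at h2
    linarith [h2.1]
  · rw [Finset.Ico_eq_empty_of_le (by omega), Finset.sum_empty]
    exact hε.le

end Pool.Agent.UQ
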