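import Pool.Agent.UQ.NulM
import Pool.Agent.UQ.PK

/-!
# B12a LintP : integrals of functions of the first vertices (used in ThinW)

Fix `a, v`. For every `ω`, the expected number of visits of the walk from `v` to the range of `Xi a ω` is at most `∑_{s,t} μ' {ω' | Xi v ω' t = Xi a ω s} = ∑_{s,t} pk t v (Xi a ω s)`.
Its integral over `ω` is `∑_{s,t} ∑_x pk s a x pk t v x = ∑_{s,t} pk (s+t) a v ≤ ∑_u (u+1) pk (2(u/2)) o o < ∞` (`Smb_half`), so it is finite for almost every `ω`, and then
the number of `(s,t)` with `Xi v ω' t = Xi a ω s` is finite for a.e. `ω'`. Countably many `v`.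
In Lean: `∫⁻ ω, ∑' s, ∑' t, ofReal (pk t v (Xi a ω s)) ∂μ = ∑' s, ∑' t, ∫⁻ …` and `∫⁻ ω, ofReal (g (Xi a ω s)) ∂μ = ofReal (Ex s a (g ∘ lst))` for `g ≥ 0`
(finite valued function of the first letters; from `mu_pre` or by induction), `Ex s a (l ↦ pk t v (lst a l)) = pk (s+t) a v` (`pk_symm`, `Ex_append`).
-/

open Finset MeasureTheory Pool.Agent.helper20.HP

namespace Pool.Agent.UQ

variable {V : Type} {D : ℕ} {nb : V → Fin D → V} {μ : Measure (ℕ → Lt D)}

theorem LintP_meas_cons (l : Lt D) : Measurable (consW l : (ℕ → Lt D) → (ℕ → Lt D)) := by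
  refine measurable_pi_iff.mpr fun t => ?_
  cases t with
  | zero => exact measurable_const
  | succ t => exact measurable_pi_apply t

theorem LintP_eq (hμ : LM μ) :
    μ = (2 * (D : ENNReal))⁻¹ • ∑ l : Lt D, μ.map (consW l) := by
  refine Measure.ext fun S hS => ?_
  rw [hμ.cons S hS, Measure.smul_apply, Measure.finsetSum_apply, smul_eq_mul]
  congr 1
  refine Finset.sum_congr rfl fun l _ => ?_
  rw [Measure.map_apply (LintP_meas_cons l) hS]

theorem LintP_lint (hμ : LM μ) {g : (ℕ → Lt D) → ENNReal} (hg : Measurable g) :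
    ∫⁻ ω, g ω ∂μ = (2 * (D : ENNReal))⁻¹ * ∑ l : Lt D, ∫⁻ ω, g (consW l ω) ∂μ := by
  conv_lhs => rw [LintP_eq hμ]
  rw [lintegral_smul_measure, lintegral_finsetSum_measure, smul_eq_mul]
  congr 1
  refine Finset.sum_congr rfl fun l _ => ?_
  rw [lintegral_map hg (LintP_meas_cons l)]

theorem LintP_pre_cons (v : V) (l : Lt D) (ω : ℕ → Lt D) (k : ℕ) :
    pre nb v (consW l ω) (k + 1) = mv nb v l :: pre nb (mv nb v l) ω k := by
  unfold pre
  rw [List.range_succ_eq_map, List.map_cons, List.map_map]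
  congr 1
  refine List.map_congr_left fun t _ => ?_
  simp only [Function.comp_apply]
  exact Xi_cons nb v l ω (t + 1)

theorem LintP_meas (v : V) (k : ℕ) (F : List V → ENNReal) :
    Measurable fun ω : ℕ → Lt D => F (pre nb v ω k) :=
  fun S _ => meas_pre nb v k (fun l => F l ∈ S)

/-- integral of a function of the first `k` vertices -/
theorem lint_pre (hμ : LM μ) (v : V) (k : ℕ) {f : List V → ℝ} (hf : ∀ l, 0 ≤ f l) :
    ∫⁻ ω, ENNReal.ofReal (f (pre nb v ω k)) ∂μ = ENNReal.ofReal (Ex nb k v f) := by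
  have hD : 0 < D := LM.pos hμ
  have hDr : (0 : ℝ) < 2 * (D : ℝ) := by
    have : (0 : ℝ) < D := by exact_mod_cast hD
    linarith
  have := hμ.prob
  induction k generalizing v f with
  | zero =>
    have e : ∀ ω : ℕ → Lt D, pre nb v ω 0 = [] := fun ω => rfl
    simp only [e, lintegral_const, measure_univ, mul_one]
    rfl
  | succ k ih =>
    rw [LintP_lint hμ (LintP_meas v (k + 1) (fun l => ENNReal.ofReal (f l)))]
    have h1 : ∀ l : Lt D, ∫⁻ ω, ENNReal.ofReal (f (pre nb v (consW l ω) (k + 1))) ∂μ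
        = ENNReal.ofReal (Ex nb k (mv nb v l) (fun m => f (mv nb v l :: m))) := by
      intro l
      simp only [LintP_pre_cons]
      exact ih (mv nb v l) (f := fun m => f (mv nb v l :: m)) (fun m => hf _)
    simp only [h1]
    have h2 : Ex nb (k + 1) v f
        = (2 * (D : ℝ))⁻¹ * ∑ l : Lt D, Ex nb k (mv nb v l) (fun m => f (mv nb v l :: m)) := rfl
    rw [h2, ENNReal.ofReal_mul (by positivity), ENNReal.ofReal_sum_of_nonneg
      (fun l _ => Ex_nonneg nb (fun m _ => hf _)), ENNReal.ofReal_inv_of_pos hDr]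
    congr 2
    rw [ENNReal.ofReal_mul (by norm_num), ENNReal.ofReal_natCast]
    norm_num

theorem LintP_lst (a : V) (ω : ℕ → Lt D) (s : ℕ) : lst a (pre nb a ω s) = Xi nb a ω s := by
  unfold pre lst
  cases s with
  | zero => rfl
  | succ s =>
    rw [List.range_succ, List.map_append]
    simp [List.getLastD_eq_getLast?]

theorem LintP_lst_append (x : V) (l m : List V) : lst x (l ++ m) = lst (lst x l) m := by
  unfold lst
  rcases List.eq_nil_or_concat m with h | ⟨B, b, h⟩
  · rw [h]; simp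
  · rw [h]
    simp [List.getLastD_eq_getLast?, ← List.append_assoc]

/-- the expected number of coincidences of two independent walks -/
theorem meet_sum (hμ : LM μ) (hr : Reg nb) (s t : ℕ) (a v : V) :
    ∫⁻ ω, ENNReal.ofReal (pk nb t v (Xi nb a ω s)) ∂μ = ENNReal.ofReal (pk nb (s + t) a v) := by
  have h1 : ∀ ω : ℕ → Lt D, ENNReal.ofReal (pk nb t v (Xi nb a ω s))
      = ENNReal.ofReal ((fun l => pk nb t v (lst a l)) (pre nb a ω s)) := by
    intro ω
    simp only [LintP_lst]
  simp only [h1]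
  rw [lint_pre (f := fun l => pk nb t v (lst a l)) hμ a s (fun l => pk_nonneg t v _)]
  congr 1
  have h2 : (fun l => pk nb t v (lst a l)) = fun l => Ex nb t (lst a l)
      (fun m => (fun q => ind (lst a q = v)) (l ++ m)) := by
    funext l
    rw [pk_symm hr]
    unfold pk
    refine Ex_congr nb fun m _ => ?_
    simp only [LintP_lst_append]
  rw [h2, ← Ex_append nb s t a (fun q => ind (lst a q = v))]
  rfl

end Pool.Agent.UQ
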