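import Pool.Agent.UQ.Trans
import Pool.Agent.UQ.LintP

/-!
# B12 ThinW : the range of a typical walk is thin

Fix `a, v`. For every `ω`, the expected number of visits of the walk from `v` to the range of `Xi a ω` is at most `∑_{s,t} μ' {ω' | Xi v ω' t = Xi a ω s} = ∑_{s,t} pk t v (Xi a ω s)`.
Its integral over `ω` is `∑_{s,t} ∑_x pk s a x pk t v x = ∑_{s,t} pk (s+t) a v ≤ ∑_u (u+1) pk (2(u/2)) o o < ∞` (`Smb_half`), so it is finite for almost every `ω`, and then
the number of `(s,t)` with `Xi v ω' t = Xi a ω s` is finite for a.e. `ω'`. Countably many `v`.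
In Lean: `∫⁻ ω, ∑' s, ∑' t, ofReal (pk t v (Xi a ω s)) ∂μ = ∑' s, ∑' t, ∫⁻ …` and `∫⁻ ω, ofReal (g (Xi a ω s)) ∂μ = ofReal (Ex s a (g ∘ lst))` for `g ≥ 0`
(finite valued function of the first letters; from `mu_pre` or by induction), `Ex s a (l ↦ pk t v (lst a l)) = pk (s+t) a v` (`pk_symm`, `Ex_append`).
-/

open Finset MeasureTheory Pool.Agent.helper20.HP

namespace Pool.Agent.UQ

variable {V : Type} {D : ℕ} {nb : V → Fin D → V} {μ : Measure (ℕ → Lt D)}

/-- a double sum over `s + t` -/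
theorem ThinW_sum (b : ℕ → ENNReal) :
    ∑' p : ℕ × ℕ, b (p.1 + p.2) = ∑' n : ℕ, ((n : ENNReal) + 1) * b n := by
  rw [← (Finset.HasAntidiagonal.sigmaAntidiagonalEquivProd (A := ℕ)).tsum_eq, ENNReal.tsum_sigma']
  refine tsum_congr fun n => ?_
  have h : ∀ c : ↥(antidiagonal n), b ((Finset.HasAntidiagonal.sigmaAntidiagonalEquivProd
      (A := ℕ) ⟨n, c⟩).1 + (Finset.HasAntidiagonal.sigmaAntidiagonalEquivProd
      (A := ℕ) ⟨n, c⟩).2) = b n := by
    rintro ⟨⟨i, j⟩, hc⟩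
    rw [HasAntidiagonal.mem_antidiagonal] at hc
    show b (i + j) = b n
    rw [← hc]
  simp only [h]
  rw [tsum_fintype, Finset.sum_const, Finset.card_univ, Fintype.card_coe, Nat.card_antidiagonal,
    nsmul_eq_mul]
  push_cast
  rfl

theorem ThinW_int {θ : ℝ} (G : GInf nb θ) (hμ : LM μ) (a v : V) :
    ∫⁻ ω, ∑' p : ℕ × ℕ, ENNReal.ofReal (pk nb p.2 v (Xi nb a ω p.1)) ∂μ ≤ ENNReal.ofReal (3 * θ) := by
  have hD : 0 < D := by have := G.deg; omega
  rw [lintegral_tsum]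
  · calc ∑' p : ℕ × ℕ, ∫⁻ ω, ENNReal.ofReal (pk nb p.2 v (Xi nb a ω p.1)) ∂μ
        = ∑' p : ℕ × ℕ, ENNReal.ofReal (pk nb (p.1 + p.2) a v) :=
          tsum_congr fun p => meet_sum hμ G.reg p.1 p.2 a v
      _ ≤ ∑' p : ℕ × ℕ, ENNReal.ofReal (pk nb (2 * ((p.1 + p.2) / 2)) a a) :=
          ENNReal.tsum_le_tsum fun p => ENNReal.ofReal_le_ofReal (pk_le G.reg G.tra hD _ a v a)
      _ = ∑' n : ℕ, ((n : ENNReal) + 1) * ENNReal.ofReal (pk nb (2 * (n / 2)) a a) :=
          ThinW_sum (fun n => ENNReal.ofReal (pk nb (2 * (n / 2)) a a))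
      _ ≤ ENNReal.ofReal (3 * θ) := by
          refine ENNReal.tsum_le_of_sum_range_le fun n => ?_
          have h1 : ∀ t : ℕ, ((t : ENNReal) + 1) * ENNReal.ofReal (pk nb (2 * (t / 2)) a a) =
              ENNReal.ofReal (((t : ℝ) + 1) * pk nb (2 * (t / 2)) a a) := by
            intro t
            rw [ENNReal.ofReal_mul (by positivity), ENNReal.ofReal_add (Nat.cast_nonneg t) zero_le_one,
              ENNReal.ofReal_natCast, ENNReal.ofReal_one]
          simp only [h1]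
          rw [← ENNReal.ofReal_sum_of_nonneg fun t _ => mul_nonneg (by positivity) (pk_nonneg _ _ _)]
          exact ENNReal.ofReal_le_ofReal (Smb_half G.reg G.tra G.smb a n)
  · intro p
    refine Measurable.aemeasurable fun S _ => ?_
    exact meas_Xi nb a p.1 ((fun x => ENNReal.ofReal (pk nb p.2 v x)) ⁻¹' S)

theorem thin_walk {θ : ℝ} (G : GInf nb θ) (hμ : LM μ) (a : V) :
    ∀ᵐ ω ∂μ, Thin nb μ (Set.range (Xi nb a ω)) := by
  have hc := countable_of_cnn G.cnn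
  unfold Thin
  rw [ae_all_iff]
  intro v
  have hm : Measurable (fun ω : ℕ → Lt D =>
      ∑' p : ℕ × ℕ, ENNReal.ofReal (pk nb p.2 v (Xi nb a ω p.1))) := by
    refine Measurable.tsum fun p => ?_
    intro S _
    exact meas_Xi nb a p.1 ((fun x => ENNReal.ofReal (pk nb p.2 v x)) ⁻¹' S)
  have h1 := ae_lt_top hm (ne_top_of_le_ne_top ENNReal.ofReal_ne_top (ThinW_int G hμ a v))
  filter_upwards [h1] with ω hω
  have h2 : ∑' p : ℕ × ℕ, μ {ω' | Xi nb v ω' p.2 = Xi nb a ω p.1} ≠ ⊤ := by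
    have h3 : ∀ p : ℕ × ℕ, μ {ω' | Xi nb v ω' p.2 = Xi nb a ω p.1} =
        ENNReal.ofReal (pk nb p.2 v (Xi nb a ω p.1)) := fun p => mu_Xi_eq nb hμ v _ _
    simp only [h3]
    exact hω.ne
  filter_upwards [ae_finite_setOfPred_mem h2] with ω' hω'
  refine (hω'.image Prod.snd).subset ?_
  rintro t ⟨s, hs⟩
  exact ⟨(s, t), hs.symm, rfl⟩

theorem thin_finite {θ : ℝ} (G : GInf nb θ) (hμ : LM μ) {F : Set V} (hF : F.Finite) : Thin nb μ F := by
  intro v
  have h1 : ∀ᵐ ω ∂μ, ∀ x ∈ F, {t | Xi nb v ω t = x}.Finite :=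
    (ae_ball_iff hF.countable).mpr fun x _ => fin_visits G hμ v x
  filter_upwards [h1] with ω hω
  refine (hF.biUnion hω).subset fun t ht => ?_
  simp only [Set.mem_iUnion]
  exact ⟨_, ht, rfl⟩

theorem thin_union {R S : Set V} (hR : Thin nb μ R) (hS : Thin nb μ S) : Thin nb μ (R ∪ S) := by
  intro v
  filter_upwards [hR v, hS v] with ω h1 h2
  refine (h1.union h2).subset fun t ht => ?_
  exact ht

theorem thin_mono {R S : Set V} (h : R ⊆ S) (hS : Thin nb μ S) : Thin nb μ R := by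
  intro v
  filter_upwards [hS v] with ω h1
  exact h1.subset fun t ht => h ht

end Pool.Agent.UQ
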