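import Pool.Agent.UQ.Ch2
import Pool.Agent.UQ.P4
import Pool.Agent.UQ.ThinW

/-!
# B21 Det1 : existence of a configuration

Let `S₀` be a finite connected set containing `A 0` and `C 0` (the vertices of a path), `k₀`, `m₀` the last times at which `A`, `C` are in `S₀`. `TA k = {A t | t > k}`, `TC m = {C t | t > m}`.
`R₀ = S₀ ∪ TA k₀ ∪ TC m₀` is thin and infinite (`TrWalk` ranges are infinite). By `vis_far` (with `Φ` = any finite set) the set of visible points (w.r.t. `R₀`) in `R₀` is infinite, so (up to exchanging `A` and `C`, `Cfg.swap`)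
infinitely many of them are in `TA k₀` (`det1_aux` treats this case).
Choose a visible `x = A t`, `t > k₀`; `β = {A i | k₀ < i ≤ t}`, `k₁` = last time at which `A` is in `β`. Choose a visible `x' = A t'` with `t' > k₁` and `x' ∉ {A i | i ≤ k₁}` (infinitely many visible points); `β' = {A i | k₁ < i ≤ t'}`,
`k₂` = last time at which `A` is in `β'`. Then `HA = TA k₂`, `HC = S₀ ∪ TC m₀`, and the chain `HA | β' | β | HC` satisfies the hypotheses of `chain2` (with `β', β` in the roles of `β, β'`): `A (k₂+1) ~ A k₂ ∈ β'`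
(they are different since `A (k₂+1) ∉ β'`), `A (k₁+1) ∈ β'`, `A k₁ ∈ β`; `A (k₀+1) ∈ β`, `A k₀ ∈ S₀`; `TC m₀` is adjacent to `S₀` or part of a connected union (`conIn_union`).
Disjointness: `A t ∉ S₀` for `t > k₀`, `A t ∉ β` for `t > k₁`, `A t ∉ β'` for `t > k₂`, ranges of `A`, `C` disjoint. The union of the four sets is contained in `R₀`: use `vis_mono`.
-/

open Finset MeasureTheory Pool.Agent.helper20.HP

namespace Pool.Agent.UQ

variable {V : Type} {D : ℕ} {nb : V → Fin D → V} {μ : Measure (ℕ → Lt D)}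

/-- last visit to a finite set -/
theorem Det1_last {A : ℕ → V} (hA : ∀ x, {t | A t = x}.Finite) {F : Set V} (hF : F.Finite)
    {t0 : ℕ} (h : A t0 ∈ F) : ∃ k, t0 ≤ k ∧ A k ∈ F ∧ ∀ t, k < t → A t ∉ F := by
  have hfin : {t | A t ∈ F}.Finite := by
    have : {t | A t ∈ F} = ⋃ x ∈ F, {t | A t = x} := by ext t; simp
    rw [this]
    exact hF.biUnion fun x _ => hA x
  obtain ⟨k, hk, hmax⟩ := hfin.exists_maximalFor id _ ⟨t0, h⟩
  refine ⟨k, ?_, hk, fun t ht hin => ?_⟩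
  · by_contra hlt
    exact hlt (hmax h (le_of_lt (not_le.mp hlt)))
  · exact absurd (hmax hin ht.le) (not_le.mpr ht)

/-- tails of walks with finite visits are infinite -/
theorem Det1_tail_infinite {A : ℕ → V} (hA : ∀ x, {t | A t = x}.Finite) (k : ℕ) :
    {u | ∃ t, k < t ∧ A t = u}.Infinite := by
  intro hfin
  have h1 : (Set.Ioi k).Finite := by
    refine Set.Finite.subset (hfin.biUnion fun x _ => hA x) ?_
    intro t ht
    simp only [Set.mem_iUnion]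
    exact ⟨A t, ⟨t, ht, rfl⟩, rfl⟩
  exact Set.Ioi_infinite k h1

theorem det1_aux (hr : Reg nb) (hμ : LM μ) {A C : ℕ → V} (hA : TrWalk nb A) (hC : TrWalk nb C)
    (hd : Disjoint (Set.range A) (Set.range C)) {S : Set V} (hS : S.Finite) (hSc : ConIn nb S) {k m : ℕ}
    (hk : A k ∈ S) (hk' : ∀ t, k < t → A t ∉ S) (hm : C m ∈ S) (hm' : ∀ t, m < t → C t ∉ S)
    (hinf : {x | (∃ t, k < t ∧ A t = x) ∧
      Vis nb μ (S ∪ {u | ∃ t, k < t ∧ A t = u} ∪ {u | ∃ t, m < t ∧ C t = u}) x}.Infinite) :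
    ∃ HA HC x j, 1 ≤ j ∧ Cfg nb μ A C HA HC x j := by
  have hAC : ∀ s t, A s ≠ C t := fun s t h =>
    Set.disjoint_left.mp hd ⟨s, rfl⟩ ⟨t, h.symm⟩
  obtain ⟨x, ⟨t, hkt, hxt⟩, hvis⟩ := hinf.nonempty
  -- first block
  have hβfin : {u | ∃ i, k + 1 ≤ i ∧ i ≤ t ∧ A i = u}.Finite := by
    refine Set.Finite.subset ((Set.finite_Icc (k + 1) t).image A) ?_
    rintro u ⟨i, h1, h2, rfl⟩
    exact ⟨i, ⟨h1, h2⟩, rfl⟩
  obtain ⟨k₁, htk₁, hk₁, hk₁'⟩ := Det1_last hA.2 hβfin (t0 := t) ⟨t, hkt, le_refl _, rfl⟩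
  have hfin2 : {u | ∃ i, i ≤ k₁ ∧ A i = u}.Finite := by
    refine Set.Finite.subset ((Set.finite_Iic k₁).image A) ?_
    rintro u ⟨i, h1, rfl⟩
    exact ⟨i, h1, rfl⟩
  obtain ⟨x', ⟨⟨t', hkt', hxt'⟩, hvis'⟩, hx'n⟩ := (hinf.sdiff hfin2).nonempty
  have ht' : k₁ < t' := by
    by_contra hle
    exact hx'n ⟨t', not_lt.mp hle, hxt'⟩
  have hβ'fin : {u | ∃ i, k₁ + 1 ≤ i ∧ i ≤ t' ∧ A i = u}.Finite := by
    refine Set.Finite.subset ((Set.finite_Icc (k₁ + 1) t').image A) ?_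
    rintro u ⟨i, h1, h2, rfl⟩
    exact ⟨i, ⟨h1, h2⟩, rfl⟩
  obtain ⟨k₂, htk₂, hk₂, hk₂'⟩ := Det1_last hA.2 hβ'fin (t0 := t') ⟨t', ht', le_refl _, rfl⟩
  have step : ∀ {s : ℕ}, A s ≠ A (s + 1) → Adj nb (A (s + 1)) (A s) := by
    intro s hne
    rcases hA.1 s with h | h
    · exact absurd h.symm hne
    · exact adj_symm hr h
  have hsub : {u | ∃ i, k₂ + 1 ≤ i ∧ A i = u} ∪ {u | ∃ i, k₁ + 1 ≤ i ∧ i ≤ t' ∧ A i = u}
      ∪ {u | ∃ i, k + 1 ≤ i ∧ i ≤ t ∧ A i = u} ∪ (S ∪ {u | ∃ t, m + 1 ≤ t ∧ C t = u})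
      ⊆ S ∪ {u | ∃ t, k < t ∧ A t = u} ∪ {u | ∃ t, m < t ∧ C t = u} := by
    rintro u (((⟨i, h1, rfl⟩ | ⟨i, h1, -, rfl⟩) | ⟨i, h1, -, rfl⟩) | (h | ⟨i, h1, rfl⟩))
    · exact Or.inl (Or.inr ⟨i, by omega, rfl⟩)
    · exact Or.inl (Or.inr ⟨i, by omega, rfl⟩)
    · exact Or.inl (Or.inr ⟨i, by omega, rfl⟩)
    · exact Or.inl (Or.inl h)
    · exact Or.inr ⟨i, h1, rfl⟩
  refine chain2 (HA := {u | ∃ i, k₂ + 1 ≤ i ∧ A i = u})
    (β := {u | ∃ i, k₁ + 1 ≤ i ∧ i ≤ t' ∧ A i = u})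
    (β' := {u | ∃ i, k + 1 ≤ i ∧ i ≤ t ∧ A i = u})
    (HC := S ∪ {u | ∃ t, m + 1 ≤ t ∧ C t = u}) hr hμ ?_ ?_ (conIn_segment hr hA.1 _ _)
    (conIn_segment hr hA.1 _ _) ?_ ?_ ?_ ?_ ?_ ?_ ?_ ?_ ?_ ?_ ?_
  · exact ⟨conIn_tail hr hA.1 _, k₂ + 1, fun t ht => ⟨t, ht, rfl⟩⟩
  · refine ⟨conIn_union hr hSc (conIn_tail hr hC.1 _) ⟨C m, hm, C (m + 1), ⟨m + 1, le_refl _, rfl⟩, ?_⟩,
      m + 1, fun t ht => Or.inr ⟨t, ht, rfl⟩⟩
    rcases hC.1 m with h | h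
    · exact Or.inl h.symm
    · exact Or.inr h
  · rw [Set.disjoint_left]
    rintro u ⟨i, h1, rfl⟩ h2
    exact hk₂' i h1 h2
  · rw [Set.disjoint_left]
    rintro u ⟨i, h1, rfl⟩ h2
    exact hk₁' i (by omega) h2
  · rw [Set.disjoint_left]
    rintro u ⟨i, h1, rfl⟩ (h2 | ⟨s, -, h2⟩)
    · exact hk' i (by omega) h2
    · exact hAC i s h2.symm
  · rw [Set.disjoint_left]
    rintro u ⟨i, h1, -, rfl⟩ h2
    exact hk₁' i h1 h2
  · rw [Set.disjoint_left]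
    rintro u ⟨i, h1, -, rfl⟩ (h2 | ⟨s, -, h2⟩)
    · exact hk' i (by omega) h2
    · exact hAC i s h2.symm
  · rw [Set.disjoint_left]
    rintro u ⟨i, h1, -, rfl⟩ (h2 | ⟨s, -, h2⟩)
    · exact hk' i h1 h2
    · exact hAC i s h2.symm
  · refine ⟨A (k₂ + 1), ⟨k₂ + 1, le_refl _, rfl⟩, A k₂, hk₂, step fun h => ?_⟩
    exact hk₂' (k₂ + 1) (Nat.lt_succ_self _) (h ▸ hk₂)
  · refine ⟨A (k₁ + 1), ⟨k₁ + 1, le_refl _, ht', rfl⟩, A k₁, hk₁, step fun h => ?_⟩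
    exact hk₁' (k₁ + 1) (Nat.lt_succ_self _) (h ▸ hk₁)
  · refine ⟨A (k + 1), ⟨k + 1, le_refl _, hkt, rfl⟩, A k, Or.inl hk, step fun h => ?_⟩
    exact hk' (k + 1) (Nat.lt_succ_self _) (h ▸ hk)
  · exact ⟨x', ⟨t', ht', le_refl _, hxt'⟩, vis_mono hsub hvis'⟩
  · exact ⟨x, ⟨t, hkt, le_refl _, hxt⟩, vis_mono hsub hvis⟩

/-- finite connected set containing two given points -/
theorem Det1_conn (hr : Reg nb) {a b : V} (h : Relation.ReflTransGen (Adj nb) a b) :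
    ∃ S : Set V, S.Finite ∧ ConIn nb S ∧ a ∈ S ∧ b ∈ S := by
  induction h with
  | refl => exact ⟨{a}, Set.finite_singleton a, conIn_singleton a, rfl, rfl⟩
  | tail _ h2 ih =>
    obtain ⟨S, h3, h4, h5, h6⟩ := ih
    refine ⟨S ∪ {_}, h3.union (Set.finite_singleton _),
      conIn_union hr h4 (conIn_singleton _) ⟨_, h6, _, rfl, Or.inr h2⟩, Or.inl h5, Or.inr rfl⟩

theorem det1 {θ : ℝ} (G : GInf nb θ) (hμ : LM μ) {A C : ℕ → V} (hA : TrWalk nb A) (hC : TrWalk nb C)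
    (hd : Disjoint (Set.range A) (Set.range C))
    (hthin : Thin nb μ (Set.range A ∪ Set.range C)) :
    ∃ HA HC x j, 1 ≤ j ∧ Cfg nb μ A C HA HC x j := by
  have hr := G.reg
  obtain ⟨S, hS, hSc, hA0, hC0⟩ := Det1_conn hr (G.cnn (A 0) (C 0))
  obtain ⟨k, -, hk, hk'⟩ := Det1_last hA.2 hS hA0
  obtain ⟨m, -, hm, hm'⟩ := Det1_last hC.2 hS hC0
  set R : Set V := S ∪ {u | ∃ t, k < t ∧ A t = u} ∪ {u | ∃ t, m < t ∧ C t = u} with hR
  have hRthin : Thin nb μ R := by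
    refine thin_mono (S := S ∪ (Set.range A ∪ Set.range C)) ?_ (thin_union (thin_finite G hμ hS) hthin)
    rintro u ((h | ⟨t, -, rfl⟩) | ⟨t, -, rfl⟩)
    · exact Or.inl h
    · exact Or.inr (Or.inl ⟨t, rfl⟩)
    · exact Or.inr (Or.inr ⟨t, rfl⟩)
  have hRinf : R.Infinite :=
    (Det1_tail_infinite hA.2 k).mono fun u hu => Or.inl (Or.inr hu)
  have hvinf : {x | x ∈ R ∧ Vis nb μ R x}.Infinite := by
    intro hfin
    obtain ⟨x, h1, h2, h3⟩ := vis_far G hμ hRinf hRthin hfin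
    exact h2 ⟨h1, h3⟩
  have hcover : {x | x ∈ R ∧ Vis nb μ R x} ⊆ S ∪ ({x | (∃ t, k < t ∧ A t = x) ∧ Vis nb μ R x}
      ∪ {x | (∃ t, m < t ∧ C t = x) ∧ Vis nb μ R x}) := by
    rintro x ⟨(h | h) | h, hv⟩
    · exact Or.inl h
    · exact Or.inr (Or.inl ⟨h, hv⟩)
    · exact Or.inr (Or.inr ⟨h, hv⟩)
  by_cases hcase : {x | (∃ t, k < t ∧ A t = x) ∧ Vis nb μ R x}.Infinite
  · exact det1_aux hr hμ hA hC hd hS hSc hk hk' hm hm' hcase
  · have hcase2 : {x | (∃ t, m < t ∧ C t = x) ∧ Vis nb μ R x}.Infinite := by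
      intro hfin
      exact hvinf ((hS.union ((Set.not_infinite.mp hcase).union hfin)).subset hcover)
    have hR' : R = S ∪ {u | ∃ t, m < t ∧ C t = u} ∪ {u | ∃ t, k < t ∧ A t = u} := by
      rw [hR]; exact Set.union_right_comm _ _ _
    rw [hR'] at hcase2
    obtain ⟨HC, HA, x, j, hj, hcfg⟩ :=
      det1_aux hr hμ hC hA hd.symm hS hSc hm hm' hk hk' hcase2
    exact ⟨HA, HC, fun s => x (j - s), j, hj, hcfg.swap hr⟩

end Pool.Agent.UQ
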