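import Pool.Agent.UQ.EscB

/-!
# B19 YL : a connected set containing `u, v, x` contains a tripod

Let `P = [p₀ = u, …, p_m = v]` be a simple path (nodup list) in `S` from `u` to `v` (a walk of minimal length) and `Q = [q₀ = x, …, q_n]` a simple path in `S` from `x` with `q_n = p_i =: w ∈ P` and `q_s ∉ P` for `s < n`
(cut a path from `x` to `u` at its first vertex on `P`; make it simple). `Hu = {p_0, …, p_{i-1}}`, `Hv = {p_{i+1}, …, p_m}`, `Hx = {q_0, …, q_{n-1}}`.

`simple_path`: between two points of a connected set there is a simple path inside the set, as a function.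
-/

open Finset MeasureTheory Pool.Agent.helper20.HP

namespace Pool.Agent.UQ

variable {V : Type} {D : ℕ} {nb : V → Fin D → V}

/-- walks inside a set, as functions -/
def YL_W (nb : V → Fin D → V) (S : Set V) (a b : V) (j : ℕ) (x : ℕ → V) : Prop :=
  x 0 = a ∧ x j = b ∧ (∀ s, s < j → Adj nb (x s) (x (s + 1))) ∧ ∀ s, s ≤ j → x s ∈ S

theorem YL_exists_walk {S : Set V} {a b : V} (ha : a ∈ S)
    (h : Relation.ReflTransGen (fun x y => Adj nb x y ∧ y ∈ S) a b) :
    ∃ j x, YL_W nb S a b j x := by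
  induction h with
  | refl =>
    refine ⟨0, fun _ => a, rfl, rfl, ?_, ?_⟩
    · intro s hs; omega
    · intro s _; exact ha
  | @tail b c _ hbc ih =>
    obtain ⟨j, x, h0, hj, hadj, hS⟩ := ih
    refine ⟨j + 1, fun s => if s ≤ j then x s else c, ?_, ?_, ?_, ?_⟩
    · simp [h0]
    · simp
    · intro s hs
      rcases Nat.lt_or_ge s j with h | h
      · have h1 : s ≤ j := h.le
        have h2 : s + 1 ≤ j := h
        simp only [h1, h2, if_true]
        exact hadj s h
      · have h3 : s = j := by omega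
        subst h3
        simp only [le_refl, if_true, Nat.not_succ_le_self, if_false]
        rw [hj]
        exact hbc.1
    · intro s hs
      by_cases h1 : s ≤ j
      · simp only [h1, if_true]; exact hS s h1
      · simp only [h1, if_false]; exact hbc.2

/-- simple path in `S` from `a` to `b` -/
theorem simple_path {S : Set V} (hS : ConIn nb S) {a b : V} (ha : a ∈ S) (hb : b ∈ S) :
    ∃ (x : ℕ → V) (j : ℕ), x 0 = a ∧ x j = b ∧ (∀ s, s < j → Adj nb (x s) (x (s + 1))) ∧
      (∀ s t, s ≤ j → t ≤ j → x s = x t → s = t) ∧ ∀ s, s ≤ j → x s ∈ S := by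
  classical
  have hex : ∃ j, ∃ x, YL_W nb S a b j x := YL_exists_walk ha (hS a ha b hb)
  obtain ⟨x, h0, hj, hadj, hxS⟩ := Nat.find_spec hex
  have hmin : ∀ m, m < Nat.find hex → ¬ ∃ x, YL_W nb S a b m x := fun m hm => Nat.find_min hex hm
  set j := Nat.find hex with hjdef
  have key : ∀ s t, s < t → t ≤ j → x s ≠ x t := by
    intro s t hst htj heq
    apply hmin (j - (t - s)) (by omega)
    refine ⟨fun r => if r ≤ s then x r else x (r + (t - s)), ?_, ?_, ?_, ?_⟩
    · simp [h0]
    · by_cases h1 : j - (t - s) ≤ s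
      · have h2 : t = j := by omega
        have h3 : j - (t - s) = s := by omega
        simp only [h1, if_true]
        rw [h3, heq, h2, hj]
      · simp only [h1, if_false]
        have h2 : j - (t - s) + (t - s) = j := by omega
        rw [h2, hj]
    · intro r hr
      by_cases h1 : r + 1 ≤ s
      · have h2 : r ≤ s := by omega
        simp only [h1, h2, if_true]
        exact hadj r (by omega)
      · by_cases h2 : r ≤ s
        · have h3 : r = s := by omega
          subst h3
          simp only [h1, le_refl, if_true, if_false]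
          have h4 : r + 1 + (t - r) = t + 1 := by omega
          rw [h4, heq]
          exact hadj t (by omega)
        · simp only [h1, h2, if_false]
          have h4 : r + 1 + (t - s) = r + (t - s) + 1 := by omega
          rw [h4]
          exact hadj _ (by omega)
    · intro r hr
      by_cases h1 : r ≤ s
      · simp only [h1, if_true]
        exact hxS r (by omega)
      · simp only [h1, if_false]
        exact hxS _ (by omega)
  refine ⟨x, j, h0, hj, hadj, ?_, hxS⟩
  intro s t hs ht heq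
  rcases Nat.lt_trichotomy s t with h | h | h
  · exact absurd heq (key s t h ht)
  · exact h
  · exact absurd heq.symm (key t s h hs)

/-- segments of walks are connected -/
theorem YL_seg (hr : Reg nb) {f : ℕ → V} {a b : ℕ}
    (hf : ∀ s, a ≤ s → s + 1 < b → Adj nb (f s) (f (s + 1))) :
    ConIn nb {y | ∃ s, a ≤ s ∧ s < b ∧ f s = y} := by
  have key : ∀ d s, a ≤ s → s + d < b →
      Relation.ReflTransGen (fun x y => Adj nb x y ∧ y ∈ {y | ∃ s, a ≤ s ∧ s < b ∧ f s = y})
        (f s) (f (s + d)) ∧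
      Relation.ReflTransGen (fun x y => Adj nb x y ∧ y ∈ {y | ∃ s, a ≤ s ∧ s < b ∧ f s = y})
        (f (s + d)) (f s) := by
    intro d
    induction d with
    | zero => intro s _ _; exact ⟨Relation.ReflTransGen.refl, Relation.ReflTransGen.refl⟩
    | succ d ih =>
      intro s hs hsd
      obtain ⟨h1, h2⟩ := ih s hs (by omega)
      have h3 := hf (s + d) (by omega) (by omega)
      constructor
      · exact h1.tail ⟨h3, ⟨s + d + 1, by omega, by omega, rfl⟩⟩
      · refine Relation.ReflTransGen.head ⟨?_, ⟨s + d, by omega, by omega, rfl⟩⟩ h2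
        obtain ⟨i, hi⟩ := h3
        have := hr.symm (f (s + d)) i
        rw [hi] at this
        exact this
  rintro y ⟨s, hs1, hs2, rfl⟩ z ⟨t, ht1, ht2, rfl⟩
  rcases Nat.le_total s t with h | h
  · have := (key (t - s) s hs1 (by omega)).1
    rwa [show s + (t - s) = t by omega] at this
  · have := (key (s - t) t ht1 (by omega)).2
    rwa [show t + (s - t) = s by omega] at this

theorem YL_symm (hr : Reg nb) {x y : V} (h : Adj nb x y) : Adj nb y x := by
  obtain ⟨i, rfl⟩ := h
  exact hr.symm x i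

theorem ylem (hr : Reg nb) {S : Set V} (hS : ConIn nb S) {u v x : V} (hu : u ∈ S) (hv : v ∈ S)
    (hx : x ∈ S) : ∃ w ∈ S, ∃ Hu Hv Hx : Set V, Hu ⊆ S ∧ Hv ⊆ S ∧ Hx ⊆ S ∧
      w ∉ Hu ∧ w ∉ Hv ∧ w ∉ Hx ∧ Disjoint Hu Hv ∧ Disjoint Hu Hx ∧ Disjoint Hv Hx ∧
      ConIn nb Hu ∧ ConIn nb Hv ∧ ConIn nb Hx ∧
      ((w = u ∧ Hu = ∅) ∨ (u ∈ Hu ∧ ∃ h ∈ Hu, Adj nb w h)) ∧
      ((w = v ∧ Hv = ∅) ∨ (v ∈ Hv ∧ ∃ h ∈ Hv, Adj nb w h)) ∧
      ((w = x ∧ Hx = ∅) ∨ (x ∈ Hx ∧ ∃ h ∈ Hx, Adj nb w h)) := by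
  classical
  obtain ⟨p, m, p0, pm, padj, pinj, pS⟩ := simple_path hS hu hv
  obtain ⟨q, n₀, q0, qn, qadj, qinj, qS⟩ := simple_path hS hx hu
  have hex : ∃ n, n ≤ n₀ ∧ ∃ i, i ≤ m ∧ p i = q n := ⟨n₀, le_refl _, 0, Nat.zero_le _, by rw [p0, qn]⟩
  obtain ⟨hn, i, him, hpi⟩ := Nat.find_spec hex
  have hmin : ∀ k, k < Nat.find hex → ¬ (k ≤ n₀ ∧ ∃ i, i ≤ m ∧ p i = q k) :=
    fun k hk => Nat.find_min hex hk
  set n := Nat.find hex with hndef
  have hq : ∀ k, k < n → ∀ i, i ≤ m → p i ≠ q k := by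
    intro k hk i hi heq
    exact hmin k hk ⟨by omega, i, hi, heq⟩
  refine ⟨p i, pS i him, {y | ∃ s, 0 ≤ s ∧ s < i ∧ p s = y}, {y | ∃ s, i + 1 ≤ s ∧ s < m + 1 ∧ p s = y},
    {y | ∃ s, 0 ≤ s ∧ s < n ∧ q s = y}, ?_, ?_, ?_, ?_, ?_, ?_, ?_, ?_, ?_, ?_, ?_, ?_, ?_, ?_, ?_⟩
  · rintro y ⟨s, -, hs, rfl⟩; exact pS s (by omega)
  · rintro y ⟨s, hs1, hs, rfl⟩; exact pS s (by omega)
  · rintro y ⟨s, -, hs, rfl⟩; exact qS s (by omega)
  · rintro ⟨s, -, hs, he⟩
    have := pinj s i (by omega) him he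
    omega
  · rintro ⟨s, hs1, hs, he⟩
    have := pinj s i (by omega) him he
    omega
  · rintro ⟨s, -, hs, he⟩
    exact hq s hs i him he.symm
  · rw [Set.disjoint_left]
    rintro y ⟨s, -, hs, rfl⟩ ⟨t, ht1, ht2, he⟩
    have := pinj t s (by omega) (by omega) he
    omega
  · rw [Set.disjoint_left]
    rintro y ⟨s, -, hs, rfl⟩ ⟨t, -, ht2, he⟩
    exact hq t ht2 s (by omega) he.symm
  · rw [Set.disjoint_left]
    rintro y ⟨s, hs1, hs, rfl⟩ ⟨t, -, ht2, he⟩
    exact hq t ht2 s (by omega) he.symm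
  · exact YL_seg hr (fun s _ hs => padj s (by omega))
  · exact YL_seg hr (fun s _ hs => padj s (by omega))
  · exact YL_seg hr (fun s _ hs => qadj s (by omega))
  · rcases Nat.eq_zero_or_pos i with h | h
    · left
      refine ⟨by rw [h, p0], ?_⟩
      rw [Set.eq_empty_iff_forall_notMem]
      rintro y ⟨s, -, hs, -⟩
      omega
    · right
      refine ⟨⟨0, le_refl _, h, p0⟩, p (i - 1), ⟨i - 1, Nat.zero_le _, by omega, rfl⟩, ?_⟩
      have := padj (i - 1) (by omega)
      rw [show i - 1 + 1 = i by omega] at this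
      exact YL_symm hr this
  · rcases Nat.eq_or_lt_of_le him with h | h
    · left
      refine ⟨by rw [h, pm], ?_⟩
      rw [Set.eq_empty_iff_forall_notMem]
      rintro y ⟨s, hs1, hs, -⟩
      omega
    · right
      refine ⟨⟨m, by omega, by omega, pm⟩, p (i + 1), ⟨i + 1, le_refl _, by omega, rfl⟩, ?_⟩
      exact padj i h
  · rcases Nat.eq_zero_or_pos n with h | h
    · left
      refine ⟨by rw [hpi, h, q0], ?_⟩
      rw [Set.eq_empty_iff_forall_notMem]
      rintro y ⟨s, -, hs, -⟩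
      omega
    · right
      refine ⟨⟨0, le_refl _, h, q0⟩, q (n - 1), ⟨n - 1, Nat.zero_le _, by omega, rfl⟩, ?_⟩
      have := qadj (n - 1) (by omega)
      rw [show n - 1 + 1 = n by omega] at this
      rw [hpi]
      exact YL_symm hr this

end Pool.Agent.UQ
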