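import Pool.Agent.UQ.Br
import Pool.Agent.UQ.YL
import Pool.Agent.UQ.Ch2

/-!
# B22 Det2 : a configuration with minimal gap has gap 1

Strong induction on `j`. Let `j ≥ 2`, `R = HA ∪ HC ∪ {x s | s ≤ j}`, `I = {x s | 0 < s < j}`, `Φ = {x 0, x j}`.
(1) If some `x i`, `0 < i < j`, is visible w.r.t. `R`: `Cfg HA (HC ∪ {x s | i < s ≤ j}) x i` (same `R`).
(2) Otherwise apply `bridge`: `u = x i ∈ I`, `r ∈ R \ (I ∪ Φ) = HA ∪ HC`, `K`.
 If `r ∈ HC`: `Cfg HA (HC ∪ K) x i`: `HC ∪ K` is connected, `x i` is adjacent to it; the new `R' = HA ∪ (HC ∪ K) ∪ {x s | s ≤ i} ⊆ R ∪ K`. Escape w.r.t. `R` implies escape w.r.t. `R ∪ K` (`esc_union`) and `R'`: so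
 `x 0` is visible w.r.t. `R'`; a neighbour `y` of `x j` has `Esc R' y`, and `x j, x (j-1), …, x (i+1) ∉ R'`, so `Esc R' (x (i+1))` (`esc_adj`): `x i` is visible.
 If `r ∈ HA`: `Cfg (HA ∪ K) HC (fun s => x (i + s)) (j - i)`, symmetric (one may use `Cfg.swap`).
Gap `i` or `j - i`, both `≥ 1` and `< j`.
-/

open Finset MeasureTheory Pool.Agent.helper20.HP

namespace Pool.Agent.UQ

variable {V : Type} {D : ℕ} {nb : V → Fin D → V} {μ : Measure (ℕ → Lt D)}

/-- a segment of a path is connected -/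
theorem Det2_seg (hr : Reg nb) {x : ℕ → V} {j : ℕ} (hadj : ∀ s, s < j → Adj nb (x s) (x (s + 1)))
    (a b : ℕ) (hb : b ≤ j) : ConIn nb {u | ∃ s, a ≤ s ∧ s ≤ b ∧ x s = u} := by
  have h := conIn_segment (nb := nb) hr (A := fun t => x (min t j)) (fun t => by
    by_cases ht : t < j
    · right
      have h1 : min t j = t := by omega
      have h2 : min (t + 1) j = t + 1 := by omega
      simp only [h1, h2]
      exact hadj t ht
    · left
      have h1 : min t j = j := by omega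
      have h2 : min (t + 1) j = j := by omega
      simp only [h1, h2]) a b
  have he : {u | ∃ s, a ≤ s ∧ s ≤ b ∧ x s = u} = {u | ∃ s, a ≤ s ∧ s ≤ b ∧ x (min s j) = u} := by
    ext u
    constructor
    · rintro ⟨s, h1, h2, h3⟩
      refine ⟨s, h1, h2, ?_⟩
      rw [min_eq_left (by omega)]; exact h3
    · rintro ⟨s, h1, h2, h3⟩
      refine ⟨s, h1, h2, ?_⟩
      rw [min_eq_left (by omega)] at h3; exact h3
  rw [he]; exact h

/-- enlarging a half -/
theorem Det2_half (hr : Reg nb) {H K : Set V} {A : ℕ → V} (hH : Half nb H A) (hK : ConIn nb K)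
    (h : K = ∅ ∨ ∃ a ∈ H, ∃ b ∈ K, Adj nb a b) : Half nb (H ∪ K) A := by
  refine ⟨?_, ?_⟩
  · rcases h with h | ⟨a, ha, b, hb, hab⟩
    · rw [h, Set.union_empty]; exact hH.1
    · exact conIn_union hr hH.1 hK ⟨a, ha, b, hb, Or.inr hab⟩
  · obtain ⟨k, hk⟩ := hH.2
    exact ⟨k, fun t ht => Or.inl (hk t ht)⟩

/-- visibility propagates backwards along a path outside the set -/
theorem Det2_path (hμ : LM μ) {R : Set V} {x : ℕ → V} {i : ℕ} : ∀ {j : ℕ}, i ≤ j →
    (∀ s, i ≤ s → s < j → Adj nb (x s) (x (s + 1))) → (∀ s, i < s → s ≤ j → x s ∉ R) →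
    Vis nb μ R (x j) → Vis nb μ R (x i) := by
  intro j
  induction j with
  | zero =>
    intro hij _ _ hv
    have : i = 0 := by omega
    rw [this]; exact hv
  | succ j ih =>
    intro hij hadj hnot hv
    rcases Nat.lt_or_ge j i with h | h
    · have : i = j + 1 := by omega
      rw [this]; exact hv
    · refine ih h (fun s h1 h2 => hadj s h1 (by omega)) (fun s h1 h2 => hnot s h1 (by omega)) ?_
      obtain ⟨y, hy, hey⟩ := hv
      have h1 : x (j + 1) ∉ R := hnot (j + 1) (by omega) le_rfl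
      exact ⟨x (j + 1), hadj j h (by omega), esc_adj hμ hy h1 hey⟩

/-- adding trapped vertices does not destroy visibility -/
theorem Det2_vis_union (hμ : LM μ) {R K : Set V} {v : V} (h : Vis nb μ R v)
    (hK : ∀ u ∈ K, ¬ Esc nb μ R u) : Vis nb μ (R ∪ K) v := by
  obtain ⟨y, hy, hey⟩ := h
  exact ⟨y, hy, esc_union hμ hey hK⟩

/-- shorten the gap, attaching `K` to the second half -/
theorem Det2_step (hr : Reg nb) (hμ : LM μ) {A C : ℕ → V} {HA HC : Set V} {x : ℕ → V} {j : ℕ}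
    (h : Cfg nb μ A C HA HC x j) {i : ℕ} (hi : i ≤ j) {K : Set V} {r : V} (hrC : r ∈ HC)
    (hKR : Disjoint K (HA ∪ HC ∪ {u | ∃ s, s ≤ j ∧ x s = u})) (hKc : ConIn nb K)
    (hKt : ∀ b ∈ K, ¬ Esc nb μ (HA ∪ HC ∪ {u | ∃ s, s ≤ j ∧ x s = u}) b)
    (hK : (K = ∅ ∧ Adj nb (x i) r) ∨ ((∃ b ∈ K, Adj nb (x i) b) ∧ ∃ b ∈ K, Adj nb b r)) :
    Cfg nb μ A C HA (HC ∪ K) x i := by
  have hsub : HA ∪ (HC ∪ K) ∪ {u | ∃ s, s ≤ i ∧ x s = u}
      ⊆ (HA ∪ HC ∪ {u | ∃ s, s ≤ j ∧ x s = u}) ∪ K := by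
    rintro u ((hu | hu | hu) | ⟨s, hs, hu⟩)
    · exact Or.inl (Or.inl (Or.inl hu))
    · exact Or.inl (Or.inl (Or.inr hu))
    · exact Or.inr hu
    · exact Or.inl (Or.inr ⟨s, by omega, hu⟩)
  have hxK : ∀ s, s ≤ j → x s ∉ K := fun s hs hk =>
    Set.disjoint_left.mp hKR hk (Or.inr ⟨s, hs, rfl⟩)
  refine ⟨h.hA, ?_, ?_, fun s hs => h.adj s (by omega), fun s t hs ht => h.inj s t (by omega) (by omega),
    fun s hs => h.xA s (by omega), ?_, h.endA, ?_, ?_, ?_⟩
  · refine Det2_half hr h.hC hKc ?_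
    rcases hK with ⟨h1, -⟩ | ⟨-, b, hb, hbr⟩
    · exact Or.inl h1
    · exact Or.inr ⟨r, hrC, b, hb, adj_symm hr hbr⟩
  · rw [Set.disjoint_union_right]
    refine ⟨h.dis, ?_⟩
    rw [Set.disjoint_left]
    intro u hu hk
    exact Set.disjoint_left.mp hKR hk (Or.inl (Or.inl hu))
  · rintro s hs (hu | hu)
    · exact h.xC s (by omega) hu
    · exact hxK s (by omega) hu
  · rcases hK with ⟨-, h2⟩ | ⟨⟨b, hb, hb2⟩, -⟩
    · exact ⟨r, Or.inl hrC, h2⟩
    · exact ⟨b, Or.inr hb, hb2⟩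
  · exact vis_mono hsub (Det2_vis_union hμ h.vis0 hKt)
  · refine Det2_path hμ hi (fun s _ hs => h.adj s hs) ?_ (vis_mono hsub (Det2_vis_union hμ h.visj hKt))
    rintro s h1 h2 ((hu | hu | hu) | ⟨t, ht, hu⟩)
    · exact h.xA s h2 hu
    · exact h.xC s h2 hu
    · exact hxK s h2 hu
    · have := h.inj t s (by omega) h2 hu
      omega

/-- shorten the gap at an inner visible vertex -/
theorem Det2_cut (hr : Reg nb) {A C : ℕ → V} {HA HC : Set V} {x : ℕ → V} {j : ℕ}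
    (h : Cfg nb μ A C HA HC x j) {i : ℕ} (hi : i < j)
    (hv : Vis nb μ (HA ∪ HC ∪ {u | ∃ s, s ≤ j ∧ x s = u}) (x i)) :
    Cfg nb μ A C HA (HC ∪ {u | ∃ s, i + 1 ≤ s ∧ s ≤ j ∧ x s = u}) x i := by
  have hsub : HA ∪ (HC ∪ {u | ∃ s, i + 1 ≤ s ∧ s ≤ j ∧ x s = u}) ∪ {u | ∃ s, s ≤ i ∧ x s = u}
      ⊆ HA ∪ HC ∪ {u | ∃ s, s ≤ j ∧ x s = u} := by
    rintro u ((hu | hu | ⟨s, -, hs, hu⟩) | ⟨s, hs, hu⟩)
    · exact Or.inl (Or.inl hu)
    · exact Or.inl (Or.inr hu)
    · exact Or.inr ⟨s, hs, hu⟩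
    · exact Or.inr ⟨s, by omega, hu⟩
  refine ⟨h.hA, ?_, ?_, fun s hs => h.adj s (by omega), fun s t hs ht => h.inj s t (by omega) (by omega),
    fun s hs => h.xA s (by omega), ?_, h.endA, ?_, ?_, ?_⟩
  · refine Det2_half hr h.hC (Det2_seg hr h.adj (i + 1) j le_rfl) (Or.inr ?_)
    obtain ⟨c, hc, hxc⟩ := h.endC
    exact ⟨c, hc, x j, ⟨j, by omega, le_rfl, rfl⟩, adj_symm hr hxc⟩
  · rw [Set.disjoint_union_right]
    refine ⟨h.dis, ?_⟩
    rw [Set.disjoint_left]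
    rintro u hu ⟨s, -, hs, rfl⟩
    exact h.xA s hs hu
  · rintro s hs (hu | ⟨t, ht1, ht2, hu⟩)
    · exact h.xC s (by omega) hu
    · have := h.inj t s ht2 (by omega) hu
      omega
  · exact ⟨x (i + 1), Or.inr ⟨i + 1, le_rfl, by omega, rfl⟩, h.adj i hi⟩
  · exact vis_mono hsub h.vis0
  · exact vis_mono hsub hv

theorem Det2_swapR {HA HC : Set V} {x : ℕ → V} {j : ℕ} :
    HC ∪ HA ∪ {u | ∃ s, s ≤ j ∧ x (j - s) = u} = HA ∪ HC ∪ {u | ∃ s, s ≤ j ∧ x s = u} := by
  rw [Set.union_comm HC HA]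
  congr 1
  ext u
  constructor
  · rintro ⟨s, hs, hu⟩; exact ⟨j - s, by omega, hu⟩
  · rintro ⟨s, hs, hu⟩
    refine ⟨j - s, by omega, ?_⟩
    rw [show j - (j - s) = s by omega]; exact hu

theorem det2 {θ : ℝ} (G : GInf nb θ) (hμ : LM μ) {A C : ℕ → V} {HA HC : Set V} {x : ℕ → V} {j : ℕ}
    (hj : 1 ≤ j) (h : Cfg nb μ A C HA HC x j) :
    ∃ HA' HC' x', Cfg nb μ A C HA' HC' x' 1 := by
  have hr := G.reg
  induction j using Nat.strong_induction_on generalizing HA HC x with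
  | _ j ih =>
    rcases Nat.lt_or_ge 1 j with hj2 | hj2
    · by_cases hv : ∃ i, 0 < i ∧ i < j ∧ Vis nb μ (HA ∪ HC ∪ {u | ∃ s, s ≤ j ∧ x s = u}) (x i)
      · obtain ⟨i, hi0, hij, hvi⟩ := hv
        exact ih i hij hi0 (Det2_cut hr h hij hvi)
      · push_neg at hv
        set R : Set V := HA ∪ HC ∪ {u | ∃ s, s ≤ j ∧ x s = u} with hR
        have hI : {u | ∃ s, 0 < s ∧ s < j ∧ x s = u}.Finite := by
          refine ((Set.finite_Iio j).image x).subset ?_
          rintro u ⟨s, -, hs, rfl⟩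
          exact ⟨s, hs, rfl⟩
        have hIn : {u | ∃ s, 0 < s ∧ s < j ∧ x s = u}.Nonempty := ⟨x 1, 1, by omega, hj2, rfl⟩
        have hIR : {u | ∃ s, 0 < s ∧ s < j ∧ x s = u} ⊆ R := by
          rintro u ⟨s, -, hs, rfl⟩
          exact Or.inr ⟨s, by omega, rfl⟩
        have hΦ : ({x 0, x j} : Set V).Finite := by simp
        have hΦ2 : ({x 0, x j} : Set V).ncard ≤ 2 := by
          refine (Set.ncard_insert_le _ _).trans ?_
          rw [Set.ncard_singleton]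
        have hΦR : ({x 0, x j} : Set V) ⊆ R := by
          rintro u (rfl | hu)
          · exact Or.inr ⟨0, by omega, rfl⟩
          · rw [Set.mem_singleton_iff] at hu
            rw [hu]; exact Or.inr ⟨j, le_rfl, rfl⟩
        have hd : Disjoint {u | ∃ s, 0 < s ∧ s < j ∧ x s = u} ({x 0, x j} : Set V) := by
          rw [Set.disjoint_left]
          rintro u ⟨s, h1, h2, rfl⟩ (hu | hu)
          · have := h.inj s 0 (by omega) (by omega) hu
            omega
          · rw [Set.mem_singleton_iff] at hu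
            have := h.inj s j (by omega) le_rfl hu
            omega
        have hinv : ∀ u ∈ {u | ∃ s, 0 < s ∧ s < j ∧ x s = u}, ¬ Vis nb μ R u := by
          rintro u ⟨s, h1, h2, rfl⟩
          exact hv s h1 h2
        obtain ⟨u, ⟨i, hi0, hij, rfl⟩, r, hrR, hrI, hrΦ, K, hKR, hKc, hKt, hK⟩ :=
          bridge G hμ hI hIn hIR hΦ hΦ2 hΦR hd hinv
        rcases hrR with (hrA | hrC) | ⟨s, hs, rfl⟩
        · -- the first half
          have hsw := h.swap hr
          have hst := Det2_step hr hμ hsw (i := j - i) (K := K) (r := r) (by omega) hrA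
            (by rw [Det2_swapR]; exact hKR) hKc (by rw [Det2_swapR]; exact hKt)
            (by simp only [show j - (j - i) = i by omega]; exact hK)
          exact ih (j - i) (by omega) (by omega) (hst.swap hr)
        · exact ih i hij hi0 (Det2_step hr hμ h hij.le hrC hKR hKc hKt hK)
        · exfalso
          rcases Nat.eq_zero_or_pos s with h0 | h0
          · exact hrΦ (by left; rw [h0])
          · rcases Nat.lt_or_ge s j with h1 | h1
            · exact hrI ⟨s, h0, h1, rfl⟩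
            · have : s = j := by omega
              exact hrΦ (by right; rw [this]; rfl)
    · have : j = 1 := by omega
      subst this
      exact ⟨HA, HC, x, h⟩

end Pool.Agent.UQ
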