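import Pool.Agent.UQ.YL
import Pool.Agent.UQ.P4
import Pool.Agent.UQ.ThinW

/-!
# B23 Det3a : a half attached to `Z` with a visible attaching point

Let `S₀ ⊇ Z` be finite connected with `C 0 ∈ S₀` (add a path from `Z` to `C 0`), `k₀` the last time at which `C ∈ S₀`, `T k = {C t | t > k}`, `R₀ = S₀ ∪ T k₀` (thin, infinite). By `vis_far` with `Φ = S₀`
there is a visible `x = C t`, `t > k₀`. `β = {C i | k₀ < i ≤ t}`, `k₁` = last time in `β`, `H₀ = T k₁`. `ylem` in `β` for `(u, v, x)`, `u = C (k₀+1)`, `v = C k₁`: `w, Hu, Hv, Hx`. `H = H₀ ∪ Hv`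
(half, adjacent to `w`). `Y = S₀ ∪ Hu ∪ {w}` is connected; take a simple path in `Y` from a point of `Z` to `w` and keep the part after its last visit of `Z`:
`x 0 ∈ Z`, `x s ∉ Z` for `0 < s ≤ l`, `x l = w`. `R' = Z ∪ H ∪ path ⊆ R₀`, and `w` is visible w.r.t. `R'` through `Hx` (as in `chain2`).
-/

open Finset MeasureTheory Pool.Agent.helper20.HP

namespace Pool.Agent.UQ

variable {V : Type} {D : ℕ} {nb : V → Fin D → V} {μ : Measure (ℕ → Lt D)}

/-- last visit of a finite set -/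
theorem Det3a_last {C : ℕ → V} (hC : TrWalk nb C) {F : Set V} (hF : F.Finite) {k : ℕ}
    (hk : C k ∈ F) : ∃ m, k ≤ m ∧ C m ∈ F ∧ ∀ t, m < t → C t ∉ F := by
  classical
  have hfin : {t | C t ∈ F}.Finite := by
    have h1 : {t | C t ∈ F} = ⋃ x ∈ F, {t | C t = x} := by
      ext t
      simp
    rw [h1]
    exact hF.biUnion (fun x _ => hC.2 x)
  obtain ⟨m, hm, hmax⟩ := hfin.exists_maximal ⟨k, hk⟩
  have hmax' : ∀ t, C t ∈ F → t ≤ m := by
    intro t ht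
    by_contra hlt
    exact hlt (hmax ht (by omega))
  exact ⟨m, hmax' k hk, hm, fun t ht hC' => absurd (hmax' t hC') (by omega)⟩

/-- the tail of a `TrWalk` is infinite -/
theorem Det3a_inf {C : ℕ → V} (hC : TrWalk nb C) (k : ℕ) :
    {u | ∃ i, k ≤ i ∧ C i = u}.Infinite := by
  intro hfin
  obtain ⟨m, hm, -, hm2⟩ := Det3a_last hC hfin (k := k) ⟨k, le_rfl, rfl⟩
  exact hm2 (m + 1) (by omega) ⟨m + 1, by omega, rfl⟩

/-- a connected finite set containing `Z` and a given point -/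
theorem Det3a_conn {θ : ℝ} (G : GInf nb θ) {Z : Set V} (hZ : Z.Finite) (hZn : Z.Nonempty)
    (hZc : ConIn nb Z) (o : V) : ∃ S : Set V, S.Finite ∧ Z ⊆ S ∧ o ∈ S ∧ ConIn nb S := by
  obtain ⟨z, hz⟩ := hZn
  have huniv : ConIn nb (Set.univ : Set V) := by
    intro a _ b _
    exact Relation.ReflTransGen.mono (fun x y h => ⟨h, trivial⟩) _ _ (G.cnn a b)
  obtain ⟨x, j, hx0, hxj, hadj, -, -⟩ := simple_path huniv (Set.mem_univ z) (Set.mem_univ o)
  set A : ℕ → V := fun t => x (min t j) with hA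
  have hAw : ∀ t, A (t + 1) = A t ∨ Adj nb (A t) (A (t + 1)) := by
    intro t
    by_cases ht : t < j
    · right
      have h1 : min t j = t := by omega
      have h2 : min (t + 1) j = t + 1 := by omega
      simp only [hA, h1, h2]
      exact hadj t ht
    · left
      have h1 : min t j = j := by omega
      have h2 : min (t + 1) j = j := by omega
      simp only [hA, h1, h2]
  have hcon := conIn_segment G.reg hAw 0 j
  refine ⟨Z ∪ {u | ∃ i, 0 ≤ i ∧ i ≤ j ∧ A i = u}, ?_, Set.subset_union_left, ?_, ?_⟩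
  · apply hZ.union
    apply ((Set.finite_Iic j).image A).subset
    rintro u ⟨i, -, hi, rfl⟩
    exact ⟨i, hi, rfl⟩
  · right
    refine ⟨j, Nat.zero_le _, le_rfl, ?_⟩
    simp only [hA, min_self]
    exact hxj
  · apply conIn_union G.reg hZc hcon
    refine ⟨z, hz, A 0, ⟨0, le_rfl, Nat.zero_le _, rfl⟩, Or.inl ?_⟩
    simp only [hA, Nat.zero_min]
    exact hx0.symm

theorem det3a {θ : ℝ} (G : GInf nb θ) (hμ : LM μ) {C : ℕ → V} (hC : TrWalk nb C) {Z : Set V}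
    (hZ : Z.Finite) (hZn : Z.Nonempty) (hZc : ConIn nb Z) (hthin : Thin nb μ (Set.range C)) :
    ∃ H x l, Cf3 nb μ C Z H x l := by
  classical
  obtain ⟨S₀, hSf, hZS, hCS, hSc⟩ := Det3a_conn G hZ hZn hZc (C 0)
  obtain ⟨k₀, -, hk₀, hk₀'⟩ := Det3a_last hC hSf hCS
  -- the tail after `k₀`
  set T₀ : Set V := {u | ∃ i, k₀ + 1 ≤ i ∧ C i = u} with hT₀
  set R₀ : Set V := S₀ ∪ T₀ with hR₀
  have hT₀S : ∀ u ∈ T₀, u ∉ S₀ := by
    rintro u ⟨i, hi, rfl⟩
    exact hk₀' i (by omega)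
  have hR₀inf : R₀.Infinite := (Det3a_inf hC (k₀ + 1)).mono Set.subset_union_right
  have hR₀thin : Thin nb μ R₀ := by
    apply thin_union (thin_finite G hμ hSf)
    apply thin_mono _ hthin
    rintro u ⟨i, -, rfl⟩
    exact ⟨i, rfl⟩
  obtain ⟨x, hxR, hxS, hvis⟩ := vis_far G hμ hR₀inf hR₀thin hSf
  have hxT : x ∈ T₀ := by
    rcases hxR with h | h
    · exact absurd h hxS
    · exact h
  obtain ⟨t, ht, htx⟩ := hxT
  -- the segment `β`
  set β : Set V := {u | ∃ i, k₀ + 1 ≤ i ∧ i ≤ t ∧ C i = u} with hβ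
  have hβfin : β.Finite := by
    apply ((Set.finite_Iic t).image C).subset
    rintro u ⟨i, -, hi, rfl⟩
    exact ⟨i, hi, rfl⟩
  have hβT : β ⊆ T₀ := by
    rintro u ⟨i, hi, -, rfl⟩
    exact ⟨i, hi, rfl⟩
  have hβc : ConIn nb β := conIn_segment G.reg hC.1 (k₀ + 1) t
  have hxβ : x ∈ β := ⟨t, ht, le_rfl, htx⟩
  have huβ : C (k₀ + 1) ∈ β := ⟨k₀ + 1, le_rfl, ht, rfl⟩
  obtain ⟨k₁, hk₁t, hk₁, hk₁'⟩ := Det3a_last hC hβfin (k := t) (htx ▸ hxβ)
  set H₀ : Set V := {u | ∃ i, k₁ + 1 ≤ i ∧ C i = u} with hH₀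
  have hH₀c : ConIn nb H₀ := conIn_tail G.reg hC.1 (k₁ + 1)
  have hH₀β : ∀ u ∈ H₀, u ∉ β := by
    rintro u ⟨i, hi, rfl⟩
    exact hk₁' i (by omega)
  have hH₀T : H₀ ⊆ T₀ := by
    rintro u ⟨i, hi, rfl⟩
    exact ⟨i, by omega, rfl⟩
  have hCk₁ : C (k₁ + 1) ∈ H₀ := ⟨k₁ + 1, le_rfl, rfl⟩
  have hadj₁ : Adj nb (C k₁) (C (k₁ + 1)) := by
    rcases hC.1 k₁ with h | h
    · exact absurd (h ▸ hk₁) (hk₁' (k₁ + 1) (by omega))
    · exact h
  have hadj₀ : Adj nb (C k₀) (C (k₀ + 1)) := by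
    rcases hC.1 k₀ with h | h
    · exact absurd (h ▸ hk₀) (hk₀' (k₀ + 1) (by omega))
    · exact h
  obtain ⟨w, hwβ, Hu, Hv, Hx, hHuβ, hHvβ, hHxβ, hwu, hwv, hwx, duv, dux, dvx, cu, cv, cx, hu', hv',
    hx'⟩ := ylem G.reg hβc huβ hk₁ hxβ
  -- the half `H`
  have hHc : ConIn nb (H₀ ∪ Hv) := by
    rcases hv' with ⟨-, h⟩ | ⟨h, -⟩
    · rw [h, Set.union_empty]
      exact hH₀c
    · exact conIn_union G.reg hH₀c cv ⟨C (k₁ + 1), hCk₁, C k₁, h, Or.inr (adj_symm G.reg hadj₁)⟩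
  have hHhalf : Half nb (H₀ ∪ Hv) C :=
    ⟨hHc, k₁ + 1, fun s hs => Or.inl ⟨s, hs, rfl⟩⟩
  have hend : ∃ c ∈ H₀ ∪ Hv, Adj nb w c := by
    rcases hv' with ⟨h, -⟩ | ⟨-, c, hc, hwc⟩
    · exact ⟨C (k₁ + 1), Or.inl hCk₁, h ▸ hadj₁⟩
    · exact ⟨c, Or.inr hc, hwc⟩
  -- the connected set `Y`
  have hYc : ConIn nb (S₀ ∪ (Hu ∪ {w})) := by
    have h1 : ConIn nb (Hu ∪ {w}) := by
      rcases hu' with ⟨-, h⟩ | ⟨-, c, hc, hwc⟩
      · rw [h, Set.empty_union]
        exact conIn_singleton w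
      · exact conIn_union G.reg cu (conIn_singleton w) ⟨c, hc, w, rfl, Or.inr (adj_symm G.reg hwc)⟩
    apply conIn_union G.reg hSc h1
    refine ⟨C k₀, hk₀, C (k₀ + 1), ?_, Or.inr hadj₀⟩
    rcases hu' with ⟨h, -⟩ | ⟨h, -⟩
    · right
      exact h.symm
    · left
      exact h
  obtain ⟨z, hz⟩ := hZn
  obtain ⟨p, j, hp0, hpj, hpadj, hpinj, hpY⟩ := simple_path hYc (a := z) (b := w) (Or.inl (hZS hz))
    (Or.inr (Or.inr rfl))
  have hwS : w ∉ S₀ := hT₀S w (hβT hwβ)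
  -- last visit of `Z` along the path
  obtain ⟨i, hij, hiZ, hiZ'⟩ : ∃ i, i ≤ j ∧ p i ∈ Z ∧ ∀ s, i < s → s ≤ j → p s ∉ Z := by
    have hfin : {s | s ≤ j ∧ p s ∈ Z}.Finite := (Set.finite_Iic j).subset (fun s hs => hs.1)
    obtain ⟨m, hm, hmax⟩ := hfin.exists_maximal ⟨0, Nat.zero_le _, hp0 ▸ hz⟩
    refine ⟨m, hm.1, hm.2, fun s hs hsj hsZ => ?_⟩
    have := hmax (y := s) ⟨hsj, hsZ⟩ (by omega)
    omega
  -- `H` is disjoint from `Y`
  have hHY : ∀ u ∈ S₀ ∪ (Hu ∪ {w}), u ∉ H₀ ∪ Hv := by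
    rintro u hu (hH | hH)
    · rcases hu with h | h | h
      · exact hT₀S u (hH₀T hH) h
      · exact hH₀β u hH (hHuβ h)
      · rw [Set.mem_singleton_iff] at h
        exact hH₀β u hH (h ▸ hwβ)
    · rcases hu with h | h | h
      · exact hT₀S u (hβT (hHvβ hH)) h
      · exact Set.disjoint_left.1 duv h hH
      · rw [Set.mem_singleton_iff] at h
        exact hwv (h ▸ hH)
  -- `R'`
  set R' : Set V := Z ∪ (H₀ ∪ Hv) ∪ {u | ∃ s, s ≤ j - i ∧ p (i + s) = u} with hR'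
  have hpathY : ∀ s, s ≤ j - i → p (i + s) ∈ S₀ ∪ (Hu ∪ {w}) := fun s hs => hpY _ (by omega)
  have hR'R : R' ⊆ R₀ := by
    rintro u ((h | h | h) | ⟨s, hs, rfl⟩)
    · exact Or.inl (hZS h)
    · exact Or.inr (hH₀T h)
    · exact Or.inr (hβT (hHvβ h))
    · rcases hpathY s hs with h | h | h
      · exact Or.inl h
      · exact Or.inr (hβT (hHuβ h))
      · rw [Set.mem_singleton_iff] at h
        rw [h]
        exact Or.inr (hβT hwβ)
  have hHxR' : ∀ u ∈ Hx, u ∉ R' := by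
    rintro u hu ((h | h | h) | ⟨s, hs, rfl⟩)
    · exact hT₀S u (hβT (hHxβ hu)) (hZS h)
    · exact hH₀β u h (hHxβ hu)
    · exact Set.disjoint_left.1 dvx h hu
    · rcases hpathY s hs with h | h | h
      · exact hT₀S _ (hβT (hHxβ hu)) h
      · exact Set.disjoint_left.1 dux h hu
      · rw [Set.mem_singleton_iff] at h
        exact hwx (h ▸ hu)
  have hvisw : Vis nb μ R' w := by
    obtain ⟨y, hxy, hy⟩ := hvis
    have hy' : Esc nb μ R' y := esc_mono hR'R hy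
    rcases hx' with ⟨h, -⟩ | ⟨hxHx, h, hh, hwh⟩
    · exact ⟨y, h ▸ hxy, hy'⟩
    · refine ⟨h, hwh, ?_⟩
      have h1 : Esc nb μ R' x := esc_adj hμ hxy (hHxR' x hxHx) hy'
      exact esc_reach' hμ (hHxR' h hh)
        (Relation.ReflTransGen.mono (fun a b hab => ⟨hab.1, hHxR' b hab.2⟩) _ _ (cx h hh x hxHx)) h1
  have hlast : p (i + (j - i)) = w := by
    rw [show i + (j - i) = j by omega]
    exact hpj
  refine ⟨H₀ ∪ Hv, fun s => p (i + s), j - i, ?_⟩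
  exact
    { hC := hHhalf
      dis := Set.disjoint_left.2 (fun u hu hH => hHY u (Or.inl (hZS hu)) hH)
      x0 := hiZ
      xZ := fun s hs hs' => hiZ' (i + s) (by omega) (by omega)
      xH := fun s hs => hHY _ (hpathY s hs)
      adj := fun s hs => by
        have := hpadj (i + s) (by omega)
        rwa [show i + s + 1 = i + (s + 1) by ring] at this
      inj := fun s t hs ht h => by
        have := hpinj (i + s) (i + t) (by omega) (by omega) h
        omega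
      endC := by
        show ∃ c ∈ H₀ ∪ Hv, Adj nb (p (i + (j - i))) c
        rw [hlast]
        exact hend
      vis := by
        show Vis nb μ R' (p (i + (j - i)))
        rw [hlast]
        exact hvisw }

end Pool.Agent.UQ
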