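import Pool.Agent.UQ.Br
import Pool.Agent.UQ.YL
import Pool.Agent.UQ.Det2

/-!
# B24 Det3b : descent for the cycle configuration

Strong induction on `l`. `R = Z ∪ H ∪ {x s | s ≤ l}`.
`l = 0`: `R = Z ∪ H`, `y = x 0`. If some `v ∈ Z \ {y}` is visible w.r.t. `R`: done with `(H, y, v)`. Otherwise `bridge` with `I = Z \ {y}` (nonempty), `Φ = {y}`: `u ∈ I`, `r ∈ R \ (I ∪ Φ) = H`, `K`. `H' = H ∪ K` is a half disjoint from `Z`, `u` is adjacent to it, and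
`y` is visible w.r.t. `Z ∪ H' = R ∪ K` (`esc_union`): conclusion `(H', u, y)`.
`l ≥ 1`: (1) some `x i`, `i < l`, visible w.r.t. `R`: `Cf3 Z (H ∪ {x s | i < s ≤ l}) x i`, induction. (2) some `v ∈ Z \ {x 0}` visible: conclusion with `H' = H ∪ {x s | 1 ≤ s ≤ l}`, `y = x 0`, `x = v` (`Z ∪ H' = R`).
(3) Otherwise `bridge` with `I = Z ∪ {x s | s < l}`, `Φ = {x l}`: `u ∈ I`, `r ∈ H`, `K`; `H' = H ∪ K`. If `u = x i`, `i < l`: `Cf3 Z H' x i` (`x i` visible through `x (i+1), …, x l` which are not in `R' = Z ∪ H' ∪ {x s | s ≤ i}`), induction.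
If `u ∈ Z \ {x 0}`: conclusion with `(H', u, x 0)`: `x 0` is visible w.r.t. `Z ∪ H'` through `x 1, …, x l`.
-/

open Finset MeasureTheory Pool.Agent.helper20.HP

namespace Pool.Agent.UQ

variable {V : Type} {D : ℕ} {nb : V → Fin D → V} {μ : Measure (ℕ → Lt D)}

/-- shorten the path, attaching `K` to the half -/
theorem Det3b_step (hr : Reg nb) (hμ : LM μ) {C : ℕ → V} {Z H : Set V} {x : ℕ → V} {l : ℕ}
    (h : Cf3 nb μ C Z H x l) {i : ℕ} (hi : i ≤ l) {K : Set V} {r : V} (hrH : r ∈ H)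
    (hKR : Disjoint K (Z ∪ H ∪ {u | ∃ s, s ≤ l ∧ x s = u})) (hKc : ConIn nb K)
    (hKt : ∀ b ∈ K, ¬ Esc nb μ (Z ∪ H ∪ {u | ∃ s, s ≤ l ∧ x s = u}) b)
    (hK : (K = ∅ ∧ Adj nb (x i) r) ∨ ((∃ b ∈ K, Adj nb (x i) b) ∧ ∃ b ∈ K, Adj nb b r)) :
    Cf3 nb μ C Z (H ∪ K) x i := by
  have hsub : Z ∪ (H ∪ K) ∪ {u | ∃ s, s ≤ i ∧ x s = u}
      ⊆ (Z ∪ H ∪ {u | ∃ s, s ≤ l ∧ x s = u}) ∪ K := by
    rintro u ((hu | hu | hu) | ⟨s, hs, hu⟩)
    · exact Or.inl (Or.inl (Or.inl hu))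
    · exact Or.inl (Or.inl (Or.inr hu))
    · exact Or.inr hu
    · exact Or.inl (Or.inr ⟨s, by omega, hu⟩)
  have hxK : ∀ s, s ≤ l → x s ∉ K := fun s hs hk =>
    Set.disjoint_left.mp hKR hk (Or.inr ⟨s, hs, rfl⟩)
  refine ⟨?_, ?_, h.x0, fun s h1 h2 => h.xZ s h1 (by omega), ?_, fun s hs => h.adj s (by omega),
    fun s t hs ht => h.inj s t (by omega) (by omega), ?_, ?_⟩
  · refine Det2_half hr h.hC hKc ?_
    rcases hK with ⟨h1, -⟩ | ⟨-, b, hb, hbr⟩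
    · exact Or.inl h1
    · exact Or.inr ⟨r, hrH, b, hb, adj_symm hr hbr⟩
  · rw [Set.disjoint_union_right]
    refine ⟨h.dis, ?_⟩
    rw [Set.disjoint_left]
    intro u hu hk
    exact Set.disjoint_left.mp hKR hk (Or.inl (Or.inl hu))
  · rintro s hs (hu | hu)
    · exact h.xH s (by omega) hu
    · exact hxK s (by omega) hu
  · rcases hK with ⟨-, h2⟩ | ⟨⟨b, hb, hb2⟩, -⟩
    · exact ⟨r, Or.inl hrH, h2⟩
    · exact ⟨b, Or.inr hb, hb2⟩
  · refine Det2_path hμ hi (fun s _ hs => h.adj s hs) ?_ (vis_mono hsub (Det2_vis_union hμ h.vis hKt))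
    rintro s h1 h2 ((hu | hu | hu) | ⟨t, ht, hu⟩)
    · exact h.xZ s (by omega) h2 hu
    · exact h.xH s h2 hu
    · exact hxK s h2 hu
    · have := h.inj t s (by omega) h2 hu
      omega

/-- shorten the path at a visible vertex -/
theorem Det3b_cut (hr : Reg nb) {C : ℕ → V} {Z H : Set V} {x : ℕ → V} {l : ℕ}
    (h : Cf3 nb μ C Z H x l) {i : ℕ} (hi : i < l)
    (hv : Vis nb μ (Z ∪ H ∪ {u | ∃ s, s ≤ l ∧ x s = u}) (x i)) :
    Cf3 nb μ C Z (H ∪ {u | ∃ s, i + 1 ≤ s ∧ s ≤ l ∧ x s = u}) x i := by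
  have hsub : Z ∪ (H ∪ {u | ∃ s, i + 1 ≤ s ∧ s ≤ l ∧ x s = u}) ∪ {u | ∃ s, s ≤ i ∧ x s = u}
      ⊆ Z ∪ H ∪ {u | ∃ s, s ≤ l ∧ x s = u} := by
    rintro u ((hu | hu | ⟨s, -, hs, hu⟩) | ⟨s, hs, hu⟩)
    · exact Or.inl (Or.inl hu)
    · exact Or.inl (Or.inr hu)
    · exact Or.inr ⟨s, hs, hu⟩
    · exact Or.inr ⟨s, by omega, hu⟩
  refine ⟨?_, ?_, h.x0, fun s h1 h2 => h.xZ s h1 (by omega), ?_, fun s hs => h.adj s (by omega),
    fun s t hs ht => h.inj s t (by omega) (by omega), ?_, ?_⟩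
  · refine Det2_half hr h.hC (Det2_seg hr h.adj (i + 1) l le_rfl) (Or.inr ?_)
    obtain ⟨c, hc, hxc⟩ := h.endC
    exact ⟨c, hc, x l, ⟨l, by omega, le_rfl, rfl⟩, adj_symm hr hxc⟩
  · rw [Set.disjoint_union_right]
    refine ⟨h.dis, ?_⟩
    rw [Set.disjoint_left]
    rintro u hu ⟨s, h1, hs, rfl⟩
    exact h.xZ s (by omega) hs hu
  · rintro s hs (hu | ⟨t, ht1, ht2, hu⟩)
    · exact h.xH s (by omega) hu
    · have := h.inj t s ht2 (by omega) hu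
      omega
  · exact ⟨x (i + 1), Or.inr ⟨i + 1, le_rfl, by omega, rfl⟩, h.adj i hi⟩
  · exact vis_mono hsub hv

theorem det3b {θ : ℝ} (G : GInf nb θ) (hμ : LM μ) {C : ℕ → V} {Z H : Set V} (hZ : Z.Finite)
    (hZ2 : 2 ≤ Z.ncard) {x : ℕ → V} {l : ℕ} (h : Cf3 nb μ C Z H x l) :
    ∃ H' : Set V, ∃ y x' : V, Half nb H' C ∧ Disjoint Z H' ∧ y ∈ Z ∧ x' ∈ Z ∧ x' ≠ y ∧
      (∃ c ∈ H', Adj nb y c) ∧ Vis nb μ (Z ∪ H') x' := by
  have hr := G.reg
  induction l using Nat.strong_induction_on generalizing H x with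
  | _ l ih =>
    by_cases hv1 : ∃ i, i < l ∧ Vis nb μ (Z ∪ H ∪ {u | ∃ s, s ≤ l ∧ x s = u}) (x i)
    · obtain ⟨i, hil, hvi⟩ := hv1
      exact ih i hil (Det3b_cut hr h hil hvi)
    by_cases hv2 : ∃ v ∈ Z, v ≠ x 0 ∧ Vis nb μ (Z ∪ H ∪ {u | ∃ s, s ≤ l ∧ x s = u}) v
    · obtain ⟨v, hvZ, hv0, hvv⟩ := hv2
      refine ⟨H ∪ {u | ∃ s, 1 ≤ s ∧ s ≤ l ∧ x s = u}, x 0, v, ?_, ?_, h.x0, hvZ, hv0, ?_, ?_⟩
      · refine Det2_half hr h.hC (Det2_seg hr h.adj 1 l le_rfl) ?_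
        rcases Nat.eq_zero_or_pos l with h0 | h0
        · left
          ext u
          simp only [Set.mem_setOf_eq, Set.mem_empty_iff_false, iff_false]
          rintro ⟨s, h1, h2, -⟩
          omega
        · right
          obtain ⟨c, hc, hxc⟩ := h.endC
          exact ⟨c, hc, x l, ⟨l, by omega, le_rfl, rfl⟩, adj_symm hr hxc⟩
      · rw [Set.disjoint_union_right]
        refine ⟨h.dis, ?_⟩
        rw [Set.disjoint_left]
        rintro u hu ⟨s, h1, hs, rfl⟩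
        exact h.xZ s (by omega) hs hu
      · rcases Nat.eq_zero_or_pos l with h0 | h0
        · obtain ⟨c, hc, hxc⟩ := h.endC
          rw [h0] at hxc
          exact ⟨c, Or.inl hc, hxc⟩
        · exact ⟨x 1, Or.inr ⟨1, le_rfl, h0, rfl⟩, h.adj 0 h0⟩
      · refine vis_mono ?_ hvv
        rintro u (hu | hu | ⟨s, -, hs, hu⟩)
        · exact Or.inl (Or.inl hu)
        · exact Or.inl (Or.inr hu)
        · exact Or.inr ⟨s, hs, hu⟩
    set R : Set V := Z ∪ H ∪ {u | ∃ s, s ≤ l ∧ x s = u} with hR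
    have hI : ((Z ∪ {u | ∃ s, s < l ∧ x s = u}) \ {x l}).Finite := by
      refine (hZ.union (((Set.finite_Iio l).image x).subset ?_)).subset Set.diff_subset
      rintro u ⟨s, hs, rfl⟩
      exact ⟨s, hs, rfl⟩
    have hIn : ((Z ∪ {u | ∃ s, s < l ∧ x s = u}) \ {x l}).Nonempty := by
      obtain ⟨a, ha, b, hb, hab⟩ := (Set.one_lt_ncard hZ).mp (show 1 < Z.ncard by omega)
      by_cases hal : a = x l
      · refine ⟨b, Or.inl hb, fun hbl => hab ?_⟩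
        rw [Set.mem_singleton_iff] at hbl
        rw [hal, hbl]
      · exact ⟨a, Or.inl ha, hal⟩
    have hIR : ((Z ∪ {u | ∃ s, s < l ∧ x s = u}) \ {x l}) ⊆ R := by
      rintro u ⟨hu | ⟨s, hs, hu⟩, -⟩
      · exact Or.inl (Or.inl hu)
      · exact Or.inr ⟨s, hs.le, hu⟩
    have hΦR : ({x l} : Set V) ⊆ R := by
      intro u hu
      rw [Set.mem_singleton_iff] at hu
      exact Or.inr ⟨l, le_rfl, hu.symm⟩
    have hd : Disjoint ((Z ∪ {u | ∃ s, s < l ∧ x s = u}) \ {x l}) ({x l} : Set V) :=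
      Set.disjoint_sdiff_left
    have hinv : ∀ u ∈ ((Z ∪ {u | ∃ s, s < l ∧ x s = u}) \ {x l}), ¬ Vis nb μ R u := by
      rintro u ⟨hu | ⟨s, hs, rfl⟩, hul⟩ hvu
      · by_cases hu0 : u = x 0
        · have hl0 : 0 < l := by
            rcases Nat.eq_zero_or_pos l with h0 | h0
            · exfalso; apply hul; rw [hu0, h0]; rfl
            · exact h0
          exact hv1 ⟨0, hl0, hu0 ▸ hvu⟩
        · exact hv2 ⟨u, hu, hu0, hvu⟩
      · exact hv1 ⟨s, hs, hvu⟩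
    obtain ⟨u, hu, r, hrR, hrI, hrΦ, K, hKR, hKc, hKt, hK⟩ :=
      bridge G hμ hI hIn hIR (Set.finite_singleton (x l))
        (by rw [Set.ncard_singleton]; norm_num) hΦR hd hinv
    have hrH : r ∈ H := by
      rcases hrR with (hr1 | hr1) | ⟨s, hs, hr1⟩
      · exact absurd ⟨Or.inl hr1, hrΦ⟩ hrI
      · exact hr1
      · rcases Nat.lt_or_ge s l with h1 | h1
        · exact absurd ⟨Or.inr ⟨s, h1, hr1⟩, hrΦ⟩ hrI
        · have : s = l := by omega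
          subst this
          exact absurd (Set.mem_singleton_iff.mpr hr1.symm) hrΦ
    by_cases hui : ∃ i, i < l ∧ x i = u
    · obtain ⟨i, hil, hiu⟩ := hui
      rw [← hiu] at hK
      exact ih i hil (Det3b_step hr hμ h hil.le hrH hKR hKc hKt hK)
    · have huZ : u ∈ Z := by
        rcases hu.1 with h1 | ⟨s, hs, h1⟩
        · exact h1
        · exact absurd ⟨s, hs, h1⟩ hui
      have hu0 : u ≠ x 0 := by
        intro h0
        rcases Nat.eq_zero_or_pos l with hl | hl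
        · apply hu.2; rw [h0, hl]; rfl
        · exact hui ⟨0, hl, h0.symm⟩
      have hsub : Z ∪ (H ∪ K) ⊆ R ∪ K := by
        rintro v (hv | hv | hv)
        · exact Or.inl (Or.inl (Or.inl hv))
        · exact Or.inl (Or.inl (Or.inr hv))
        · exact Or.inr hv
      have hxK : ∀ s, s ≤ l → x s ∉ K := fun s hs hk =>
        Set.disjoint_left.mp hKR hk (Or.inr ⟨s, hs, rfl⟩)
      refine ⟨H ∪ K, u, x 0, ?_, ?_, huZ, h.x0, hu0.symm, ?_, ?_⟩
      · refine Det2_half hr h.hC hKc ?_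
        rcases hK with ⟨h1, -⟩ | ⟨-, b, hb, hbr⟩
        · exact Or.inl h1
        · exact Or.inr ⟨r, hrH, b, hb, adj_symm hr hbr⟩
      · rw [Set.disjoint_union_right]
        refine ⟨h.dis, ?_⟩
        rw [Set.disjoint_left]
        intro v hv hk
        exact Set.disjoint_left.mp hKR hk (Or.inl (Or.inl hv))
      · rcases hK with ⟨-, h2⟩ | ⟨⟨b, hb, hb2⟩, -⟩
        · exact ⟨r, Or.inl hrH, h2⟩
        · exact ⟨b, Or.inr hb, hb2⟩
      · refine Det2_path hμ (Nat.zero_le l) (fun s _ hs => h.adj s hs) ?_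
          (vis_mono hsub (Det2_vis_union hμ h.vis hKt))
        rintro s h1 h2 (hv | hv | hv)
        · exact h.xZ s h1 h2 hv
        · exact h.xH s h2 hv
        · exact hxK s h2 hv

end Pool.Agent.UQ
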