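import Pool.Agent.UQ.KB
import Pool.Agent.UQ.BadII

/-!
# Q11 GrB : from a transitive simple graph to a labelled graph

`G` is regular by transitivity; `D` = degree `> 0` (connected, at least two vertices). `K.p x y = K.pt 1 x y = lazyP G 1 x y`. Label the neighbours of each vertex by `Fin D` (`Fintype.equivFinOfCardEq`).
`Reg`: clear. `Tra`: the graph automorphisms. `KerOf`: `(2D)⁻¹ ∑_l ind (mv nb x l = y) = (2D)⁻¹ (D ind (x = y) + ind (Adj x y))`.
`oddcl_word`: an odd closed chain gives a word of letters (`0 < K.p a b`, `a ≠ b` means `∃ i, nb a i = b`).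
-/

open Finset Pool.Agent.helper20.HP

namespace Pool.Agent.UQ

variable {V : Type} [Fintype V] [DecidableEq V]

theorem GrB_ind_true {P : Prop} (h : P) : ind P = 1 := by
  unfold ind; exact if_pos h

theorem GrB_ind_false {P : Prop} (h : ¬ P) : ind P = 0 := by
  unfold ind; exact if_neg h

theorem GrB_sum {W : Type} {D : ℕ} (nb : W → Fin D → W) (x y : W) :
    ∑ l : Lt D, ind (mv nb x l = y) = (D : ℝ) * ind (x = y) + ∑ i : Fin D, ind (nb x i = y) := by
  rw [Fintype.sum_prod_type]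
  rw [Fintype.sum_bool]
  have h1 : ∀ i : Fin D, mv nb x (true, i) = nb x i := fun i => rfl
  have h2 : ∀ i : Fin D, mv nb x (false, i) = x := fun i => rfl
  simp only [h1, h2, Finset.sum_const, Finset.card_univ, Fintype.card_fin, nsmul_eq_mul]
  ring

theorem GrB_one {W : Type} {D : ℕ} {nb : W → Fin D → W} (hr : Reg nb) (x : W) (i : Fin D) :
    ∑ j : Fin D, ind (nb x j = nb x i) = 1 := by
  rw [Finset.sum_eq_single i]
  · exact GrB_ind_true rfl
  · intro j _ hj
    exact GrB_ind_false fun h => hj (hr.inj x h)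
  · intro h
    exact absurd (Finset.mem_univ _) h

theorem GrB_none {W : Type} {D : ℕ} {nb : W → Fin D → W} (x y : W) (h : ¬ ∃ i, nb x i = y) :
    ∑ j : Fin D, ind (nb x j = y) = 0 :=
  Finset.sum_eq_zero fun j _ => GrB_ind_false fun hj => h ⟨j, hj⟩

theorem gr_label (G : SimpleGraph V) (hc : G.Connected) (ht : ∀ x y : V, ∃ f : G ≃g G, f x = y)
    (hcard : 2 ≤ Fintype.card V) (K : HW V) (hK : ∀ t x y, K.pt t x y = lazyP G t x y) :
    ∃ D : ℕ, 0 < D ∧ ∃ nb : V → Fin D → V, Reg nb ∧ Tra nb ∧ KerOf K nb := by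
  classical
  obtain ⟨x0⟩ : Nonempty V := hc.nonempty
  set D : ℕ := Fintype.card {z // G.Adj x0 z} with hD
  have hdeg : ∀ x, Fintype.card {z // G.Adj x z} = D := by
    intro x
    obtain ⟨f, hf⟩ := ht x x0
    rw [hD]
    refine Fintype.card_congr ⟨fun z => ⟨f z.1, ?_⟩, fun z => ⟨f.symm z.1, ?_⟩, ?_, ?_⟩
    · rw [← hf]; exact f.map_adj_iff.2 z.2
    · have h1 : G.Adj (f.symm x0) (f.symm z.1) := f.symm.map_adj_iff.2 z.2
      have hx : f.symm x0 = x := by rw [← hf]; simp
      rw [hx] at h1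
      exact h1
    · intro z; simp
    · intro z; simp
  have hD0 : 0 < D := by
    rw [hD, Fintype.card_pos_iff]
    have : Nontrivial V := Fintype.one_lt_card_iff_nontrivial.1 (by omega)
    obtain ⟨z, hz⟩ := hc.preconnected.exists_adj_of_nontrivial x0
    exact ⟨⟨z, hz⟩⟩
  let e : ∀ x, {z // G.Adj x z} ≃ Fin D := fun x => Fintype.equivFinOfCardEq (hdeg x)
  let nb : V → Fin D → V := fun x i => ((e x).symm i).1
  have hnb : ∀ x i, G.Adj x (nb x i) := fun x i => ((e x).symm i).2
  have hadj : ∀ x y, G.Adj x y → ∃ i, nb x i = y := by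
    intro x y h
    refine ⟨e x ⟨y, h⟩, ?_⟩
    show ((e x).symm (e x ⟨y, h⟩)).1 = y
    rw [Equiv.symm_apply_apply]
  have hAdj : ∀ x y, Adj nb x y ↔ G.Adj x y := by
    intro x y
    constructor
    · rintro ⟨i, rfl⟩
      exact hnb x i
    · exact hadj x y
  have hreg : Reg nb := by
    refine ⟨fun v i j hij => ?_, fun v i => hadj _ _ (hnb v i).symm, fun v i h => ?_⟩
    · have : (e v).symm i = (e v).symm j := Subtype.ext hij
      exact (e v).symm.injective this
    · have h1 := hnb v i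
      rw [h] at h1
      exact G.loopless.irrefl v h1
  refine ⟨D, hD0, nb, hreg, ?_, ?_⟩
  · intro x y
    obtain ⟨f, hf⟩ := ht x y
    refine ⟨f.toEquiv, fun u v => ?_, hf⟩
    rw [hAdj, hAdj]
    exact f.map_adj_iff.symm
  · intro x y
    rw [GrB_sum]
    have h1 : K.p x y = K.pt 1 x y := by
      show K.p x y = ∑ z, K.p x z * (if z = y then 1 else 0)
      simp
    rw [h1, hK]
    have h2 : lazyP G 1 x y = (1 / 2) * (if x = y then 1 else 0)
      + (1 / 2) * ((∑ z, if G.Adj x z then (if z = y then (1 : ℝ) else 0) else 0)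
        / ((Finset.univ.filter (fun z => G.Adj x z)).card : ℝ)) := by
      simp only [lazyP]
      congr!
    have hDc : ((Finset.univ.filter (fun z => G.Adj x z)).card : ℝ) = D := by
      rw [← hdeg x, Fintype.card_subtype]
    rw [h2, hDc]
    have h3 : (∑ z, if G.Adj x z then (if z = y then (1 : ℝ) else 0) else 0)
        = if G.Adj x y then 1 else 0 := by
      rw [Finset.sum_eq_single y]
      · simp
      · intro z _ hz
        simp [hz]
      · intro h
        exact absurd (Finset.mem_univ _) h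
    rw [h3]
    have hDr : (D : ℝ) ≠ 0 := by exact_mod_cast hD0.ne'
    have h4 : ∑ i : Fin D, ind (nb x i = y) = if G.Adj x y then 1 else 0 := by
      by_cases hxy : G.Adj x y
      · rw [if_pos hxy]
        obtain ⟨i, rfl⟩ := hadj x y hxy
        exact GrB_one hreg x i
      · rw [if_neg hxy]
        exact GrB_none x y fun ⟨i, hi⟩ => hxy (hi ▸ hnb x i)
    have h5 : ind (x = y) = if x = y then 1 else 0 := by
      by_cases hxy : x = y
      · rw [if_pos hxy]; exact GrB_ind_true hxy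
      · rw [if_neg hxy]; exact GrB_ind_false hxy
    rw [h4, h5]
    field_simp

variable {K : HW V} {D : ℕ} {nb : V → Fin D → V}

theorem ker_half (hr : Reg nb) (hD : 0 < D) (hk : KerOf K nb) (x : V) : K.p x x = 1 / 2 := by
  rw [hk x x, GrB_sum, GrB_none x x (fun ⟨i, hi⟩ => hr.noloop x i hi), GrB_ind_true rfl]
  have hDr : (D : ℝ) ≠ 0 := by exact_mod_cast hD.ne'
  field_simp
  ring

theorem ker_deg (hr : Reg nb) (hD : 0 < D) (hk : KerOf K nb) (x y : V) (hxy : x ≠ y) :
    K.p x y ≤ 1 / (2 * (D : ℝ)) := by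
  rw [hk x y, GrB_sum, GrB_ind_false hxy, mul_zero, zero_add]
  have hDr : (0 : ℝ) < D := by exact_mod_cast hD
  have h1 : ∑ i : Fin D, ind (nb x i = y) ≤ 1 := by
    by_cases h : ∃ i, nb x i = y
    · obtain ⟨i, rfl⟩ := h
      exact (GrB_one hr x i).le
    · rw [GrB_none x y h]; exact zero_le_one
  rw [one_div]
  calc (2 * (D : ℝ))⁻¹ * ∑ i : Fin D, ind (nb x i = y) ≤ (2 * (D : ℝ))⁻¹ * 1 :=
        mul_le_mul_of_nonneg_left h1 (by positivity)
    _ = (2 * (D : ℝ))⁻¹ := mul_one _

theorem GrB_pos (hk : KerOf K nb) {x y : V} (hxy : x ≠ y) (h : 0 < K.p x y) :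
    ∃ i, nb x i = y := by
  by_contra hcon
  rw [hk x y, GrB_sum, GrB_ind_false hxy, GrB_none x y hcon] at h
  simp at h

theorem GrB_word (hk : KerOf K nb) : ∀ (m : List V) (v : V),
    List.IsChain (fun a b => a ≠ b ∧ 0 < K.p a b) (v :: m) → ∃ w : List (Fin D),
      w.length = m.length ∧ endp nb v (w.map (fun i => ((true, i) : Lt D))) = lst v m := by
  intro m
  induction m with
  | nil => exact fun v _ => ⟨[], rfl, rfl⟩
  | cons y m ih =>
    intro v h
    rw [List.isChain_cons_cons] at h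
    obtain ⟨⟨h1, h2⟩, h3⟩ := h
    obtain ⟨i, hi⟩ := GrB_pos hk h1 h2
    obtain ⟨w, hw1, hw2⟩ := ih y h3
    refine ⟨i :: w, by simp [hw1], ?_⟩
    have e1 : endp nb v ((i :: w).map (fun i => ((true, i) : Lt D)))
        = endp nb (nb v i) (w.map (fun i => ((true, i) : Lt D))) := rfl
    rw [e1, hi, hw2]
    cases m <;> rfl

theorem oddcl_word (hr : Reg nb) (hD : 0 < D) (hk : KerOf K nb) {J : ℕ} (h : OddCl K J) :
    ∃ (x : V) (w : List (Fin D)), w.length ≤ J ∧ Odd w.length ∧
      endp nb x (w.map (fun i => ((true, i) : Lt D))) = x := by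
  obtain ⟨v, m, h1, h2, h3, h4⟩ := h
  obtain ⟨w, hw1, hw2⟩ := GrB_word hk m v h4
  exact ⟨v, w, hw1 ▸ h1, hw1 ▸ h2, hw2.trans h3⟩

end Pool.Agent.UQ
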