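import Pool.Agent.UQ.KfBasic

/-!
# Q2 KfCross : few words cross the boundary of the window within `s` steps

`b = 2 h`, `s ≤ b`.
* `Kf_in` (`P`): words `l ++ l'` in the window with `l` outside. If there is no long hit in `l'` (`NoLH b x ρ l l'`, equivalently not `LHin b s x ρ (l ++ l')`, `HP.not_LHin_iff`),
  then `sl l ≤ sl (l ++ l') + b` (`HP.NoLH_drop`) and `sl (l ++ l') ≤ sl l + s` (`HP.run_length_le`), so `sl (l++l')` is in `[r+1, r+b]` or in `[r+w+1-b, r+w]`, so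
  `chi r w (l++l') * (1 - chi r w l) ≤ ind (LHin b s (l++l')) * chi r w (l++l') + chi r b (l++l') + chi (r+w-b) b (l++l')` (natural subtraction; states are nonempty, `1 ≤ sl`).
  Then `Kf_split_le`, `Kf_LH_le`, `Kf_chi_le`.
* `Kf_out` (`Q`): `Kf (chi(l) W s av) = Kf chi - Kf (chi(l) W s (1 - av)) `, `Kf (W s (av chi(l++l'))) = Kf chi - km s chi`; subtract the common part `Kf (W s (av chi(l) chi(l++l')))`:
  `Q - P = Kf (chi(l) W s av) - Kf (W s (av chi(l++l'))) ≤ km s chi`.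
* `Kf_me`: for `|G| ≤ 1`, `Kf (chi G) = km s (chi G) + Kf (W s (av chi(l++l') G(l++l')))`; replace `chi(l++l')` by `chi(l)` (error `P + Q`) and drop `av` (error `Kf_kill`).
-/

open Finset Filter Pool.Agent.helper20.HP

namespace Pool.Agent.UQ

variable {V : Type} [Fintype V] [DecidableEq V] {K : HW V} {θ : ℝ} {h : ℕ} {Γ : List V}

theorem KfCross_chi_nonneg (r w : ℕ) (x : V) (ρ l : List V) : 0 ≤ chi r w x ρ l :=
  Pool.Agent.helper20.HP.ind_nonneg _

theorem KfCross_chi_le (r w : ℕ) (x : V) (ρ l : List V) : chi r w x ρ l ≤ 1 :=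
  Pool.Agent.helper20.HP.ind_le_one _

theorem KfCross_chi_one {r w : ℕ} {x : V} {ρ l : List V} (h : r + 1 ≤ sl x ρ l ∧ sl x ρ l ≤ r + w) :
    chi r w x ρ l = 1 := Pool.Agent.helper20.HP.ind_true h

theorem KfCross_chi_zero {r w : ℕ} {x : V} {ρ l : List V}
    (h : ¬ (r + 1 ≤ sl x ρ l ∧ sl x ρ l ≤ r + w)) :
    chi r w x ρ l = 0 := Pool.Agent.helper20.HP.ind_false h

theorem KfCross_av_nonneg (Γ l : List V) : 0 ≤ av Γ l := Pool.Agent.helper20.HP.ind_nonneg _

theorem KfCross_av_le (Γ l : List V) : av Γ l ≤ 1 := Pool.Agent.helper20.HP.ind_le_one _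

theorem KfCross_abs {a C : ℝ} (h0 : 0 ≤ a) (h1 : a ≤ C) : |a| ≤ C := by
  rw [abs_of_nonneg h0]; exact h1

/-- bounded functionals -/
theorem KfCross_Bd (s : ℕ) (F : V → List V → List V → List V → ℝ) (C : ℝ)
    (hF : ∀ x ρ l l', |F x ρ l l'| ≤ C) : Bd (fun x ρ l => W K s (lst x l) (F x ρ l)) := by
  refine ⟨C, fun x ρ l => ?_⟩
  refine (W_abs_le K s (lst x l) (F x ρ l)).trans ?_
  refine (W_mono K s (lst x l) (g := fun _ => C) (fun l' _ => hF x ρ l l')).trans ?_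
  rw [W_const]

theorem KfCross_mono (hΓ : Γ.Nodup) (s : ℕ) {F G : V → List V → List V → List V → ℝ} (C : ℝ)
    (hF : ∀ x ρ l l', |F x ρ l l'| ≤ C) (hG : ∀ x ρ l l', |G x ρ l l'| ≤ C)
    (hle : ∀ x ρ l l', (x :: ρ).Nodup → l'.length = s → F x ρ l l' ≤ G x ρ l l') :
    Kf K Γ (fun x ρ l => W K s (lst x l) (F x ρ l)) ≤
      Kf K Γ (fun x ρ l => W K s (lst x l) (G x ρ l)) :=
  Kf_mono K hΓ (KfCross_Bd s F C hF) (KfCross_Bd s G C hG)
    (fun x ρ l hnd _ _ _ => W_mono K s (lst x l) (fun l' hl' => hle x ρ l l' hnd hl'))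

theorem KfCross_add (hΓ : Γ.Nodup) (s : ℕ) (F G : V → List V → List V → List V → ℝ) (C : ℝ)
    (hF : ∀ x ρ l l', |F x ρ l l'| ≤ C) (hG : ∀ x ρ l l', |G x ρ l l'| ≤ C) :
    Kf K Γ (fun x ρ l => W K s (lst x l) (fun l' => F x ρ l l' + G x ρ l l')) =
      Kf K Γ (fun x ρ l => W K s (lst x l) (F x ρ l)) +
      Kf K Γ (fun x ρ l => W K s (lst x l) (G x ρ l)) := by
  rw [← Kf_add K hΓ (KfCross_Bd s F C hF) (KfCross_Bd s G C hG)]
  refine congrArg (Kf K Γ) ?_
  funext x ρ l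
  exact W_add K s (lst x l) (F x ρ l) (G x ρ l)

theorem KfCross_sub (hΓ : Γ.Nodup) (s : ℕ) (F G : V → List V → List V → List V → ℝ) (C : ℝ)
    (hF : ∀ x ρ l l', |F x ρ l l'| ≤ C) (hG : ∀ x ρ l l', |G x ρ l l'| ≤ C) :
    Kf K Γ (fun x ρ l => W K s (lst x l) (fun l' => F x ρ l l' - G x ρ l l')) =
      Kf K Γ (fun x ρ l => W K s (lst x l) (F x ρ l)) -
      Kf K Γ (fun x ρ l => W K s (lst x l) (G x ρ l)) := by
  rw [← Kf_sub K hΓ (KfCross_Bd s F C hF) (KfCross_Bd s G C hG)]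
  refine congrArg (Kf K Γ) ?_
  funext x ρ l
  exact W_sub K s (lst x l) (F x ρ l) (G x ρ l)

theorem KfCross_sl_pos (x : V) (ρ l : List V) : 1 ≤ sl x ρ l := by
  unfold sl
  obtain ⟨τ, hτ⟩ := run_head x ρ l
  rw [hτ, List.length_cons]
  omega

theorem KfCross_sl_le (x : V) (ρ l l' : List V) : sl x ρ (l ++ l') ≤ sl x ρ l + l'.length := by
  unfold sl
  rw [run_append]
  exact run_length_le _ _

/-- a word enters the window: either there is a long hit or the level is close to the boundary -/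
theorem KfCross_pt (b s r w : ℕ) (hs : s ≤ b) (x : V) (ρ l l' : List V) (hnd : (x :: ρ).Nodup)
    (hl : l'.length = s) :
    chi r w x ρ (l ++ l') * (1 - chi r w x ρ l) ≤
      Pool.Agent.helper20.HP.ind (LHin b s x ρ (l ++ l')) * chi r w x ρ (l ++ l')
      + chi r b x ρ (l ++ l') + chi (r + w - b) b x ρ (l ++ l') := by
  have n1 := KfCross_chi_nonneg r w x ρ l
  have n2 := KfCross_chi_nonneg r w x ρ (l ++ l')
  have n3 := KfCross_chi_nonneg r b x ρ (l ++ l')
  have n4 := KfCross_chi_nonneg (r + w - b) b x ρ (l ++ l')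
  have n5 := KfCross_chi_le r w x ρ l
  by_cases hLH : LHin b s x ρ (l ++ l')
  · rw [Pool.Agent.helper20.HP.ind_true hLH]
    nlinarith
  rw [Pool.Agent.helper20.HP.ind_false hLH, zero_mul, zero_add]
  rw [not_LHin_iff b s x ρ l l' hl] at hLH
  by_cases h1 : r + 1 ≤ sl x ρ (l ++ l') ∧ sl x ρ (l ++ l') ≤ r + w
  swap
  · rw [KfCross_chi_zero h1, zero_mul]
    linarith
  by_cases h2 : r + 1 ≤ sl x ρ l ∧ sl x ρ l ≤ r + w
  · rw [KfCross_chi_one h2, sub_self, mul_zero]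
    linarith
  rw [KfCross_chi_one h1, KfCross_chi_zero h2, sub_zero, mul_one]
  have h3 : sl x ρ l ≤ sl x ρ (l ++ l') + b :=
    NoLH_drop b x ρ l l' hnd (by omega) hLH
  have h4 := KfCross_sl_le x ρ l l'
  have h5 := KfCross_sl_pos x ρ (l ++ l')
  rcases Nat.lt_or_ge (sl x ρ l) (r + 1) with h6 | h6
  · have : chi r b x ρ (l ++ l') = 1 := KfCross_chi_one ⟨h1.1, by omega⟩
    rw [this]
    linarith
  · have h7 : r + w + 1 ≤ sl x ρ l := by
      by_contra hc
      exact h2 ⟨h6, by omega⟩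
    have : chi (r + w - b) b x ρ (l ++ l') = 1 := by
      refine KfCross_chi_one ⟨?_, ?_⟩ <;> omega
    rw [this]
    linarith

theorem KfCross_sqrt (hP : Par K θ h) : 16 * h ≤ Nat.sqrt (Fintype.card V) := hP.h_le

theorem Kf_in (hP : Par K θ h) (hΓ : Γ.Nodup) {s : ℕ} (hs : s ≤ 2 * h) {r w m : ℕ}
    (hm : r + w + 2 * h ≤ m) :
    Kf K Γ (fun x ρ l => W K s (lst x l) (fun l' => av Γ l' *
      (chi r w x ρ (l ++ l') * (1 - chi r w x ρ l))))
    ≤ w * (3 / 2 * CZ θ * ((s : ℝ) + 1)) + 2 * (2 * h) * PB θ (Fintype.card V) m := by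
  have hsq := hP.h_le
  set f1 : V → List V → List V → ℝ := fun x ρ l =>
    Pool.Agent.helper20.HP.ind (LHin (2 * h) s x ρ l) * chi r w x ρ l with hf1
  set f2 : V → List V → List V → ℝ := chi r (2 * h) with hf2
  set f3 : V → List V → List V → ℝ := chi (r + w - 2 * h) (2 * h) with hf3
  have b1 : ∀ x ρ l, 0 ≤ f1 x ρ l ∧ f1 x ρ l ≤ 1 := fun x ρ l =>
    ⟨mul_nonneg (Pool.Agent.helper20.HP.ind_nonneg _) (KfCross_chi_nonneg _ _ _ _ _),
      mul_le_one₀ (Pool.Agent.helper20.HP.ind_le_one _) (KfCross_chi_nonneg _ _ _ _ _)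
        (KfCross_chi_le _ _ _ _ _)⟩
  have b2 : ∀ x ρ l, 0 ≤ f2 x ρ l ∧ f2 x ρ l ≤ 1 := fun x ρ l =>
    ⟨KfCross_chi_nonneg _ _ _ _ _, KfCross_chi_le _ _ _ _ _⟩
  have b3 : ∀ x ρ l, 0 ≤ f3 x ρ l ∧ f3 x ρ l ≤ 1 := fun x ρ l =>
    ⟨KfCross_chi_nonneg _ _ _ _ _, KfCross_chi_le _ _ _ _ _⟩
  have d1 : Bd f1 := ⟨1, fun x ρ l => KfCross_abs (b1 x ρ l).1 (b1 x ρ l).2⟩
  have d2 : Bd f2 := ⟨1, fun x ρ l => KfCross_abs (b2 x ρ l).1 (b2 x ρ l).2⟩
  have d3 : Bd f3 := ⟨1, fun x ρ l => KfCross_abs (b3 x ρ l).1 (b3 x ρ l).2⟩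
  have d12 : Bd (fun x ρ l => f1 x ρ l + f2 x ρ l) := ⟨2, fun x ρ l => by
    have := b1 x ρ l
    have := b2 x ρ l
    exact KfCross_abs (by linarith) (by linarith)⟩
  have d123 : Bd (fun x ρ l => f1 x ρ l + f2 x ρ l + f3 x ρ l) := ⟨3, fun x ρ l => by
    have := b1 x ρ l
    have := b2 x ρ l
    have := b3 x ρ l
    exact KfCross_abs (by linarith) (by linarith)⟩
  have s1 : Kf K Γ (fun x ρ l => W K s (lst x l) (fun l' => av Γ l' *
      (chi r w x ρ (l ++ l') * (1 - chi r w x ρ l))))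
      ≤ Kf K Γ (fun x ρ l => W K s (lst x l) (fun l' => av Γ l' *
        (f1 x ρ (l ++ l') + f2 x ρ (l ++ l') + f3 x ρ (l ++ l')))) := by
    refine KfCross_mono hΓ s (F := fun x ρ l l' => av Γ l' *
      (chi r w x ρ (l ++ l') * (1 - chi r w x ρ l))) (G := fun x ρ l l' => av Γ l' *
        (f1 x ρ (l ++ l') + f2 x ρ (l ++ l') + f3 x ρ (l ++ l'))) 3 ?_ ?_ ?_
    · intro x ρ l l'
      have a1 := KfCross_av_nonneg Γ l'
      have a2 := KfCross_av_le Γ l'
      have a3 := KfCross_chi_nonneg r w x ρ (l ++ l')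
      have a4 := KfCross_chi_le r w x ρ (l ++ l')
      have a5 := KfCross_chi_nonneg r w x ρ l
      have a6 := KfCross_chi_le r w x ρ l
      have a7 : 0 ≤ chi r w x ρ (l ++ l') * (1 - chi r w x ρ l) := mul_nonneg a3 (by linarith)
      have a8 : chi r w x ρ (l ++ l') * (1 - chi r w x ρ l) ≤ 1 :=
        mul_le_one₀ a4 (by linarith) (by linarith)
      refine KfCross_abs (mul_nonneg a1 a7) ?_
      have := mul_le_one₀ a2 a7 a8
      linarith
    · intro x ρ l l'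
      have a1 := KfCross_av_nonneg Γ l'
      have a2 := KfCross_av_le Γ l'
      have c1 := b1 x ρ (l ++ l')
      have c2 := b2 x ρ (l ++ l')
      have c3 := b3 x ρ (l ++ l')
      refine KfCross_abs (mul_nonneg a1 (by linarith)) ?_
      calc av Γ l' * (f1 x ρ (l ++ l') + f2 x ρ (l ++ l') + f3 x ρ (l ++ l'))
          ≤ 1 * (f1 x ρ (l ++ l') + f2 x ρ (l ++ l') + f3 x ρ (l ++ l')) :=
            mul_le_mul_of_nonneg_right a2 (by linarith)
        _ ≤ 3 := by linarith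
    · intro x ρ l l' hnd hl
      exact mul_le_mul_of_nonneg_left (KfCross_pt (2 * h) s r w hs x ρ l l' hnd hl)
        (KfCross_av_nonneg Γ l')
  have s2 := Kf_split_le K hΓ d123 (fun x ρ l => by
    have := b1 x ρ l
    have := b2 x ρ l
    have := b3 x ρ l
    linarith) s
  have s3 : Kf K Γ (fun x ρ l => f1 x ρ l + f2 x ρ l + f3 x ρ l)
      = Kf K Γ f1 + Kf K Γ f2 + Kf K Γ f3 := by
    rw [Kf_add K hΓ d12 d3, Kf_add K hΓ d1 d2]
  have e1 : Kf K Γ f1 ≤ w * (3 / 2 * CZ θ * ((s : ℝ) + 1)) := Kf_LH_le hP hΓ (by omega) r w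
  have e2 : Kf K Γ f2 ≤ ((2 * h : ℕ) : ℝ) * PB θ (Fintype.card V) m :=
    Kf_chi_le hP hΓ (by omega)
  have e3 : Kf K Γ f3 ≤ ((2 * h : ℕ) : ℝ) * PB θ (Fintype.card V) m :=
    Kf_chi_le hP hΓ (by omega)
  push_cast at e2 e3
  calc _ ≤ _ := s1
    _ ≤ _ := s2
    _ = _ := s3
    _ ≤ _ := by linarith

theorem Kf_out (hP : Par K θ h) (hΓ : Γ.Nodup) {s : ℕ} (hs : s ≤ 2 * h) {r w m : ℕ}
    (hm : r + w + 2 * h ≤ m) :
    Kf K Γ (fun x ρ l => W K s (lst x l) (fun l' => av Γ l' *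
      (chi r w x ρ l * (1 - chi r w x ρ (l ++ l')))))
    ≤ w * (3 / 2 * CZ θ * ((s : ℝ) + 1)) + 2 * (2 * h) * PB θ (Fintype.card V) m
      + w * s * CZ θ := by
  have hsq := hP.h_le
  have hin := Kf_in hP hΓ hs hm
  have dchi : Bd (fun x ρ l => chi r w x ρ l : V → List V → List V → ℝ) := ⟨1, fun x ρ l =>
    KfCross_abs (KfCross_chi_nonneg _ _ _ _ _) (KfCross_chi_le _ _ _ _ _)⟩
  -- bounds of the four integrands
  have q1 : ∀ x ρ (l l' : List V), |av Γ l' * chi r w x ρ l| ≤ 1 := fun x ρ l l' =>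
    KfCross_abs (mul_nonneg (KfCross_av_nonneg _ _) (KfCross_chi_nonneg _ _ _ _ _))
      (mul_le_one₀ (KfCross_av_le _ _) (KfCross_chi_nonneg _ _ _ _ _) (KfCross_chi_le _ _ _ _ _))
  have q2 : ∀ x ρ (l l' : List V), |av Γ l' * chi r w x ρ (l ++ l')| ≤ 1 := fun x ρ l l' =>
    KfCross_abs (mul_nonneg (KfCross_av_nonneg _ _) (KfCross_chi_nonneg _ _ _ _ _))
      (mul_le_one₀ (KfCross_av_le _ _) (KfCross_chi_nonneg _ _ _ _ _) (KfCross_chi_le _ _ _ _ _))
  have q3 : ∀ x ρ (l l' : List V), |av Γ l' * (chi r w x ρ l * chi r w x ρ (l ++ l'))| ≤ 1 :=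
    fun x ρ l l' => by
      have a1 : 0 ≤ chi r w x ρ l * chi r w x ρ (l ++ l') :=
        mul_nonneg (KfCross_chi_nonneg _ _ _ _ _) (KfCross_chi_nonneg _ _ _ _ _)
      have a2 : chi r w x ρ l * chi r w x ρ (l ++ l') ≤ 1 :=
        mul_le_one₀ (KfCross_chi_le _ _ _ _ _) (KfCross_chi_nonneg _ _ _ _ _)
          (KfCross_chi_le _ _ _ _ _)
      exact KfCross_abs (mul_nonneg (KfCross_av_nonneg _ _) a1)
        (mul_le_one₀ (KfCross_av_le _ _) a1 a2)
  have eQ : Kf K Γ (fun x ρ l => W K s (lst x l) (fun l' => av Γ l' *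
      (chi r w x ρ l * (1 - chi r w x ρ (l ++ l')))))
      = Kf K Γ (fun x ρ l => W K s (lst x l) (fun l' => av Γ l' * chi r w x ρ l))
      - Kf K Γ (fun x ρ l => W K s (lst x l) (fun l' => av Γ l' *
          (chi r w x ρ l * chi r w x ρ (l ++ l')))) := by
    rw [← KfCross_sub hΓ s (fun x ρ l l' => av Γ l' * chi r w x ρ l)
      (fun x ρ l l' => av Γ l' * (chi r w x ρ l * chi r w x ρ (l ++ l'))) 1 q1 q3]
    refine congrArg (Kf K Γ) ?_
    funext x ρ l
    refine W_congr K s _ (fun l' _ => ?_)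
    ring
  have eP : Kf K Γ (fun x ρ l => W K s (lst x l) (fun l' => av Γ l' *
      (chi r w x ρ (l ++ l') * (1 - chi r w x ρ l))))
      = Kf K Γ (fun x ρ l => W K s (lst x l) (fun l' => av Γ l' * chi r w x ρ (l ++ l')))
      - Kf K Γ (fun x ρ l => W K s (lst x l) (fun l' => av Γ l' *
          (chi r w x ρ l * chi r w x ρ (l ++ l')))) := by
    rw [← KfCross_sub hΓ s (fun x ρ l l' => av Γ l' * chi r w x ρ (l ++ l'))
      (fun x ρ l l' => av Γ l' * (chi r w x ρ l * chi r w x ρ (l ++ l'))) 1 q2 q3]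
    refine congrArg (Kf K Γ) ?_
    funext x ρ l
    refine W_congr K s _ (fun l' _ => ?_)
    ring
  have e1 : Kf K Γ (fun x ρ l => W K s (lst x l) (fun l' => av Γ l' * chi r w x ρ l))
      ≤ Kf K Γ (fun x ρ l => chi r w x ρ l) := by
    refine Kf_mono K hΓ (KfCross_Bd s (fun x ρ l l' => av Γ l' * chi r w x ρ l) 1 q1) dchi
      (fun x ρ l _ _ _ _ => ?_)
    refine (W_mono K s (lst x l) (g := fun _ => chi r w x ρ l) (fun l' _ => ?_)).trans ?_
    · have a1 := KfCross_av_nonneg Γ l'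
      have a2 := KfCross_av_le Γ l'
      have a3 := KfCross_chi_nonneg r w x ρ l
      nlinarith
    · rw [W_const]
  have e2 : Kf K Γ (fun x ρ l => chi r w x ρ l) = km K Γ s (fun x ρ l => chi r w x ρ l)
      + Kf K Γ (fun x ρ l => W K s (lst x l) (fun l' => av Γ l' * chi r w x ρ (l ++ l'))) :=
    Kf_split K hΓ dchi s
  have e3 : km K Γ s (fun x ρ l => chi r w x ρ l) ≤ w * s * CZ θ :=
    km_chi_le hP (by omega) r w
  linarith

theorem Kf_me (hP : Par K θ h) (hΓ : Γ.Nodup) {s : ℕ} (hs : s ≤ 2 * h) {r w m : ℕ}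
    (hm : r + w + 2 * h ≤ m) (G : V → List V → List V → ℝ) (hG : ∀ x ρ l, |G x ρ l| ≤ 1) :
    |Kf K Γ (fun x ρ l => chi r w x ρ l * G x ρ l) -
      Kf K Γ (fun x ρ l => chi r w x ρ l * W K s (lst x l) (fun l' => G x ρ (l ++ l')))|
    ≤ 5 * (w * CZ θ * ((s : ℝ) + 1)) + 4 * (2 * h) * PB θ (Fintype.card V) m + s * Γ.length := by
  have hsq := hP.h_le
  have hin := Kf_in hP hΓ hs hm
  have hout := Kf_out hP hΓ hs hm
  have hkill := Kf_kill K hΓ s
  have hCZ : 0 ≤ CZ θ := by unfold CZ; positivity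
  -- bounds
  have q0 : ∀ x ρ (l : List V), |chi r w x ρ l * G x ρ l| ≤ 1 := fun x ρ l => by
    rw [abs_mul]
    exact mul_le_one₀ (KfCross_abs (KfCross_chi_nonneg _ _ _ _ _) (KfCross_chi_le _ _ _ _ _))
      (abs_nonneg _) (hG x ρ l)
  have dG : Bd (fun x ρ l => chi r w x ρ l * G x ρ l) := ⟨1, q0⟩
  have q1 : ∀ x ρ (l l' : List V), |av Γ l' * (chi r w x ρ (l ++ l') * G x ρ (l ++ l'))| ≤ 1 :=
    fun x ρ l l' => by
      rw [abs_mul]
      exact mul_le_one₀ (KfCross_abs (KfCross_av_nonneg _ _) (KfCross_av_le _ _))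
        (abs_nonneg _) (q0 x ρ (l ++ l'))
  have q2 : ∀ x ρ (l l' : List V), |chi r w x ρ l * G x ρ (l ++ l')| ≤ 1 :=
    fun x ρ l l' => by
      rw [abs_mul]
      exact mul_le_one₀ (KfCross_abs (KfCross_chi_nonneg _ _ _ _ _) (KfCross_chi_le _ _ _ _ _))
        (abs_nonneg _) (hG x ρ (l ++ l'))
  have q3 : ∀ x ρ (l l' : List V), |av Γ l' *
      (chi r w x ρ (l ++ l') * (1 - chi r w x ρ l))| ≤ 3 := fun x ρ l l' => by
    have a1 := KfCross_av_nonneg Γ l'
    have a2 := KfCross_av_le Γ l'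
    have a3 := KfCross_chi_nonneg r w x ρ (l ++ l')
    have a4 := KfCross_chi_le r w x ρ (l ++ l')
    have a5 := KfCross_chi_nonneg r w x ρ l
    have a6 := KfCross_chi_le r w x ρ l
    have a7 : 0 ≤ chi r w x ρ (l ++ l') * (1 - chi r w x ρ l) := mul_nonneg a3 (by linarith)
    have a8 : chi r w x ρ (l ++ l') * (1 - chi r w x ρ l) ≤ 1 :=
      mul_le_one₀ a4 (by linarith) (by linarith)
    have a9 := mul_le_one₀ a2 a7 a8
    exact KfCross_abs (mul_nonneg a1 a7) (by linarith)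
  have q4 : ∀ x ρ (l l' : List V), |av Γ l' *
      (chi r w x ρ l * (1 - chi r w x ρ (l ++ l')))| ≤ 3 := fun x ρ l l' => by
    have a1 := KfCross_av_nonneg Γ l'
    have a2 := KfCross_av_le Γ l'
    have a3 := KfCross_chi_nonneg r w x ρ (l ++ l')
    have a4 := KfCross_chi_le r w x ρ (l ++ l')
    have a5 := KfCross_chi_nonneg r w x ρ l
    have a6 := KfCross_chi_le r w x ρ l
    have a7 : 0 ≤ chi r w x ρ l * (1 - chi r w x ρ (l ++ l')) := mul_nonneg a5 (by linarith)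
    have a8 : chi r w x ρ l * (1 - chi r w x ρ (l ++ l')) ≤ 1 :=
      mul_le_one₀ a6 (by linarith) (by linarith)
    have a9 := mul_le_one₀ a2 a7 a8
    exact KfCross_abs (mul_nonneg a1 a7) (by linarith)
  have q5 : ∀ x ρ (l l' : List V), |(fun (_ : V) (_ : List V) (_ : List V) (l' : List V) =>
      1 - av Γ l') x ρ l l'| ≤ 3 := fun x ρ l l' => by
    have a1 := KfCross_av_nonneg Γ l'
    have a2 := KfCross_av_le Γ l'
    exact KfCross_abs (by linarith) (by linarith)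
  -- sum of the three error integrands
  set E : V → List V → List V → List V → ℝ := fun x ρ l l' =>
    av Γ l' * (chi r w x ρ (l ++ l') * (1 - chi r w x ρ l)) +
    av Γ l' * (chi r w x ρ l * (1 - chi r w x ρ (l ++ l'))) + (1 - av Γ l') with hE
  have q6 : ∀ x ρ (l l' : List V), |E x ρ l l'| ≤ 9 := fun x ρ l l' => by
    have := q3 x ρ l l'
    have := q4 x ρ l l'
    have := q5 x ρ l l'
    rw [abs_le] at *
    constructor <;> simp only [hE] <;> linarith
  have eE : Kf K Γ (fun x ρ l => W K s (lst x l) (E x ρ l))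
      = Kf K Γ (fun x ρ l => W K s (lst x l) (fun l' => av Γ l' *
          (chi r w x ρ (l ++ l') * (1 - chi r w x ρ l))))
      + Kf K Γ (fun x ρ l => W K s (lst x l) (fun l' => av Γ l' *
          (chi r w x ρ l * (1 - chi r w x ρ (l ++ l')))))
      + Kf K Γ (fun x _ l => W K s (lst x l) (fun l' => 1 - av Γ l')) := by
    have h1 := KfCross_add (K := K) hΓ s (fun x ρ l l' =>
      av Γ l' * (chi r w x ρ (l ++ l') * (1 - chi r w x ρ l)) +
      av Γ l' * (chi r w x ρ l * (1 - chi r w x ρ (l ++ l'))))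
      (fun x ρ l l' => 1 - av Γ l') 6 (fun x ρ l l' => by
        have := q3 x ρ l l'
        have := q4 x ρ l l'
        rw [abs_le] at *
        constructor <;> linarith) (fun x ρ l l' => by
        have := q5 x ρ l l'
        rw [abs_le] at *
        constructor <;> linarith)
    have h2 := KfCross_add (K := K) hΓ s (fun x ρ l l' =>
      av Γ l' * (chi r w x ρ (l ++ l') * (1 - chi r w x ρ l)))
      (fun x ρ l l' => av Γ l' * (chi r w x ρ l * (1 - chi r w x ρ (l ++ l')))) 3 q3 q4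
    rw [← h2, ← h1]
  -- the difference of the two main terms
  have main : |Kf K Γ (fun x ρ l => W K s (lst x l) (fun l' => av Γ l' *
        (chi r w x ρ (l ++ l') * G x ρ (l ++ l'))))
      - Kf K Γ (fun x ρ l => W K s (lst x l) (fun l' => chi r w x ρ l * G x ρ (l ++ l')))|
      ≤ Kf K Γ (fun x ρ l => W K s (lst x l) (E x ρ l)) := by
    rw [← KfCross_sub hΓ s (fun x ρ l l' => av Γ l' * (chi r w x ρ (l ++ l') * G x ρ (l ++ l')))
      (fun x ρ l l' => chi r w x ρ l * G x ρ (l ++ l')) 1 q1 q2]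
    have hb : ∀ x ρ (l l' : List V), |av Γ l' * (chi r w x ρ (l ++ l') * G x ρ (l ++ l'))
        - chi r w x ρ l * G x ρ (l ++ l')| ≤ 9 := fun x ρ l l' => by
      have := q1 x ρ l l'
      have := q2 x ρ l l'
      rw [abs_le] at *
      constructor <;> linarith
    refine (Kf_abs_le K hΓ (KfCross_Bd s _ 9 hb)).trans ?_
    refine Kf_mono K hΓ ?_ (KfCross_Bd s E 9 q6) (fun x ρ l _ _ _ _ => ?_)
    · obtain ⟨C, hC⟩ := KfCross_Bd (K := K) s _ 9 hb
      exact ⟨C, fun x ρ l => by rw [abs_abs]; exact hC x ρ l⟩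
    · refine (W_abs_le K s (lst x l) _).trans (W_mono K s (lst x l) (fun l' _ => ?_))
      beta_reduce
      simp only [hE]
      have g1 := hG x ρ (l ++ l')
      have g2 := abs_le.1 g1
      have a0 : av Γ l' = 0 ∨ av Γ l' = 1 := by
        unfold av
        by_cases hh : ∀ y ∈ l', y ∉ Γ
        · right; exact Pool.Agent.helper20.HP.ind_true hh
        · left; exact Pool.Agent.helper20.HP.ind_false hh
      have a1 : chi r w x ρ l = 0 ∨ chi r w x ρ l = 1 := by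
        by_cases hh : r + 1 ≤ sl x ρ l ∧ sl x ρ l ≤ r + w
        · right; exact KfCross_chi_one hh
        · left; exact KfCross_chi_zero hh
      have a2 : chi r w x ρ (l ++ l') = 0 ∨ chi r w x ρ (l ++ l') = 1 := by
        by_cases hh : r + 1 ≤ sl x ρ (l ++ l') ∧ sl x ρ (l ++ l') ≤ r + w
        · right; exact KfCross_chi_one hh
        · left; exact KfCross_chi_zero hh
      rw [abs_le]
      rcases a0 with a0 | a0 <;> rcases a1 with a1 | a1 <;> rcases a2 with a2 | a2 <;>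
        rw [a0, a1, a2] <;> constructor <;> linarith
  have e0 : Kf K Γ (fun x ρ l => chi r w x ρ l * G x ρ l)
      = km K Γ s (fun x ρ l => chi r w x ρ l * G x ρ l)
      + Kf K Γ (fun x ρ l => W K s (lst x l) (fun l' => av Γ l' *
        (chi r w x ρ (l ++ l') * G x ρ (l ++ l')))) := Kf_split K hΓ dG s
  have e1 : Kf K Γ (fun x ρ l => chi r w x ρ l * W K s (lst x l) (fun l' => G x ρ (l ++ l')))
      = Kf K Γ (fun x ρ l => W K s (lst x l) (fun l' => chi r w x ρ l * G x ρ (l ++ l'))) := by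
    refine congrArg (Kf K Γ) ?_
    funext x ρ l
    rw [W_mul_left]
  have e2 : |km K Γ s (fun x ρ l => chi r w x ρ l * G x ρ l)| ≤ w * s * CZ θ := by
    have h1 := km_chi_le hP (Γ := Γ) (show 4 * s ≤ Nat.sqrt (Fintype.card V) by omega) r w
    refine le_trans ?_ h1
    rw [abs_le]
    constructor
    · have h2 : km K Γ s (fun x ρ l => (-1) * chi r w x ρ l) ≤
          km K Γ s (fun x ρ l => chi r w x ρ l * G x ρ l) := by
        refine km_mono K Γ s (fun i l _ _ => ?_)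
        have a1 := KfCross_chi_nonneg r w (Γ.get i) (Γ.drop (i + 1)) l
        have a2 := (abs_le.1 (hG (Γ.get i) (Γ.drop (i + 1)) l)).1
        nlinarith
      rw [km_mul_left] at h2
      have h3 : km K Γ s (fun x ρ l => chi r w x ρ l) = km K Γ s (chi r w) := rfl
      rw [h3] at h2
      linarith
    · refine km_mono K Γ s (fun i l _ _ => ?_)
      have a1 := KfCross_chi_nonneg r w (Γ.get i) (Γ.drop (i + 1)) l
      have a2 := (abs_le.1 (hG (Γ.get i) (Γ.drop (i + 1)) l)).2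
      nlinarith
  rw [eE] at main
  rw [e0, e1]
  have hw0 : (0 : ℝ) ≤ w := Nat.cast_nonneg _
  have hs0 : (0 : ℝ) ≤ s := Nat.cast_nonneg _
  have hwC : 0 ≤ w * CZ θ := mul_nonneg hw0 hCZ
  have tri : |km K Γ s (fun x ρ l => chi r w x ρ l * G x ρ l)
      + Kf K Γ (fun x ρ l => W K s (lst x l) (fun l' => av Γ l' *
        (chi r w x ρ (l ++ l') * G x ρ (l ++ l'))))
      - Kf K Γ (fun x ρ l => W K s (lst x l) (fun l' => chi r w x ρ l * G x ρ (l ++ l')))|
      ≤ |km K Γ s (fun x ρ l => chi r w x ρ l * G x ρ l)|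
      + |Kf K Γ (fun x ρ l => W K s (lst x l) (fun l' => av Γ l' *
        (chi r w x ρ (l ++ l') * G x ρ (l ++ l'))))
      - Kf K Γ (fun x ρ l => W K s (lst x l) (fun l' => chi r w x ρ l * G x ρ (l ++ l')))| := by
    rw [add_sub_assoc]
    exact abs_add_le _ _
  refine tri.trans ?_
  nlinarith

/-- long hits in the last `R` steps of `l` or in the next `N` steps -/
theorem Kf_LHnext (hP : Par K θ h) (hΓ : Γ.Nodup) {R N : ℕ} (hR : R ≤ 2 * h) (hN : N ≤ 2 * h)
    {r w m : ℕ} (hm : r + w + 2 * h ≤ m) :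
    Kf K Γ (fun x ρ l => chi r w x ρ l * W K N (lst x l) (fun l' =>
      Pool.Agent.helper20.HP.ind (LHin (2 * h) (R + N) x ρ (l ++ l'))))
    ≤ N * Γ.length + 4 * (w * CZ θ * ((R : ℝ) + N + 1)) + 2 * (2 * h) * PB θ (Fintype.card V) m := by
  have hsq := hP.h_le
  have hout := Kf_out hP hΓ hN hm
  have hkill := Kf_kill K hΓ N
  have hCZ : 0 ≤ CZ θ := by unfold CZ; positivity
  have hLH := Kf_LH_le hP hΓ (show 4 * (R + N) ≤ Nat.sqrt (Fintype.card V) by omega) r w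
  set f : V → List V → List V → ℝ := fun x ρ l =>
    Pool.Agent.helper20.HP.ind (LHin (2 * h) (R + N) x ρ l) * chi r w x ρ l with hf
  have bf : ∀ x ρ l, 0 ≤ f x ρ l ∧ f x ρ l ≤ 1 := fun x ρ l =>
    ⟨mul_nonneg (Pool.Agent.helper20.HP.ind_nonneg _) (KfCross_chi_nonneg _ _ _ _ _),
      mul_le_one₀ (Pool.Agent.helper20.HP.ind_le_one _) (KfCross_chi_nonneg _ _ _ _ _)
        (KfCross_chi_le _ _ _ _ _)⟩
  have df : Bd f := ⟨1, fun x ρ l => KfCross_abs (bf x ρ l).1 (bf x ρ l).2⟩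
  have hsp := Kf_split_le K hΓ df (fun x ρ l => (bf x ρ l).1) N
  have q1 : ∀ x ρ (l l' : List V), |(fun (_ : V) (_ : List V) (_ : List V) (l' : List V) =>
      1 - av Γ l') x ρ l l'| ≤ 2 := fun x ρ l l' => by
    have a1 := KfCross_av_nonneg Γ l'
    have a2 := KfCross_av_le Γ l'
    exact KfCross_abs (by linarith) (by linarith)
  have q2 : ∀ x ρ (l l' : List V), |av Γ l' * f x ρ (l ++ l')| ≤ 1 := fun x ρ l l' =>
    KfCross_abs (mul_nonneg (KfCross_av_nonneg _ _) (bf _ _ _).1)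
      (mul_le_one₀ (KfCross_av_le _ _) (bf _ _ _).1 (bf _ _ _).2)
  have q3 : ∀ x ρ (l l' : List V), |av Γ l' *
      (chi r w x ρ l * (1 - chi r w x ρ (l ++ l')))| ≤ 1 := fun x ρ l l' => by
    have a1 := KfCross_av_nonneg Γ l'
    have a2 := KfCross_av_le Γ l'
    have a3 := KfCross_chi_nonneg r w x ρ (l ++ l')
    have a4 := KfCross_chi_le r w x ρ (l ++ l')
    have a5 := KfCross_chi_nonneg r w x ρ l
    have a6 := KfCross_chi_le r w x ρ l
    have a7 : 0 ≤ chi r w x ρ l * (1 - chi r w x ρ (l ++ l')) := mul_nonneg a5 (by linarith)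
    have a8 : chi r w x ρ l * (1 - chi r w x ρ (l ++ l')) ≤ 1 :=
      mul_le_one₀ a6 (by linarith) (by linarith)
    exact KfCross_abs (mul_nonneg a1 a7) (mul_le_one₀ a2 a7 a8)
  have h12 := KfCross_add (K := K) hΓ N (fun x ρ l l' => (1 - av Γ l') + av Γ l' * f x ρ (l ++ l'))
    (fun x ρ l l' => av Γ l' * (chi r w x ρ l * (1 - chi r w x ρ (l ++ l')))) 3
    (fun x ρ l l' => by
      have := q1 x ρ l l'
      have := q2 x ρ l l'
      rw [abs_le] at *
      constructor <;> linarith)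
    (fun x ρ l l' => (q3 x ρ l l').trans (by norm_num))
  have h13 := KfCross_add (K := K) hΓ N (fun x ρ l l' => 1 - av Γ l')
    (fun x ρ l l' => av Γ l' * f x ρ (l ++ l')) 2 q1
    (fun x ρ l l' => (q2 x ρ l l').trans (by norm_num))
  have q4 : ∀ x ρ (l l' : List V), |chi r w x ρ l *
      Pool.Agent.helper20.HP.ind (LHin (2 * h) (R + N) x ρ (l ++ l'))| ≤ 4 := fun x ρ l l' => by
    have a := mul_le_one₀ (KfCross_chi_le r w x ρ l)
      (Pool.Agent.helper20.HP.ind_nonneg (LHin (2 * h) (R + N) x ρ (l ++ l')))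
      (Pool.Agent.helper20.HP.ind_le_one _)
    exact KfCross_abs (mul_nonneg (KfCross_chi_nonneg _ _ _ _ _)
      (Pool.Agent.helper20.HP.ind_nonneg _)) (by linarith)
  have hmono := KfCross_mono (K := K) hΓ N (F := fun x ρ l l' => chi r w x ρ l *
      Pool.Agent.helper20.HP.ind (LHin (2 * h) (R + N) x ρ (l ++ l')))
    (G := fun x ρ l l' => (1 - av Γ l') + av Γ l' * f x ρ (l ++ l')
      + av Γ l' * (chi r w x ρ l * (1 - chi r w x ρ (l ++ l')))) 4 q4
    (fun x ρ l l' => by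
      have := q1 x ρ l l'
      have := q2 x ρ l l'
      have := q3 x ρ l l'
      rw [abs_le] at *
      constructor <;> linarith)
    (fun x ρ l l' _ _ => by
      simp only [hf]
      have a0 : av Γ l' = 0 ∨ av Γ l' = 1 := by
        unfold av
        by_cases hh : ∀ y ∈ l', y ∉ Γ
        · right; exact Pool.Agent.helper20.HP.ind_true hh
        · left; exact Pool.Agent.helper20.HP.ind_false hh
      have a1 := KfCross_chi_nonneg r w x ρ l
      have a2 := KfCross_chi_le r w x ρ l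
      have a3 := KfCross_chi_nonneg r w x ρ (l ++ l')
      have a4 := KfCross_chi_le r w x ρ (l ++ l')
      have a5 := Pool.Agent.helper20.HP.ind_nonneg (LHin (2 * h) (R + N) x ρ (l ++ l'))
      have a6 := Pool.Agent.helper20.HP.ind_le_one (LHin (2 * h) (R + N) x ρ (l ++ l'))
      rcases a0 with a0 | a0
      · rw [a0]
        nlinarith
      · rw [a0]
        have a7 : chi r w x ρ (l ++ l') = 0 ∨ chi r w x ρ (l ++ l') = 1 := by
          by_cases hh : r + 1 ≤ sl x ρ (l ++ l') ∧ sl x ρ (l ++ l') ≤ r + w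
          · right; exact KfCross_chi_one hh
          · left; exact KfCross_chi_zero hh
        rcases a7 with a7 | a7
        · rw [a7]
          nlinarith
        · rw [a7]
          nlinarith)
  have e1 : Kf K Γ (fun x ρ l => chi r w x ρ l * W K N (lst x l) (fun l' =>
      Pool.Agent.helper20.HP.ind (LHin (2 * h) (R + N) x ρ (l ++ l'))))
      = Kf K Γ (fun x ρ l => W K N (lst x l) (fun l' => chi r w x ρ l *
      Pool.Agent.helper20.HP.ind (LHin (2 * h) (R + N) x ρ (l ++ l')))) := by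
    refine congrArg (Kf K Γ) ?_
    funext x ρ l
    rw [W_mul_left]
  rw [e1]
  refine hmono.trans ?_
  rw [h12, h13]
  push_cast at hLH
  have hw0 : (0 : ℝ) ≤ w := Nat.cast_nonneg _
  have hN0 : (0 : ℝ) ≤ N := Nat.cast_nonneg _
  have hR0 : (0 : ℝ) ≤ R := Nat.cast_nonneg _
  have hwC : 0 ≤ w * CZ θ := mul_nonneg hw0 hCZ
  have hwCR : 0 ≤ w * CZ θ * R := mul_nonneg hwC hR0
  have hwCN : 0 ≤ w * CZ θ * N := mul_nonneg hwC hN0
  nlinarith

end Pool.Agent.UQ
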