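import Pool.Agent.UQ.NL
import Pool.Agent.UQ.KfCross

/-!
# Q5 LBfin : the oscillating sum is controlled by `mR` and `bad`

`LB1`: choose `u`, `‖u‖ = 1`, with `‖∑_y z^(r+y) Phi (r+y)‖ = Re (u z ∑_y z^(r+y) Phi (r+y)) = Kf (chi * Re (u z^sl))` (`Kf_chi_mul` with `φ n = Re (u z^n)`). For each `s < N`, by `Kf_me` with
`G = Re (u z^sl)` (`|G| ≤ 1`): `≤ Kf (chi(l) * W s (Re (u z^(sl (l++l'))))) + err`. Average over `s < N`: `N⁻¹ ∑_s W s (lst x l) (Re (u z^(sl(l++l')))) = Re (u FN (run (x::ρ) l)) ≤ ‖FN …‖`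
(`HP.run_head`, `run_append`, `WC_re`).
`LB2`: `chi * ‖FN(state)‖` is bounded with `FN_loc` for words `l = l1 ++ (l2 ++ l3)`, `|l2| = 2h`, `|l3| = R` (shorter words: `km_chi_le`; `Kf_split` with `s = 2h + R`), the three terms (use `Kf_loc` for (1), (2), and `Kf_split_le` for (3)):
 (1) `ψ v₁ l' = ‖FP (lst v₁ (l'.take (2h)) :: l'.drop (2h))‖`, `W (2h+R) v₁ ψ = ∑_y pt (2h) v₁ y * W R y (‖FP (y :: ·)‖) ≤ 3/(2n) ∑_y … = 3/2 mR` (`Par.mix`);
 (2) `ψ v₁ l' = W N (lst v₁ l') (ind no cut)`, `W (2h+R) v₁ ψ = bad K (2h) R N` (for every `v₁`, by homogeneity `W_homog`);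
 (3) `Kf_LHnext`.
-/

open Finset Filter Pool.Agent.helper20.HP

namespace Pool.Agent.UQ

variable {V : Type} [Fintype V] [DecidableEq V] {K : HW V} {θ : ℝ} {h : ℕ} {Γ : List V}

theorem LB1_unit (S : ℂ) : ∃ c : ℂ, ‖c‖ = 1 ∧ (c * S).re = ‖S‖ := by
  by_cases hS : S = 0
  · exact ⟨1, by simp, by simp [hS]⟩
  · have hn : (‖S‖ : ℝ) ≠ 0 := norm_ne_zero_iff.mpr hS
    refine ⟨(starRingEnd ℂ) S / ((‖S‖ : ℝ) : ℂ), ?_, ?_⟩
    · rw [norm_div, RCLike.norm_conj, Complex.norm_real, norm_norm, div_self hn]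
    · have e : (starRingEnd ℂ) S / ((‖S‖ : ℝ) : ℂ) * S = ((‖S‖ : ℝ) : ℂ) := by
        have h1 : (starRingEnd ℂ) S * S = ((‖S‖ : ℝ) : ℂ) ^ 2 := by
          rw [← Complex.normSq_eq_conj_mul_self, Complex.normSq_eq_norm_sq]
          push_cast
          ring
        have h2 : ((‖S‖ : ℝ) : ℂ) ≠ 0 := by exact_mod_cast hn
        rw [div_mul_eq_mul_div, h1, sq, mul_div_assoc, div_self h2, mul_one]
      rw [e, Complex.ofReal_re]

/-- real part of `FN` of a state as an average of the future -/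
theorem LB1_FN (z u : ℂ) {N : ℕ} (hN : 0 < N) (x : V) (ρ l : List V) :
    ∑ s ∈ range N, W K s (lst x l) (fun l' => (u * z ^ (sl x ρ (l ++ l'))).re) =
      (N : ℝ) * (u * FN K z N (run (x :: ρ) l)).re := by
  obtain ⟨τ, hτ⟩ := Pool.Agent.helper20.HP.run_head x ρ l
  have hN' : (N : ℂ) ≠ 0 := by exact_mod_cast hN.ne'
  have e1 : (N : ℝ) * (u * FN K z N (run (x :: ρ) l)).re =
      ((N : ℂ) * (u * FN K z N (run (x :: ρ) l))).re := by
    rw [show ((N : ℕ) : ℂ) = ((N : ℝ) : ℂ) by push_cast; rfl, Complex.re_ofReal_mul]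
  have e2 : (N : ℂ) * (u * FN K z N (run (x :: ρ) l)) =
      ∑ s ∈ range N, WC K s (lst x l) (fun l' => u * z ^ (sl x ρ (l ++ l'))) := by
    have e3 : ∀ s, WC K s (lst x l) (fun l' => u * z ^ (sl x ρ (l ++ l'))) =
        u * WC K s (lst x l) (fun l' => z ^ (run (lst x l :: τ) l').length) := by
      intro s
      rw [WC_mul_left]
      congr 1
      refine WC_congr K (fun l' _ => ?_)
      unfold sl
      rw [run_append, hτ]
    simp_rw [e3]
    rw [← Finset.mul_sum, hτ]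
    unfold FN
    field_simp
  rw [e1, e2, Complex.re_sum]
  refine Finset.sum_congr rfl (fun s _ => ?_)
  rw [WC_re]

theorem LB1_norm_FN {z : ℂ} (hz : ‖z‖ = 1) (N : ℕ) (p : List V) : ‖FN K z N p‖ ≤ 1 := by
  cases p with
  | nil =>
    have : FN K z N ([] : List V) = 0 := rfl
    rw [this, norm_zero]
    exact zero_le_one
  | cons x l =>
    have e : FN K z N (x :: l) = (N : ℂ)⁻¹ * ∑ s ∈ range N,
      WC K s x (fun e => z ^ (run (x :: l) e).length) := rfl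
    rw [e, norm_mul, norm_inv, Complex.norm_natCast]
    have h1 : ‖∑ s ∈ range N, WC K s x (fun e => z ^ (run (x :: l) e).length)‖ ≤ (N : ℝ) := by
      refine (norm_sum_le _ _).trans ?_
      refine (Finset.sum_le_sum (fun s _ => NL_norm_le K hz s x _)).trans ?_
      simp
    rcases Nat.eq_zero_or_pos N with hN | hN
    · subst hN
      simp
    · have hN' : (0 : ℝ) < N := by exact_mod_cast hN
      calc (N : ℝ)⁻¹ * ‖∑ s ∈ range N, WC K s x (fun e => z ^ (run (x :: l) e).length)‖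
          ≤ (N : ℝ)⁻¹ * N := mul_le_mul_of_nonneg_left h1 (by positivity)
        _ = 1 := by field_simp

theorem LB1_chi_nonneg (r w : ℕ) (x : V) (ρ l : List V) : 0 ≤ chi r w x ρ l := by
  unfold chi Pool.Agent.helper20.HP.ind
  split_ifs <;> norm_num

theorem LB1_chi_le_one (r w : ℕ) (x : V) (ρ l : List V) : chi r w x ρ l ≤ 1 := by
  unfold chi Pool.Agent.helper20.HP.ind
  split_ifs <;> norm_num

theorem LB1_Bd {r w : ℕ} {g : V → List V → List V → ℝ} (hg : ∀ x ρ l, |g x ρ l| ≤ 1) :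
    Bd (fun x ρ l => chi r w x ρ l * g x ρ l) := by
  refine ⟨1, fun x ρ l => ?_⟩
  rw [abs_mul, abs_of_nonneg (LB1_chi_nonneg r w x ρ l)]
  calc chi r w x ρ l * |g x ρ l| ≤ 1 * 1 :=
        mul_le_mul (LB1_chi_le_one r w x ρ l) (hg x ρ l) (abs_nonneg _) zero_le_one
    _ = 1 := one_mul 1

theorem LB1_PB_nonneg {θ : ℝ} (hθ : 1 ≤ θ) (n r : ℕ) : 0 ≤ PB θ n r := by
  unfold PB CP CZ
  have : (0 : ℝ) ≤ θ := by linarith
  positivity

theorem LB1 (hP : Par K θ h) (hΓ : Γ.Nodup) {z : ℂ} (hz : ‖z‖ = 1) {N : ℕ} (hN : 0 < N)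
    (hN' : N ≤ 2 * h) {r w m : ℕ} (hm : r + w + 2 * h ≤ m) :
    ‖∑ y ∈ range w, z ^ (r + y) * ((Phi K Γ (r + y) : ℝ) : ℂ)‖ ≤
      Kf K Γ (fun x ρ l => chi r w x ρ l * ‖FN K z N (run (x :: ρ) l)‖)
      + (5 * (w * CZ θ * ((N : ℝ) + 1)) + 4 * (2 * h) * PB θ (Fintype.card V) m + N * Γ.length) := by
  set S : ℂ := ∑ y ∈ range w, z ^ (r + y) * ((Phi K Γ (r + y) : ℝ) : ℂ) with hS
  set E : ℝ := 5 * (w * CZ θ * ((N : ℝ) + 1)) + 4 * (2 * h) * PB θ (Fintype.card V) m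
    + N * Γ.length with hE
  have hNR : (0 : ℝ) < N := by exact_mod_cast hN
  have hz0 : z ≠ 0 := by
    intro h0
    rw [h0, norm_zero] at hz
    exact zero_ne_one hz
  obtain ⟨c, hc, hcS⟩ := LB1_unit S
  set u : ℂ := c / z with hu
  have hun : ‖u‖ = 1 := by rw [hu, norm_div, hc, hz, div_one]
  set φ : ℕ → ℝ := fun n => (u * z ^ n).re with hφ
  have hφ1 : ∀ n, |φ n| ≤ 1 := by
    intro n
    rw [hφ]
    refine (Complex.abs_re_le_norm _).trans ?_
    rw [norm_mul, norm_pow, hun, hz, one_pow, one_mul]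
  -- the sum as a functional
  have e1 : ‖S‖ = Kf K Γ (fun x ρ l => chi r w x ρ l * φ (sl x ρ l)) := by
    rw [Kf_chi_mul K hΓ r w φ, ← hcS, hS, Finset.mul_sum, Complex.re_sum]
    refine Finset.sum_congr rfl (fun y _ => ?_)
    have e2 : c * (z ^ (r + y) * ((Phi K Γ (r + y) : ℝ) : ℂ)) =
        (u * z ^ (r + y + 1)) * ((Phi K Γ (r + y) : ℝ) : ℂ) := by
      rw [hu, pow_succ]
      field_simp
    rw [e2, Complex.re_mul_ofReal]
  -- one comparison
  have h1 : ∀ s ∈ range N, ‖S‖ ≤ Kf K Γ (fun x ρ l => chi r w x ρ l *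
      W K s (lst x l) (fun l' => φ (sl x ρ (l ++ l')))) + E := by
    intro s hs
    have hs' : s ≤ N := (Finset.mem_range.mp hs).le
    have hsR : (s : ℝ) ≤ N := by exact_mod_cast hs'
    have h2 := Kf_me hP hΓ (s := s) (hs'.trans hN') hm (fun x ρ l => φ (sl x ρ l))
      (fun x ρ l => hφ1 _)
    rw [← e1] at h2
    have h3 := (abs_le.mp h2).2
    have hCZ : 0 ≤ CZ θ := by unfold CZ; positivity
    have h4 : 5 * (w * CZ θ * ((s : ℝ) + 1)) + 4 * (2 * h) * PB θ (Fintype.card V) m + s * Γ.length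
        ≤ E := by
      rw [hE]
      gcongr
    linarith
  -- average over `s`
  have h5 : (N : ℝ) * ‖S‖ ≤ ∑ s ∈ range N, Kf K Γ (fun x ρ l => chi r w x ρ l *
      W K s (lst x l) (fun l' => φ (sl x ρ (l ++ l')))) + N * E := by
    have h6 := Finset.sum_le_sum h1
    rw [Finset.sum_add_distrib, Finset.sum_const, Finset.sum_const, Finset.card_range,
      nsmul_eq_mul, nsmul_eq_mul] at h6
    exact h6
  have hBdW : ∀ s ∈ range N, Bd (fun x ρ l => chi r w x ρ l *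
      W K s (lst x l) (fun l' => φ (sl x ρ (l ++ l')))) := by
    intro s _
    refine LB1_Bd (fun x ρ l => ?_)
    refine (abs_W_le K s _ _).trans ?_
    have : W K s (lst x l) (fun l' => |φ (sl x ρ (l ++ l'))|) ≤ W K s (lst x l) (fun _ => (1 : ℝ)) :=
      W_mono K (fun l' _ => hφ1 _)
    rwa [W_const] at this
  have h7 : ∑ s ∈ range N, Kf K Γ (fun x ρ l => chi r w x ρ l *
      W K s (lst x l) (fun l' => φ (sl x ρ (l ++ l')))) =
      Kf K Γ (fun x ρ l => ∑ s ∈ range N, chi r w x ρ l *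
        W K s (lst x l) (fun l' => φ (sl x ρ (l ++ l')))) :=
    (Kf_sum K hΓ (range N) hBdW).symm
  have h8 : Kf K Γ (fun x ρ l => ∑ s ∈ range N, chi r w x ρ l *
        W K s (lst x l) (fun l' => φ (sl x ρ (l ++ l')))) ≤
      Kf K Γ (fun x ρ l => (N : ℝ) * (chi r w x ρ l * ‖FN K z N (run (x :: ρ) l)‖)) := by
    refine Kf_mono K hΓ ?_ ?_ ?_
    · refine ⟨N, fun x ρ l => ?_⟩
      refine (Finset.abs_sum_le_sum_abs _ _).trans ?_
      have : ∀ s ∈ range N, |chi r w x ρ l * W K s (lst x l) (fun l' => φ (sl x ρ (l ++ l')))| ≤ 1 := by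
        intro s _
        rw [abs_mul, abs_of_nonneg (LB1_chi_nonneg r w x ρ l)]
        have h9 : |W K s (lst x l) (fun l' => φ (sl x ρ (l ++ l')))| ≤ 1 := by
          refine (abs_W_le K s _ _).trans ?_
          have : W K s (lst x l) (fun l' => |φ (sl x ρ (l ++ l'))|) ≤
              W K s (lst x l) (fun _ => (1 : ℝ)) := W_mono K (fun l' _ => hφ1 _)
          rwa [W_const] at this
        calc chi r w x ρ l * |W K s (lst x l) (fun l' => φ (sl x ρ (l ++ l')))| ≤ 1 * 1 :=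
              mul_le_mul (LB1_chi_le_one r w x ρ l) h9 (abs_nonneg _) zero_le_one
          _ = 1 := one_mul 1
      refine (Finset.sum_le_sum this).trans ?_
      simp
    · refine ⟨N, fun x ρ l => ?_⟩
      rw [abs_mul, abs_of_nonneg hNR.le, abs_mul, abs_of_nonneg (LB1_chi_nonneg r w x ρ l),
        abs_of_nonneg (norm_nonneg _)]
      have : chi r w x ρ l * ‖FN K z N (run (x :: ρ) l)‖ ≤ 1 * 1 :=
        mul_le_mul (LB1_chi_le_one r w x ρ l) (LB1_norm_FN hz N _) (norm_nonneg _) zero_le_one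
      nlinarith
    · intro x ρ l _ _ _ _
      rw [← Finset.mul_sum, LB1_FN z u hN x ρ l]
      have h10 : (u * FN K z N (run (x :: ρ) l)).re ≤ ‖FN K z N (run (x :: ρ) l)‖ := by
        refine (Complex.re_le_norm _).trans ?_
        rw [norm_mul, hun, one_mul]
      have h11 := mul_le_mul_of_nonneg_left h10
        (mul_nonneg (LB1_chi_nonneg r w x ρ l) hNR.le)
      calc chi r w x ρ l * ((N : ℝ) * (u * FN K z N (run (x :: ρ) l)).re)
          = (chi r w x ρ l * N) * (u * FN K z N (run (x :: ρ) l)).re := by ring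
        _ ≤ (chi r w x ρ l * N) * ‖FN K z N (run (x :: ρ) l)‖ := h11
        _ = (N : ℝ) * (chi r w x ρ l * ‖FN K z N (run (x :: ρ) l)‖) := by ring
  rw [Kf_mul_left] at h8
  have h12 : (N : ℝ) * ‖S‖ ≤
      (N : ℝ) * (Kf K Γ (fun x ρ l => chi r w x ρ l * ‖FN K z N (run (x :: ρ) l)‖) + E) := by
    rw [mul_add]
    linarith
  exact le_of_mul_le_mul_left h12 hNR

end Pool.Agent.UQ
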