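import Pool.Agent.UQ.FNloc
import Pool.Agent.UQ.KfCross
import Pool.Agent.UQ.KfLoc
import Pool.Agent.UQ.CutBad

/-!
# Q5 LBfin : the oscillating sum is controlled by `mR` and `bad`

`LB1`: choose `u`, `‖u‖ = 1`, with `‖∑_y z^(r+y) Phi (r+y)‖ = Re (u z ∑_y z^(r+y) Phi (r+y)) = Kf (chi * Re (u z^sl))` (`Kf_chi_mul` with `φ n = Re (u z^n)`). For each `s < N`, by `Kf_me` with
`G = Re (u z^sl)` (`|G| ≤ 1`): `≤ Kf (chi(l) * W s (Re (u z^(sl (l++l'))))) + err`. Average over `s < N`: `N⁻¹ ∑_s W s (lst x l) (Re (u z^(sl(l++l')))) = Re (u FN (run (x::ρ) l)) ≤ ‖FN …‖`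
(`HP.run_head`, `run_append`, `WC_re`).
`LB2`: `chi * ‖FN(state)‖` is bounded with `FN_loc` for words `l = l1 ++ (l2 ++ l3)`, `|l2| = 2h`, `|l3| = R` (shorter words: `km_chi_le`; `Kf_split` with `s = 2h + R`), the three terms (use `Kf_loc` for (1), (2), and `Kf_split_le` for (3)):
 (1) `ψ v₁ l' = ‖FP (lst v₁ (l'.take (2h)) :: l'.drop (2h))‖`, `W (2h+R) v₁ ψ = ∑_y pt (2h) v₁ y * W R y (‖FP (y :: ·)‖) ≤ 3/(2n) ∑_y … = 3/2 mR` (`Par.mix`);
 (2) `ψ v₁ l' = W N (lst v₁ l') (ind no cut)`, `W (2h+R) v₁ ψ = bad K (2h) R N` (for every `v₁`, by homogeneity `W_homog`);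
 (3) `Kf_LHnext`.
-/

open Finset Filter Pool.Agent.helper20.HP

namespace Pool.Agent.UQ

variable {V : Type} [Fintype V] [DecidableEq V] {K : HW V} {θ : ℝ} {h : ℕ} {Γ : List V}

omit [Fintype V] [DecidableEq V] in
theorem LB2_bd01 {f : V → List V → List V → ℝ} (h0 : ∀ x ρ l, 0 ≤ f x ρ l)
    (h1 : ∀ x ρ l, f x ρ l ≤ 1) : Bd f :=
  ⟨1, fun x ρ l => abs_le.mpr ⟨by linarith [h0 x ρ l], h1 x ρ l⟩⟩

theorem LB2_W0 (K : HW V) (k : ℕ) (x : V) {f : List V → ℝ} (h0 : ∀ l, 0 ≤ f l) :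
    0 ≤ W K k x f := W_nonneg K fun l _ => h0 l

theorem LB2_W1 (K : HW V) (k : ℕ) (x : V) {f : List V → ℝ} (h1 : ∀ l, f l ≤ 1) :
    W K k x f ≤ 1 := by
  have := W_mono K (k := k) (x := x) (f := f) (g := fun _ => 1) fun l _ => h1 l
  rwa [W_const] at this

theorem LB2_FN_le (K : HW V) {z : ℂ} (hz : ‖z‖ = 1) (N : ℕ) (γ : List V) : ‖FN K z N γ‖ ≤ 1 := by
  cases γ with
  | nil =>
    have : FN K z N ([] : List V) = 0 := rfl
    rw [this, norm_zero]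
    exact zero_le_one
  | cons x l =>
    have e : FN K z N (x :: l) = (N : ℂ)⁻¹ * ∑ s ∈ range N,
      WC K s x (fun e => z ^ (run (x :: l) e).length) := rfl
    rw [e, norm_mul, norm_inv, Complex.norm_natCast]
    have h1 : ‖∑ s ∈ range N, WC K s x (fun e => z ^ (run (x :: l) e).length)‖ ≤ (N : ℝ) := by
      refine (norm_sum_le _ _).trans ?_
      refine (Finset.sum_le_sum (fun s _ => NL_norm_le K hz s x _)).trans ?_
      simp
    rcases Nat.eq_zero_or_pos N with hN | hN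
    · subst hN
      simp
    · have hN' : (0 : ℝ) < N := by exact_mod_cast hN
      calc (N : ℝ)⁻¹ * ‖∑ s ∈ range N, WC K s x (fun e => z ^ (run (x :: l) e).length)‖
          ≤ (N : ℝ)⁻¹ * N := mul_le_mul_of_nonneg_left h1 (by positivity)
        _ = 1 := by field_simp

/-- first local functional -/
noncomputable def LB2_p1 (K : HW V) (z : ℂ) (N b : ℕ) (v : V) (l' : List V) : ℝ :=
  ‖FP K z N (lst v (l'.take b) :: l'.drop b)‖

/-- second local functional -/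
noncomputable def LB2_p2 (K : HW V) (N b R : ℕ) (v : V) (l' : List V) : ℝ :=
  W K N (lst v l') (fun e => ind (¬ ∃ c, b < c ∧ c ≤ b + R ∧
    List.Disjoint ((v :: l' ++ e).take c) ((v :: l' ++ e).drop c)))

/-- third functional -/
noncomputable def LB2_p3 (K : HW V) (N b R : ℕ) (x : V) (ρ l : List V) : ℝ :=
  W K N (lst x l) (fun e => Pool.Agent.helper20.HP.ind (LHin b (R + N) x ρ (l ++ e)))

theorem LB2_W_p1 (hP : Par K θ h) (z : ℂ) (N R : ℕ) (v : V) :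
    W K (2 * h + R) v (LB2_p1 K z N (2 * h) v) ≤ 3 / 2 * mR K z N R := by
  have e1 : W K (2 * h + R) v (LB2_p1 K z N (2 * h) v) =
      W K (2 * h) v (fun l2 => W K R (lst v l2) (fun l3 => ‖FP K z N (lst v l2 :: l3)‖)) := by
    rw [W_append]
    refine W_congr K fun l2 hl2 => W_congr K fun l3 _ => ?_
    unfold LB2_p1
    rw [← hl2, List.take_left', List.drop_left'] <;> rfl
  rw [e1, W_lst K (2 * h) v (fun y => W K R y (fun l3 => ‖FP K z N (y :: l3)‖))]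
  have e2 : ∀ y ∈ Finset.univ, K.pt (2 * h) v y * W K R y (fun l3 => ‖FP K z N (y :: l3)‖) ≤
      3 / (2 * (Fintype.card V : ℝ)) * W K R y (fun l3 => ‖FP K z N (y :: l3)‖) := by
    intro y _
    exact mul_le_mul_of_nonneg_right (hP.mix (2 * h) (by omega) v y)
      (LB2_W0 K R y fun l => norm_nonneg _)
  refine (Finset.sum_le_sum e2).trans (le_of_eq ?_)
  rw [← Finset.mul_sum]
  unfold mR avg
  rw [mul_comm (2 : ℝ), ← div_div, div_mul_eq_mul_div, div_mul_eq_mul_div]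
  ring

theorem LB2_W_p2 (K : HW V) (N b R : ℕ) (v : V) :
    W K (b + R) v (LB2_p2 K N b R v) = bad K b R N := by
  have e1 : W K (b + R) v (LB2_p2 K N b R v) = W K (b + R + N) v (fun m =>
      ind (¬ ∃ c, b < c ∧ c ≤ b + R ∧ List.Disjoint ((v :: m).take c) ((v :: m).drop c))) := by
    rw [W_append K (b + R) N]
    rfl
  have : Nonempty V := ⟨v⟩
  have e2 : ∀ x : V, W K (b + R + N) x (fun m =>
      ind (¬ ∃ c, b < c ∧ c ≤ b + R ∧ List.Disjoint ((x :: m).take c) ((x :: m).drop c))) =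
      W K (b + R + N) v (fun m =>
      ind (¬ ∃ c, b < c ∧ c ≤ b + R ∧ List.Disjoint ((v :: m).take c) ((v :: m).drop c))) := by
    intro x
    refine W_homog K (fun x m =>
      ind (¬ ∃ c, b < c ∧ c ≤ b + R ∧ List.Disjoint ((x :: m).take c) ((x :: m).drop c))) ?_ x v
    intro σ _ x l
    apply ind_congr
    rw [not_iff_not]
    refine exists_congr fun c => and_congr_right fun _ => and_congr_right fun _ => ?_
    rw [← List.map_cons, ← List.map_take, ← List.map_drop]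
    exact ⟨List.Disjoint.of_map, List.disjoint_map σ.injective⟩
  rw [e1]
  unfold bad
  rw [show (fun x : V => W K (b + R + N) x (fun m =>
      ind (¬ ∃ c, b < c ∧ c ≤ b + R ∧ List.Disjoint ((x :: m).take c) ((x :: m).drop c)))) =
      fun _ : V => W K (b + R + N) v (fun m =>
      ind (¬ ∃ c, b < c ∧ c ≤ b + R ∧ List.Disjoint ((v :: m).take c) ((v :: m).drop c))) from
      funext e2, avg_const]

theorem LB2 (hP : Par K θ h) (hΓ : Γ.Nodup) {z : ℂ} (hz : ‖z‖ = 1) {N R : ℕ} (hN : 0 < N)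
    (hN' : N ≤ 2 * h) (hR : R ≤ 2 * h) {r w m : ℕ} (hm : r + w + 8 * h ≤ m) :
    Kf K Γ (fun x ρ l => chi r w x ρ l * ‖FN K z N (run (x :: ρ) l)‖) ≤
      (3 / 2 * mR K z N R + 2 * bad K (2 * h) R N) * ((w + 8 * h) * PB θ (Fintype.card V) m)
      + (25 * (w * CZ θ * (2 * (h : ℝ) + R + N + 1)) + 4 * (2 * h) * PB θ (Fintype.card V) m
        + 2 * N * Γ.length) := by
  set k := 2 * h + R with hk
  have hk4 : k ≤ 4 * h := by omega
  have hchi0 : ∀ x ρ l, 0 ≤ chi r w x ρ l := fun x ρ (l : List V) =>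
    Pool.Agent.helper20.HP.ind_nonneg _
  have hchi1 : ∀ x ρ l, chi r w x ρ l ≤ 1 := fun x ρ (l : List V) =>
    Pool.Agent.helper20.HP.ind_le_one _
  have hav0 : ∀ l, 0 ≤ av Γ l := fun l => Pool.Agent.helper20.HP.ind_nonneg _
  have hav1 : ∀ l, av Γ l ≤ 1 := fun l => Pool.Agent.helper20.HP.ind_le_one _
  have hp10 : ∀ v l', 0 ≤ LB2_p1 K z N (2 * h) v l' := fun v l' => norm_nonneg _
  have hp11 : ∀ v l', LB2_p1 K z N (2 * h) v l' ≤ 1 := fun v l' => norm_FP_le K hz N _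
  have hp20 : ∀ v l', 0 ≤ LB2_p2 K N (2 * h) R v l' := fun v l' =>
    LB2_W0 K N _ fun _ => ind_nonneg _
  have hp21 : ∀ v l', LB2_p2 K N (2 * h) R v l' ≤ 1 := fun v l' =>
    LB2_W1 K N _ fun _ => ind_le_one _
  have hp30 : ∀ x ρ l, 0 ≤ LB2_p3 K N (2 * h) R x ρ l := fun x ρ l =>
    LB2_W0 K N _ fun _ => Pool.Agent.helper20.HP.ind_nonneg _
  have hp31 : ∀ x ρ l, LB2_p3 K N (2 * h) R x ρ l ≤ 1 := fun x ρ l =>
    LB2_W1 K N _ fun _ => Pool.Agent.helper20.HP.ind_le_one _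
  have hF0 : ∀ x ρ l, 0 ≤ ‖FN K z N (run (x :: ρ) l)‖ := fun x ρ l => norm_nonneg _
  have hF1 : ∀ x ρ l, ‖FN K z N (run (x :: ρ) l)‖ ≤ 1 := fun x ρ l => LB2_FN_le K hz N _
  -- products
  have hmul0 : ∀ {a b : ℝ}, 0 ≤ a → 0 ≤ b → 0 ≤ a * b := fun ha hb => mul_nonneg ha hb
  have hmul1 : ∀ {a b : ℝ}, 0 ≤ b → a ≤ 1 → b ≤ 1 → a * b ≤ 1 := fun hb ha1 hb1 =>
    (mul_le_of_le_one_left hb ha1).trans hb1
  -- the three pieces
  set A : V → List V → List V → ℝ := fun x ρ l => W K k (lst x l) (fun l' => av Γ l' *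
      (chi r w x ρ (l ++ l') * LB2_p1 K z N (2 * h) (lst x l) l')) with hA
  set B : V → List V → List V → ℝ := fun x ρ l => W K k (lst x l) (fun l' => av Γ l' *
      (chi r w x ρ (l ++ l') * LB2_p2 K N (2 * h) R (lst x l) l')) with hB
  set C : V → List V → List V → ℝ := fun x ρ l => W K k (lst x l) (fun l' => av Γ l' *
      (chi r w x ρ (l ++ l') * LB2_p3 K N (2 * h) R x ρ (l ++ l'))) with hC
  have hA0 : ∀ x ρ l, 0 ≤ A x ρ l := fun x ρ l => LB2_W0 K k _ fun l' =>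
    hmul0 (hav0 _) (hmul0 (hchi0 _ _ _) (hp10 _ _))
  have hA1 : ∀ x ρ l, A x ρ l ≤ 1 := fun x ρ l => LB2_W1 K k _ fun l' =>
    hmul1 (hmul0 (hchi0 _ _ _) (hp10 _ _)) (hav1 _) (hmul1 (hp10 _ _) (hchi1 _ _ _) (hp11 _ _))
  have hB0 : ∀ x ρ l, 0 ≤ B x ρ l := fun x ρ l => LB2_W0 K k _ fun l' =>
    hmul0 (hav0 _) (hmul0 (hchi0 _ _ _) (hp20 _ _))
  have hB1 : ∀ x ρ l, B x ρ l ≤ 1 := fun x ρ l => LB2_W1 K k _ fun l' =>
    hmul1 (hmul0 (hchi0 _ _ _) (hp20 _ _)) (hav1 _) (hmul1 (hp20 _ _) (hchi1 _ _ _) (hp21 _ _))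
  have hC0 : ∀ x ρ l, 0 ≤ C x ρ l := fun x ρ l => LB2_W0 K k _ fun l' =>
    hmul0 (hav0 _) (hmul0 (hchi0 _ _ _) (hp30 _ _ _))
  have hC1 : ∀ x ρ l, C x ρ l ≤ 1 := fun x ρ l => LB2_W1 K k _ fun l' =>
    hmul1 (hmul0 (hchi0 _ _ _) (hp30 _ _ _)) (hav1 _)
      (hmul1 (hp30 _ _ _) (hchi1 _ _ _) (hp31 _ _ _))
  have bA : Bd A := LB2_bd01 hA0 hA1
  have bB : Bd B := LB2_bd01 hB0 hB1
  have bC : Bd C := LB2_bd01 hC0 hC1
  have b2B : Bd (fun x ρ l => 2 * B x ρ l) := ⟨2, fun x ρ l => abs_le.mpr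
    ⟨by linarith [hB0 x ρ l], by linarith [hB1 x ρ l]⟩⟩
  have b2C : Bd (fun x ρ l => 2 * C x ρ l) := ⟨2, fun x ρ l => abs_le.mpr
    ⟨by linarith [hC0 x ρ l], by linarith [hC1 x ρ l]⟩⟩
  have bAB : Bd (fun x ρ l => A x ρ l + 2 * B x ρ l) := ⟨3, fun x ρ l => abs_le.mpr
    ⟨by linarith [hA0 x ρ l, hB0 x ρ l], by linarith [hA1 x ρ l, hB1 x ρ l]⟩⟩
  have bABC : Bd (fun x ρ l => (A x ρ l + 2 * B x ρ l) + 2 * C x ρ l) := ⟨5, fun x ρ l =>
    abs_le.mpr ⟨by linarith [hA0 x ρ l, hB0 x ρ l, hC0 x ρ l],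
      by linarith [hA1 x ρ l, hB1 x ρ l, hC1 x ρ l]⟩⟩
  have bF : Bd (fun x ρ l => chi r w x ρ l * ‖FN K z N (run (x :: ρ) l)‖) :=
    LB2_bd01 (fun x ρ l => hmul0 (hchi0 _ _ _) (hF0 _ _ _))
      (fun x ρ l => hmul1 (hF0 _ _ _) (hchi1 _ _ _) (hF1 _ _ _))
  have s1 := Kf_split K hΓ bF k
  -- short words
  have s2 : km K Γ k (fun x ρ l => chi r w x ρ l * ‖FN K z N (run (x :: ρ) l)‖)
      ≤ w * k * CZ θ := by
    refine le_trans (km_mono K Γ k (g := chi r w) fun i l _ _ => ?_)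
      (km_chi_le hP (s := k) (by have := hP.h_le; omega) r w)
    exact mul_le_of_le_one_right (hchi0 _ _ _) (hF1 _ _ _)
  -- long words
  have s3 : Kf K Γ (fun x ρ l => W K k (lst x l) (fun l' => av Γ l' *
      (fun x ρ l => chi r w x ρ l * ‖FN K z N (run (x :: ρ) l)‖) x ρ (l ++ l')))
      ≤ Kf K Γ (fun x ρ l => (A x ρ l + 2 * B x ρ l) + 2 * C x ρ l) := by
    refine Kf_mono K hΓ ?_ bABC ?_
    · exact LB2_bd01 (fun x ρ l => LB2_W0 K k _ fun l' =>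
          hmul0 (hav0 _) (hmul0 (hchi0 _ _ _) (hF0 _ _ _)))
        (fun x ρ l => LB2_W1 K k _ fun l' => hmul1 (hmul0 (hchi0 _ _ _) (hF0 _ _ _)) (hav1 _)
          (hmul1 (hF0 _ _ _) (hchi1 _ _ _) (hF1 _ _ _)))
    · intro x ρ l hnd _ _ _
      simp only [hA, hB, hC]
      rw [← W_mul_left, ← W_mul_left, ← W_add, ← W_add]
      refine W_mono K fun l' hl' => ?_
      have h2 : (l'.take (2 * h)).length = 2 * h := by
        rw [List.length_take, hl']; omega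
      have h3 : (l'.drop (2 * h)).length = R := by
        rw [List.length_drop, hl']; omega
      have key := FN_loc K hz hN (2 * h) R x ρ l (l'.take (2 * h)) (l'.drop (2 * h)) hnd h2 h3
      rw [List.take_append_drop] at key
      have e2 : W K N (lst (lst x l) l') (fun e => ind (¬ ∃ c, 2 * h < c ∧ c ≤ 2 * h + R ∧
          List.Disjoint ((lst x l :: l' ++ e).take c) ((lst x l :: l' ++ e).drop c))) =
          LB2_p2 K N (2 * h) R (lst x l) l' := rfl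
      have e3 : W K N (lst (lst x l) l') (fun e =>
          Pool.Agent.helper20.HP.ind (LHin (2 * h) (R + N) x ρ (l ++ l' ++ e))) =
          LB2_p3 K N (2 * h) R x ρ (l ++ l') := by
        unfold LB2_p3
        rw [LO_lst_append]
      have e1 : ‖FP K z N (lst (lst x l) (l'.take (2 * h)) :: l'.drop (2 * h))‖ =
          LB2_p1 K z N (2 * h) (lst x l) l' := rfl
      rw [e1, e2, e3] at key
      have hc := hchi0 x ρ (l ++ l')
      have ha := hav0 l'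
      have hac : 0 ≤ av Γ l' * chi r w x ρ (l ++ l') := mul_nonneg ha hc
      have := mul_le_mul_of_nonneg_left key hac
      calc av Γ l' * (chi r w x ρ (l ++ l') * ‖FN K z N (run (x :: ρ) (l ++ l'))‖)
          = av Γ l' * chi r w x ρ (l ++ l') * ‖FN K z N (run (x :: ρ) (l ++ l'))‖ := by ring
        _ ≤ _ := this
        _ = _ := by ring
  have s4 : Kf K Γ (fun x ρ l => (A x ρ l + 2 * B x ρ l) + 2 * C x ρ l)
      = Kf K Γ A + 2 * Kf K Γ B + 2 * Kf K Γ C := by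
    rw [Kf_add K hΓ bAB b2C, Kf_add K hΓ bA b2B, Kf_mul_left, Kf_mul_left]
  have sA := Kf_loc hP hΓ hk4 hm (LB2_p1 K z N (2 * h)) hp10 hp11
    (ε₀ := 3 / 2 * mR K z N R) (fun v => LB2_W_p1 hP z N R v)
  have sB := Kf_loc hP hΓ hk4 hm (LB2_p2 K N (2 * h) R) hp20 hp21
    (ε₀ := bad K (2 * h) R N) (fun v => (LB2_W_p2 K N (2 * h) R v).le)
  have sC : Kf K Γ C ≤ N * Γ.length + 4 * (w * CZ θ * ((R : ℝ) + N + 1))
      + 2 * (2 * h) * PB θ (Fintype.card V) m := by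
    have b3 : Bd (fun x ρ l => chi r w x ρ l * LB2_p3 K N (2 * h) R x ρ l) :=
      LB2_bd01 (fun x ρ l => hmul0 (hchi0 _ _ _) (hp30 _ _ _))
        (fun x ρ l => hmul1 (hp30 _ _ _) (hchi1 _ _ _) (hp31 _ _ _))
    refine (Kf_split_le K hΓ b3 (fun x ρ l => hmul0 (hchi0 _ _ _) (hp30 _ _ _)) k).trans ?_
    exact Kf_LHnext hP hΓ hR hN' (by omega)
  rw [s1]
  have hkc : (k : ℝ) = 2 * (h : ℝ) + R := by rw [hk]; push_cast; ring
  have hCZ : 0 ≤ w * CZ θ := by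
    unfold CZ; positivity
  rw [hkc] at s2 sA sB
  have hh : (0 : ℝ) ≤ h := Nat.cast_nonneg h
  have hRR : (0 : ℝ) ≤ R := Nat.cast_nonneg R
  have hNN : (0 : ℝ) ≤ N := Nat.cast_nonneg N
  have q1 : w * CZ θ * (2 * (h : ℝ) + R) ≤ w * CZ θ * (2 * (h : ℝ) + R + N + 1) :=
    mul_le_mul_of_nonneg_left (by linarith) hCZ
  have q2 : w * CZ θ * (2 * (h : ℝ) + R + 1) ≤ w * CZ θ * (2 * (h : ℝ) + R + N + 1) :=
    mul_le_mul_of_nonneg_left (by linarith) hCZ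
  have q3 : w * CZ θ * ((R : ℝ) + N + 1) ≤ w * CZ θ * (2 * (h : ℝ) + R + N + 1) :=
    mul_le_mul_of_nonneg_left (by linarith) hCZ
  have q4 : 0 ≤ w * CZ θ * (2 * (h : ℝ) + R + N + 1) := mul_nonneg hCZ (by linarith)
  have hs3 := s3.trans s4.le
  have z1 : (w : ℝ) * (2 * (h : ℝ) + R) * CZ θ = w * CZ θ * (2 * (h : ℝ) + R) := by ring
  have z2 : (w : ℝ) * (3 / 2 * CZ θ * (2 * (h : ℝ) + R + 1)) =
      3 / 2 * (w * CZ θ * (2 * (h : ℝ) + R + 1)) := by ring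
  rw [z1] at s2
  rw [z2] at sA sB
  set P := PB θ (Fintype.card V) m with hPdef
  have z3 : (3 / 2 * mR K z N R + 2 * bad K (2 * h) R N) * ((w + 8 * h) * P) =
      3 / 2 * mR K z N R * ((w + 8 * h) * P) + 2 * (bad K (2 * h) R N * ((w + 8 * h) * P)) := by
    ring
  rw [z3]
  have z4 : 4 * (2 * (h : ℝ)) * P = 2 * (2 * (2 * (h : ℝ)) * P) := by ring
  rw [z4]
  linarith


end Pool.Agent.UQ
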