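import Pool.Agent.UQ.Base

/-!
# Q9 TailU : tails along an ultrafilter

If for some `δ > 0` no `r` works, then (ultrafilter) for every `r ≥ 1` there is `T` with `δ < ∑_{u ∈ Ioc r T} f k u` for 𝒰-most `k`; necessarily `T > r`. Iterate: `r_0 = 1 < r_1 < … < r_M`, blocks `Ioc r_i r_{i+1}`; for 𝒰-most `k` all `M`
block sums are `> δ`, so `∑_{u < r_M + 1} f k u > M δ > θ` for `M > θ/δ`: contradiction.
-/

open Finset Filter

namespace Pool.Agent.UQ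

theorem tail_ultra (𝒰 : Ultrafilter ℕ) (f : ℕ → ℕ → ℝ) (hf : ∀ k u, 0 ≤ f k u) {θ : ℝ}
    (hb : ∀ T : ℕ, ∀ᶠ k in (𝒰 : Filter ℕ), ∑ u ∈ range T, f k u ≤ θ) {δ : ℝ} (hδ : 0 < δ) :
    ∃ r : ℕ, 1 ≤ r ∧ ∀ T : ℕ, ∀ᶠ k in (𝒰 : Filter ℕ), ∑ u ∈ Ioc r T, f k u ≤ δ := by
  by_contra hcon
  push Not at hcon
  have h1 : ∀ r : ℕ, ∃ T : ℕ, r ≤ T ∧ (1 ≤ r →
      ∀ᶠ k in (𝒰 : Filter ℕ), δ < ∑ u ∈ Ioc r T, f k u) := by
    intro r
    by_cases hr : 1 ≤ r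
    · obtain ⟨T, hT⟩ := hcon r hr
      have h2 : ∀ᶠ k in (𝒰 : Filter ℕ), δ < ∑ u ∈ Ioc r T, f k u := hT
      refine ⟨T, ?_, fun _ => h2⟩
      by_contra hlt
      obtain ⟨k, hk⟩ := h2.exists
      rw [Ioc_eq_empty (by omega), sum_empty] at hk
      linarith
    · exact ⟨r, le_rfl, fun h => absurd h hr⟩
  choose T hT1 hT2 using h1
  set s : ℕ → ℕ := fun i => T^[i] 1 with hs
  have hs0 : s 0 = 1 := rfl
  have hss : ∀ i, s (i + 1) = T (s i) := fun i => by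
    simp only [hs, Function.iterate_succ_apply']
  have hs1 : ∀ i, 1 ≤ s i := by
    intro i
    induction i with
    | zero => exact le_rfl
    | succ i ih => rw [hss]; exact ih.trans (hT1 _)
  have key : ∀ M : ℕ, ∀ᶠ k in (𝒰 : Filter ℕ), (M : ℝ) * δ ≤ ∑ u ∈ Ioc 1 (s M), f k u := by
    intro M
    induction M with
    | zero =>
      refine Eventually.of_forall fun k => ?_
      simp [hs0]
    | succ M ih =>
      filter_upwards [ih, hT2 (s M) (hs1 M)] with k hk1 hk2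
      rw [hss]
      have h3 : ∑ u ∈ Ioc 1 (T (s M)), f k u
          = ∑ u ∈ Ioc 1 (s M), f k u + ∑ u ∈ Ioc (s M) (T (s M)), f k u := by
        rw [← sum_Ioc_consecutive _ (hs1 M) (hT1 _)]
      rw [h3]
      push_cast
      linarith
  obtain ⟨M, hM⟩ := exists_nat_gt (θ / δ)
  rw [div_lt_iff₀ hδ] at hM
  obtain ⟨k, hk1, hk2⟩ := ((key M).and (hb (s M + 1))).exists
  have h4 : ∑ u ∈ Ioc 1 (s M), f k u ≤ ∑ u ∈ range (s M + 1), f k u := by
    refine sum_le_sum_of_subset_of_nonneg (fun u hu => ?_) fun u _ _ => hf k u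
    rw [mem_Ioc] at hu
    rw [mem_range]
    omega
  linarith

end Pool.Agent.UQ
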