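import Pool.Agent.UQ.NulM

/-!
# B10 EscB : elementary properties of `Esc` and `Vis`

* `esc_adj`: `y ∉ R`, first letter the one leading from `y` to `x`: `μ{avoid from y} ≥ (2D)⁻¹ μ{avoid from x}` (`LM.cons`).
* `esc_union`: the event that the walk avoids `R` from `v`, but `X_t = u ∈ K` for some `t`, is null for each `t`
  (induction on `t` with `LM.cons`).
* `vis_pos`: `mu_avoid_cons`.
-/

open Finset MeasureTheory Pool.Agent.helper20.HP

namespace Pool.Agent.UQ

variable {V : Type} {D : ℕ} {nb : V → Fin D → V} {μ : Measure (ℕ → Lt D)}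

theorem adj_symm (hr : Reg nb) {x y : V} (h : Adj nb x y) : Adj nb y x := by
  obtain ⟨i, hi⟩ := h
  obtain ⟨j, hj⟩ := hr.symm x i
  exact ⟨j, by rw [← hi, hj]⟩

theorem esc_notMem {R : Set V} {v : V} (h : Esc nb μ R v) : v ∉ R := by
  intro hv
  unfold Esc at h
  have h1 : {ω : ℕ → Lt D | ∀ t, Xi nb v ω t ∉ R} = ∅ := by
    ext ω
    simp only [Set.mem_setOf_eq, Set.mem_empty_iff_false, iff_false]
    intro h2
    exact h2 0 hv
  rw [h1, measure_empty] at h
  exact lt_irrefl _ h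

theorem EscB_coef (hμ : LM μ) : (2 * (D : ENNReal))⁻¹ ≠ 0 := by
  have := hμ.pos
  rw [ne_eq, ENNReal.inv_eq_zero]
  exact ENNReal.mul_ne_top (by norm_num) (ENNReal.natCast_ne_top D)

theorem EscB_sum_pos (hμ : LM μ) {f : Lt D → ENNReal} {l : Lt D} (h : 0 < f l) :
    0 < (2 * (D : ENNReal))⁻¹ * ∑ l : Lt D, f l := by
  apply ENNReal.mul_pos (EscB_coef hμ)
  intro h1
  rw [Finset.sum_eq_zero_iff] at h1
  have := h1 l (Finset.mem_univ l)
  rw [this] at h
  exact lt_irrefl _ h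

theorem esc_adj (hμ : LM μ) {R : Set V} {x y : V} (hxy : Adj nb y x) (hy : y ∉ R)
    (h : Esc nb μ R x) : Esc nb μ R y := by
  obtain ⟨i, hi⟩ := hxy
  unfold Esc
  rw [hμ.cons _ (meas_avoid nb y R)]
  apply EscB_sum_pos hμ (l := (true, i))
  refine lt_of_lt_of_le h (measure_mono ?_)
  intro ω hω
  simp only [Set.mem_setOf_eq, Set.mem_preimage] at hω ⊢
  intro t
  cases t with
  | zero => exact hy
  | succ t =>
    rw [Xi_cons]
    have h1 : mv nb y (true, i) = x := by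
      unfold mv; simpa using hi
    rw [h1]
    exact hω t

theorem esc_mono {R R' : Set V} (hR : R' ⊆ R) {v : V} (h : Esc nb μ R v) : Esc nb μ R' v := by
  refine lt_of_lt_of_le h (measure_mono ?_)
  intro ω hω t ht
  exact hω t (hR ht)

/-- escape propagates along walks outside `R` -/
theorem esc_reach (hr : Reg nb) (hμ : LM μ) {R : Set V} {x y : V}
    (h : Relation.ReflTransGen (fun a b => Adj nb a b ∧ b ∉ R) x y) (hx : Esc nb μ R x) :
    Esc nb μ R y := by
  induction h with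
  | refl => exact hx
  | tail _ hstep ih => exact esc_adj hμ (adj_symm hr hstep.1) hstep.2 ih

theorem esc_reach' (hμ : LM μ) {R : Set V} {x y : V} (hx : x ∉ R)
    (h : Relation.ReflTransGen (fun a b => Adj nb a b ∧ b ∉ R) x y) (hy : Esc nb μ R y) :
    Esc nb μ R x := by
  revert hx
  refine Relation.ReflTransGen.head_induction_on
    (motive := fun a _ => a ∉ R → Esc nb μ R a) h ?_ ?_
  · intro _; exact hy
  · intro a c hac _ ih ha
    exact esc_adj hμ hac.1 ha (ih hac.2)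

theorem EscB_null (hμ : LM μ) {R K : Set V} (hK : ∀ u ∈ K, ¬ Esc nb μ R u) (t : ℕ) : ∀ v : V,
    μ ({ω | Xi nb v ω t ∈ K} ∩ {ω | ∀ s, Xi nb v ω s ∉ R}) = 0 := by
  induction t with
  | zero =>
    intro v
    by_cases hv : v ∈ K
    · have h1 := hK v hv
      unfold Esc at h1
      rw [not_lt, nonpos_iff_eq_zero] at h1
      exact measure_mono_null Set.inter_subset_right h1
    · have h1 : {ω : ℕ → Lt D | Xi nb v ω 0 ∈ K} ∩ {ω | ∀ s, Xi nb v ω s ∉ R} = ∅ := by
        ext ω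
        simp only [Set.mem_inter_iff, Set.mem_setOf_eq, Set.mem_empty_iff_false, iff_false]
        rintro ⟨h2, _⟩
        exact hv h2
      rw [h1, measure_empty]
  | succ t ih =>
    intro v
    rw [hμ.cons _ ((meas_Xi nb v (t + 1) K).inter (meas_avoid nb v R))]
    have h1 : ∀ l : Lt D, μ (consW l ⁻¹'
        ({ω | Xi nb v ω (t + 1) ∈ K} ∩ {ω | ∀ s, Xi nb v ω s ∉ R})) = 0 := by
      intro l
      refine measure_mono_null ?_ (ih (mv nb v l))
      intro ω hω
      simp only [Set.mem_preimage, Set.mem_inter_iff, Set.mem_setOf_eq] at hω ⊢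
      obtain ⟨h2, h3⟩ := hω
      rw [Xi_cons] at h2
      refine ⟨h2, ?_⟩
      intro s
      have := h3 (s + 1)
      rwa [Xi_cons] at this
    rw [Finset.sum_eq_zero (fun l _ => h1 l), mul_zero]

/-- adding trapped vertices to `R` does not destroy the escape -/
theorem esc_union (hμ : LM μ) {R K : Set V} {v : V} (h : Esc nb μ R v)
    (hK : ∀ u ∈ K, ¬ Esc nb μ R u) : Esc nb μ (R ∪ K) v := by
  have h1 : {ω : ℕ → Lt D | ∀ t, Xi nb v ω t ∉ R} ⊆
      {ω | ∀ t, Xi nb v ω t ∉ R ∪ K} ∪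
        ⋃ t : ℕ, ({ω | Xi nb v ω t ∈ K} ∩ {ω | ∀ s, Xi nb v ω s ∉ R}) := by
    intro ω hω
    by_cases h2 : ∀ t, Xi nb v ω t ∉ K
    · left
      intro t ht
      rcases ht with h3 | h3
      · exact hω t h3
      · exact h2 t h3
    · push Not at h2
      obtain ⟨t, ht⟩ := h2
      right
      exact Set.mem_iUnion.mpr ⟨t, ht, hω⟩
  have h2 : μ (⋃ t : ℕ, ({ω | Xi nb v ω t ∈ K} ∩ {ω | ∀ s, Xi nb v ω s ∉ R})) = 0 :=
    measure_iUnion_null (fun t => EscB_null hμ hK t v)
  have h3 := (measure_mono h1).trans (measure_union_le (μ := μ) _ _)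
  rw [h2, add_zero] at h3
  exact lt_of_lt_of_le h h3

theorem vis_mono {R R' : Set V} (hR : R' ⊆ R) {v : V} (h : Vis nb μ R v) : Vis nb μ R' v := by
  obtain ⟨y, h1, h2⟩ := h
  exact ⟨y, h1, esc_mono hR h2⟩

theorem vis_pos (hμ : LM μ) {R : Set V} {v : V} (h : Vis nb μ R v) :
    0 < μ {ω | ∀ t, Xi nb v ω (t + 1) ∉ R} := by
  obtain ⟨y, ⟨i, hi⟩, h2⟩ := h
  rw [mu_avoid_cons nb hμ v R]
  apply EscB_sum_pos hμ (l := (true, i))
  have h1 : mv nb v (true, i) = y := by
    unfold mv; simpa using hi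
  rw [h1]
  exact h2

theorem EscB_mono {r p : V → V → Prop} (h : ∀ x y, r x y → p x y) {a b : V}
    (hab : Relation.ReflTransGen r a b) : Relation.ReflTransGen p a b := by
  induction hab with
  | refl => exact Relation.ReflTransGen.refl
  | tail _ hstep ih => exact ih.tail (h _ _ hstep)

/-- the union of two connected sets which touch or meet is connected -/
theorem conIn_union (hr : Reg nb) {S T : Set V} (hS : ConIn nb S) (hT : ConIn nb T)
    (h : ∃ a ∈ S, ∃ b ∈ T, a = b ∨ Adj nb a b) : ConIn nb (S ∪ T) := by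
  obtain ⟨a, ha, b, hb, hab⟩ := h
  have hS' : ∀ p ∈ S, ∀ q ∈ S,
      Relation.ReflTransGen (fun x y => Adj nb x y ∧ y ∈ S ∪ T) p q := by
    intro p hp q hq
    exact EscB_mono (fun x y hxy => ⟨hxy.1, Or.inl hxy.2⟩) (hS p hp q hq)
  have hT' : ∀ p ∈ T, ∀ q ∈ T,
      Relation.ReflTransGen (fun x y => Adj nb x y ∧ y ∈ S ∪ T) p q := by
    intro p hp q hq
    exact EscB_mono (fun x y hxy => ⟨hxy.1, Or.inr hxy.2⟩) (hT p hp q hq)
  have hab' : Relation.ReflTransGen (fun x y => Adj nb x y ∧ y ∈ S ∪ T) a b := by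
    rcases hab with h1 | h1
    · subst h1; exact Relation.ReflTransGen.refl
    · exact Relation.ReflTransGen.single ⟨h1, Or.inr hb⟩
  have hba' : Relation.ReflTransGen (fun x y => Adj nb x y ∧ y ∈ S ∪ T) b a := by
    rcases hab with h1 | h1
    · subst h1; exact Relation.ReflTransGen.refl
    · exact Relation.ReflTransGen.single ⟨adj_symm hr h1, Or.inl ha⟩
  intro p hp q hq
  rcases hp with hp | hp <;> rcases hq with hq | hq
  · exact hS' p hp q hq
  · exact ((hS' p hp a ha).trans hab').trans (hT' b hb q hq)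
  · exact ((hT' p hp b hb).trans hba').trans (hS' a ha q hq)
  · exact hT' p hp q hq

theorem conIn_singleton (x : V) : ConIn nb {x} := by
  intro a ha b hb
  rw [Set.mem_singleton_iff] at ha hb
  subst ha; subst hb
  exact Relation.ReflTransGen.refl

theorem conIn_empty : ConIn nb (∅ : Set V) := by
  intro a ha
  exact absurd ha (Set.notMem_empty a)

theorem EscB_seg (hr : Reg nb) {A : ℕ → V} (hA : ∀ t, A (t + 1) = A t ∨ Adj nb (A t) (A (t + 1)))
    (S : Set V) (i j : ℕ) (hij : i ≤ j) (hS : ∀ k, i ≤ k → k ≤ j → A k ∈ S) :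
    Relation.ReflTransGen (fun x y => Adj nb x y ∧ y ∈ S) (A i) (A j) ∧
      Relation.ReflTransGen (fun x y => Adj nb x y ∧ y ∈ S) (A j) (A i) := by
  induction j, hij using Nat.le_induction with
  | base => exact ⟨Relation.ReflTransGen.refl, Relation.ReflTransGen.refl⟩
  | succ j hij ih =>
    obtain ⟨h1, h2⟩ := ih (fun k hk hk' => hS k hk (by omega))
    rcases hA j with h3 | h3
    · rw [h3]; exact ⟨h1, h2⟩
    · exact ⟨h1.tail ⟨h3, hS (j + 1) (by omega) le_rfl⟩,
        Relation.ReflTransGen.head ⟨adj_symm hr h3, hS j hij (by omega)⟩ h2⟩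

/-- a segment of a lazy walk is connected -/
theorem conIn_segment (hr : Reg nb) {A : ℕ → V} (hA : ∀ t, A (t + 1) = A t ∨ Adj nb (A t) (A (t + 1)))
    (s t : ℕ) : ConIn nb {u | ∃ i, s ≤ i ∧ i ≤ t ∧ A i = u} := by
  rintro a ⟨i, hi1, hi2, rfl⟩ b ⟨j, hj1, hj2, rfl⟩
  rcases le_total i j with h | h
  · refine (EscB_seg hr hA {u | ∃ i, s ≤ i ∧ i ≤ t ∧ A i = u} i j h ?_).1
    intro k hk hk'
    exact ⟨k, by omega, by omega, rfl⟩
  · refine (EscB_seg hr hA {u | ∃ i, s ≤ i ∧ i ≤ t ∧ A i = u} j i h ?_).2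
    intro k hk hk'
    exact ⟨k, by omega, by omega, rfl⟩

/-- a tail of a lazy walk is connected -/
theorem conIn_tail (hr : Reg nb) {A : ℕ → V} (hA : ∀ t, A (t + 1) = A t ∨ Adj nb (A t) (A (t + 1)))
    (s : ℕ) : ConIn nb {u | ∃ i, s ≤ i ∧ A i = u} := by
  rintro a ⟨i, hi1, rfl⟩ b ⟨j, hj1, rfl⟩
  rcases le_total i j with h | h
  · refine (EscB_seg hr hA {u | ∃ i, s ≤ i ∧ A i = u} i j h ?_).1
    intro k hk hk'
    exact ⟨k, by omega, rfl⟩
  · refine (EscB_seg hr hA {u | ∃ i, s ≤ i ∧ A i = u} j i h ?_).2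
    intro k hk hk'
    exact ⟨k, by omega, rfl⟩

end Pool.Agent.UQ
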