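import Pool.Agent.UQ.ExBasic

/-!
# B2 ExAut : automorphisms

`Ex_map`: induction on `k`; the sum over letters `(true, i)`: `i ↦ nb (φ x) i` is injective with range `{y | Adj (φ x) y} = φ '' {y | Adj x y}`,
so `∑ i, G (nb (φ x) i) = ∑ i, G (φ (nb x i))` for every `G` (both are sums over the same finite set, `Finset.sum_image`).
-/

open Finset Pool.Agent.helper20.HP

namespace Pool.Agent.UQ

variable {V : Type} {D : ℕ} {nb : V → Fin D → V}

theorem ExAut_sum_nb (hr : Reg nb) {φ : V ≃ V} (hφ : IsAut nb φ) (x : V) (G : V → ℝ) :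
    ∑ i, G (nb (φ x) i) = ∑ i, G (φ (nb x i)) := by
  classical
  have h1 : ∑ i, G (nb (φ x) i) = ∑ y ∈ (Finset.univ.image (nb (φ x))), G y := by
    rw [Finset.sum_image]
    intro a _ b _ h
    exact hr.inj _ h
  have h2 : ∑ i, G (φ (nb x i)) = ∑ y ∈ (Finset.univ.image (fun i => φ (nb x i))), G y := by
    rw [Finset.sum_image]
    intro a _ b _ h
    exact hr.inj _ (φ.injective h)
  rw [h1, h2]
  congr 1
  ext y
  simp only [Finset.mem_image, Finset.mem_univ, true_and]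
  constructor
  · rintro ⟨i, rfl⟩
    have : Adj nb x (φ.symm (nb (φ x) i)) := by
      rw [hφ, φ.apply_symm_apply]
      exact ⟨i, rfl⟩
    obtain ⟨j, hj⟩ := this
    exact ⟨j, by rw [hj, φ.apply_symm_apply]⟩
  · rintro ⟨i, rfl⟩
    exact (hφ x (nb x i)).1 ⟨i, rfl⟩

theorem ExAut_sum_mv (hr : Reg nb) {φ : V ≃ V} (hφ : IsAut nb φ) (x : V) (G : V → ℝ) :
    ∑ l : Lt D, G (mv nb (φ x) l) = ∑ l : Lt D, G (φ (mv nb x l)) := by
  rw [Fintype.sum_prod_type, Fintype.sum_bool, Fintype.sum_prod_type, Fintype.sum_bool]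
  simp only [mv, if_true, Bool.false_eq_true, if_false]
  rw [ExAut_sum_nb hr hφ]

theorem Ex_map (hr : Reg nb) {φ : V ≃ V} (hφ : IsAut nb φ) (k : ℕ) (x : V) (f : List V → ℝ) :
    Ex nb k (φ x) f = Ex nb k x (fun l => f (l.map φ)) := by
  induction k generalizing x f with
  | zero => simp [Ex]
  | succ k ih =>
    simp only [Ex]
    rw [ExAut_sum_mv hr hφ x (fun y => Ex nb k y (fun m => f (y :: m)))]
    congr 1
    apply Finset.sum_congr rfl
    intro l _
    rw [ih]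
    simp only [List.map_cons]

theorem IsAut_symm {φ : V ≃ V} (hφ : IsAut nb φ) : IsAut nb φ.symm := by
  intro x y
  have := hφ (φ.symm x) (φ.symm y)
  rw [φ.apply_symm_apply, φ.apply_symm_apply] at this
  exact this.symm

theorem ExAut_lst (φ : V ≃ V) (x : V) (l : List V) : lst (φ x) (l.map φ) = φ (lst x l) := by
  unfold lst
  rcases List.eq_nil_or_concat l with rfl | ⟨m', b, rfl⟩
  · simp
  · simp

theorem pk_map (hr : Reg nb) {φ : V ≃ V} (hφ : IsAut nb φ) (t : ℕ) (x y : V) :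
    pk nb t (φ x) (φ y) = pk nb t x y := by
  unfold pk
  rw [Ex_map hr hφ]
  congr 1
  funext l
  apply ind_congr
  rw [ExAut_lst]
  exact φ.injective.eq_iff

theorem pk_homog (hr : Reg nb) (ht : Tra nb) (t : ℕ) (x y : V) : pk nb t x x = pk nb t y y := by
  obtain ⟨φ, hφ, rfl⟩ := ht x y
  exact (pk_map hr hφ t x x).symm

theorem ExAut_mem (φ : V ≃ V) (u : V) (l : List V) : φ u ∈ l.map φ ↔ u ∈ l := by
  rw [List.mem_map]
  constructor
  · rintro ⟨a, ha, h⟩
    rwa [← φ.injective h]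
  · intro h
    exact ⟨u, h, rfl⟩

theorem ExAut_cfg1 (φ : V ≃ V) (v y : V) (a c b e : List V) :
    cfg1 (φ v) (φ y) (a.map φ) (c.map φ) (b.map φ) (e.map φ) ↔ cfg1 v y a c b e := by
  unfold cfg1
  rw [← List.map_cons, ← List.map_cons]
  constructor
  · rintro ⟨h1, h2, h3⟩
    refine ⟨?_, ?_, ?_⟩
    · intro u hu hu2
      exact h1 (φ u) ((ExAut_mem φ u _).2 hu) ((ExAut_mem φ u _).2 hu2)
    · intro u hu hu2
      exact φ.injective (h2 (φ u) ((ExAut_mem φ u _).2 hu)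
        (hu2.imp (ExAut_mem φ u _).2 (ExAut_mem φ u _).2))
    · intro u hu hu2
      exact φ.injective (h3 (φ u) ((ExAut_mem φ u _).2 hu)
        (hu2.imp (ExAut_mem φ u _).2 (ExAut_mem φ u _).2))
  · rintro ⟨h1, h2, h3⟩
    refine ⟨?_, ?_, ?_⟩
    · intro u hu hu2
      obtain ⟨u, rfl⟩ := φ.surjective u
      exact h1 u ((ExAut_mem φ u _).1 hu) ((ExAut_mem φ u _).1 hu2)
    · intro u hu hu2
      obtain ⟨u, rfl⟩ := φ.surjective u
      exact congrArg φ (h2 u ((ExAut_mem φ u _).1 hu)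
        (hu2.imp (ExAut_mem φ u _).1 (ExAut_mem φ u _).1))
    · intro u hu hu2
      obtain ⟨u, rfl⟩ := φ.surjective u
      exact congrArg φ (h3 u ((ExAut_mem φ u _).1 hu)
        (hu2.imp (ExAut_mem φ u _).1 (ExAut_mem φ u _).1))

theorem ExAut_cfg2 (φ : V ≃ V) (v y : V) (α f b : List V) :
    cfg2 (φ v) (φ y) (α.map φ) (f.map φ) (b.map φ) ↔ cfg2 v y α f b := by
  unfold cfg2
  rw [← List.map_cons, ← List.map_cons, ExAut_lst, φ.injective.eq_iff, ← List.map_dropLast,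
    List.nodup_map_iff φ.injective]
  refine and_congr Iff.rfl (and_congr Iff.rfl (and_congr ?_ ?_))
  · constructor
    · intro h u hu hu2
      exact φ.injective (h (φ u) ((ExAut_mem φ u _).2 hu) ((ExAut_mem φ u _).2 hu2))
    · intro h u hu hu2
      obtain ⟨u, rfl⟩ := φ.surjective u
      exact congrArg φ (h u ((ExAut_mem φ u _).1 hu) ((ExAut_mem φ u _).1 hu2))
  · constructor
    · intro h u hu hu2
      exact φ.injective (h (φ u) ((ExAut_mem φ u _).2 hu)
        (hu2.imp (ExAut_mem φ u _).2 (ExAut_mem φ u _).2))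
    · intro h u hu hu2
      obtain ⟨u, rfl⟩ := φ.surjective u
      exact congrArg φ (h u ((ExAut_mem φ u _).1 hu)
        (hu2.imp (ExAut_mem φ u _).1 (ExAut_mem φ u _).1))

theorem kp1_homog (hr : Reg nb) (ht : Tra nb) (R l : ℕ) (x y : V) :
    kp1 nb R l x = kp1 nb R l y := by
  obtain ⟨φ, hφ, rfl⟩ := ht x y
  unfold kp1
  rw [ExAut_sum_mv hr hφ x (fun w => Ex nb R (φ x) (fun a => Ex nb R w (fun c =>
    Ex nb l (φ x) (fun b => Ex nb l w (fun e => ind (cfg1 (φ x) w a c b e))))))]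
  congr 1
  apply Finset.sum_congr rfl
  intro s _
  simp only [Ex_map hr hφ, ind_congr (ExAut_cfg1 φ _ _ _ _ _ _)]

theorem kp2_homog (hr : Reg nb) (ht : Tra nb) (g i R l : ℕ) (x y : V) :
    kp2 nb g i R l x = kp2 nb g i R l y := by
  obtain ⟨φ, hφ, rfl⟩ := ht x y
  unfold kp2
  rw [Ex_map hr hφ]
  congr 1
  funext α
  have h1 : (φ x :: α.map φ).getD i (φ x) = φ ((x :: α).getD i x) := by
    rw [← List.map_cons, List.getD_map]
  rw [h1]
  simp only [Ex_map hr hφ, ind_congr (ExAut_cfg2 φ _ _ _ _ _)]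

end Pool.Agent.UQ
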