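import Pool.Agent.UQ.Trans

/-!
# B27b Ext : realise a half by a walk

`H` connected, `Xi a ω t ∈ H` for `t ≥ k`; `h ∈ H` adjacent to `x`. Word `w`: the letter from `x` to `h`, then letters along a path inside `H` from `h` to `Xi a ω k` (`ConIn`). Then
`Xi x (appW w (dropW k ω)) t` is `x` (t = 0), in `H` (`1 ≤ t ≤ |w|`), and `Xi a ω (k + (t - |w|)) ∈ H` afterwards (`Xi_app`, `Xi_app_lt`, `Xi_drop`).
-/

open Finset MeasureTheory Pool.Agent.helper20.HP

namespace Pool.Agent.UQ

variable {V : Type} {D : ℕ} {nb : V → Fin D → V}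

theorem Ext_word {H : Set V} {x y : V}
    (h : Relation.ReflTransGen (fun a b => Adj nb a b ∧ b ∈ H) x y) (hx : x ∈ H) :
    ∃ w : List (Lt D), endp nb x w = y ∧ ∀ j, endp nb x (w.take j) ∈ H := by
  induction h with
  | refl => exact ⟨[], rfl, fun j => by rw [List.take_nil]; exact hx⟩
  | @tail b c _ h2 ih =>
    obtain ⟨w, hw1, hw2⟩ := ih
    obtain ⟨⟨i, hi⟩, hc⟩ := h2
    refine ⟨w ++ [((true, i) : Lt D)], ?_, ?_⟩
    · rw [endp_append, hw1]
      exact hi
    · intro j
      rcases Nat.lt_or_ge w.length j with hj | hj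
      · rw [List.take_of_length_le (by simpa using hj), endp_append, hw1]
        change mv nb b (true, i) ∈ H
        rw [show mv nb b (true, i) = c from hi]
        exact hc
      · rw [List.take_append_of_le_length hj]
        exact hw2 j

theorem ext_walk {a x : V} {ω : ℕ → Lt D} {H : Set V} (hH : Half nb H (Xi nb a ω))
    (hx : ∃ h ∈ H, Adj nb x h) :
    ∃ (w : List (Lt D)) (k : ℕ), ∀ t, Xi nb x (appW w (dropW k ω)) t ∈ insert x H := by
  obtain ⟨hcon, k, hk⟩ := hH
  obtain ⟨h, hh, i, hi⟩ := hx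
  obtain ⟨w, hw1, hw2⟩ := Ext_word (hcon h hh (Xi nb a ω k) (hk k le_rfl)) hh
  refine ⟨((true, i) : Lt D) :: w, k, ?_⟩
  intro t
  rcases Nat.lt_or_ge (((true, i) : Lt D) :: w).length t with ht | ht
  · obtain ⟨s, rfl⟩ := Nat.exists_eq_add_of_le ht.le
    rw [Xi_app]
    have e1 : endp nb x (((true, i) : Lt D) :: w) = Xi nb a ω k := by
      change endp nb (nb x i) w = _
      rw [hi, hw1]
    rw [e1, Xi_drop]
    exact Set.mem_insert_of_mem x (hk (k + s) (Nat.le_add_right k s))
  · rw [Xi_app_lt nb x _ _ t ht]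
    rcases Nat.eq_zero_or_pos t with h0 | h0
    · rw [h0, List.take_zero]
      exact Set.mem_insert x H
    · obtain ⟨s, rfl⟩ := Nat.exists_eq_add_of_le h0
      rw [show 1 + s = s + 1 by omega, List.take_succ_cons]
      change endp nb (nb x i) (w.take s) ∈ _
      rw [hi]
      exact Set.mem_insert_of_mem x (hw2 s)

end Pool.Agent.UQ
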