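import Pool.Agent.UQ.NulM

/-!
# B26, B27 Klb : from infinite walks to uniform lower bounds for `kp1`, `kp2`

`klb1`: positivity `0 < μ{…}` means `ofReal c₁ ≤ μ{…}` for some `c₁ = 1/(n+1)`. If not (∀ᵐ ω, ∀ᵐ ω', ¬ Q1), then for some `n` not (∀ᵐ ω, ∀ᵐ ω', ¬ Q1ₙ) where `Q1ₙ` is `Q1` with both measures `≥ 1/(n+1)`
(countable union), and then for some `m`, `μ {ω | 1/(m+1) ≤ μ {ω' | Q1ₙ}} ≥ 1/(m+1)` (outer measure). For `ω, ω'` in these sets, all `R`, `l`: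
`Ex l v (b ↦ Ex l y (e ↦ ind cfg1)) ≥ (1/(n+1))²` for `a = pre v ω R`, `c = pre y ω' R` (`Ex_ge` twice). Then `Ex_ge` twice again. `kp1 ≥ (2D)⁻¹ ·` the term of the letter `s`.
`klb2`: likewise, with the cycle fixed: `α` is the vertex list of a word of `g` letters from `v` (`Ex_word_ge`).
-/

open Finset MeasureTheory Pool.Agent.helper20.HP

namespace Pool.Agent.UQ

variable {V : Type} {D : ℕ} {nb : V → Fin D → V} {μ : Measure (ℕ → Lt D)}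

/-- infinite version of configuration 1 -/
def Q1 (nb : V → Fin D → V) (μ : Measure (ℕ → Lt D)) (v y : V) (ω ω' : ℕ → Lt D) : Prop :=
  Disjoint (Set.range (Xi nb v ω)) (Set.range (Xi nb y ω')) ∧
  0 < μ {η | ∀ t, Xi nb v η t ∈ Set.range (Xi nb v ω) ∪ Set.range (Xi nb y ω') → Xi nb v η t = v} ∧
  0 < μ {η | ∀ t, Xi nb y η t ∈ Set.range (Xi nb v ω) ∪ Set.range (Xi nb y ω') → Xi nb y η t = y}

/-- a positive number of the extended reals is at least some `1 / (n + 1)` -/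
theorem Klb1_exists {a : ENNReal} (ha : 0 < a) :
    ∀ᶠ n : ℕ in Filter.atTop, ENNReal.ofReal (1 / ((n : ℝ) + 1)) ≤ a := by
  have h := ENNReal.tendsto_ofReal (tendsto_one_div_add_atTop_nhds_zero_nat (𝕜 := ℝ))
  rw [ENNReal.ofReal_zero] at h
  exact (h.eventually_lt_const ha).mono fun n hn => hn.le

/-- a countable union argument -/
theorem Klb1_ae {P : (ℕ → Lt D) → Prop} {Pn : ℕ → (ℕ → Lt D) → Prop}
    (hP : ∀ ω, P ω → ∃ n, Pn n ω) (h : ¬ ∀ᵐ ω ∂μ, ¬ P ω) : ∃ n, ¬ ∀ᵐ ω ∂μ, ¬ Pn n ω := by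
  by_contra hc
  push Not at hc
  apply h
  filter_upwards [ae_all_iff.mpr hc] with ω hω hPω
  obtain ⟨n, hn⟩ := hP ω hPω
  exact hω n hn

theorem Klb1_pos_of {P : (ℕ → Lt D) → Prop} (h : ¬ ∀ᵐ ω ∂μ, ¬ P ω) : 0 < μ {ω | P ω} := by
  rw [pos_iff_ne_zero]
  intro h0
  apply h
  rw [ae_iff]
  simpa using h0

theorem Klb1_mem_pre (nb : V → Fin D → V) (v : V) (ω : ℕ → Lt D) (k : ℕ) {u : V}
    (hu : u ∈ pre nb v ω k) : ∃ t, Xi nb v ω t = u := by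
  unfold pre at hu
  rw [List.mem_map] at hu
  obtain ⟨t, _, rfl⟩ := hu
  exact ⟨t + 1, rfl⟩

theorem Klb1_mem_cons (nb : V → Fin D → V) (v : V) (ω : ℕ → Lt D) (k : ℕ) {u : V}
    (hu : u ∈ v :: pre nb v ω k) : u ∈ Set.range (Xi nb v ω) := by
  rcases List.mem_cons.mp hu with rfl | hu
  · exact ⟨0, rfl⟩
  · exact Klb1_mem_pre nb v ω k hu

theorem klb1 (hμ : LM μ) (v : V) (s : Lt D)
    (h : ¬ ∀ᵐ ω ∂μ, ∀ᵐ ω' ∂μ, ¬ Q1 nb μ v (mv nb v s) ω ω') :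
    ∃ c : ℝ, 0 < c ∧ ∀ R l, c ≤ kp1 nb R l v := by
  set y := mv nb v s with hy
  -- uniform version
  let Qn : ℕ → (ℕ → Lt D) → (ℕ → Lt D) → Prop := fun n ω ω' =>
    Disjoint (Set.range (Xi nb v ω)) (Set.range (Xi nb y ω')) ∧
    ENNReal.ofReal (1 / ((n : ℝ) + 1)) ≤ μ {η | ∀ t, Xi nb v η t ∈ Set.range (Xi nb v ω) ∪
      Set.range (Xi nb y ω') → Xi nb v η t = v} ∧
    ENNReal.ofReal (1 / ((n : ℝ) + 1)) ≤ μ {η | ∀ t, Xi nb y η t ∈ Set.range (Xi nb v ω) ∪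
      Set.range (Xi nb y ω') → Xi nb y η t = y}
  have hex : ∀ ω ω', Q1 nb μ v y ω ω' → ∃ n, Qn n ω ω' := by
    intro ω ω' hQ
    obtain ⟨hd, h1, h2⟩ := hQ
    obtain ⟨n, hn1, hn2⟩ := ((Klb1_exists h1).and (Klb1_exists h2)).exists
    exact ⟨n, hd, hn1, hn2⟩
  have h1 : ∃ n, ¬ ∀ᵐ ω ∂μ, ∀ᵐ ω' ∂μ, ¬ Qn n ω ω' := by
    by_contra hc
    push Not at hc
    apply h
    filter_upwards [ae_all_iff.mpr hc] with ω hω
    filter_upwards [ae_all_iff.mpr hω] with ω' hω' hQ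
    obtain ⟨n, hn⟩ := hex ω ω' hQ
    exact hω' n hn
  obtain ⟨n, hn⟩ := h1
  have h2 : ¬ ∀ᵐ ω ∂μ, ¬ (0 < μ {ω' | Qn n ω ω'}) := by
    intro hc
    apply hn
    filter_upwards [hc] with ω hω
    by_contra hcc
    exact hω (Klb1_pos_of hcc)
  obtain ⟨m, hm⟩ := Klb1_ae (Pn := fun m ω => ENNReal.ofReal (1 / ((m : ℝ) + 1)) ≤ μ {ω' | Qn n ω ω'})
    (fun ω hω => (Klb1_exists hω).exists) h2
  obtain ⟨p, hp⟩ := (Klb1_exists (Klb1_pos_of hm)).exists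
  have hδ : (0 : ℝ) < 1 / ((n : ℝ) + 1) := by positivity
  have hδ2 : (0 : ℝ) < 1 / ((m : ℝ) + 1) := by positivity
  have hc0 : (0 : ℝ) < 1 / ((p : ℝ) + 1) := by positivity
  set δ : ℝ := 1 / ((n : ℝ) + 1) with hδd
  set δ2 : ℝ := 1 / ((m : ℝ) + 1) with hδ2d
  set c0 : ℝ := 1 / ((p : ℝ) + 1) with hc0d
  have hD : 0 < D := Fin.pos s.2
  have hD2 : (0 : ℝ) < (2 * (D : ℝ))⁻¹ := by positivity
  refine ⟨(2 * (D : ℝ))⁻¹ * (c0 * (δ2 * (δ * δ))), by positivity, ?_⟩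
  intro R l
  unfold kp1
  refine mul_le_mul_of_nonneg_left ?_ hD2.le
  have hnn : ∀ s : Lt D, 0 ≤ Ex nb R v (fun a => Ex nb R (mv nb v s) (fun c =>
      Ex nb l v (fun b => Ex nb l (mv nb v s) (fun e => ind (cfg1 v (mv nb v s) a c b e))))) :=
    fun s => Ex_nonneg nb fun a _ => Ex_nonneg nb fun c _ => Ex_nonneg nb fun b _ =>
      Ex_nonneg nb fun e _ => ind_nonneg _
  refine le_trans ?_ (Finset.single_le_sum (fun s _ => hnn s) (Finset.mem_univ s))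
  rw [← hy]
  refine Ex_ge nb hμ v R (fun a => Ex_nonneg nb fun c _ => Ex_nonneg nb fun b _ =>
      Ex_nonneg nb fun e _ => ind_nonneg _) hc0.le (by positivity) hp ?_
  intro ω hω
  refine Ex_ge nb hμ y R (fun c => Ex_nonneg nb fun b _ =>
      Ex_nonneg nb fun e _ => ind_nonneg _) hδ2.le (by positivity) hω ?_
  intro ω' hω'
  obtain ⟨hd, hq1, hq2⟩ := hω'
  refine Ex_ge nb hμ v l (fun b => Ex_nonneg nb fun e _ => ind_nonneg _) hδ.le hδ.le hq1 ?_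
  intro η hη
  have h5 := Ex_ge nb hμ y l (f := fun e => ind (cfg1 v y (pre nb v ω R) (pre nb y ω' R)
    (pre nb v η l) e)) (fun e => ind_nonneg _) hδ.le zero_le_one hq2 ?_
  · rw [mul_one] at h5; exact h5
  intro η' hη'
  rw [ind_true]
  refine ⟨?_, ?_, ?_⟩
  · intro u hu hu'
    exact Set.disjoint_left.mp hd (Klb1_mem_cons nb v ω R hu) (Klb1_mem_cons nb y ω' R hu')
  · intro u hu hu'
    obtain ⟨t, rfl⟩ := Klb1_mem_pre nb v η l hu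
    refine hη t ?_
    rcases hu' with hu' | hu'
    · exact Or.inl (Klb1_mem_cons nb v ω R hu')
    · exact Or.inr (Klb1_mem_cons nb y ω' R hu')
  · intro u hu hu'
    obtain ⟨t, rfl⟩ := Klb1_mem_pre nb y η' l hu
    refine hη' t ?_
    rcases hu' with hu' | hu'
    · exact Or.inl (Klb1_mem_cons nb v ω R hu')
    · exact Or.inr (Klb1_mem_cons nb y ω' R hu')

end Pool.Agent.UQ
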