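import Pool.Agent.UQ.NulM
import Pool.Agent.UQ.Klb1

/-!
# B26, B27 Klb : from infinite walks to uniform lower bounds for `kp1`, `kp2`

`klb1`: positivity `0 < μ{…}` means `ofReal c₁ ≤ μ{…}` for some `c₁ = 1/(n+1)`. If not (∀ᵐ ω, ∀ᵐ ω', ¬ Q1), then for some `n` not (∀ᵐ ω, ∀ᵐ ω', ¬ Q1ₙ) where `Q1ₙ` is `Q1` with both measures `≥ 1/(n+1)`
(countable union), and then for some `m`, `μ {ω | 1/(m+1) ≤ μ {ω' | Q1ₙ}} ≥ 1/(m+1)` (outer measure). For `ω, ω'` in these sets, all `R`, `l`: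
`Ex l v (b ↦ Ex l y (e ↦ ind cfg1)) ≥ (1/(n+1))²` for `a = pre v ω R`, `c = pre y ω' R` (`Ex_ge` twice). Then `Ex_ge` twice again. `kp1 ≥ (2D)⁻¹ ·` the term of the letter `s`.
`klb2`: likewise, with the cycle fixed: `α` is the vertex list of a word of `g` letters from `v` (`Ex_word_ge`).
-/

open Finset MeasureTheory Pool.Agent.helper20.HP

namespace Pool.Agent.UQ

variable {V : Type} {D : ℕ} {nb : V → Fin D → V} {μ : Measure (ℕ → Lt D)}

/-- infinite version of configuration 2; `α` is the list `c₁, …, c_g` of the vertices of a closed path from `v` -/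
def Q2 (nb : V → Fin D → V) (μ : Measure (ℕ → Lt D)) (v y : V) (α : List V) (ω : ℕ → Lt D) : Prop :=
  (∀ t, Xi nb y ω t ∈ v :: α → Xi nb y ω t = y) ∧
  0 < μ {η | ∀ t, (Xi nb v η t ∈ v :: α ∨ Xi nb v η t ∈ Set.range (Xi nb y ω)) → Xi nb v η t = v}

theorem klb2 (hμ : LM μ) (v : V) (w : List (Lt D)) (α : List V)
    (hα : α = (List.range w.length).map (fun t => endp nb v (w.take (t + 1))))
    (hcl : lst v α = v) (hnd : (v :: α).dropLast.Nodup) (i : ℕ)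
    (h : ¬ ∀ᵐ ω ∂μ, ¬ Q2 nb μ v ((v :: α).getD i v) α ω) :
    ∃ c : ℝ, 0 < c ∧ ∀ R l, c ≤ kp2 nb w.length i R l v := by
  set y := (v :: α).getD i v with hy
  have h1 := Klb1_ae (Pn := fun n ω => (∀ t, Xi nb y ω t ∈ v :: α → Xi nb y ω t = y) ∧
      ENNReal.ofReal (1 / ((n : ℝ) + 1)) ≤ μ {η | ∀ t, (Xi nb v η t ∈ v :: α ∨
        Xi nb v η t ∈ Set.range (Xi nb y ω)) → Xi nb v η t = v})
    (fun ω (hω : Q2 nb μ v y α ω) => by
      obtain ⟨n, hn⟩ := (Klb1_exists hω.2).exists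
      exact ⟨n, hω.1, hn⟩) h
  obtain ⟨n, hn⟩ := h1
  obtain ⟨p, hp⟩ := (Klb1_exists (Klb1_pos_of hn)).exists
  have hδ : (0 : ℝ) < 1 / ((n : ℝ) + 1) := by positivity
  have hc0 : (0 : ℝ) < 1 / ((p : ℝ) + 1) := by positivity
  set δ : ℝ := 1 / ((n : ℝ) + 1) with hδd
  set c0 : ℝ := 1 / ((p : ℝ) + 1) with hc0d
  have hD : 0 < D := hμ.pos
  have hD2 : (0 : ℝ) < (2 * (D : ℝ))⁻¹ := by positivity
  refine ⟨((2 * (D : ℝ))⁻¹) ^ w.length * (c0 * δ), by positivity, ?_⟩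
  intro R l
  have h5 := Ex_word_ge nb w v (f := fun α => Ex nb R ((v :: α).getD i v) (fun f => Ex nb l v (fun b =>
    ind (cfg2 v ((v :: α).getD i v) α f b)))) (fun α => Ex_nonneg nb fun f _ =>
      Ex_nonneg nb fun b _ => ind_nonneg _)
  rw [← hα, ← hy] at h5
  refine le_trans (mul_le_mul_of_nonneg_left ?_ (by positivity)) h5
  refine Ex_ge nb hμ y R (fun f => Ex_nonneg nb fun b _ => ind_nonneg _) hc0.le hδ.le hp ?_
  intro ω hω
  obtain ⟨hq1, hq2⟩ := hω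
  have h6 := Ex_ge nb hμ v l (f := fun b => ind (cfg2 v y α (pre nb y ω R) b))
    (fun b => ind_nonneg _) hδ.le zero_le_one hq2 ?_
  · rw [mul_one] at h6; exact h6
  intro η hη
  rw [ind_true]
  refine ⟨hcl, hnd, ?_, ?_⟩
  · intro u hu hu'
    obtain ⟨t, rfl⟩ := Klb1_mem_cons nb y ω R hu
    exact hq1 t hu'
  · intro u hu hu'
    obtain ⟨t, rfl⟩ := Klb1_mem_pre nb v η l hu
    refine hη t ?_
    rcases hu' with hu' | hu'
    · exact Or.inl hu'
    · exact Or.inr (Klb1_mem_cons nb y ω R hu')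

end Pool.Agent.UQ
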