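import Pool.Agent.UQ.Base

/-!
# B8 MuEx : existence of the i.i.d. uniform measure on letter sequences

`ν` = uniform probability measure on `Lt D` (e.g. `(PMF.uniformOfFintype (Lt D)).toMeasure`, needs `Nonempty (Lt D)`, i.e. `0 < D`),
`μ = Measure.infinitePi (fun _ => ν)` (Mathlib.Probability.ProductMeasure). Cons formula: the image of `ν.prod μ` under
`(l, ω) ↦ consW l ω` is `μ` by `Measure.eq_infinitePi` (check boxes; split off the coordinate `0`), and `ν.prod μ` of a set is `(2D)⁻¹ ∑_l μ (section)`.
-/

open Finset MeasureTheory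

namespace Pool.Agent.UQ

theorem MuEx_measurable_consW {D : ℕ} (l : Lt D) : Measurable (consW l) := by
  rw [measurable_pi_iff]
  intro i
  cases i with
  | zero => exact measurable_const
  | succ n => exact measurable_pi_apply n

noncomputable def MuEx_nu (D : ℕ) : Measure (Lt D) :=
  (2 * (D : ENNReal))⁻¹ • ∑ l : Lt D, Measure.dirac l

theorem MuEx_nu_apply {D : ℕ} (t : Set (Lt D)) :
    MuEx_nu D t = (2 * (D : ENNReal))⁻¹ * ∑ l : Lt D, t.indicator 1 l := by
  unfold MuEx_nu
  rw [Measure.smul_apply, Measure.finsetSum_apply, smul_eq_mul]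
  congr 1
  apply Finset.sum_congr rfl
  intro l _
  rw [Measure.dirac_apply' l (Set.Finite.measurableSet (Set.toFinite t))]

theorem MuEx_nu_univ {D : ℕ} (hD : 0 < D) : MuEx_nu D Set.univ = 1 := by
  rw [MuEx_nu_apply]
  simp only [Set.indicator_univ, Pi.one_apply, Finset.sum_const, Finset.card_univ,
    Fintype.card_prod, Fintype.card_bool, Fintype.card_fin, nsmul_eq_mul, mul_one]
  push_cast
  apply ENNReal.inv_mul_cancel
  · simp; omega
  · exact ENNReal.mul_ne_top (by simp) (by simp)

theorem exists_LM {D : ℕ} (hD : 0 < D) : ∃ μ : Measure (ℕ → Lt D), LM μ := by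
  classical
  haveI hpr : IsProbabilityMeasure (MuEx_nu D) := ⟨MuEx_nu_univ hD⟩
  set ν := MuEx_nu D with hν
  set μ : Measure (ℕ → Lt D) := Measure.infinitePi (fun _ : ℕ => ν) with hμ
  have key : (2 * (D : ENNReal))⁻¹ • ∑ l : Lt D, μ.map (consW l) = μ := by
    apply Measure.eq_infinitePi
    intro s t ht
    obtain ⟨n, hn⟩ : ∃ n, s ⊆ Finset.range (n + 1) :=
      ⟨s.sup id, fun i hi => by
        have := Finset.le_sup (f := id) hi
        simp at this ⊢
        omega⟩
    set t' : ℕ → Set (Lt D) := fun i => if i ∈ s then t i else Set.univ with ht'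
    have hset : Set.pi (s : Set ℕ) t = Set.pi (Finset.range (n + 1) : Set ℕ) t' := by
      ext ω
      simp only [Set.mem_pi, Finset.mem_coe]
      constructor
      · intro h i _
        by_cases hi : i ∈ s
        · simpa [ht', hi] using h i hi
        · simp [ht', hi]
      · intro h i hi
        simpa [ht', hi] using h i (hn hi)
    have hprod : ∏ i ∈ s, ν (t i) = ∏ i ∈ Finset.range (n + 1), ν (t' i) := by
      rw [← Finset.prod_subset hn (f := fun i => ν (t' i))]
      · apply Finset.prod_congr rfl
        intro i hi
        simp [ht', hi]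
      · intro i _ hi
        simp [ht', hi]
    have hmt : ∀ i, MeasurableSet (t' i) := fun i => Set.Finite.measurableSet (Set.toFinite _)
    rw [hset, hprod, Finset.prod_range_succ', Measure.smul_apply, Measure.finsetSum_apply,
      smul_eq_mul]
    have hmS : MeasurableSet (Set.pi (Finset.range (n + 1) : Set ℕ) t') :=
      MeasurableSet.pi (Finset.countable_toSet _) (fun i _ => hmt i)
    have h1 : ∀ l : Lt D, (μ.map (consW l)) (Set.pi (Finset.range (n + 1) : Set ℕ) t')
        = (∏ k ∈ Finset.range n, ν (t' (k + 1))) * (t' 0).indicator 1 l := by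
      intro l
      rw [Measure.map_apply (MuEx_measurable_consW l) hmS]
      by_cases hl : l ∈ t' 0
      · have : consW l ⁻¹' (Set.pi (Finset.range (n + 1) : Set ℕ) t')
            = Set.pi (Finset.range n : Set ℕ) (fun k => t' (k + 1)) := by
          ext ω
          simp only [Set.mem_preimage, Set.mem_pi, Finset.mem_coe, Finset.mem_range]
          constructor
          · intro h i hi
            exact h (i + 1) (by omega)
          · intro h i hi
            cases i with
            | zero => exact hl
            | succ k => exact h k (by omega)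
        rw [this, hμ, Measure.infinitePi_pi (fun _ : ℕ => ν) (fun i _ => hmt (i + 1))]
        simp [hl]
      · have : consW l ⁻¹' (Set.pi (Finset.range (n + 1) : Set ℕ) t') = ∅ := by
          ext ω
          simp only [Set.mem_preimage, Set.mem_pi, Finset.mem_coe, Finset.mem_range,
            Set.mem_empty_iff_false, iff_false]
          intro h
          exact hl (h 0 (by omega))
        rw [this]
        simp [hl]
    rw [Finset.sum_congr rfl (fun l _ => h1 l), ← Finset.mul_sum, hν, MuEx_nu_apply (t' 0)]
    ring
  refine ⟨μ, ⟨inferInstance, ?_⟩⟩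
  intro S hS
  conv_lhs => rw [← key]
  rw [Measure.smul_apply, Measure.finsetSum_apply, smul_eq_mul]
  congr 1
  apply Finset.sum_congr rfl
  intro l _
  rw [Measure.map_apply (MuEx_measurable_consW l) hS]

end Pool.Agent.UQ
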