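import Pool.Agent.UQ.Det3a
import Pool.Agent.UQ.Det3b
import Pool.Agent.UQ.Klb2
import Pool.Agent.UQ.Ext
import Pool.Agent.UQ.Cyc
import Pool.Agent.UQ.MuEx
import Pool.Agent.UQ.ExAut

/-!
# B29 Ess : uniform positivity of configuration 2

`cyc` gives a simple odd cycle `c : ℕ → V`, `g`; `Z = {c s | s < g}` (finite, connected, at least 3 points). As for `Est`, but with one walk: for a.e. `ω` (start at any `a`), `C = Xi a ω` is a `TrWalk` with thin range. `det3a`, `det3b`:
`H, y, x'`. Rotate the cycle: `v = x' = c s₀`, `α = [c (s₀+1), …, c (s₀+g)]` (indices mod `g`), `y = c (s₀+i)`, `0 < i < g`; `α` is the vertex list of a word `w` of `g` letters `(true, ·)`.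
`ext_walk`: a finite modification `ω̃` of `ω` such that the walk from `y` stays in `insert y H`; it meets `Z` only in `y` (`Disjoint Z H`). `vis_pos` for `x'`: the walk from `v` avoids `Z ∪ H` at all positive times with
positive probability. So `Q2 v y α ω̃`. If for all `(v, w, i)` (countably many) `∀ᵐ ω, ¬ Q2 …`, then by `nul1` this is a contradiction. So `klb2` applies to some `(v, w, i)`;
`0 < i < g`: one has to keep this in the negated statement (only `0 < i < w.length`, `Odd w.length`, closed, nodup are considered). Finally `kp2_homog`.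
-/

open Finset MeasureTheory Pool.Agent.helper20.HP

namespace Pool.Agent.UQ

variable {V : Type} {D : ℕ} {nb : V → Fin D → V}

/-- the vertex list of a word -/
def Ess_al (nb : V → Fin D → V) (v : V) (w : List (Lt D)) : List V :=
  (List.range w.length).map (fun t => endp nb v (w.take (t + 1)))

/-- the data considered in the negated statement -/
def Ess_good (nb : V → Fin D → V) (v : V) (w : List (Lt D)) (i : ℕ) : Prop :=
  Odd w.length ∧ 0 < i ∧ i < w.length ∧ lst v (Ess_al nb v w) = v ∧
    (v :: Ess_al nb v w).dropLast.Nodup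

theorem Ess_endp_append (x : V) (w w' : List (Lt D)) :
    endp nb x (w ++ w') = endp nb (endp nb x w) w' := by
  induction w generalizing x with
  | nil => rfl
  | cons l w ih => exact ih _

theorem Ess_endp {f : ℕ → V} {j : ℕ → Fin D} (hj : ∀ t, nb (f t) (j t) = f (t + 1)) (n : ℕ) :
    endp nb (f 0) ((List.range n).map (fun t => ((true, j t) : Lt D))) = f n := by
  induction n with
  | zero => rfl
  | succ n ih =>
    rw [List.range_succ, List.map_append, Ess_endp_append, ih]
    simp only [List.map_cons, List.map_nil, endp, mv]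
    simpa using hj n

theorem Ess_al_eq {f : ℕ → V} {j : ℕ → Fin D} (hj : ∀ t, nb (f t) (j t) = f (t + 1)) (g : ℕ) :
    Ess_al nb (f 0) ((List.range g).map (fun t => ((true, j t) : Lt D))) =
      (List.range g).map (fun t => f (t + 1)) := by
  unfold Ess_al
  rw [List.length_map, List.length_range]
  apply List.map_congr_left
  intro t ht
  rw [List.mem_range] at ht
  rw [← List.map_take, List.take_range, Nat.min_eq_left ht, Ess_endp hj]

theorem Ess_cons {f : ℕ → V} (g : ℕ) :
    f 0 :: (List.range g).map (fun t => f (t + 1)) = (List.range (g + 1)).map f := by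
  rw [List.range_succ_eq_map, List.map_cons, List.map_map]
  rfl

theorem Ess_dropLast {f : ℕ → V} (g : ℕ) :
    ((List.range (g + 1)).map f).dropLast = (List.range g).map f := by
  rw [List.range_succ, List.map_append]
  simp

/-- periodic extension of a cycle -/
theorem Ess_per {g : ℕ} (hg : 0 < g) {c : ℕ → V} (hadj : ∀ s, s < g → Adj nb (c s) (c (s + 1)))
    (hcl : c g = c 0) (t : ℕ) : Adj nb (c (t % g)) (c ((t + 1) % g)) := by
  have h1 := hadj (t % g) (Nat.mod_lt _ hg)
  by_cases h : t % g + 1 = g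
  · have h2 : (t + 1) % g = 0 := by
      rw [Nat.add_mod, ← Nat.add_mod, ← Nat.mod_add_mod, h, Nat.mod_self]
    rw [h2, ← hcl]
    rw [h] at h1
    exact h1
  · have h2 : (t + 1) % g = t % g + 1 := by
      rw [← Nat.mod_add_mod]
      apply Nat.mod_eq_of_lt
      have := Nat.mod_lt t hg
      omega
    rw [h2]
    exact h1

theorem estar2 {θ : ℝ} (G : GInf nb θ) (o : V) (w : List (Fin D)) (hw : Odd w.length)
    (hcl : endp nb o (w.map (fun i => ((true, i) : Lt D))) = o) :
    ∃ g i, Odd g ∧ 0 < i ∧ i < g ∧ ∃ c : ℝ, 0 < c ∧ ∀ v R l, c ≤ kp2 nb g i R l v := by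
  classical
  have hD : 0 < D := by have := G.deg; omega
  obtain ⟨μ, hμ⟩ := exists_LM hD
  obtain ⟨g, hgo, hg3, c, hadj, hcg, hinj⟩ := cyc G.reg o w hw hcl
  have hg : 0 < g := by omega
  by_contra hcon
  -- the negated statement
  have hneg : ∀ v w i, Ess_good nb v w i →
      ∀ᵐ ω ∂μ, ¬ Q2 nb μ v ((v :: Ess_al nb v w).getD i v) (Ess_al nb v w) ω := by
    intro v w i hgood
    by_contra hn
    obtain ⟨c', hc', hle⟩ := klb2 hμ v w (Ess_al nb v w) rfl hgood.2.2.2.1 hgood.2.2.2.2 i hn
    apply hcon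
    refine ⟨w.length, i, hgood.1, hgood.2.1, hgood.2.2.1, c', hc', fun v' R l => ?_⟩
    rw [kp2_homog G.reg G.tra w.length i R l v' v]
    exact hle R l
  haveI : Countable V := countable_of_cnn G.cnn
  haveI := hμ.prob
  have hall : ∀ᵐ ω ∂μ, ∀ (v : V) (w : List (Lt D)) (i : ℕ) (w' : List (Lt D)) (k : ℕ),
      Ess_good nb v w i →
      ¬ Q2 nb μ v ((v :: Ess_al nb v w).getD i v) (Ess_al nb v w) (appW w' (dropW k ω)) := by
    rw [ae_all_iff]; intro v
    rw [ae_all_iff]; intro w
    rw [ae_all_iff]; intro i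
    rw [ae_all_iff]; intro w'
    rw [ae_all_iff]; intro k
    by_cases hgood : Ess_good nb v w i
    · filter_upwards [nul1 hμ (hneg v w i hgood) w' k] with ω hω _
      exact hω
    · filter_upwards with ω h
      exact absurd h hgood
  obtain ⟨ω, hω, hTr, hTh⟩ := (hall.and ((trWalk_ae G hμ o).and (thin_walk G hμ o))).exists
  -- the cycle
  set C : ℕ → V := fun t => c (t % g) with hC
  have hCadj : ∀ t, Adj nb (C t) (C (t + 1)) := fun t => Ess_per hg hadj hcg t
  set Z : Set V := {u | ∃ i, 0 ≤ i ∧ i ≤ g ∧ C i = u} with hZdef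
  have hZmem : ∀ t, C t ∈ Z := fun t =>
    ⟨t % g, Nat.zero_le _, (Nat.mod_lt _ hg).le, by simp [hC]⟩
  have hZfin : Z.Finite := by
    apply ((Set.finite_Iic g).image C).subset
    rintro u ⟨i, _, hi, rfl⟩
    exact ⟨i, hi, rfl⟩
  have hZc : ConIn nb Z := conIn_segment G.reg (fun t => Or.inr (hCadj t)) 0 g
  have hZn : Z.Nonempty := ⟨_, hZmem 0⟩
  have hZ2 : 2 ≤ Z.ncard := by
    have h01 : C 0 ≠ C 1 := by
      intro h
      have h0 : (0 : ℕ) % g = 0 := Nat.zero_mod g
      have h1 : 1 % g = 1 := Nat.mod_eq_of_lt (by omega)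
      simp only [hC, h0, h1] at h
      have := hinj 0 1 hg (by omega) h
      omega
    have : ({C 0, C 1} : Set V).ncard = 2 := Set.ncard_pair h01
    rw [← this]
    apply Set.ncard_le_ncard _ hZfin
    intro u hu
    rcases hu with rfl | rfl
    · exact hZmem 0
    · exact hZmem 1
  obtain ⟨H₀, x, l, hcf⟩ := det3a G hμ hTr hZfin hZn hZc hTh
  obtain ⟨H, y, x', hHalf, hdis, hyZ, hxZ, hxy, hyH, hvis⟩ := det3b G hμ hZfin hZ2 hcf
  obtain ⟨w', k, hext⟩ := ext_walk hHalf hyH
  -- rotation
  obtain ⟨s₀, _, hs₀, rfl⟩ := hxZ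
  obtain ⟨s₁, _, hs₁, rfl⟩ := hyZ
  obtain ⟨i, hi0, hig, hi⟩ : ∃ i, 0 < i ∧ i < g ∧ (s₀ + i) % g = s₁ % g := by
    refine ⟨(s₁ + g - s₀) % g, ?_, Nat.mod_lt _ hg, ?_⟩
    · rw [Nat.pos_iff_ne_zero]
      intro h0
      apply hxy
      have h1 : g ∣ (s₁ + g - s₀) := Nat.dvd_of_mod_eq_zero h0
      have h2 : (s₀ + (s₁ + g - s₀)) % g = s₀ % g := by
        obtain ⟨q, hq⟩ := h1
        rw [hq, Nat.add_mul_mod_self_left]
      have h3 : s₀ + (s₁ + g - s₀) = s₁ + g := by omega
      rw [h3, Nat.add_mod_right] at h2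
      simp only [hC, h2]
    · rw [Nat.add_mod_mod]
      have h3 : s₀ + (s₁ + g - s₀) = s₁ + g := by omega
      rw [h3, Nat.add_mod_right]
  set f : ℕ → V := fun t => C (s₀ + t) with hf
  have hfadj : ∀ t, Adj nb (f t) (f (t + 1)) := fun t => hCadj (s₀ + t)
  choose j hj using hfadj
  have hf0 : f 0 = C s₀ := by simp [hf]
  have hfi : f i = C s₁ := by simp only [hf, hC, hi]
  have hfg : f g = f 0 := by
    simp only [hf, hC, Nat.add_mod_right, Nat.add_zero]
  have hfZ : ∀ t, f t ∈ Z := fun t => hZmem _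
  set W : List (Lt D) := (List.range g).map (fun t => ((true, j t) : Lt D)) with hW
  have hWl : W.length = g := by simp [hW]
  have hal : Ess_al nb (f 0) W = (List.range g).map (fun t => f (t + 1)) := Ess_al_eq hj g
  have hcons : f 0 :: Ess_al nb (f 0) W = (List.range (g + 1)).map f := by
    rw [hal, Ess_cons]
  have hgood : Ess_good nb (f 0) W i := by
    refine ⟨by rw [hWl]; exact hgo, hi0, by rw [hWl]; exact hig, ?_, ?_⟩
    · rw [hal]
      obtain ⟨n, rfl⟩ : ∃ n, g = n + 1 := ⟨g - 1, by omega⟩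
      rw [List.range_succ, List.map_append]
      unfold lst
      rw [List.map_singleton, List.getLastD_concat]
      exact hfg
    · rw [hcons, Ess_dropLast]
      apply List.Nodup.map_on _ List.nodup_range
      intro s hs t ht hst
      rw [List.mem_range] at hs ht
      have h1 := hinj _ _ (Nat.mod_lt _ hg) (Nat.mod_lt _ hg) hst
      have h2 : s ≡ t [MOD g] := Nat.ModEq.add_left_cancel' s₀ h1
      exact Nat.ModEq.eq_of_lt_of_lt h2 hs ht
  have hget : (f 0 :: Ess_al nb (f 0) W).getD i (f 0) = C s₁ := by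
    rw [hcons, ← hfi]
    rw [List.getD_eq_getElem _ _ (by simp; omega)]
    simp
  apply hω (f 0) W i w' k hgood
  rw [hget]
  have hmemZ : ∀ u, u ∈ f 0 :: Ess_al nb (f 0) W → u ∈ Z := by
    intro u hu
    rw [hcons, List.mem_map] at hu
    obtain ⟨t, _, rfl⟩ := hu
    exact hfZ t
  refine ⟨?_, ?_⟩
  · intro t ht
    rcases hext t with h | h
    · exact h
    · exact absurd h (Set.disjoint_left.1 hdis (hmemZ _ ht))
  · have hp := vis_pos hμ hvis
    refine lt_of_lt_of_le hp (measure_mono ?_)
    intro η hη t ht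
    rw [Set.mem_setOf_eq] at hη
    rcases t with _ | t
    · rfl
    · exfalso
      rw [← hf0] at hη
      apply hη t
      rcases ht with ht | ⟨s, hs⟩
      · exact Or.inl (hmemZ _ ht)
      · rw [← hs]
        rcases hext s with h | h
        · left; rw [h]; exact hZmem _
        · right; exact h

end Pool.Agent.UQ
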