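import Pool.Agent.UQ.ThinW

/-!
# B13 Sep : two walks from far apart vertices are disjoint with positive probability

Choose `T₀` with `Smb_tail` for `ε = 1/2` and `c` not an end point of a word of length `< T₀` from `a` (`V` infinite). If for almost all `ω`, for almost all `ω'`, the ranges meet, then
`1 ≤ ∑_{s,t} μ {ω' | Xi c ω' t = Xi a ω s} = ∑_{s,t} pk t c (Xi a ω s)` for a.e. `ω`; integrate (`meet_sum`): `1 ≤ ∑_{s,t} pk (s+t) a c = ∑_u (u+1) pk u a c ≤ 1/2`.
-/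

open Finset MeasureTheory Pool.Agent.helper20.HP

namespace Pool.Agent.UQ

variable {V : Type} {D : ℕ} {nb : V → Fin D → V} {μ : Measure (ℕ → Lt D)}

theorem Sep_far {θ : ℝ} (G : GInf nb θ) (a : V) (T₀ : ℕ) : ∃ c : V, ∀ t, t < T₀ → pk nb t a c = 0 := by
  classical
  have := G.infV
  choose F hF using fun t => PK_ball (nb := nb) t a
  obtain ⟨c, hc⟩ := Infinite.exists_notMem_finset ((Finset.range T₀).biUnion F)
  refine ⟨c, fun t ht => ?_⟩
  by_contra h
  exact hc (Finset.mem_biUnion.mpr ⟨t, Finset.mem_range.mpr ht, hF t c h⟩)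

theorem Sep_int {θ : ℝ} (G : GInf nb θ) (hμ : LM μ) (a c : V) (T₀ : ℕ)
    (hT : ∀ T : ℕ, ∑ t ∈ Ico T₀ T, ((t : ℝ) + 1) * pk nb (2 * (t / 2)) a a ≤ 1 / 2)
    (hc : ∀ t, t < T₀ → pk nb t a c = 0) :
    ∫⁻ ω, ∑' p : ℕ × ℕ, ENNReal.ofReal (pk nb p.2 c (Xi nb a ω p.1)) ∂μ
      ≤ ENNReal.ofReal (1 / 2) := by
  have hD : 0 < D := by have := G.deg; omega
  rw [lintegral_tsum]
  · calc ∑' p : ℕ × ℕ, ∫⁻ ω, ENNReal.ofReal (pk nb p.2 c (Xi nb a ω p.1)) ∂μ
        = ∑' p : ℕ × ℕ, ENNReal.ofReal (pk nb (p.1 + p.2) a c) :=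
          tsum_congr fun p => meet_sum hμ G.reg p.1 p.2 a c
      _ = ∑' n : ℕ, ((n : ENNReal) + 1) * ENNReal.ofReal (pk nb n a c) :=
          ThinW_sum (fun n => ENNReal.ofReal (pk nb n a c))
      _ ≤ ENNReal.ofReal (1 / 2) := by
          refine ENNReal.tsum_le_of_sum_range_le fun n => ?_
          have h1 : ∀ t : ℕ, ((t : ENNReal) + 1) * ENNReal.ofReal (pk nb t a c) =
              ENNReal.ofReal (((t : ℝ) + 1) * pk nb t a c) := by
            intro t
            rw [ENNReal.ofReal_mul (by positivity), ENNReal.ofReal_add (Nat.cast_nonneg t) zero_le_one,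
              ENNReal.ofReal_natCast, ENNReal.ofReal_one]
          simp only [h1]
          rw [← ENNReal.ofReal_sum_of_nonneg fun t _ => mul_nonneg (by positivity) (pk_nonneg _ _ _)]
          refine ENNReal.ofReal_le_ofReal ?_
          have h2 : ∑ t ∈ range n, ((t : ℝ) + 1) * pk nb t a c
              ≤ ∑ t ∈ Ico T₀ n, ((t : ℝ) + 1) * pk nb t a c := by
            have h3 : ∑ t ∈ range n, ((t : ℝ) + 1) * pk nb t a c
                = ∑ t ∈ (range n).filter (fun t => T₀ ≤ t), ((t : ℝ) + 1) * pk nb t a c := by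
              symm
              refine Finset.sum_subset (Finset.filter_subset _ _) fun t ht ht' => ?_
              have : t < T₀ := by
                by_contra h
                exact ht' (Finset.mem_filter.mpr ⟨ht, by omega⟩)
              rw [hc t this, mul_zero]
            rw [h3]
            refine le_of_eq (Finset.sum_congr ?_ fun _ _ => rfl)
            ext t
            simp only [Finset.mem_filter, Finset.mem_range, Finset.mem_Ico]
            tauto
          refine h2.trans (le_trans (Finset.sum_le_sum fun t _ => ?_) (hT n))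
          exact mul_le_mul_of_nonneg_left (pk_le G.reg G.tra hD _ a c a) (by positivity)
  · intro p
    refine Measurable.aemeasurable fun S _ => ?_
    exact meas_Xi nb a p.1 ((fun x => ENNReal.ofReal (pk nb p.2 c x)) ⁻¹' S)

theorem sep {θ : ℝ} (G : GInf nb θ) (hμ : LM μ) :
    ∃ a c : V, ¬ ∀ᵐ ω ∂μ, ∀ᵐ ω' ∂μ, ¬ Disjoint (Set.range (Xi nb a ω)) (Set.range (Xi nb c ω')) := by
  have hinf := G.infV
  have hprob := hμ.prob
  obtain ⟨a⟩ : Nonempty V := inferInstance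
  obtain ⟨T₀, hT₀⟩ := Smb_tail G.reg G.tra G.smb a (ε := 1 / 2) (by norm_num)
  obtain ⟨c, hc⟩ := Sep_far G a T₀
  refine ⟨a, c, fun hall => ?_⟩
  have h1 : ∀ᵐ ω ∂μ, (1 : ENNReal) ≤ ∑' p : ℕ × ℕ, ENNReal.ofReal (pk nb p.2 c (Xi nb a ω p.1)) := by
    filter_upwards [hall] with ω hω
    have h3 : ∀ p : ℕ × ℕ, μ {ω' | Xi nb c ω' p.2 = Xi nb a ω p.1} =
        ENNReal.ofReal (pk nb p.2 c (Xi nb a ω p.1)) := fun p => mu_Xi_eq nb hμ c _ _
    simp only [← h3]
    have h4 : μ (⋃ p : ℕ × ℕ, {ω' | Xi nb c ω' p.2 = Xi nb a ω p.1}) = 1 := by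
      have hmem : (⋃ p : ℕ × ℕ, {ω' | Xi nb c ω' p.2 = Xi nb a ω p.1}) ∈ ae μ := by
        filter_upwards [hω] with ω' hω'
        obtain ⟨x, ⟨s, hs⟩, ⟨t, ht⟩⟩ := Set.not_disjoint_iff.mp hω'
        exact Set.mem_iUnion.mpr ⟨(s, t), ht.trans hs.symm⟩
      rw [measure_congr (Filter.eventuallyEq_univ.mpr hmem), measure_univ]
    rw [← h4]
    exact measure_iUnion_le _
  have h2 := Sep_int G hμ a c T₀ hT₀ hc
  have h5 : (1 : ENNReal) ≤ ENNReal.ofReal (1 / 2) := by
    calc (1 : ENNReal) = ∫⁻ _ω : ℕ → Lt D, 1 ∂μ := by rw [lintegral_const, measure_univ, mul_one]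
      _ ≤ ∫⁻ ω, ∑' p : ℕ × ℕ, ENNReal.ofReal (pk nb p.2 c (Xi nb a ω p.1)) ∂μ := lintegral_mono_ae h1
      _ ≤ ENNReal.ofReal (1 / 2) := h2
  rw [← ENNReal.ofReal_one, ENNReal.ofReal_le_ofReal_iff (by norm_num)] at h5
  norm_num at h5

end Pool.Agent.UQ
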