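import Pool.Agent.UQ.Det1
import Pool.Agent.UQ.Det2
import Pool.Agent.UQ.Klb1
import Pool.Agent.UQ.Ext
import Pool.Agent.UQ.Sep
import Pool.Agent.UQ.MuEx

/-!
# B28 Est : uniform positivity of configuration 1

By `exists_LM` take `μ`. Suppose that for every `v, s`: `∀ᵐ ω, ∀ᵐ ω', ¬ Q1 v (mv v s) ω ω'` (otherwise `klb1` and `kp1_homog`). By `nul2`, and countability of `V` and of the words,
`∀ᵐ ω, ∀ᵐ ω', ∀ v s w k w' k', ¬ Q1 v (mv v s) (appW w (dropW k ω)) (appW w' (dropW k' ω'))`. By `sep`, `trWalk_ae`, `thin_walk`, `thin_union` there are `ω, ω'` with this property such that, for suitable `a, c`,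
`A = Xi a ω`, `C = Xi c ω'` are `TrWalk`s with disjoint ranges and thin union. `det1`, `det2`: `Cfg A C HA HC x 1`. Let `v = x 0`, `y = x 1 = mv v (true, i)`. `ext_walk`: words with
walks from `v` inside `insert v HA` and from `y` inside `insert y HC`. They are disjoint (`dis`, `inj`, `xA`, `xC`), and with `R = HA ∪ HC ∪ {x 0, x 1}`, `vis_pos` gives positive probability for
`{η | ∀ t, Xi v η (t+1) ∉ R}`, which is contained in the set of `Q1` (the ranges are subsets of `R`). Same for `y`. So `Q1` holds: contradiction.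
-/

open Finset MeasureTheory Pool.Agent.helper20.HP

namespace Pool.Agent.UQ

variable {V : Type} {D : ℕ} {nb : V → Fin D → V} {μ : Measure (ℕ → Lt D)}

/-- the event of `vis_pos` is contained in the event of `Q1` -/
theorem Est_pos (hμ : LM μ) {R S : Set V} {v : V} (h : Vis nb μ R v) (hS : S ⊆ R) :
    0 < μ {η | ∀ t, Xi nb v η t ∈ S → Xi nb v η t = v} := by
  refine lt_of_lt_of_le (vis_pos hμ h) (measure_mono ?_)
  intro η hη t ht
  cases t with
  | zero => rfl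
  | succ t => exact absurd (hS ht) (hη t)

/-- a configuration of gap one and walks inside the halves give the event `Q1` -/
theorem Est_Q1 (hμ : LM μ) {A C : ℕ → V} {HA HC : Set V} {x : ℕ → V} (h : Cfg nb μ A C HA HC x 1)
    {ω ω' : ℕ → Lt D} (h1 : ∀ t, Xi nb (x 0) ω t ∈ insert (x 0) HA)
    (h2 : ∀ t, Xi nb (x 1) ω' t ∈ insert (x 1) HC) : Q1 nb μ (x 0) (x 1) ω ω' := by
  have hx : x 0 ≠ x 1 := fun e => absurd (h.inj 0 1 (by omega) le_rfl e) (by omega)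
  have r1 : Set.range (Xi nb (x 0) ω) ⊆ insert (x 0) HA := by
    rintro _ ⟨t, rfl⟩; exact h1 t
  have r2 : Set.range (Xi nb (x 1) ω') ⊆ insert (x 1) HC := by
    rintro _ ⟨t, rfl⟩; exact h2 t
  have hsub : Set.range (Xi nb (x 0) ω) ∪ Set.range (Xi nb (x 1) ω')
      ⊆ HA ∪ HC ∪ {u | ∃ s, s ≤ 1 ∧ x s = u} := by
    rintro u (hu | hu)
    · rcases r1 hu with e | e
      · exact Or.inr ⟨0, by omega, e.symm⟩
      · exact Or.inl (Or.inl e)
    · rcases r2 hu with e | e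
      · exact Or.inr ⟨1, le_rfl, e.symm⟩
      · exact Or.inl (Or.inr e)
  refine ⟨?_, Est_pos hμ h.vis0 hsub, Est_pos hμ h.visj hsub⟩
  rw [Set.disjoint_left]
  intro u hu hu'
  rcases r1 hu with e | e <;> rcases r2 hu' with e' | e'
  · exact hx (e.symm.trans e')
  · exact h.xC 0 (by omega) (e ▸ e')
  · exact h.xA 1 le_rfl (e' ▸ e)
  · exact Set.disjoint_left.mp h.dis e e'

theorem estar {θ : ℝ} (G : GInf nb θ) : ∃ c : ℝ, 0 < c ∧ ∀ v R l, c ≤ kp1 nb R l v := by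
  obtain ⟨μ, hμ⟩ := exists_LM (D := D) (by have := G.deg; omega)
  by_cases H : ∃ (v : V) (s : Lt D), ¬ ∀ᵐ ω ∂μ, ∀ᵐ ω' ∂μ, ¬ Q1 nb μ v (mv nb v s) ω ω'
  · obtain ⟨v, s, hvs⟩ := H
    obtain ⟨c, hc, hcb⟩ := klb1 hμ v s hvs
    refine ⟨c, hc, fun v' R l => ?_⟩
    rw [kp1_homog G.reg G.tra R l v' v]
    exact hcb R l
  · exfalso
    push Not at H
    have : Countable V := countable_of_cnn G.cnn
    have hall : ∀ᵐ ω ∂μ, ∀ᵐ ω' ∂μ, ∀ q : V × Lt D × List (Lt D) × ℕ × List (Lt D) × ℕ,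
        ¬ Q1 nb μ q.1 (mv nb q.1 q.2.1) (appW q.2.2.1 (dropW q.2.2.2.1 ω))
          (appW q.2.2.2.2.1 (dropW q.2.2.2.2.2 ω')) := by
      have h1 : ∀ᵐ ω ∂μ, ∀ q : V × Lt D × List (Lt D) × ℕ × List (Lt D) × ℕ, ∀ᵐ ω' ∂μ,
          ¬ Q1 nb μ q.1 (mv nb q.1 q.2.1) (appW q.2.2.1 (dropW q.2.2.2.1 ω))
            (appW q.2.2.2.2.1 (dropW q.2.2.2.2.2 ω')) := by
        rw [ae_all_iff]
        intro q
        exact nul2 hμ (H q.1 q.2.1) q.2.2.1 q.2.2.2.1 q.2.2.2.2.1 q.2.2.2.2.2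
      filter_upwards [h1] with ω hω
      rw [ae_all_iff]
      exact hω
    obtain ⟨a, c, hac⟩ := sep G hμ
    apply hac
    filter_upwards [hall, trWalk_ae G hμ a, thin_walk G hμ a] with ω hω hωA hωt
    filter_upwards [hω, trWalk_ae G hμ c, thin_walk G hμ c] with ω' hω' hωC hωt' hdis
    obtain ⟨HA, HC, x, j, hj, hcfg⟩ := det1 G hμ hωA hωC hdis (thin_union hωt hωt')
    obtain ⟨HA', HC', x', hcfg'⟩ := det2 G hμ hj hcfg
    obtain ⟨w, k, hw⟩ := ext_walk hcfg'.hA hcfg'.endA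
    obtain ⟨w', k', hw'⟩ := ext_walk hcfg'.hC hcfg'.endC
    obtain ⟨i, hi⟩ := hcfg'.adj 0 (by omega)
    have hq := Est_Q1 hμ hcfg' hw hw'
    have hmv : mv nb (x' 0) ((true, i) : Lt D) = x' 1 := by
      simp [mv, hi]
    rw [← hmv] at hq
    exact hω' (x' 0, (true, i), w, k, w', k') hq

end Pool.Agent.UQ
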