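import Pool.Agent.UQ.Ind

/-!
# B1 ExBasic : calculus of `Ex` on labelled graphs (V may be infinite)
Same proofs as for `W`. `Fintype.card (Lt D) = 2 * D`; `Ex_const` needs `0 < D`.
-/

open Finset Pool.Agent.helper20.HP

namespace Pool.Agent.UQ

variable {V : Type} {D : ℕ} (nb : V → Fin D → V)

theorem ExBasic_zero (x : V) (f : List V → ℝ) : Ex nb 0 x f = f [] := rfl

theorem ExBasic_succ (k : ℕ) (x : V) (f : List V → ℝ) :
    Ex nb (k + 1) x f = (2 * (D : ℝ))⁻¹ * ∑ l : Lt D, Ex nb k (mv nb x l) (fun m => f (mv nb x l :: m)) :=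
  rfl

theorem ExBasic_inv_nonneg : (0 : ℝ) ≤ (2 * (D : ℝ))⁻¹ := by positivity

theorem ExBasic_lst_cons (x y : V) (l : List V) : lst x (y :: l) = lst y l := by
  unfold lst
  cases l <;> simp [List.getLastD]

theorem Ex_congr {k : ℕ} {x : V} {f g : List V → ℝ} (h : ∀ l, l.length = k → f l = g l) :
    Ex nb k x f = Ex nb k x g := by
  induction k generalizing x f g with
  | zero => exact h [] rfl
  | succ k ih =>
    rw [ExBasic_succ, ExBasic_succ]
    congr 1
    refine Finset.sum_congr rfl fun l _ => ?_
    exact ih fun m hm => h _ (by simp [hm])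

theorem ExBasic_range_succ (k : ℕ) (x : V) (l : Lt D) (w : List (Lt D)) :
    (List.range (k + 1)).map (fun t => endp nb x ((l :: w).take (t + 1)))
      = mv nb x l :: (List.range k).map (fun t => endp nb (mv nb x l) (w.take (t + 1))) := by
  rw [List.range_succ_eq_map, List.map_cons, List.map_map]
  congr 1

/-- only the vertex lists of walks matter -/
theorem Ex_congr_path {k : ℕ} {x : V} {f g : List V → ℝ}
    (h : ∀ w : List (Lt D), w.length = k →
      f ((List.range k).map (fun t => endp nb x (w.take (t + 1)))) =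
      g ((List.range k).map (fun t => endp nb x (w.take (t + 1))))) :
    Ex nb k x f = Ex nb k x g := by
  induction k generalizing x f g with
  | zero => exact h [] rfl
  | succ k ih =>
    rw [ExBasic_succ, ExBasic_succ]
    congr 1
    refine Finset.sum_congr rfl fun l _ => ?_
    refine ih fun w hw => ?_
    have h1 := h (l :: w) (by simp [hw])
    rw [ExBasic_range_succ] at h1
    exact h1

theorem Ex_mono {k : ℕ} {x : V} {f g : List V → ℝ} (h : ∀ l, l.length = k → f l ≤ g l) :
    Ex nb k x f ≤ Ex nb k x g := by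
  induction k generalizing x f g with
  | zero => exact h [] rfl
  | succ k ih =>
    rw [ExBasic_succ, ExBasic_succ]
    refine mul_le_mul_of_nonneg_left (Finset.sum_le_sum fun l _ => ?_) ExBasic_inv_nonneg
    exact ih fun m hm => h _ (by simp [hm])

theorem Ex_const (hD : 0 < D) (k : ℕ) (x : V) (c : ℝ) : Ex nb k x (fun _ => c) = c := by
  induction k generalizing x with
  | zero => rfl
  | succ k ih =>
    rw [ExBasic_succ]
    simp only [ih]
    rw [Finset.sum_const, nsmul_eq_mul]
    have h1 : ((Finset.univ : Finset (Lt D)).card : ℝ) = 2 * (D : ℝ) := by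
      rw [Finset.card_univ, Fintype.card_prod, Fintype.card_bool, Fintype.card_fin]
      push_cast
      ring
    rw [h1, ← mul_assoc, inv_mul_cancel₀ (by positivity), one_mul]

theorem Ex_nonneg {k : ℕ} {x : V} {f : List V → ℝ} (h : ∀ l, l.length = k → 0 ≤ f l) :
    0 ≤ Ex nb k x f := by
  induction k generalizing x f with
  | zero => exact h [] rfl
  | succ k ih =>
    rw [ExBasic_succ]
    refine mul_nonneg ExBasic_inv_nonneg (Finset.sum_nonneg fun l _ => ?_)
    exact ih fun m hm => h _ (by simp [hm])

theorem Ex_add (k : ℕ) (x : V) (f g : List V → ℝ) :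
    Ex nb k x (fun l => f l + g l) = Ex nb k x f + Ex nb k x g := by
  induction k generalizing x f g with
  | zero => rfl
  | succ k ih =>
    rw [ExBasic_succ, ExBasic_succ, ExBasic_succ, ← mul_add, ← Finset.sum_add_distrib]
    congr 1
    exact Finset.sum_congr rfl fun l _ => ih _ _ _

theorem Ex_mul_left (k : ℕ) (x : V) (c : ℝ) (f : List V → ℝ) :
    Ex nb k x (fun l => c * f l) = c * Ex nb k x f := by
  induction k generalizing x f with
  | zero => rfl
  | succ k ih =>
    rw [ExBasic_succ, ExBasic_succ]
    simp only [ih]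
    rw [← Finset.mul_sum]
    ring

theorem Ex_sum {ι : Type} (s : Finset ι) (k : ℕ) (x : V) (f : ι → List V → ℝ) :
    Ex nb k x (fun l => ∑ i ∈ s, f i l) = ∑ i ∈ s, Ex nb k x (f i) := by
  induction k generalizing x f with
  | zero => rfl
  | succ k ih =>
    simp only [ExBasic_succ]
    rw [← Finset.mul_sum, Finset.sum_comm]
    congr 1
    exact Finset.sum_congr rfl fun l _ => ih _ _

theorem Ex_append (j k : ℕ) (x : V) (f : List V → ℝ) :
    Ex nb (j + k) x f = Ex nb j x (fun l => Ex nb k (lst x l) (fun m => f (l ++ m))) := by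
  induction j generalizing x f with
  | zero =>
    rw [Nat.zero_add, ExBasic_zero]
    rfl
  | succ j ih =>
    have h1 : j + 1 + k = (j + k) + 1 := by ring
    rw [h1, ExBasic_succ, ExBasic_succ]
    congr 1
    refine Finset.sum_congr rfl fun l _ => ?_
    rw [ih]
    refine Ex_congr nb fun m _ => ?_
    rw [ExBasic_lst_cons]
    rfl

theorem Ex_take (hD : 0 < D) (j k : ℕ) (x : V) (f : List V → ℝ) :
    Ex nb (j + k) x (fun l => f (l.take j)) = Ex nb j x f := by
  rw [Ex_append]
  refine Ex_congr nb fun l hl => ?_
  have h1 : (fun m : List V => f ((l ++ m).take j)) = fun _ => f l := by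
    funext m
    rw [← hl, List.take_left]
  rw [h1, Ex_const nb hD]

theorem Ex_comm (j k : ℕ) (x y : V) (f : List V → List V → ℝ) :
    Ex nb j x (fun l => Ex nb k y (fun m => f l m)) = Ex nb k y (fun m => Ex nb j x (fun l => f l m)) := by
  induction j generalizing x f with
  | zero => rfl
  | succ j ih =>
    simp only [ExBasic_succ]
    rw [Ex_mul_left, Ex_sum]
    congr 1
    exact Finset.sum_congr rfl fun l _ => ih _ _

/-- a fixed word of letters has probability `(2D)^{-k}` -/
theorem Ex_word_ge (w : List (Lt D)) (x : V) {f : List V → ℝ} (h : ∀ l, 0 ≤ f l) :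
    ((2 * (D : ℝ))⁻¹) ^ w.length * f ((List.range w.length).map (fun t => endp nb x (w.take (t + 1))))
      ≤ Ex nb w.length x f := by
  induction w generalizing x f with
  | nil => simp [ExBasic_zero]
  | cons l w ih =>
    rw [List.length_cons, ExBasic_range_succ, ExBasic_succ, pow_succ']
    rw [mul_assoc]
    refine mul_le_mul_of_nonneg_left ?_ ExBasic_inv_nonneg
    refine (ih (mv nb x l) (f := fun m => f (mv nb x l :: m)) fun m => h _).trans ?_
    exact Finset.single_le_sum
      (f := fun l' => Ex nb w.length (mv nb x l') (fun m => f (mv nb x l' :: m)))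
      (fun l' _ => Ex_nonneg nb fun m _ => h _) (Finset.mem_univ l)

theorem endp_append (x : V) (w w' : List (Lt D)) :
    endp nb x (w ++ w') = endp nb (endp nb x w) w' := by
  induction w generalizing x with
  | nil => rfl
  | cons l w ih => exact ih _

end Pool.Agent.UQ
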