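import Pool.Agent.UQ.Ind
import Pool.Agent.helper20.HP.S1

/-!
# Q1 KfBasic : the functional `Kf f = ∑' t, kmT K Γ t f` on killed words

`Γ` nodup. For bounded `f` the series converges absolutely (`HP.summable_kmT`). `Kf_split`: split off the words of length `< s`
(`Summable.sum_add_tsum_nat_add`, `HP.kmT_split`). `Kf_le_of_PhiN` etc.: limits `N → ∞` of the estimates of helper20 for `km K Γ N`
(`HasSum.tendsto_sum_nat`; `km K Γ N f = ∑ t ∈ range N, kmT K Γ t f`).
`B` is a common bound for `Phi K Γ y`, see `Phi_le`.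
-/

open Finset Filter Pool.Agent.helper20.HP

namespace Pool.Agent.UQ

variable {V : Type} [Fintype V] [DecidableEq V]

/-- the two indicator functions agree -/
theorem ind_eq_HP (P : Prop) : ind P = Pool.Agent.helper20.HP.ind P := by
  by_cases h : P
  · rw [ind_true h, Pool.Agent.helper20.HP.ind_true h]
  · rw [ind_false h, Pool.Agent.helper20.HP.ind_false h]

/-- sum over all killed words -/
noncomputable def Kf (K : HW V) (Γ : List V) (f : V → List V → List V → ℝ) : ℝ := ∑' t, kmT K Γ t f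

/-- bounded functions of (start, path below the start, word) -/
def Bd (f : V → List V → List V → ℝ) : Prop := ∃ C, ∀ x ρ l, |f x ρ l| ≤ C

/-- number of vertices of the state -/
def sl (x : V) (ρ l : List V) : ℕ := (run (x :: ρ) l).length

/-- indicator of the window `level ∈ [r, r + w)`, i.e. `r + 1 ≤ sl ≤ r + w` -/
noncomputable def chi (r w : ℕ) (x : V) (ρ l : List V) : ℝ := Pool.Agent.helper20.HP.ind (r + 1 ≤ sl x ρ l ∧ sl x ρ l ≤ r + w)

/-- indicator that the word `l` avoids `Γ` -/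
noncomputable def av (Γ l : List V) : ℝ := Pool.Agent.helper20.HP.ind (∀ y ∈ l, y ∉ Γ)

variable (K : HW V) {Γ : List V}

theorem KfBasic_summable (hΓ : Γ.Nodup) {f : V → List V → List V → ℝ} (hf : Bd f) :
    Summable (fun t => kmT K Γ t f) := by
  obtain ⟨C, hC⟩ := hf
  exact summable_kmT K Γ hΓ f C hC

theorem Kf_add (hΓ : Γ.Nodup) {f g : V → List V → List V → ℝ} (hf : Bd f) (hg : Bd g) :
    Kf K Γ (fun x ρ l => f x ρ l + g x ρ l) = Kf K Γ f + Kf K Γ g := by
  unfold Kf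
  simp only [kmT_add]
  exact (KfBasic_summable K hΓ hf).tsum_add (KfBasic_summable K hΓ hg)

theorem Kf_mul_left (c : ℝ) (f : V → List V → List V → ℝ) :
    Kf K Γ (fun x ρ l => c * f x ρ l) = c * Kf K Γ f := by
  unfold Kf
  simp only [kmT_mul_left]
  exact tsum_mul_left

omit [Fintype V] [DecidableEq V] in
theorem KfBasic_Bd_mul (c : ℝ) {f : V → List V → List V → ℝ} (hf : Bd f) :
    Bd (fun x ρ l => c * f x ρ l) := by
  obtain ⟨C, hC⟩ := hf
  refine ⟨|c| * C, fun x ρ l => ?_⟩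
  rw [abs_mul]
  exact mul_le_mul_of_nonneg_left (hC x ρ l) (abs_nonneg _)

theorem Kf_sub (hΓ : Γ.Nodup) {f g : V → List V → List V → ℝ} (hf : Bd f) (hg : Bd g) :
    Kf K Γ (fun x ρ l => f x ρ l - g x ρ l) = Kf K Γ f - Kf K Γ g := by
  have h1 := Kf_add K hΓ hf (KfBasic_Bd_mul (-1) hg)
  rw [Kf_mul_left] at h1
  have h2 : (fun (x : V) (ρ l : List V) => f x ρ l + -1 * g x ρ l)
      = fun x ρ l => f x ρ l - g x ρ l := by
    funext x ρ l; ring
  rw [h2] at h1
  rw [h1]; ring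

theorem Kf_sum {ι : Type} (hΓ : Γ.Nodup) (s : Finset ι) {f : ι → V → List V → List V → ℝ}
    (hf : ∀ i ∈ s, Bd (f i)) : Kf K Γ (fun x ρ l => ∑ i ∈ s, f i x ρ l) = ∑ i ∈ s, Kf K Γ (f i) := by
  unfold Kf
  simp only [kmT_sum]
  exact Summable.tsum_finsetSum fun i hi => KfBasic_summable K hΓ (hf i hi)

/-- `x :: l` is a possible walk -/
def Wk (K : HW V) (x : V) (l : List V) : Prop := List.IsChain (fun a b => 0 < K.p a b) (x :: l)

/-- monotonicity of `W` on possible walks -/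
theorem W_mono_supp {k : ℕ} {x : V} {f g : List V → ℝ}
    (h : ∀ l, l.length = k → Wk K x l → f l ≤ g l) : W K k x f ≤ W K k x g := by
  induction k generalizing x f g with
  | zero =>
    rw [W_zero, W_zero]
    exact h [] rfl (by unfold Wk; simp)
  | succ k ih =>
    rw [W_succ, W_succ]
    refine Finset.sum_le_sum fun y _ => ?_
    rcases (K.nonneg x y).eq_or_lt with h0 | h0
    · rw [← h0, zero_mul, zero_mul]
    · refine mul_le_mul_of_nonneg_left (ih fun l hl hw => ?_) h0.le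
      refine h (y :: l) (by simp [hl]) ?_
      unfold Wk at hw ⊢
      exact List.isChain_cons_cons.2 ⟨h0, hw⟩

omit [Fintype V] [DecidableEq V] in
theorem KfBasic_nodup (hΓ : Γ.Nodup) (i : Fin Γ.length) :
    (Γ.get i :: Γ.drop (i + 1)).Nodup ∧ ∀ u ∈ Γ.get i :: Γ.drop (i + 1), u ∈ Γ := by
  have h1 : Γ.get i :: Γ.drop (i + 1) = Γ.drop i := by simp
  rw [h1]
  exact ⟨hΓ.sublist (List.drop_sublist _ _), fun u hu => List.mem_of_mem_drop hu⟩

/-- monotonicity; only starts `x = Γ_i`, `ρ` = part of `Γ` below `x`, and possible walks avoiding `Γ` matter -/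
theorem Kf_mono (hΓ : Γ.Nodup) {f g : V → List V → List V → ℝ} (hf : Bd f) (hg : Bd g)
    (h : ∀ x ρ l, (x :: ρ).Nodup → (∀ u ∈ x :: ρ, u ∈ Γ) → (∀ y ∈ l, y ∉ Γ) → Wk K x l →
      f x ρ l ≤ g x ρ l) : Kf K Γ f ≤ Kf K Γ g := by
  unfold Kf
  refine (KfBasic_summable K hΓ hf).tsum_le_tsum (fun t => ?_) (KfBasic_summable K hΓ hg)
  unfold kmT
  refine Finset.sum_le_sum fun i _ => W_mono_supp K fun l _ hw => ?_
  obtain ⟨hnd, hsub⟩ := KfBasic_nodup hΓ i
  by_cases hh : ∀ y ∈ l, y ∉ Γ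
  · rw [Pool.Agent.helper20.HP.ind_true hh, one_mul, one_mul]
    exact h _ _ l hnd hsub hh hw
  · rw [Pool.Agent.helper20.HP.ind_false hh, zero_mul, zero_mul]

theorem Kf_nonneg {f : V → List V → List V → ℝ} (h : ∀ x ρ l, 0 ≤ f x ρ l) : 0 ≤ Kf K Γ f :=
  tsum_nonneg fun t => kmT_nonneg K Γ t h

theorem Kf_abs_le (hΓ : Γ.Nodup) {f : V → List V → List V → ℝ} (hf : Bd f) :
    |Kf K Γ f| ≤ Kf K Γ (fun x ρ l => |f x ρ l|) := by
  have hf' : Bd (fun x ρ l => |f x ρ l|) := by
    obtain ⟨C, hC⟩ := hf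
    exact ⟨C, fun x ρ l => by rw [abs_abs]; exact hC x ρ l⟩
  rw [abs_le]
  constructor
  · have h1 := Kf_mono K hΓ (KfBasic_Bd_mul (-1) hf') hf
      (fun x ρ l _ _ _ _ => by linarith [neg_abs_le (f x ρ l)])
    rw [Kf_mul_left] at h1
    linarith
  · exact Kf_mono K hΓ hf hf' (fun x ρ l _ _ _ _ => le_abs_self _)

/-- appending `s` steps -/
theorem Kf_split (hΓ : Γ.Nodup) {f : V → List V → List V → ℝ} (hf : Bd f) (s : ℕ) :
    Kf K Γ f = km K Γ s f + Kf K Γ (fun x ρ l =>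
      W K s (lst x l) (fun l' => av Γ l' * f x ρ (l ++ l'))) := by
  unfold Kf km
  rw [← (KfBasic_summable K hΓ hf).sum_add_tsum_nat_add s]
  congr 1
  refine tsum_congr fun t => ?_
  rw [kmT_split]
  rfl

/-- for nonnegative functions -/
theorem Kf_split_le (hΓ : Γ.Nodup) {f : V → List V → List V → ℝ} (hf : Bd f)
    (h0 : ∀ x ρ l, 0 ≤ f x ρ l) (s : ℕ) :
    Kf K Γ (fun x ρ l => W K s (lst x l) (fun l' => av Γ l' * f x ρ (l ++ l'))) ≤ Kf K Γ f := by
  have h1 := Kf_split K hΓ hf s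
  have h2 := km_nonneg K Γ s h0
  linarith

/-- the killing: words whose next `s` steps hit `Γ` have mass at most `s |Γ|` -/
theorem Kf_kill (hΓ : Γ.Nodup) (s : ℕ) :
    Kf K Γ (fun x _ l => W K s (lst x l) (fun l' => 1 - av Γ l')) ≤ s * Γ.length := by
  have hone : Bd (fun (_ : V) (_ _ : List V) => (1 : ℝ)) := ⟨1, fun _ _ _ => by simp⟩
  have hav : Bd (fun (x : V) (_ l : List V) => W K s (lst x l) (fun l' => av Γ l' * 1)) := by
    refine ⟨1, fun x _ l => ?_⟩
    rw [abs_of_nonneg (W_nonneg K s _ fun l' _ => by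
      rw [mul_one]; exact Pool.Agent.helper20.HP.ind_nonneg _)]
    refine (W_mono K s _ fun l' _ => ?_).trans (W_const K s (lst x l) 1).le
    rw [mul_one]; exact Pool.Agent.helper20.HP.ind_le_one _
  have h1 := Kf_split K hΓ hone s
  have h2 := Kf_sub K hΓ hone hav
  have h3 : (fun (x : V) (_ l : List V) => W K s (lst x l) (fun l' => 1 - av Γ l'))
      = fun (x : V) (_ l : List V) => 1 - W K s (lst x l) (fun l' => av Γ l' * 1) := by
    funext x _ l
    rw [W_sub, W_const]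
    simp only [mul_one]
  rw [h3, h2]
  have h4 : km K Γ s (fun _ _ _ => 1) ≤ s * Γ.length := by
    unfold km
    have h5 : ∀ t ∈ range s, kmT K Γ t (fun _ _ _ => 1) ≤ Γ.length := by
      intro t _
      unfold kmT
      have h6 : ∀ i ∈ (Finset.univ : Finset (Fin Γ.length)), W K t (Γ.get i) (fun l =>
          Pool.Agent.helper20.HP.ind (∀ y ∈ l, y ∉ Γ) * 1) ≤ 1 := by
        intro i _
        refine (W_mono K t _ fun l _ => ?_).trans (W_const K t (Γ.get i) 1).le
        rw [mul_one]; exact Pool.Agent.helper20.HP.ind_le_one _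
      refine (Finset.sum_le_sum h6).trans ?_
      simp
    refine (Finset.sum_le_sum h5).trans ?_
    simp
  linarith

omit [Fintype V] in
/-- `chi` is the sum of the `lev` -/
theorem KfBasic_chi_eq (r w : ℕ) (x : V) (ρ l : List V) :
    chi r w x ρ l = ∑ y ∈ range w, lev (r + y) x ρ l := by
  unfold chi lev
  by_cases h : r + 1 ≤ sl x ρ l ∧ sl x ρ l ≤ r + w
  · rw [Pool.Agent.helper20.HP.ind_true h]
    have hy : sl x ρ l - (r + 1) ∈ range w := by rw [mem_range]; omega
    rw [Finset.sum_eq_single_of_mem _ hy]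
    · rw [Pool.Agent.helper20.HP.ind_true]
      unfold sl at *
      omega
    · intro y _ hne
      refine Pool.Agent.helper20.HP.ind_false fun he => hne ?_
      unfold sl at *
      omega
  · rw [Pool.Agent.helper20.HP.ind_false h]
    symm
    refine Finset.sum_eq_zero fun y hy => Pool.Agent.helper20.HP.ind_false fun he => h ?_
    rw [mem_range] at hy
    unfold sl
    omega

/-- `chi` is the sum of the `lev` -/
theorem chi_eq (r w : ℕ) (x : V) (ρ l : List V) :
    chi r w x ρ l = ∑ y ∈ range w, lev (r + y) x ρ l := KfBasic_chi_eq r w x ρ l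

omit [Fintype V] in
theorem KfBasic_Bd_lev (r : ℕ) : Bd (lev (V := V) r) :=
  ⟨1, fun x ρ l => by
    unfold lev
    rw [abs_of_nonneg (Pool.Agent.helper20.HP.ind_nonneg _)]
    exact Pool.Agent.helper20.HP.ind_le_one _⟩

theorem Kf_chi_mul (hΓ : Γ.Nodup) (r w : ℕ) (φ : ℕ → ℝ) :
    Kf K Γ (fun x ρ l => chi r w x ρ l * φ (sl x ρ l)) =
      ∑ y ∈ range w, φ (r + y + 1) * Phi K Γ (r + y) := by
  have h1 : (fun (x : V) (ρ l : List V) => chi r w x ρ l * φ (sl x ρ l))
      = fun x ρ l => ∑ y ∈ range w, φ (r + y + 1) * lev (r + y) x ρ l := by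
    funext x ρ l
    rw [KfBasic_chi_eq, Finset.sum_mul]
    refine Finset.sum_congr rfl fun y _ => ?_
    unfold lev
    by_cases h : (run (x :: ρ) l).length = r + y + 1
    · rw [Pool.Agent.helper20.HP.ind_true h]
      unfold sl
      rw [h]; ring
    · rw [Pool.Agent.helper20.HP.ind_false h]; ring
  rw [h1, Kf_sum K hΓ (range w) (f := fun y x ρ l => φ (r + y + 1) * lev (r + y) x ρ l)
    fun y _ => KfBasic_Bd_mul _ (KfBasic_Bd_lev _)]
  refine Finset.sum_congr rfl fun y _ => ?_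
  rw [Kf_mul_left]
  rfl

variable {K} {θ : ℝ} {h : ℕ}

/-- bound of the profile up to level `r` -/
noncomputable def PB (θ : ℝ) (n r : ℕ) : ℝ := CP θ * ((Nat.sqrt n : ℝ) + r)

theorem KfBasic_CP_nonneg (hP : Par K θ h) : 0 ≤ CP θ := by
  have h1 : 0 ≤ θ := le_trans zero_le_one hP.one_le
  unfold CP CZ
  positivity

theorem Phi_le (hP : Par K θ h) (hΓ : Γ.Nodup) {r y : ℕ} (hy : y ≤ r) :
    Phi K Γ y ≤ PB θ (Fintype.card V) r := by
  refine le_of_tendsto' (PhiN_tendsto K Γ hΓ y) fun N => ?_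
  refine (phi_bound hP Γ hΓ N y).trans ?_
  unfold PB
  refine mul_le_mul_of_nonneg_left ?_ (KfBasic_CP_nonneg hP)
  have : (y : ℝ) ≤ r := by exact_mod_cast hy
  linarith

theorem KfBasic_Kf_chi (hΓ : Γ.Nodup) (r w : ℕ) :
    Kf K Γ (chi r w) = ∑ y ∈ range w, Phi K Γ (r + y) := by
  have h1 := Kf_chi_mul K hΓ r w (fun _ => 1)
  simpa using h1

theorem Kf_chi_le (hP : Par K θ h) (hΓ : Γ.Nodup) {r w m : ℕ} (hm : r + w ≤ m) :
    Kf K Γ (chi r w) ≤ w * PB θ (Fintype.card V) m := by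
  rw [KfBasic_Kf_chi hΓ]
  have h1 : ∀ y ∈ range w, Phi K Γ (r + y) ≤ PB θ (Fintype.card V) m := fun y hy => by
    rw [mem_range] at hy
    exact Phi_le hP hΓ (by omega)
  refine (Finset.sum_le_sum h1).trans ?_
  simp

/-- short words -/
theorem km_chi_le (hP : Par K θ h) {s : ℕ} (hs : 4 * s ≤ Nat.sqrt (Fintype.card V)) (r w : ℕ) :
    km K Γ s (chi r w) ≤ w * s * CZ θ := by
  have h1 : km K Γ s (chi r w) = ∑ y ∈ range w, PhiN K Γ s (r + y) := by
    have h2 : (chi r w : V → List V → List V → ℝ)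
        = fun x ρ l => ∑ y ∈ range w, lev (r + y) x ρ l := by
      funext x ρ l
      exact KfBasic_chi_eq r w x ρ l
    rw [h2, km_sum K (range w) Γ s (fun y => lev (r + y))]
    rfl
  rw [h1]
  have h3 : ∀ y ∈ range w, PhiN K Γ s (r + y) ≤ s * CZ θ := by
    intro y _
    cases s with
    | zero => unfold PhiN km; simp
    | succ T =>
      have := short_words hP Γ T (r + y) (by omega)
      push_cast
      exact this
  refine (Finset.sum_le_sum h3).trans ?_
  rw [Finset.sum_const, card_range, nsmul_eq_mul]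
  linarith

/-- long hits in the last `s` steps -/
theorem Kf_LH_le (hP : Par K θ h) (hΓ : Γ.Nodup) {s : ℕ} (hs : 4 * s ≤ Nat.sqrt (Fintype.card V))
    (r w : ℕ) : Kf K Γ (fun x ρ l => Pool.Agent.helper20.HP.ind (LHin (2 * h) s x ρ l) * chi r w x ρ l)
      ≤ w * (3 / 2 * CZ θ * ((s : ℝ) + 1)) := by
  have h1 : (fun (x : V) (ρ l : List V) =>
      Pool.Agent.helper20.HP.ind (LHin (2 * h) s x ρ l) * chi r w x ρ l)
      = fun x ρ l => ∑ y ∈ range w,
        Pool.Agent.helper20.HP.ind (LHin (2 * h) s x ρ l) * lev (r + y) x ρ l := by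
    funext x ρ l
    rw [KfBasic_chi_eq, Finset.mul_sum]
  rw [h1, Kf_sum K hΓ (range w) (f := fun y x ρ l =>
    Pool.Agent.helper20.HP.ind (LHin (2 * h) s x ρ l) * lev (r + y) x ρ l)
    fun y _ => ⟨1, fun x ρ l => by
      show |Pool.Agent.helper20.HP.ind (LHin (2 * h) s x ρ l) *
        Pool.Agent.helper20.HP.ind ((run (x :: ρ) l).length = r + y + 1)| ≤ 1
      rw [abs_of_nonneg (mul_nonneg (Pool.Agent.helper20.HP.ind_nonneg _)
        (Pool.Agent.helper20.HP.ind_nonneg _))]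
      exact mul_le_one₀ (Pool.Agent.helper20.HP.ind_le_one _) (Pool.Agent.helper20.HP.ind_nonneg _)
        (Pool.Agent.helper20.HP.ind_le_one _)⟩]
  have h2 : ∀ y ∈ range w, Kf K Γ (fun x ρ l =>
      Pool.Agent.helper20.HP.ind (LHin (2 * h) s x ρ l) * lev (r + y) x ρ l)
      ≤ 3 / 2 * CZ θ * ((s : ℝ) + 1) := by
    intro y _
    refine Real.tsum_le_of_sum_range_le (fun t => kmT_nonneg K Γ t fun x ρ l =>
      mul_nonneg (Pool.Agent.helper20.HP.ind_nonneg _) (Pool.Agent.helper20.HP.ind_nonneg _))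
      fun N => ?_
    exact LH_mass hP Γ hΓ N (r + y) s hs
  refine (Finset.sum_le_sum h2).trans ?_
  rw [Finset.sum_const, card_range, nsmul_eq_mul]

end Pool.Agent.UQ
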