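import Pool.Agent.UQ.LO
import Pool.Agent.UQ.KfBasic

/-!
# Q4 FNloc : `FN` of the state of a long word versus `FP` of its last `R` steps

Word `l1 ++ (l2 ++ l3)`, `|l2| = b`, `|l3| = R`, `v₁ = lst x l1`, `v = lst v₁ l2`; path `p = v₁ :: (l2 ++ l3)` (`b + R` steps), future `e`.
Suppose `c ∈ (b, b+R]` with `(p ++ e').take c`, `(p ++ e').drop c` disjoint (`e'` of length `N`, `e` a prefix of it) and no long hit in the last `R + N` steps of `l1 ++ l2 ++ l3 ++ e'`. Let
`q = l1 ++ (l2++l3).take (c-1)`, `m = (l2++l3).drop (c-1)`; by `HP.hit_is_LH` (`hcut`: the last `b` vertices of `x :: q` are among `p.take c`) `m ++ e` avoids `σ = run (x::ρ) q`, so (`run_append_avoid` with `δ = []`)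
`run (x::ρ) (l1++l2++l3++e) = run [] (m ++ e) ++ σ`, and `LEs (v :: l3 ++ e) = run [] (m ++ e) ++ LEs (part of v :: l3 before c)` (`LEs_append_disjoint`). Same with `e = []`. Hence
`conj (z^|state|) z^|state of l ++ e| = conj (z^|LEs (v::l3)|) z^|LEs (v::l3++e)|`. Otherwise the difference is at most 2. Average over `e` (`s < N` steps; `W_take`/`WC_take` to compare with `e'`).
-/

open Finset Filter Pool.Agent.helper20.HP

namespace Pool.Agent.UQ

variable {V : Type} [Fintype V] [DecidableEq V] (K : HW V)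

/-- the deterministic part -/
theorem FNloc_det (b R N : ℕ) (x : V) (ρ l1 l2 l3 e' : List V) (h2 : l2.length = b) (h3 : l3.length = R)
    (he : e'.length = N) (c : ℕ) (hc1 : b < c) (hc2 : c ≤ b + R)
    (hdis : List.Disjoint ((lst x l1 :: (l2 ++ l3) ++ e').take c)
      ((lst x l1 :: (l2 ++ l3) ++ e').drop c))
    (hno : ¬ LHin b (R + N) x ρ (l1 ++ (l2 ++ l3) ++ e')) (s : ℕ) :
    (run (x :: ρ) (l1 ++ (l2 ++ l3) ++ e'.take s)).length
        + (LEs (lst (lst x l1) l2 :: l3)).length =
      (run (x :: ρ) (l1 ++ (l2 ++ l3))).length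
        + (LEs (lst (lst x l1) l2 :: l3 ++ e'.take s)).length := by
  set v1 := lst x l1 with hv1
  set v := lst v1 l2 with hv
  set A := (l2 ++ l3).take (c - 1) with hA
  set m := (l2 ++ l3).drop (c - 1) with hm
  have hAm : l2 ++ l3 = A ++ m := (List.take_append_drop (c - 1) (l2 ++ l3)).symm
  have hlen : (l2 ++ l3).length = b + R := by rw [List.length_append, h2, h3]
  have hAlen : A.length = c - 1 := by
    rw [hA, List.length_take, hlen]; omega
  have hmlen : m.length = b + R - (c - 1) := by
    rw [hm, List.length_drop, hlen]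
  obtain ⟨c', rfl⟩ : ∃ c', c = c' + 1 := ⟨c - 1, by omega⟩
  simp only [Nat.add_sub_cancel] at hA hm hAlen hmlen
  -- take and drop of the long path
  have htake : (v1 :: (l2 ++ l3) ++ e').take (c' + 1) = v1 :: A := by
    rw [List.cons_append, List.take_succ_cons, List.take_append_of_le_length (by omega), hA]
  have hdrop : (v1 :: (l2 ++ l3) ++ e').drop (c' + 1) = m ++ e' := by
    rw [List.cons_append, List.drop_succ_cons, List.drop_append_of_le_length (by omega), hm]
  rw [htake, hdrop] at hdis
  -- no long hit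
  have hnoLH : NoLH b x ρ (l1 ++ A) (m ++ e') := by
    intro a y d had hLH
    apply hno
    refine ⟨l1 ++ A ++ a, y, d, ?_, ?_, hLH⟩
    · rw [hAm, ← List.append_assoc, List.append_assoc (l1 ++ A) m e', had]
      simp [List.append_assoc]
    · have := congrArg List.length had
      rw [List.length_append, List.length_append, List.length_cons, hmlen, he] at this
      omega
  have hcut : ∀ y ∈ (m ++ e').take b, y ∉ (x :: (l1 ++ A)).rtake b := by
    intro y hy hy'
    have h4 : y ∈ m ++ e' := List.mem_of_mem_take hy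
    have h5 : y ∈ A := by
      rw [List.rtake_eq_reverse_take_reverse] at hy'
      rw [List.mem_reverse, List.reverse_cons, List.reverse_append] at hy'
      rw [List.append_assoc, List.take_append_of_le_length (by rw [List.length_reverse]; omega)] at hy'
      exact List.mem_reverse.1 (List.mem_of_mem_take hy')
    exact hdis (List.mem_cons_of_mem _ h5) h4
  have havoid := hit_is_LH b x ρ (l1 ++ A) (m ++ e') hcut hnoLH
  set σ := run (x :: ρ) (l1 ++ A) with hσ
  have hrun : ∀ e : List V, (∀ u ∈ e, u ∈ e') →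
      run (x :: ρ) (l1 ++ (l2 ++ l3) ++ e) = LEs (m ++ e) ++ σ := by
    intro e hee
    have h6 : l1 ++ (l2 ++ l3) ++ e = (l1 ++ A) ++ (m ++ e) := by
      rw [hAm]; simp [List.append_assoc]
    rw [h6, run_append, LEs_eq_run]
    have := run_append_avoid ([] : List V) σ (m ++ e) (fun y hy => havoid y (by
      rw [List.mem_append] at hy ⊢
      rcases hy with hy | hy
      · exact Or.inl hy
      · exact Or.inr (hee y hy)))
    rw [List.nil_append] at this
    exact this
  -- the local path
  have hloc : v :: l3 = (v :: l3).take (c' + 1 - b) ++ m := by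
    have h7 : (v1 :: (l2 ++ l3)).drop b = v :: l3 := by
      rw [← List.cons_append, List.drop_append_of_le_length (by rw [List.length_cons]; omega)]
      have h8 : (v1 :: l2).drop b = [v] := by
        have h9 : (v1 :: l2) = (v1 :: l2).dropLast ++ [v] := by
          have h10 := LO_getLast? v1 l2
          rw [← hv] at h10
          exact (List.dropLast_append_getLast? v h10).symm
        rw [h9, List.drop_append_of_le_length (by
          rw [List.length_dropLast, List.length_cons]; omega)]
        rw [List.drop_eq_nil_of_le (by rw [List.length_dropLast, List.length_cons]; omega)]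
        rfl
      rw [h8]; rfl
    have h11 : (v :: l3).drop (c' + 1 - b) = m := by
      rw [← h7, List.drop_drop, show b + (c' + 1 - b) = c' + 1 by omega, List.drop_succ_cons, hm]
    conv_lhs => rw [← List.take_append_drop (c' + 1 - b) (v :: l3)]
    rw [h11]
  have hB1 : ∀ u ∈ (v :: l3).take (c' + 1 - b), u ∈ v1 :: A := by
    intro u hu
    have h7 : (v1 :: (l2 ++ l3)).drop b = v :: l3 := by
      rw [← List.cons_append, List.drop_append_of_le_length (by rw [List.length_cons]; omega)]
      have h8 : (v1 :: l2).drop b = [v] := by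
        have h9 : (v1 :: l2) = (v1 :: l2).dropLast ++ [v] := by
          have h10 := LO_getLast? v1 l2
          rw [← hv] at h10
          exact (List.dropLast_append_getLast? v h10).symm
        rw [h9, List.drop_append_of_le_length (by
          rw [List.length_dropLast, List.length_cons]; omega)]
        rw [List.drop_eq_nil_of_le (by rw [List.length_dropLast, List.length_cons]; omega)]
        rfl
      rw [h8]; rfl
    rw [← h7, ← List.drop_take] at hu
    have h12 := List.mem_of_mem_drop hu
    rw [List.take_succ_cons, ← hA] at h12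
    exact h12
  have hLE : ∀ e : List V, (∀ u ∈ e, u ∈ e') →
      LEs (v :: l3 ++ e) = LEs (m ++ e) ++ LEs ((v :: l3).take (c' + 1 - b)) := by
    intro e hee
    conv_lhs => rw [hloc]
    rw [List.append_assoc]
    apply LEs_append_disjoint
    intro u hu hu'
    refine hdis (hB1 u hu) ?_
    rw [List.mem_append] at hu' ⊢
    rcases hu' with hu' | hu'
    · exact Or.inl hu'
    · exact Or.inr (hee u hu')
  have e1 := hrun (e'.take s) (fun u hu => List.mem_of_mem_take hu)
  have e2 := hrun [] (by simp)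
  have e3 := hLE (e'.take s) (fun u hu => List.mem_of_mem_take hu)
  have e4 := hLE [] (by simp)
  rw [List.append_nil] at e2 e4
  rw [List.append_nil] at e2 e4
  rw [e1, e2, e3, e4]
  simp only [List.length_append]
  omega

theorem FN_loc {z : ℂ} (hz : ‖z‖ = 1) {N : ℕ} (hN : 0 < N) (b R : ℕ) (x : V) (ρ l1 l2 l3 : List V)
    (hnd : (x :: ρ).Nodup) (h2 : l2.length = b) (h3 : l3.length = R) :
    ‖FN K z N (run (x :: ρ) (l1 ++ (l2 ++ l3)))‖ ≤ ‖FP K z N (lst (lst x l1) l2 :: l3)‖
      + 2 * W K N (lst (lst x l1) (l2 ++ l3)) (fun e => ind (¬ ∃ c, b < c ∧ c ≤ b + R ∧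
          List.Disjoint ((lst x l1 :: (l2 ++ l3) ++ e).take c) ((lst x l1 :: (l2 ++ l3) ++ e).drop c)))
      + 2 * W K N (lst (lst x l1) (l2 ++ l3)) (fun e =>
          Pool.Agent.helper20.HP.ind (LHin b (R + N) x ρ (l1 ++ (l2 ++ l3) ++ e))) := by
  set v1 := lst x l1 with hv1
  set v := lst v1 l2 with hv
  set h' := lst v1 (l2 ++ l3) with hh'
  set γ := run (x :: ρ) (l1 ++ (l2 ++ l3)) with hγ
  set cut : List V → Prop := fun e => ∃ c, b < c ∧ c ≤ b + R ∧
    List.Disjoint ((v1 :: (l2 ++ l3) ++ e).take c) ((v1 :: (l2 ++ l3) ++ e).drop c) with hcut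
  set lh : List V → Prop := fun e => LHin b (R + N) x ρ (l1 ++ (l2 ++ l3) ++ e) with hlh
  have hhead : ∃ t, γ = h' :: t := by
    obtain ⟨t, ht⟩ := run_head x ρ (l1 ++ (l2 ++ l3))
    refine ⟨t, ?_⟩
    rw [hγ, ht, LO_lst_append]
  obtain ⟨t, ht⟩ := hhead
  have hN' : (0 : ℝ) < (N : ℝ) := by exact_mod_cast hN
  -- normalised functions
  have e1 : (starRingEnd ℂ) (z ^ γ.length) * FN K z N γ = (N : ℂ)⁻¹ * ∑ s ∈ range N,
      WC K s h' (fun e => (starRingEnd ℂ) (z ^ γ.length)
        * z ^ (run (x :: ρ) (l1 ++ (l2 ++ l3) ++ e)).length) := by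
    have h4 : FN K z N γ = (N : ℂ)⁻¹ * ∑ s ∈ range N,
        WC K s h' (fun e => z ^ (run (x :: ρ) (l1 ++ (l2 ++ l3) ++ e)).length) := by
      rw [ht]
      unfold FN
      simp only
      rw [← ht]
      congr 1
      refine Finset.sum_congr rfl fun s _ => ?_
      congr 1
      funext e
      rw [hγ, ← run_append]
    rw [h4, mul_left_comm, Finset.mul_sum]
    congr 1
    refine Finset.sum_congr rfl fun s _ => ?_
    rw [← WC_mul_left]
  have e2 : cF K z N (v :: l3) = (N : ℂ)⁻¹ * ∑ s ∈ range N,
      WC K s h' (fun e => (starRingEnd ℂ) (z ^ (LEs (v :: l3)).length)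
        * z ^ (LEs (v :: l3 ++ e)).length) := by
    unfold cF
    rw [FP_eq, mul_left_comm, Finset.mul_sum]
    congr 1
    refine Finset.sum_congr rfl fun s _ => ?_
    rw [← WC_mul_left, hv, ← LO_lst_append]
  have e3 : ∀ s ∈ range N, ‖WC K s h' (fun e => (starRingEnd ℂ) (z ^ γ.length)
        * z ^ (run (x :: ρ) (l1 ++ (l2 ++ l3) ++ e)).length
        - (starRingEnd ℂ) (z ^ (LEs (v :: l3)).length) * z ^ (LEs (v :: l3 ++ e)).length)‖
      ≤ 2 * W K N h' (fun e => ind (¬ cut e)) + 2 * W K N h' (fun e =>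
          Pool.Agent.helper20.HP.ind (lh e)) := by
    intro s hs
    rw [Finset.mem_range] at hs
    refine (norm_WC_le K _ _ _).trans ?_
    set g : List V → ℝ := fun e => ‖(starRingEnd ℂ) (z ^ γ.length)
        * z ^ (run (x :: ρ) (l1 ++ (l2 ++ l3) ++ e)).length
        - (starRingEnd ℂ) (z ^ (LEs (v :: l3)).length) * z ^ (LEs (v :: l3 ++ e)).length‖ with hg
    have e6 : N = s + (N - s) := by omega
    have e7 : W K s h' g = W K N h' (fun e => g (e.take s)) := by
      conv_rhs => rw [e6]
      rw [W_take K s (N - s) h' g]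
    rw [e7, ← W_mul_left, ← W_mul_left, ← W_add]
    refine W_mono K fun e he => ?_
    by_cases hc : cut e
    · by_cases hl : lh e
      · rw [ind_false (not_not.mpr hc), mul_zero, zero_add]
        rw [← ind_eq_HP, ind_true hl, mul_one]
        exact LO_norm_le hz _ _ _ _
      · obtain ⟨c, hc1, hc2, hc3⟩ := hc
        have h5 := FNloc_det b R N x ρ l1 l2 l3 e h2 h3 he c hc1 hc2 hc3 hl s
        have h6 : g (e.take s) = 0 := by
          rw [hg]
          simp only
          rw [LO_unit hz h5, sub_self, norm_zero]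
        rw [h6]
        have h7 := ind_nonneg (¬ cut e)
        have h8 := ind_nonneg (lh e)
        rw [ind_eq_HP (lh e)] at h8
        linarith
    · rw [ind_true hc, mul_one]
      have h8 := ind_nonneg (lh e)
      rw [ind_eq_HP (lh e)] at h8
      have h9 : g (e.take s) ≤ 2 := LO_norm_le hz _ _ _ _
      linarith
  have e4 : ‖(starRingEnd ℂ) (z ^ γ.length) * FN K z N γ - cF K z N (v :: l3)‖ ≤
      2 * W K N h' (fun e => ind (¬ cut e)) + 2 * W K N h' (fun e =>
          Pool.Agent.helper20.HP.ind (lh e)) := by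
    rw [e1, e2, ← mul_sub, ← Finset.sum_sub_distrib]
    simp only [← WC_sub]
    rw [norm_mul]
    have e7 := norm_sum_le_of_le (range N) e3
    rw [Finset.sum_const, Finset.card_range, nsmul_eq_mul] at e7
    have e8 : ‖(N : ℂ)⁻¹‖ = (N : ℝ)⁻¹ := by
      rw [norm_inv, Complex.norm_natCast]
    rw [e8]
    refine (mul_le_mul_of_nonneg_left e7 (by positivity)).trans (le_of_eq ?_)
    rw [← mul_assoc, inv_mul_cancel₀ hN'.ne', one_mul]
  have e5 : ‖(starRingEnd ℂ) (z ^ γ.length) * FN K z N γ‖ = ‖FN K z N γ‖ := by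
    rw [norm_mul, map_pow, norm_pow, RCLike.norm_conj, hz, one_pow, one_mul]
  rw [← e5]
  have e9 := norm_sub_norm_le ((starRingEnd ℂ) (z ^ γ.length) * FN K z N γ) (cF K z N (v :: l3))
  rw [norm_cF K hz N (v :: l3)] at e9
  linarith

end Pool.Agent.UQ
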