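import Pool.Agent.UQ.D1

/-!
# A16 FinB : choice of `R` by pigeonhole; all the errors `EB` are small
-/

open Finset Pool.Agent.helper20.HP

namespace Pool.Agent.UQ

variable {V : Type} [Fintype V] [DecidableEq V] (K : HW V)

theorem pigeon (a : ℕ → ℝ) (h0 : ∀ n, 0 ≤ a n) (h1 : ∀ n, a n ≤ 1) (R₀ s : ℕ) {M : ℕ} (hM : 0 < M) :
    ∃ q, q < M ∧ a (R₀ + s * q + s) - a (R₀ + s * q) ≤ 1 / (M : ℝ) := by
  by_contra hcon
  push Not at hcon
  have hsum : ∑ q ∈ range M, (a (R₀ + s * (q + 1)) - a (R₀ + s * q)) = a (R₀ + s * M) - a (R₀ + s * 0) :=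
    Finset.sum_range_sub (fun q => a (R₀ + s * q)) M
  have hlow : ∑ q ∈ range M, (1 / (M : ℝ)) < ∑ q ∈ range M, (a (R₀ + s * (q + 1)) - a (R₀ + s * q)) := by
    apply Finset.sum_lt_sum_of_nonempty
    · exact ⟨0, Finset.mem_range.2 hM⟩
    · intro q hq
      have := hcon q (Finset.mem_range.1 hq)
      rw [mul_add, mul_one, ← add_assoc]
      exact this
  have hM' : (M : ℝ) ≠ 0 := by positivity
  rw [hsum, Finset.sum_const, Finset.card_range, nsmul_eq_mul, mul_one_div_cancel hM'] at hlow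
  have := h0 (R₀ + s * 0)
  have := h1 (R₀ + s * M)
  linarith

theorem fin_bound [Nonempty V] {z : ℂ} (hz : ‖z‖ = 1) {N : ℕ} (hN : 0 < N) {θ : ℝ} (hθ : 1 ≤ θ)
    {r : ℕ} (hr : 1 ≤ r) (m J : ℕ) {M : ℕ} (hM : 0 < M) (R₀ T : ℕ) (o : V) {δ : ℝ}
    (hδ : δ ≤ 1 / 2)
    (hT1 : 4 * r ≤ T) (hT2 : R₀ + (J + 2 * r * m) * M + J + 2 * r * m + N ≤ T)
    (h1 : ∑ u ∈ range (2 * r + 1), ((u : ℝ) + 1) * K.pt u o o ≤ θ)
    (h2 : ∑ u ∈ Ioc r T, ((u : ℝ) + 1) * K.pt u o o ≤ δ) :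
    ∃ R, R₀ ≤ R ∧ R ≤ R₀ + (J + 2 * r * m) * M ∧ ∀ j, j ≤ J →
      EB K z N R (2 * r * m) j ≤
        2 * Real.sqrt (1 / (M : ℝ) + 8 * ((J : ℝ) + 2 * r * m) / (N : ℝ))
          + 2 * ((1 - 1 / (2 * θ)) ^ m + m * δ) := by
  obtain ⟨q, hq, hq'⟩ := pigeon (aR K z N) (aR_nonneg K z N) (aR_le_one K hz N) R₀ (J + 2 * r * m) hM
  set s := J + 2 * r * m with hs
  refine ⟨R₀ + s * q, by omega, by
    have : s * q ≤ s * M := Nat.mul_le_mul_left _ hq.le
    omega, ?_⟩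
  intro j hj
  have hRle : R₀ + s * q + s ≤ R₀ + s * M := by
    have : s * (q + 1) ≤ s * M := Nat.mul_le_mul_left _ hq
    rw [mul_add, mul_one] at this
    omega
  set R := R₀ + s * q with hR
  have hN' : (0 : ℝ) < N := by exact_mod_cast hN
  -- monotonicity estimates
  have hmono : ∀ i, i ≤ s → ∀ i', i ≤ i' → i' ≤ s →
      aR K z N (R + i') - aR K z N (R + i) ≤ 1 / (M : ℝ) + 4 * (s : ℝ) / N := by
    intro i hi i' hii' hi'
    have e1 : aR K z N (R + i') ≤ aR K z N (R + s) + 4 * ((s - i' : ℕ) : ℝ) / N := by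
      have := aR_mono K hz hN (R + i') (s - i')
      rwa [show R + i' + (s - i') = R + s by omega] at this
    have e2 : aR K z N R ≤ aR K z N (R + i) + 4 * (i : ℝ) / N := aR_mono K hz hN R i
    have e3 : ((s - i' : ℕ) : ℝ) + (i : ℝ) ≤ s := by
      have : (s - i') + i ≤ s := by omega
      exact_mod_cast this
    have e4 : 4 * ((s - i' : ℕ) : ℝ) / N + 4 * (i : ℝ) / N ≤ 4 * (s : ℝ) / N := by
      rw [← add_div]
      apply div_le_div_of_nonneg_right _ hN'.le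
      linarith
    linarith
  have hsJ : (s : ℝ) = (J : ℝ) + 2 * r * m := by rw [hs]; push_cast; ring
  have heta : ∀ i l, i + l ≤ s → eta K z N (R + i) l ≤
      Real.sqrt (1 / (M : ℝ) + 8 * ((J : ℝ) + 2 * r * m) / (N : ℝ)) := by
    intro i l hil
    unfold eta
    apply Real.sqrt_le_sqrt
    have e1 := hmono i (by omega) (i + l) (by omega) hil
    rw [← add_assoc] at e1
    have e2 : 4 * (l : ℝ) / N ≤ 4 * (s : ℝ) / N := by
      apply div_le_div_of_nonneg_right _ hN'.le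
      have : (l : ℝ) ≤ s := by
        have : l ≤ s := by omega
        exact_mod_cast this
      linarith
    rw [← hsJ]
    have e3 : 8 * (s : ℝ) / N = 4 * (s : ℝ) / N + 4 * (s : ℝ) / N := by ring
    rw [e3]
    linarith
  have hpos : ∀ u : ℕ, 0 ≤ ((u : ℝ) + 1) * K.pt u o o := fun u =>
    mul_nonneg (by positivity) (pt_nonneg K u o o)
  have hbad : bad K (R + j) (2 * r * m) N ≤ (1 - 1 / (2 * θ)) ^ m + m * δ := by
    refine (bad_le' K hθ hr (R + j) m N o h1 ?_).trans ?_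
    · refine le_trans (Finset.sum_le_sum_of_subset_of_nonneg ?_ (fun u _ _ => hpos u)) (h2.trans hδ)
      exact Finset.Ioc_subset_Ioc_right hT1
    · have : ∑ u ∈ Ioc r (R + j + 2 * r * m + N), ((u : ℝ) + 1) * K.pt u o o ≤ δ := by
        refine le_trans (Finset.sum_le_sum_of_subset_of_nonneg ?_ (fun u _ _ => hpos u)) h2
        apply Finset.Ioc_subset_Ioc_right
        omega
      have h3 := mul_le_mul_of_nonneg_left this (Nat.cast_nonneg m : (0 : ℝ) ≤ m)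
      linarith
  have hA := heta 0 j (by omega)
  have hB := heta j (2 * r * m) (by omega)
  rw [Nat.add_zero] at hA
  unfold EB
  linarith

end Pool.Agent.UQ
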