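import Pool.Agent.UQ.PK

/-!
# B4 Grow : summability forces degree at least 3 and an infinite graph

By Cauchy-Schwarz and `pk_sum`, `pk_add`, `pk_symm`: `pk (2t) o o = ∑_{z ∈ F} (pk t o z)² ≥ 1 / |F|` for a finite set `F` containing the support of `pk t o`.
If `V` is finite take `F = V`: then `∑ (2t+1) pk (2t) o o` diverges, contradicting `Smb`. If `D = 2` the vertices at distance `≤ t` lie on two non-backtracking rays, so there are
at most `2 (t+1)` of them; if `D = 1` there are two vertices. So `(2t+1) pk (2t) o o ≥ 1/2` and the sum diverges.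
If `D = 0`: then `pk t o o = 0` for `t ≥ 1` by the definition of `Ex` (empty sum), so `0 < D` has to be assumed.
-/

open Finset Pool.Agent.helper20.HP

namespace Pool.Agent.UQ

variable {V : Type} {D : ℕ} {nb : V → Fin D → V}

theorem pk_lower (hr : Reg nb) (hD : 0 < D) (t : ℕ) (o : V) (F : Finset V)
    (hF : ∀ z, pk nb t o z ≠ 0 → z ∈ F) : 1 / (F.card : ℝ) ≤ pk nb (2 * t) o o := by
  have h1 : pk nb (2 * t) o o = ∑ z ∈ F, pk nb t o z ^ 2 := by
    rw [two_mul, pk_add t t o o F hF]
    refine Finset.sum_congr rfl fun z _ => ?_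
    rw [pk_symm hr t z o, sq]
  have h2 := pk_sum hD t o F hF
  have h3 := sq_sum_le_card_mul_sum_sq (s := F) (f := fun z => pk nb t o z)
  rw [h2, one_pow] at h3
  have h4 : 0 < F.card := by
    rcases Nat.eq_zero_or_pos F.card with h | h
    · rw [Finset.card_eq_zero] at h
      rw [h, Finset.sum_empty] at h2
      exact absurd h2 zero_ne_one
    · exact h
  have h5 : (0 : ℝ) < F.card := by exact_mod_cast h4
  rw [h1, div_le_iff₀ h5]
  linarith

/-- the Green sum diverges if balls grow at most linearly -/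
theorem Grow_div (hr : Reg nb) (hD : 0 < D) {θ : ℝ} (h : Smb nb θ) (o : V) (C : ℕ) (hC : 0 < C)
    (hF : ∀ t : ℕ, ∃ F : Finset V, (∀ w : List (Lt D), w.length = t → endp nb o w ∈ F) ∧
      F.card ≤ C * (t + 1)) : False := by
  have hCr : (0 : ℝ) < C := by exact_mod_cast hC
  have key : ∀ t : ℕ, 1 / (C : ℝ) ≤ (2 * (t : ℝ) + 1) * pk nb (2 * t) o o := by
    intro t
    obtain ⟨F, hF1, hF2⟩ := hF t
    have h1 := pk_lower hr hD t o F (fun z hz => by
      obtain ⟨w, hw, he⟩ := pk_reach hz
      exact he ▸ hF1 w hw)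
    have hpos : 0 < F.card := Finset.card_pos.mpr
      ⟨_, hF1 (List.replicate t (true, ⟨0, hD⟩)) (List.length_replicate ..)⟩
    have hpos' : (0 : ℝ) < F.card := by exact_mod_cast hpos
    have hle : (F.card : ℝ) ≤ C * (t + 1) := by exact_mod_cast hF2
    have ht : (0 : ℝ) ≤ t := Nat.cast_nonneg t
    have h2 : 1 / (C * ((t : ℝ) + 1)) ≤ pk nb (2 * t) o o :=
      (one_div_le_one_div_of_le hpos' hle).trans h1
    calc 1 / (C : ℝ) ≤ (2 * (t : ℝ) + 1) * (1 / (C * ((t : ℝ) + 1))) := by
          rw [mul_one_div, div_le_div_iff₀ hCr (by positivity)]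
          nlinarith
      _ ≤ (2 * (t : ℝ) + 1) * pk nb (2 * t) o o := by gcongr
  have hsum : ∀ M : ℕ, (M : ℝ) / C ≤ ∑ t ∈ range (2 * M), ((t : ℝ) + 1) * pk nb t o o := by
    intro M
    induction M with
    | zero => simp
    | succ M ih =>
      have e1 : 2 * (M + 1) = 2 * M + 1 + 1 := by ring
      rw [e1, Finset.sum_range_succ, Finset.sum_range_succ]
      have h1 := key M
      have h2 : 0 ≤ (((2 * M + 1 : ℕ) : ℝ) + 1) * pk nb (2 * M + 1) o o :=
        mul_nonneg (by positivity) (pk_nonneg _ _ _)
      have h3 : (((2 * M : ℕ) : ℝ) + 1) = 2 * (M : ℝ) + 1 := by push_cast; ring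
      rw [h3]
      have h4 : ((M + 1 : ℕ) : ℝ) / C = M / C + 1 / C := by push_cast; ring
      rw [h4]
      linarith
  obtain ⟨M, hM⟩ := exists_nat_gt (θ * C)
  have h1 := hsum M
  have h2 := h o (2 * M)
  have h3 : θ < M / C := by rw [lt_div_iff₀ hCr]; exact hM
  linarith

/-- the other neighbour in a 2-regular graph -/
noncomputable def Grow_other (nb : V → Fin 2 → V) (c p : V) : V := by
  classical exact if nb c 0 = p then nb c 1 else nb c 0

theorem Grow_other_spec {nb : V → Fin 2 → V} {c p : V} (hp : ∃ j, nb c j = p) (i : Fin 2) :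
    nb c i = p ∨ nb c i = Grow_other nb c p := by
  classical
  obtain ⟨j, hj⟩ := hp
  unfold Grow_other
  by_cases h : nb c 0 = p
  · simp only [h, if_true]
    fin_cases i
    · exact Or.inl h
    · exact Or.inr rfl
  · simp only [h, if_false]
    fin_cases i
    · exact Or.inr rfl
    · left
      fin_cases j
      · exact absurd hj h
      · exact hj

theorem Grow_other_nb {nb : V → Fin 2 → V} (c p : V) : ∃ k, nb c k = Grow_other nb c p := by
  classical
  unfold Grow_other
  by_cases h : nb c 0 = p
  · simp only [h, if_true]; exact ⟨1, rfl⟩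
  · simp only [h, if_false]; exact ⟨0, rfl⟩

/-- non-backtracking ray: pairs (previous, current) -/
noncomputable def Grow_ray (nb : V → Fin 2 → V) (o : V) (i : Fin 2) : ℕ → V × V
  | 0 => (o, nb o i)
  | n + 1 => ((Grow_ray nb o i n).2, Grow_other nb (Grow_ray nb o i n).2 (Grow_ray nb o i n).1)

theorem Grow_ray_inv {nb : V → Fin 2 → V} (hr : Reg nb) (o : V) (i : Fin 2) (n : ℕ) :
    ∃ j, nb (Grow_ray nb o i n).2 j = (Grow_ray nb o i n).1 := by
  cases n with
  | zero => exact hr.symm o i
  | succ n =>
    obtain ⟨k, hk⟩ := Grow_other_nb (nb := nb) (Grow_ray nb o i n).2 (Grow_ray nb o i n).1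
    obtain ⟨j, hj⟩ := hr.symm (Grow_ray nb o i n).2 k
    exact ⟨j, by
      show nb (Grow_other nb _ _) j = _
      rw [← hk]; exact hj⟩

theorem Grow_ball2 {nb : V → Fin 2 → V} (hr : Reg nb) (o : V) (w : List (Lt 2)) :
    ∃ i : Fin 2, ∃ s ≤ w.length, endp nb o w = (Grow_ray nb o i s).1 := by
  induction w using List.reverseRecOn with
  | nil => exact ⟨0, 0, le_rfl, rfl⟩
  | append_singleton w l ih =>
    obtain ⟨i, s, hs, he⟩ := ih
    rw [endp_append, he]
    obtain ⟨b, k⟩ := l
    cases b with
    | false => exact ⟨i, s, by simp; omega, rfl⟩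
    | true =>
      show ∃ i', ∃ s' ≤ _, nb (Grow_ray nb o i s).1 k = _
      cases s with
      | zero => exact ⟨k, 1, by simp, rfl⟩
      | succ s =>
        have h1 : (Grow_ray nb o i (s + 1)).1 = (Grow_ray nb o i s).2 := rfl
        rw [h1]
        rcases Grow_other_spec (Grow_ray_inv hr o i s) k with h | h
        · exact ⟨i, s, by simp; omega, h⟩
        · exact ⟨i, s + 2, by simp; omega, h⟩

theorem Grow_ball1 {nb : V → Fin 1 → V} (hr : Reg nb) (o : V) (w : List (Lt 1)) :
    endp nb o w = o ∨ endp nb o w = nb o 0 := by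
  induction w using List.reverseRecOn with
  | nil => exact Or.inl rfl
  | append_singleton w l ih =>
    rw [endp_append]
    obtain ⟨b, k⟩ := l
    have hk : k = 0 := Subsingleton.elim _ _
    subst hk
    cases b with
    | false => exact ih
    | true =>
      show nb (endp nb o w) 0 = o ∨ nb (endp nb o w) 0 = nb o 0
      rcases ih with h | h
      · rw [h]; exact Or.inr rfl
      · rw [h]
        obtain ⟨j, hj⟩ := hr.symm o 0
        have : j = 0 := Subsingleton.elim _ _
        subst this
        exact Or.inl hj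

theorem grow (hr : Reg nb) (hD : 0 < D) {θ : ℝ} (h : Smb nb θ) (o : V) :
    3 ≤ D ∧ Infinite V := by
  classical
  constructor
  · by_contra hlt
    have hD' : D = 1 ∨ D = 2 := by omega
    rcases hD' with rfl | rfl
    · refine Grow_div hr hD h o 2 two_pos fun t => ⟨{o, nb o 0}, fun w _ => ?_, ?_⟩
      · rcases Grow_ball1 hr o w with h | h <;> simp [h]
      · have : ({o, nb o 0} : Finset V).card ≤ 2 := Finset.card_le_two
        omega
    · refine Grow_div hr hD h o 2 two_pos fun t =>
        ⟨(range (t + 1)).image (fun s => (Grow_ray nb o 0 s).1) ∪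
          (range (t + 1)).image (fun s => (Grow_ray nb o 1 s).1), fun w hw => ?_, ?_⟩
      · obtain ⟨i, s, hs, he⟩ := Grow_ball2 hr o w
        rw [he, Finset.mem_union, Finset.mem_image, Finset.mem_image]
        fin_cases i
        · exact Or.inl ⟨s, Finset.mem_range.mpr (by omega), rfl⟩
        · exact Or.inr ⟨s, Finset.mem_range.mpr (by omega), rfl⟩
      · refine (Finset.card_union_le _ _).trans ?_
        have h1 := Finset.card_image_le (s := range (t + 1)) (f := fun s => (Grow_ray nb o 0 s).1)
        have h2 := Finset.card_image_le (s := range (t + 1)) (f := fun s => (Grow_ray nb o 1 s).1)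
        rw [Finset.card_range] at h1 h2
        omega
  · by_contra hinf
    rw [not_infinite_iff_finite] at hinf
    have := Fintype.ofFinite V
    refine Grow_div hr hD h o (Fintype.card V) (Fintype.card_pos_iff.mpr ⟨o⟩) fun t =>
      ⟨Finset.univ, fun w _ => Finset.mem_univ _, ?_⟩
    rw [Finset.card_univ]
    exact Nat.le_mul_of_pos_right _ (Nat.succ_pos t)

end Pool.Agent.UQ
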