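import Pool.Agent.UQ.WSym

/-!
# A3 PT : transition probabilities of `K` and coincidences of the walk
-/

open Finset Pool.Agent.helper20.HP

namespace Pool.Agent.UQ

variable {V : Type} [Fintype V] [DecidableEq V] (K : HW V)

theorem PT_pt_zero (x y : V) : K.pt 0 x y = if x = y then 1 else 0 := rfl

theorem PT_pt_succ (t : ℕ) (x y : V) : K.pt (t + 1) x y = ∑ z, K.p x z * K.pt t z y := rfl

theorem W_last_eq (t : ℕ) (x y : V) : W K t x (fun l => ind (lst x l = y)) = K.pt t x y := by
  induction t generalizing x with
  | zero =>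
    rw [WSym_W_zero, PT_pt_zero]
    exact ind_eq_ite _
  | succ t ih =>
    rw [WSym_W_succ, PT_pt_succ]
    refine Finset.sum_congr rfl (fun z _ => ?_)
    rw [← ih]
    simp_rw [WSym_lst_cons]

theorem pt_nonneg (t : ℕ) (x y : V) : 0 ≤ K.pt t x y := by
  rw [← W_last_eq]
  exact W_nonneg K (fun l _ => ind_nonneg _)

theorem PT_lst_map (σ : Equiv.Perm V) (x : V) (l : List V) : lst (σ x) (l.map σ) = σ (lst x l) := by
  induction l generalizing x with
  | nil => rfl
  | cons z l ih => rw [List.map_cons, WSym_lst_cons, WSym_lst_cons]; exact ih z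

theorem PT_lst_append (x : V) (l m : List V) : lst x (l ++ m) = lst (lst x l) m := by
  induction l generalizing x with
  | nil => rfl
  | cons z l ih => rw [List.cons_append, WSym_lst_cons, WSym_lst_cons]; exact ih z

theorem pt_homog (t : ℕ) (x y : V) : K.pt t x x = K.pt t y y := by
  obtain ⟨σ, hσ, hxy⟩ := K.homog x y
  rw [← W_last_eq, ← W_last_eq, ← hxy, W_map K σ hσ]
  refine W_congr K (fun l _ => ?_)
  rw [PT_lst_map]
  exact ind_congr (σ.apply_eq_iff_eq).symm

/-- a function of the last vertex -/
theorem PT_last (s : ℕ) (x : V) (G : V → ℝ) :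
    W K s x (fun l => G (lst x l)) = ∑ z, K.pt s x z * G z := by
  have h : W K s x (fun l => G (lst x l)) =
      W K s x (fun l => ∑ z, G z * ind (lst x l = z)) := by
    refine W_congr K (fun l _ => ?_)
    rw [Finset.sum_eq_single (lst x l)]
    · rw [ind_true rfl, mul_one]
    · intro b _ hb
      rw [ind_false (fun h => hb h.symm), mul_zero]
    · intro h; exact absurd (Finset.mem_univ _) h
  rw [h, W_sum]
  refine Finset.sum_congr rfl (fun z _ => ?_)
  rw [W_mul_left, W_last_eq, mul_comm]

theorem pt_add (s t : ℕ) (x y : V) : ∑ z, K.pt s x z * K.pt t z y = K.pt (s + t) x y := by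
  rw [← W_last_eq K (s + t), W_append, ← PT_last K s x (fun z => K.pt t z y)]
  refine W_congr K (fun l _ => ?_)
  rw [← W_last_eq]
  refine W_congr K (fun m _ => ?_)
  rw [PT_lst_append]

theorem PT_pt_one (x y : V) : K.pt 1 x y = K.p x y := by
  rw [PT_pt_succ, Finset.sum_eq_single y]
  · rw [PT_pt_zero, if_pos rfl, mul_one]
  · intro b _ hb
    rw [PT_pt_zero, if_neg hb, mul_zero]
  · intro h; exact absurd (Finset.mem_univ _) h

theorem pt_symm (t : ℕ) (x y : V) : K.pt t x y = K.pt t y x := by
  induction t generalizing x y with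
  | zero =>
    rw [PT_pt_zero, PT_pt_zero]
    by_cases h : x = y
    · rw [if_pos h, if_pos h.symm]
    · rw [if_neg h, if_neg (fun h' => h h'.symm)]
  | succ t ih =>
    rw [PT_pt_succ, ← pt_add K t 1 y x]
    refine Finset.sum_congr rfl (fun z _ => ?_)
    rw [PT_pt_one, ih z y, K.symm x z, mul_comm]

theorem PT_getD_length (x d : V) (l : List V) : (x :: l).getD l.length d = lst x l := by
  induction l generalizing x with
  | nil => rfl
  | cons z l ih =>
    rw [WSym_lst_cons, ← ih z]
    rfl

theorem PT_getD_append (x d : V) (l m : List V) (j : ℕ) :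
    (x :: (l ++ m)).getD (l.length + j) d = (lst x l :: m).getD j d := by
  induction l generalizing x with
  | nil => simp only [List.length_nil, Nat.zero_add, List.nil_append]; rfl
  | cons z l ih =>
    rw [WSym_lst_cons, ← ih z, List.length_cons, Nat.add_right_comm]
    rfl

/-- a function of the vertex at time `s` -/
theorem PT_getD {s m : ℕ} (hs : s ≤ m) (x d : V) (G : V → ℝ) :
    W K m x (fun a => G ((x :: a).getD s d)) = ∑ z, K.pt s x z * G z := by
  obtain ⟨k, rfl⟩ := Nat.exists_eq_add_of_le hs
  rw [W_append, ← PT_last K s x G]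
  refine W_congr K (fun l hl => ?_)
  have h : ∀ m : List V, (x :: (l ++ m)).getD s d = lst x l := by
    intro m
    have := PT_getD_append x d l m 0
    rw [Nat.add_zero, hl] at this
    rw [this]
    rfl
  simp_rw [h]
  rw [W_const]

/-- two independent walks from `x` meet at times `s`, `t` with probability `p_{s+t}(x,x)` -/
theorem W_meet {s t m n : ℕ} (hs : s ≤ m) (ht : t ≤ n) (x : V) :
    W K m x (fun a => W K n x (fun b => ind ((x :: a).getD s x = (x :: b).getD t x))) =
      K.pt (s + t) x x := by
  rw [PT_getD K hs x x (fun z => W K n x (fun b => ind (z = (x :: b).getD t x))), ← pt_add]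
  refine Finset.sum_congr rfl (fun z _ => ?_)
  rw [PT_getD K ht x x (fun w => ind (z = w)), Finset.sum_eq_single z]
  · rw [ind_true rfl, mul_one, pt_symm K t x z]
  · intro b _ hb
    rw [ind_false (fun h => hb h.symm), mul_zero]
  · intro h; exact absurd (Finset.mem_univ _) h

/-- the walk is at the same place at times `s ≤ t` with probability `p_{t-s}` -/
theorem W_coinc {s t k : ℕ} (hst : s ≤ t) (ht : t ≤ k) (x o : V) :
    W K k x (fun l => ind ((x :: l).getD s x = (x :: l).getD t x)) = K.pt (t - s) o o := by
  obtain ⟨j, rfl⟩ := Nat.exists_eq_add_of_le hst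
  obtain ⟨n, rfl⟩ := Nat.exists_eq_add_of_le ht
  rw [Nat.add_sub_cancel_left, Nat.add_assoc, W_append]
  have h : ∀ l : List V, l.length = s →
      W K (j + n) (lst x l) (fun m => ind ((x :: (l ++ m)).getD s x = (x :: (l ++ m)).getD (s + j) x))
        = K.pt j o o := by
    intro l hl
    have h1 : ∀ m : List V, (x :: (l ++ m)).getD s x = lst x l := by
      intro m
      have := PT_getD_append x x l m 0
      rw [Nat.add_zero, hl] at this
      rw [this]
      rfl
    have h2 : ∀ m : List V, (x :: (l ++ m)).getD (s + j) x = (lst x l :: m).getD j x := by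
      intro m
      have := PT_getD_append x x l m j
      rw [hl] at this
      exact this
    simp_rw [h1, h2]
    rw [PT_getD K (Nat.le_add_right j n) (lst x l) x (fun z => ind (lst x l = z)),
      Finset.sum_eq_single (lst x l)]
    · rw [ind_true rfl, mul_one]
      exact pt_homog K j _ _
    · intro b _ hb
      rw [ind_false (fun h => hb h.symm), mul_zero]
    · intro h; exact absurd (Finset.mem_univ _) h
  rw [W_congr K h, W_const]

end Pool.Agent.UQ
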