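import Pool.Agent.UQ.ExBasic
import Pool.Agent.UQ.PT

/-!
# B7 KB : bridge between a kernel `K : HW V` and a labelled graph `nb` with the same one step probabilities
-/

open Finset Pool.Agent.helper20.HP

namespace Pool.Agent.UQ

variable {V : Type} [Fintype V] [DecidableEq V] {D : ℕ}

/-- `K` is the lazy walk on the labelled graph `nb` -/
def KerOf (K : HW V) (nb : V → Fin D → V) : Prop :=
  ∀ x y, K.p x y = (2 * (D : ℝ))⁻¹ * ∑ l : Lt D, ind (mv nb x l = y)

variable {K : HW V} {nb : V → Fin D → V}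

theorem KB_sum (h : KerOf K nb) (x : V) (g : V → ℝ) :
    ∑ y, K.p x y * g y = (2 * (D : ℝ))⁻¹ * ∑ l : Lt D, g (mv nb x l) := by
  have e : ∀ y, K.p x y * g y = (2 * (D : ℝ))⁻¹ * ∑ l : Lt D, ind (mv nb x l = y) * g y := by
    intro y
    rw [h x y, mul_assoc, Finset.sum_mul]
  rw [Finset.sum_congr rfl (fun y _ => e y), ← Finset.mul_sum, Finset.sum_comm]
  congr 1
  refine Finset.sum_congr rfl (fun l _ => ?_)
  rw [Finset.sum_eq_single (mv nb x l)]
  · rw [ind_true rfl, one_mul]
  · intro y _ hy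
    rw [ind_false (fun hh => hy hh.symm), zero_mul]
  · intro hh
    exact absurd (Finset.mem_univ _) hh

theorem Ex_eq_W (h : KerOf K nb) (k : ℕ) (x : V) (f : List V → ℝ) : Ex nb k x f = W K k x f := by
  induction k generalizing x f with
  | zero => rfl
  | succ k ih =>
    have h1 := KB_sum h x (fun y => W K k y (fun l => f (y :: l)))
    have h2 : W K (k + 1) x f = ∑ y, K.p x y * W K k y (fun l => f (y :: l)) := rfl
    have h3 : Ex nb (k + 1) x f = (2 * (D : ℝ))⁻¹ * ∑ l : Lt D, Ex nb k (mv nb x l)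
      (fun m => f (mv nb x l :: m)) := rfl
    rw [h2, h1, h3]
    simp only [ih]

theorem KB_pt (K : HW V) (t : ℕ) (x y : V) : W K t x (fun m => ind (lst x m = y)) = K.pt t x y := by
  induction t generalizing x with
  | zero =>
    show ind (lst x [] = y) = if x = y then 1 else 0
    rw [ind_eq_ite]
    rfl
  | succ t ih =>
    show ∑ z, K.p x z * W K t z (fun m => ind (lst x (z :: m) = y)) = ∑ z, K.p x z * ptOf K.p t z y
    refine Finset.sum_congr rfl (fun z _ => ?_)
    congr 1
    have h1 : ∀ m : List V, lst x (z :: m) = lst z m := by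
      intro m
      cases m <;> rfl
    simp only [h1]
    exact ih z

theorem pk_eq_pt (h : KerOf K nb) (t : ℕ) (x y : V) : pk nb t x y = K.pt t x y := by
  unfold pk
  rw [Ex_eq_W h, KB_pt]

theorem kp1_eq_kap1 (h : KerOf K nb) (R l : ℕ) (v : V) : kp1 nb R l v = kap1 K R l v := by
  unfold kp1 kap1
  rw [KB_sum h v (fun y => W K R v (fun a => W K R y (fun c => W K l v (fun b => W K l y (fun e =>
    ind (cfg1 v y a c b e))))))]
  simp only [Ex_eq_W h]

theorem kp2_eq_kap2 (h : KerOf K nb) (g i R l : ℕ) (v : V) : kp2 nb g i R l v = kap2 K g i R l v := by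
  unfold kp2 kap2
  simp only [Ex_eq_W h]

end Pool.Agent.UQ
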