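import Pool.Agent.UQ.NL

/-!
# A10 LO : locality

`p = x :: l` (`R` steps, last vertex `h = lst x l`), `b` = `j` further steps, `h' = lst h b`. By `FP_eq`,
`cF (p ++ b) - cF (h :: b) = N⁻¹ ∑_{s<N} WC s h' (e ↦ conj(z^|LEs(p++b)|) z^|LEs(p++b++e)| - conj(z^|LEs(h::b)|) z^|LEs(h::b++e)|)`.
If there is a range cut of `p ++ b ++ e` at a time `c ∈ (R, R+j]` the integrand vanishes (`length_cut`, `‖z‖ = 1`); otherwise it
is at most `2`. A cut for the longer future `e'` (`N` steps) is a cut for its prefix `e` (`s ≤ N` steps), so `P(no cut, s steps) ≤ P(no cut, N steps)`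
(`W_take`). Sum up and use `W_append` twice: total `≤ 2 * bad R j N`.
`LO_pt` is the pointwise version, `LO_avg` the average.
-/

open Finset Pool.Agent.helper20.HP

namespace Pool.Agent.UQ

variable {V : Type} [Fintype V] [DecidableEq V] (K : HW V)

omit [Fintype V] [DecidableEq V] in
theorem LO_lst_append (x : V) (l l' : List V) : lst x (l ++ l') = lst (lst x l) l' := by
  induction l generalizing x with
  | nil => rfl
  | cons y l ih =>
    have h1 : ∀ (x y : V) (l : List V), lst x (y :: l) = lst y l := by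
      intro x y l
      unfold lst
      cases l <;> simp [List.getLastD]
    rw [List.cons_append, h1, h1, ih]

omit [Fintype V] [DecidableEq V] in
theorem LO_getLast? (x : V) (l : List V) : (x :: l).getLast? = some (lst x l) := by
  unfold lst
  rw [List.getLast?_cons, List.getLastD_eq_getLast?]

theorem LO_unit {z : ℂ} (hz : ‖z‖ = 1) {A A' B B' : ℕ} (h : A' + B = A + B') :
    (starRingEnd ℂ) (z ^ A) * z ^ A' = (starRingEnd ℂ) (z ^ B) * z ^ B' := by
  have h1 : (starRingEnd ℂ) z * z = 1 := by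
    rw [mul_comm, Complex.mul_conj, Complex.normSq_eq_norm_sq, hz]
    norm_num
  set u := (starRingEnd ℂ) z with hu
  rw [map_pow, map_pow, ← hu]
  have h2 : ∀ n : ℕ, u ^ n * z ^ n = 1 := fun n => by rw [← mul_pow, h1, one_pow]
  calc u ^ A * z ^ A' = u ^ A * z ^ A' * (u ^ B * z ^ B) := by rw [h2, mul_one]
    _ = u ^ A * u ^ B * z ^ (A' + B) := by rw [pow_add]; ring
    _ = u ^ A * u ^ B * z ^ (A + B') := by rw [h]
    _ = (u ^ A * z ^ A) * (u ^ B * z ^ B') := by rw [pow_add]; ring
    _ = u ^ B * z ^ B' := by rw [h2, one_mul]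

theorem LO_norm_le {z : ℂ} (hz : ‖z‖ = 1) (A A' B B' : ℕ) :
    ‖(starRingEnd ℂ) (z ^ A) * z ^ A' - (starRingEnd ℂ) (z ^ B) * z ^ B'‖ ≤ 2 := by
  refine (norm_sub_le _ _).trans ?_
  simp only [map_pow, norm_mul, norm_pow, RCLike.norm_conj, hz, one_pow, mul_one]
  norm_num

theorem LO_pt {z : ℂ} (hz : ‖z‖ = 1) {N : ℕ} (hN : 0 < N) (x : V) (l b : List V) :
    ‖cF K z N (x :: l ++ b) - cF K z N (lst x l :: b)‖ ≤
      2 * W K N (lst x (l ++ b)) (fun e => ind (¬ ∃ c, l.length < c ∧ c ≤ l.length + b.length ∧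
        List.Disjoint ((x :: l ++ b ++ e).take c) ((x :: l ++ b ++ e).drop c))) := by
  set cut : List V → Prop := fun e => ∃ c, l.length < c ∧ c ≤ l.length + b.length ∧
        List.Disjoint ((x :: l ++ b ++ e).take c) ((x :: l ++ b ++ e).drop c) with hcut
  set h' := lst x (l ++ b) with hh'
  have e1 : cF K z N (x :: l ++ b) = (N : ℂ)⁻¹ * ∑ s ∈ range N,
      WC K s h' (fun e => (starRingEnd ℂ) (z ^ (LEs (x :: l ++ b)).length)
        * z ^ (LEs (x :: l ++ b ++ e)).length) := by
    unfold cF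
    rw [List.cons_append, FP_eq, mul_left_comm, Finset.mul_sum]
    congr 1
    refine Finset.sum_congr rfl fun s _ => ?_
    rw [← WC_mul_left]
  have e2 : cF K z N (lst x l :: b) = (N : ℂ)⁻¹ * ∑ s ∈ range N,
      WC K s h' (fun e => (starRingEnd ℂ) (z ^ (LEs (lst x l :: b)).length)
        * z ^ (LEs (lst x l :: b ++ e)).length) := by
    unfold cF
    rw [FP_eq, mul_left_comm, Finset.mul_sum]
    congr 1
    refine Finset.sum_congr rfl fun s _ => ?_
    rw [← WC_mul_left, ← LO_lst_append]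
  rw [e1, e2, ← mul_sub, ← Finset.sum_sub_distrib]
  simp only [← WC_sub]
  rw [norm_mul]
  have e3 : ∀ s ∈ range N, ‖WC K s h' (fun e => (starRingEnd ℂ) (z ^ (LEs (x :: l ++ b)).length)
        * z ^ (LEs (x :: l ++ b ++ e)).length - (starRingEnd ℂ) (z ^ (LEs (lst x l :: b)).length)
        * z ^ (LEs (lst x l :: b ++ e)).length)‖ ≤ 2 * W K N h' (fun e => ind (¬ cut e)) := by
    intro s hs
    rw [Finset.mem_range] at hs
    refine (norm_WC_le K _ _ _).trans ?_
    have e4 : W K s h' (fun e => ‖(starRingEnd ℂ) (z ^ (LEs (x :: l ++ b)).length)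
        * z ^ (LEs (x :: l ++ b ++ e)).length - (starRingEnd ℂ) (z ^ (LEs (lst x l :: b)).length)
        * z ^ (LEs (lst x l :: b ++ e)).length‖) ≤ W K s h' (fun e => 2 * ind (¬ cut e)) := by
      refine W_mono K fun e _ => ?_
      by_cases hc : cut e
      · rw [ind_false (not_not.mpr hc), mul_zero]
        obtain ⟨c, hc1, hc2, hc3⟩ := hc
        have e5 := length_cut (x :: l) (lst x l) b e (LO_getLast? x l) c
          (by rw [List.length_cons]; omega)
          (by rw [List.length_append, List.length_cons]; omega) hc3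
        rw [LO_unit hz e5, sub_self, norm_zero]
      · rw [ind_true hc, mul_one]
        exact LO_norm_le hz _ _ _ _
    refine e4.trans ?_
    rw [W_mul_left]
    refine mul_le_mul_of_nonneg_left ?_ (by norm_num)
    have e6 : N = s + (N - s) := by omega
    conv_rhs => rw [e6]
    rw [← W_take K s (N - s) h' (fun e => ind (¬ cut e))]
    refine W_mono K fun e _ => ?_
    apply ind_mono
    intro h1 h2
    apply h1
    obtain ⟨c, hc1, hc2, hc3⟩ := h2
    refine ⟨c, hc1, hc2, ?_⟩
    have hlen : c ≤ (x :: l ++ b).length := by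
      rw [List.length_append, List.length_cons]
      omega
    rw [List.take_append_of_le_length hlen, List.drop_append_of_le_length hlen] at hc3 ⊢
    intro u hu1 hu2
    refine hc3 hu1 ?_
    rw [List.mem_append] at hu2 ⊢
    rcases hu2 with hu2 | hu2
    · exact Or.inl hu2
    · exact Or.inr (List.mem_of_mem_take hu2)
  have e7 := norm_sum_le_of_le (range N) e3
  rw [Finset.sum_const, Finset.card_range, nsmul_eq_mul] at e7
  have hN' : (0 : ℝ) < (N : ℝ) := by exact_mod_cast hN
  have e8 : ‖(N : ℂ)⁻¹‖ = (N : ℝ)⁻¹ := by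
    rw [norm_inv, Complex.norm_natCast]
  rw [e8]
  refine (mul_le_mul_of_nonneg_left e7 (by positivity)).trans (le_of_eq ?_)
  rw [← mul_assoc, inv_mul_cancel₀ hN'.ne', one_mul]

theorem LO_avg [Nonempty V] {z : ℂ} (hz : ‖z‖ = 1) {N : ℕ} (hN : 0 < N) (R j : ℕ) :
    avg (fun x => W K R x (fun l => W K j (lst x l) (fun b =>
      ‖cF K z N (x :: l ++ b) - cF K z N (lst x l :: b)‖))) ≤ 2 * bad K R j N := by
  unfold bad
  rw [← avg_mul_left]
  refine avg_mono fun x => ?_
  rw [W_append K (R + j) N, W_append K R j, ← W_mul_left]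
  refine W_mono K fun l hl => ?_
  rw [← W_mul_left]
  refine W_mono K fun b hb => ?_
  refine (LO_pt K hz hN x l b).trans (le_of_eq ?_)
  rw [hl, hb]
  congr 1

end Pool.Agent.UQ
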