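import Pool.Agent.UQ.Base

/-!
# B5 Lim : local limit along an ultrafilter

`P = (∀ k, V k) / (eventually equal along 𝒰)`, `nbP [x] i = [k ↦ nb k (x k) i]`, root `oP = [o]`; `U = {g : P | ∃ w, g = endp nbP oP w}`,
which is closed under `nbP`. Note `endp nbP [x] w = [k ↦ endp (nb k) (x k) w]`.
* `Reg`: injectivity: `nbP g i = nbP g j` means `nb k (x k) i = nb k (x k) j` eventually, hence `i = j` (𝒰 is nontrivial). Symmetry: for `𝒰`-most `k` there is
  `j` with `nb k (nb k (x k) i) j = x k`; `Fin D` is finite, so one `j` works for `𝒰`-most `k`.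
* `Cnn`: every point is reachable from the root and adjacency is symmetric.
* `Tra`: it suffices to map the root to any given point `g = [x] ∈ U` (compose with an inverse). Choose `φ k ∈ Aut(nb k)` with `φ k (o k) = x k` for those `k` for which `nb k` is transitive,
  and the identity otherwise; `Φ [y] = [k ↦ φ k (y k)]` is a bijection of `P` (inverse from `(φ k).symm`) and preserves adjacency in both directions (adjacency of `[y],[y']` iff `Adj (nb k) (y k) (y' k)` for `𝒰`-most `k`, again by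
  finiteness of `Fin D`); so it maps the connected component `U` of `oP` onto the component of `g`, which is `U`.
* last claim: for fixed `L` there are finitely many pairs of words; `endp nbP oP w = endp nbP oP w'` iff eventually `endp (nb k) (o k) w = endp (nb k) (o k) w'`, and for an ultrafilter the
  negation also holds eventually.
-/

open Finset Filter Pool.Agent.helper20.HP

namespace Pool.Agent.UQ

/-- the ultraproduct -/
def Lim_P (𝒰 : Ultrafilter ℕ) (V : ℕ → Type) : Type :=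
  Quotient (Filter.productSetoid (𝒰 : Filter ℕ) V)

/-- class of a sequence -/
def Lim_mk (𝒰 : Ultrafilter ℕ) (V : ℕ → Type) (x : ∀ k, V k) : Lim_P 𝒰 V :=
  Quotient.mk (Filter.productSetoid (𝒰 : Filter ℕ) V) x

theorem Lim_mk_eq {𝒰 : Ultrafilter ℕ} {V : ℕ → Type} {x y : ∀ k, V k} :
    Lim_mk 𝒰 V x = Lim_mk 𝒰 V y ↔ ∀ᶠ k in (𝒰 : Filter ℕ), x k = y k := by
  exact Quotient.eq (r := Filter.productSetoid (𝒰 : Filter ℕ) V)

theorem Lim_mk_surj {𝒰 : Ultrafilter ℕ} {V : ℕ → Type} (g : Lim_P 𝒰 V) :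
    ∃ x, g = Lim_mk 𝒰 V x := by
  obtain ⟨x, hx⟩ := Quotient.exists_rep g
  exact ⟨x, hx.symm⟩

/-- neighbours in the ultraproduct -/
def Lim_nb {D : ℕ} (𝒰 : Ultrafilter ℕ) (V : ℕ → Type) (nb : ∀ k, V k → Fin D → V k)
    (g : Lim_P 𝒰 V) (i : Fin D) : Lim_P 𝒰 V :=
  Quotient.liftOn g (fun x => Lim_mk 𝒰 V (fun k => nb k (x k) i)) (by
    intro a b hab
    have hab' : ∀ᶠ k in (𝒰 : Filter ℕ), a k = b k := hab
    rw [Lim_mk_eq]
    filter_upwards [hab'] with k hk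
    rw [hk])

theorem Lim_nb_mk {D : ℕ} (𝒰 : Ultrafilter ℕ) (V : ℕ → Type) (nb : ∀ k, V k → Fin D → V k)
    (x : ∀ k, V k) (i : Fin D) :
    Lim_nb 𝒰 V nb (Lim_mk 𝒰 V x) i = Lim_mk 𝒰 V (fun k => nb k (x k) i) := rfl

theorem Lim_endp_mk {D : ℕ} (𝒰 : Ultrafilter ℕ) (V : ℕ → Type) (nb : ∀ k, V k → Fin D → V k)
    (w : List (Lt D)) : ∀ (x : ∀ k, V k),
    endp (Lim_nb 𝒰 V nb) (Lim_mk 𝒰 V x) w = Lim_mk 𝒰 V (fun k => endp (nb k) (x k) w) := by
  induction w with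
  | nil => intro x; rfl
  | cons l w ih =>
    intro x
    have h1 : mv (Lim_nb 𝒰 V nb) (Lim_mk 𝒰 V x) l = Lim_mk 𝒰 V (fun k => mv (nb k) (x k) l) := by
      unfold mv
      by_cases h : l.1 = true
      · simp only [h, if_true]; rfl
      · simp only [h]; rfl
    simp only [endp]
    rw [h1, ih]

theorem Lim_adj {D : ℕ} {𝒰 : Ultrafilter ℕ} {V : ℕ → Type} {nb : ∀ k, V k → Fin D → V k}
    {x y : ∀ k, V k} : Adj (Lim_nb 𝒰 V nb) (Lim_mk 𝒰 V x) (Lim_mk 𝒰 V y) ↔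
      ∀ᶠ k in (𝒰 : Filter ℕ), Adj (nb k) (x k) (y k) := by
  unfold Adj
  rw [Ultrafilter.eventually_exists_iff]
  constructor
  · rintro ⟨i, hi⟩
    rw [Lim_nb_mk, Lim_mk_eq] at hi
    exact ⟨i, hi⟩
  · rintro ⟨i, hi⟩
    refine ⟨i, ?_⟩
    rw [Lim_nb_mk, Lim_mk_eq]
    exact hi

theorem Lim_reg {D : ℕ} {𝒰 : Ultrafilter ℕ} {V : ℕ → Type} {nb : ∀ k, V k → Fin D → V k}
    (hreg : ∀ᶠ k in (𝒰 : Filter ℕ), Reg (nb k)) : Reg (Lim_nb 𝒰 V nb) := by
  constructor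
  · intro g i j hij
    obtain ⟨x, rfl⟩ := Lim_mk_surj g
    rw [Lim_nb_mk, Lim_nb_mk, Lim_mk_eq] at hij
    obtain ⟨k, hk1, hk2⟩ := (hij.and hreg).exists
    exact hk2.inj _ hk1
  · intro g i
    obtain ⟨x, rfl⟩ := Lim_mk_surj g
    have h1 : ∀ᶠ k in (𝒰 : Filter ℕ), ∃ j, nb k (nb k (x k) i) j = x k := by
      filter_upwards [hreg] with k hk
      exact hk.symm (x k) i
    rw [Ultrafilter.eventually_exists_iff] at h1
    obtain ⟨j, hj⟩ := h1
    refine ⟨j, ?_⟩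
    rw [Lim_nb_mk, Lim_nb_mk, Lim_mk_eq]
    exact hj
  · intro g i h
    obtain ⟨x, rfl⟩ := Lim_mk_surj g
    rw [Lim_nb_mk, Lim_mk_eq] at h
    obtain ⟨k, hk1, hk2⟩ := (h.and hreg).exists
    exact hk2.noloop _ _ hk1

theorem Lim_adj_symm {V : Type} {D : ℕ} {nb : V → Fin D → V} (hr : Reg nb) {x y : V}
    (h : Adj nb x y) : Adj nb y x := by
  obtain ⟨i, rfl⟩ := h
  exact hr.symm x i

theorem Lim_rtg_symm {V : Type} {D : ℕ} {nb : V → Fin D → V} (hr : Reg nb) {x y : V}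
    (h : Relation.ReflTransGen (Adj nb) x y) : Relation.ReflTransGen (Adj nb) y x := by
  induction h with
  | refl => exact Relation.ReflTransGen.refl
  | tail _ hbc ih => exact Relation.ReflTransGen.head (Lim_adj_symm hr hbc) ih

theorem Lim_rtg_endp {V : Type} {D : ℕ} {nb : V → Fin D → V} (w : List (Lt D)) :
    ∀ x, Relation.ReflTransGen (Adj nb) x (endp nb x w) := by
  induction w with
  | nil => intro x; exact Relation.ReflTransGen.refl
  | cons l w ih =>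
    intro x
    simp only [endp]
    unfold mv
    by_cases h : l.1 = true
    · simp only [h, if_true]
      exact Relation.ReflTransGen.head ⟨l.2, rfl⟩ (ih _)
    · simp only [h]
      exact ih _

theorem Lim_endp_append {V : Type} {D : ℕ} {nb : V → Fin D → V} (w w' : List (Lt D)) :
    ∀ x, endp nb x (w ++ w') = endp nb (endp nb x w) w' := by
  induction w with
  | nil => intro x; rfl
  | cons l w ih => intro x; simp only [List.cons_append, endp]; exact ih _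

theorem Lim_endp_of_rtg {V : Type} {D : ℕ} {nb : V → Fin D → V} {x y : V}
    (h : Relation.ReflTransGen (Adj nb) x y) : ∃ w : List (Lt D), y = endp nb x w := by
  induction h with
  | refl => exact ⟨[], rfl⟩
  | tail _ hbc ih =>
    obtain ⟨w, hw⟩ := ih
    obtain ⟨i, hi⟩ := hbc
    refine ⟨w ++ [(true, i)], ?_⟩
    rw [Lim_endp_append, ← hw, ← hi]
    rfl

/-- the component of a point -/
abbrev Lim_C {V : Type} {D : ℕ} (nb : V → Fin D → V) (o : V) : Type :=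
  {g : V // Relation.ReflTransGen (Adj nb) o g}

/-- neighbours in the component -/
def Lim_nbC {V : Type} {D : ℕ} (nb : V → Fin D → V) (o : V) (g : Lim_C nb o) (i : Fin D) :
    Lim_C nb o :=
  ⟨nb g.1 i, g.2.tail ⟨i, rfl⟩⟩

theorem Lim_adjC {V : Type} {D : ℕ} {nb : V → Fin D → V} {o : V} {x y : Lim_C nb o} :
    Adj (Lim_nbC nb o) x y ↔ Adj nb x.1 y.1 := by
  unfold Adj
  constructor
  · rintro ⟨i, hi⟩
    exact ⟨i, by rw [← hi]; rfl⟩
  · rintro ⟨i, hi⟩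
    exact ⟨i, Subtype.ext hi⟩

theorem Lim_endpC {V : Type} {D : ℕ} {nb : V → Fin D → V} {o : V} (w : List (Lt D)) :
    ∀ x : Lim_C nb o, (endp (Lim_nbC nb o) x w).1 = endp nb x.1 w := by
  induction w with
  | nil => intro x; rfl
  | cons l w ih =>
    intro x
    simp only [endp]
    rw [ih]
    congr 1
    unfold mv
    by_cases h : l.1 = true
    · simp only [h, if_true]; rfl
    · simp only [h]; rfl

theorem Lim_regC {V : Type} {D : ℕ} {nb : V → Fin D → V} (hr : Reg nb) (o : V) :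
    Reg (Lim_nbC nb o) := by
  constructor
  · intro g i j hij
    exact hr.inj g.1 (congrArg Subtype.val hij)
  · intro g i
    obtain ⟨j, hj⟩ := hr.symm g.1 i
    exact ⟨j, Subtype.ext hj⟩
  · intro g i h
    exact hr.noloop g.1 i (congrArg Subtype.val h)

theorem Lim_cnnC {V : Type} {D : ℕ} {nb : V → Fin D → V} (hr : Reg nb) (o : V) :
    Cnn (Lim_nbC nb o) := by
  have key : ∀ x : Lim_C nb o,
      Relation.ReflTransGen (Adj (Lim_nbC nb o)) ⟨o, Relation.ReflTransGen.refl⟩ x := by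
    intro x
    obtain ⟨w, hw⟩ := Lim_endp_of_rtg x.2
    have h1 : x = endp (Lim_nbC nb o) ⟨o, Relation.ReflTransGen.refl⟩ w := by
      apply Subtype.ext
      rw [Lim_endpC]
      exact hw
    rw [h1]
    exact Lim_rtg_endp w _
  intro x y
  exact (Lim_rtg_symm (Lim_regC hr o) (key x)).trans (key y)

theorem Lim_rtg_map {V V' : Type} {D : ℕ} {nb : V → Fin D → V} {nb' : V' → Fin D → V'}
    (f : V → V') (hf : ∀ x y, Adj nb x y → Adj nb' (f x) (f y)) {x y : V}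
    (h : Relation.ReflTransGen (Adj nb) x y) : Relation.ReflTransGen (Adj nb') (f x) (f y) :=
  by
  induction h with
  | refl => exact Relation.ReflTransGen.refl
  | tail _ hbc ih => exact ih.tail (hf _ _ hbc)

/-- an automorphism moving `o` inside its component restricts to the component -/
theorem Lim_autC {V : Type} {D : ℕ} {nb : V → Fin D → V} (hr : Reg nb) {o : V} (Φ : V ≃ V)
    (hΦ : IsAut nb Φ) (ho : Relation.ReflTransGen (Adj nb) o (Φ o)) :
    ∃ φ : Lim_C nb o ≃ Lim_C nb o, IsAut (Lim_nbC nb o) φ ∧ ∀ x, (φ x).1 = Φ x.1 := by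
  have hp : ∀ a, Relation.ReflTransGen (Adj nb) o a ↔ Relation.ReflTransGen (Adj nb) o (Φ a) := by
    intro a
    constructor
    · intro h
      exact ho.trans (Lim_rtg_map Φ (fun x y hxy => (hΦ x y).1 hxy) h)
    · intro h
      have h1 : Relation.ReflTransGen (Adj nb) (Φ o) (Φ a) := (Lim_rtg_symm hr ho).trans h
      have h2 := Lim_rtg_map (nb := nb) (nb' := nb) Φ.symm (fun x y hxy => by
        rw [hΦ]
        simpa using hxy) h1
      simpa using h2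
  refine ⟨Φ.subtypeEquiv hp, ?_, ?_⟩
  · intro x y
    rw [Lim_adjC, Lim_adjC]
    exact hΦ x.1 y.1
  · intro x
    rfl

theorem Lim_isAut_symm {V : Type} {D : ℕ} {nb : V → Fin D → V} {φ : V ≃ V} (h : IsAut nb φ) :
    IsAut nb φ.symm := by
  intro x y
  rw [h (φ.symm x) (φ.symm y)]
  simp

theorem Lim_isAut_trans {V : Type} {D : ℕ} {nb : V → Fin D → V} {φ ψ : V ≃ V} (h : IsAut nb φ)
    (h' : IsAut nb ψ) : IsAut nb (φ.trans ψ) := by
  intro x y
  rw [h x y, h' (φ x) (φ y)]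
  rfl

/-- the map of the ultraproduct induced by bijections -/
def Lim_map (𝒰 : Ultrafilter ℕ) (V : ℕ → Type) (φ : ∀ k, V k ≃ V k) (g : Lim_P 𝒰 V) : Lim_P 𝒰 V :=
  Quotient.liftOn g (fun x => Lim_mk 𝒰 V (fun k => φ k (x k))) (by
    intro a b hab
    have hab' : ∀ᶠ k in (𝒰 : Filter ℕ), a k = b k := hab
    rw [Lim_mk_eq]
    filter_upwards [hab'] with k hk
    rw [hk])

/-- the bijection of the ultraproduct induced by bijections -/
def Lim_equiv (𝒰 : Ultrafilter ℕ) (V : ℕ → Type) (φ : ∀ k, V k ≃ V k) : Lim_P 𝒰 V ≃ Lim_P 𝒰 V where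
  toFun := Lim_map 𝒰 V φ
  invFun := Lim_map 𝒰 V (fun k => (φ k).symm)
  left_inv := by
    intro g
    obtain ⟨x, rfl⟩ := Lim_mk_surj g
    show Lim_mk 𝒰 V (fun k => (φ k).symm (φ k (x k))) = _
    simp
  right_inv := by
    intro g
    obtain ⟨x, rfl⟩ := Lim_mk_surj g
    show Lim_mk 𝒰 V (fun k => (φ k) ((φ k).symm (x k))) = _
    simp

theorem Lim_equiv_mk (𝒰 : Ultrafilter ℕ) (V : ℕ → Type) (φ : ∀ k, V k ≃ V k) (x : ∀ k, V k) :
    Lim_equiv 𝒰 V φ (Lim_mk 𝒰 V x) = Lim_mk 𝒰 V (fun k => φ k (x k)) := rfl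

theorem Lim_equiv_aut {D : ℕ} {𝒰 : Ultrafilter ℕ} {V : ℕ → Type} {nb : ∀ k, V k → Fin D → V k}
    {φ : ∀ k, V k ≃ V k} (hφ : ∀ k, IsAut (nb k) (φ k)) :
    IsAut (Lim_nb 𝒰 V nb) (Lim_equiv 𝒰 V φ) := by
  intro g h
  obtain ⟨x, rfl⟩ := Lim_mk_surj g
  obtain ⟨y, rfl⟩ := Lim_mk_surj h
  rw [Lim_equiv_mk, Lim_equiv_mk, Lim_adj, Lim_adj]
  constructor
  · intro H
    filter_upwards [H] with k hk
    exact (hφ k _ _).1 hk
  · intro H
    filter_upwards [H] with k hk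
    exact (hφ k _ _).2 hk

theorem Lim_isAut_refl {V : Type} {D : ℕ} (nb : V → Fin D → V) : IsAut nb (Equiv.refl V) := by
  intro x y
  rfl

theorem exists_limit {D : ℕ} (𝒰 : Ultrafilter ℕ) (V : ℕ → Type) (nb : ∀ k, V k → Fin D → V k)
    (o : ∀ k, V k) (hreg : ∀ᶠ k in (𝒰 : Filter ℕ), Reg (nb k))
    (htra : ∀ᶠ k in (𝒰 : Filter ℕ), Tra (nb k)) :
    ∃ (U : Type) (nbU : U → Fin D → U) (oU : U), Reg nbU ∧ Tra nbU ∧ Cnn nbU ∧
      ∀ L : ℕ, ∀ᶠ k in (𝒰 : Filter ℕ), ∀ w w' : List (Lt D), w.length ≤ L → w'.length ≤ L →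
        (endp (nb k) (o k) w = endp (nb k) (o k) w' ↔ endp nbU oU w = endp nbU oU w') := by
  classical
  have hR : Reg (Lim_nb 𝒰 V nb) := Lim_reg hreg
  refine ⟨Lim_C (Lim_nb 𝒰 V nb) (Lim_mk 𝒰 V o), Lim_nbC (Lim_nb 𝒰 V nb) (Lim_mk 𝒰 V o),
    ⟨Lim_mk 𝒰 V o, Relation.ReflTransGen.refl⟩, Lim_regC hR _, ?_, Lim_cnnC hR _, ?_⟩
  · -- transitivity
    have key : ∀ g : Lim_C (Lim_nb 𝒰 V nb) (Lim_mk 𝒰 V o),
        ∃ φ : Lim_C (Lim_nb 𝒰 V nb) (Lim_mk 𝒰 V o) ≃ Lim_C (Lim_nb 𝒰 V nb) (Lim_mk 𝒰 V o),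
          IsAut (Lim_nbC (Lim_nb 𝒰 V nb) (Lim_mk 𝒰 V o)) φ ∧
            φ ⟨Lim_mk 𝒰 V o, Relation.ReflTransGen.refl⟩ = g := by
      intro g
      obtain ⟨x, hx⟩ := Lim_mk_surj g.1
      have hex : ∀ k, ∃ φ : V k ≃ V k, IsAut (nb k) φ ∧ (Tra (nb k) → φ (o k) = x k) := by
        intro k
        by_cases hT : Tra (nb k)
        · obtain ⟨φ, h1, h2⟩ := hT (o k) (x k)
          exact ⟨φ, h1, fun _ => h2⟩
        · exact ⟨Equiv.refl _, Lim_isAut_refl _, fun h => absurd h hT⟩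
      choose φ hφ1 hφ2 using hex
      have hΦ := Lim_equiv_aut (𝒰 := 𝒰) hφ1
      have ho : Lim_equiv 𝒰 V φ (Lim_mk 𝒰 V o) = g.1 := by
        rw [Lim_equiv_mk, hx, Lim_mk_eq]
        filter_upwards [htra] with k hk
        exact hφ2 k hk
      obtain ⟨ψ, hψ1, hψ2⟩ := Lim_autC hR (Lim_equiv 𝒰 V φ) hΦ (by rw [ho]; exact g.2)
      refine ⟨ψ, hψ1, ?_⟩
      apply Subtype.ext
      rw [hψ2]
      exact ho
    intro x y
    obtain ⟨φ, h1, h2⟩ := key x
    obtain ⟨ψ, h3, h4⟩ := key y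
    refine ⟨φ.symm.trans ψ, Lim_isAut_trans (Lim_isAut_symm h1) h3, ?_⟩
    rw [Equiv.trans_apply, ← h2, Equiv.symm_apply_apply, h4]
  · intro L
    have hfin : {w : List (Lt D) | w.length ≤ L}.Finite := List.finite_length_le (Lt D) L
    have h1 : ∀ᶠ k in (𝒰 : Filter ℕ), ∀ w ∈ {w : List (Lt D) | w.length ≤ L},
        ∀ w' ∈ {w : List (Lt D) | w.length ≤ L},
        (endp (nb k) (o k) w = endp (nb k) (o k) w' ↔
          endp (Lim_nbC (Lim_nb 𝒰 V nb) (Lim_mk 𝒰 V o)) ⟨Lim_mk 𝒰 V o, Relation.ReflTransGen.refl⟩ w =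
          endp (Lim_nbC (Lim_nb 𝒰 V nb) (Lim_mk 𝒰 V o)) ⟨Lim_mk 𝒰 V o, Relation.ReflTransGen.refl⟩ w') := by
      rw [Filter.eventually_all_finite hfin]
      intro w _
      rw [Filter.eventually_all_finite hfin]
      intro w' _
      have e1 : (endp (Lim_nbC (Lim_nb 𝒰 V nb) (Lim_mk 𝒰 V o)) ⟨Lim_mk 𝒰 V o, Relation.ReflTransGen.refl⟩ w =
          endp (Lim_nbC (Lim_nb 𝒰 V nb) (Lim_mk 𝒰 V o)) ⟨Lim_mk 𝒰 V o, Relation.ReflTransGen.refl⟩ w') ↔
          ∀ᶠ k in (𝒰 : Filter ℕ), endp (nb k) (o k) w = endp (nb k) (o k) w' := by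
        rw [← Lim_mk_eq, ← Lim_endp_mk, ← Lim_endp_mk, Subtype.ext_iff, Lim_endpC, Lim_endpC]
      by_cases hc : ∀ᶠ k in (𝒰 : Filter ℕ), endp (nb k) (o k) w = endp (nb k) (o k) w'
      · filter_upwards [hc] with k hk
        exact ⟨fun _ => e1.2 hc, fun _ => hk⟩
      · have hc' := (Ultrafilter.eventually_not.2 hc)
        filter_upwards [hc'] with k hk
        exact ⟨fun h => absurd h hk, fun h => absurd (e1.1 h) hc⟩
    filter_upwards [h1] with k hk w w' hw hw'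
    exact hk w hw w' hw'

end Pool.Agent.UQ
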