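import Pool.Agent.UQ.ExBasic

/-!
# B6 Loc : finite patterns transfer between locally isomorphic labelled graphs

Hypothesis `SameTo L`: equality of end points of words of length `≤ L` from the roots is the same in both graphs. Let
`φ : V → V'` be any map with `φ (endp nb o w) = endp nb' o' w` for `|w| ≤ L` (exists by the hypothesis; it is injective on these points).
`Ex_loc`: if `u.length + k ≤ L` then `Ex nb' k (endp nb' o' u) f = Ex nb k (endp nb o u) (fun l => f (l.map φ))` (induction on `k`, with
`mv nb (endp nb o u) l = endp nb o (u ++ [l])`). All vertices of the lists in question are of the form `endp nb o w`, `|w| ≤ L`, so equalities and memberships are preserved: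
`cfg1`, `cfg2` and `lst x m = y` transfer. (`Ex_congr_path` may help.)
-/

open Finset Pool.Agent.helper20.HP

namespace Pool.Agent.UQ

variable {V V' : Type} {D : ℕ} {nb : V → Fin D → V} {nb' : V' → Fin D → V'} {o : V} {o' : V'} {L : ℕ}

/-- average over the words of length `k` -/
noncomputable def Loc_EW : ℕ → (List (Lt D) → ℝ) → ℝ
  | 0, F => F []
  | k + 1, F => (2 * (D : ℝ))⁻¹ * ∑ l : Lt D, Loc_EW k (fun w => F (l :: w))

theorem Loc_EW_congr {k : ℕ} {F G : List (Lt D) → ℝ} (h : ∀ w, w.length = k → F w = G w) :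
    Loc_EW k F = Loc_EW k G := by
  induction k generalizing F G with
  | zero => exact h [] rfl
  | succ k ih =>
    unfold Loc_EW
    congr 1
    refine Finset.sum_congr rfl fun l _ => ih fun w hw => h (l :: w) ?_
    rw [List.length_cons, hw]

/-- prefixes of `w` after `u` -/
def Loc_wl : List (Lt D) → List (Lt D) → List (List (Lt D))
  | _, [] => []
  | u, l :: w => (u ++ [l]) :: Loc_wl (u ++ [l]) w

theorem Loc_wl_length (u w : List (Lt D)) : ∀ p ∈ Loc_wl u w, p.length ≤ u.length + w.length := by
  induction w generalizing u with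
  | nil => intro p hp; exact absurd hp (by simp [Loc_wl])
  | cons l w ih =>
    intro p hp
    unfold Loc_wl at hp
    rcases List.mem_cons.mp hp with h | h
    · rw [h]
      simp
    · have := ih (u ++ [l]) p h
      simp only [List.length_append, List.length_cons, List.length_nil] at this ⊢
      omega

theorem Loc_Ex (nb : V → Fin D → V) (o : V) (k : ℕ) (u : List (Lt D)) (f : List V → ℝ) :
    Ex nb k (endp nb o u) f = Loc_EW k (fun w => f ((Loc_wl u w).map (endp nb o))) := by
  induction k generalizing u f with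
  | zero => rfl
  | succ k ih =>
    unfold Ex Loc_EW
    congr 1
    refine Finset.sum_congr rfl fun l _ => ?_
    have e : mv nb (endp nb o u) l = endp nb o (u ++ [l]) := by
      rw [endp_append]
      rfl
    rw [e, ih]
    rfl

theorem Loc_Ex0 (nb : V → Fin D → V) (o : V) (k : ℕ) (f : List V → ℝ) :
    Ex nb k o f = Loc_EW k (fun w => f ((Loc_wl [] w).map (endp nb o))) :=
  Loc_Ex nb o k [] f

theorem Loc_lst (E : List (Lt D) → V) (v : List (Lt D)) (A : List (List (Lt D))) :
    lst (E v) (A.map E) = E (A.getLastD v) := by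
  unfold lst
  rcases List.eq_nil_or_concat A with h | ⟨B, b, h⟩
  · rw [h]; rfl
  · rw [h]
    simp [List.getLastD_eq_getLast?]

theorem Loc_lst_mem (v : List (Lt D)) (A : List (List (Lt D))) : A.getLastD v ∈ v :: A := by
  rcases List.eq_nil_or_concat A with h | ⟨B, b, h⟩
  · rw [h]; simp
  · rw [h]
    simp [List.getLastD_eq_getLast?]

theorem Loc_mem {E : List (Lt D) → V} {E' : List (Lt D) → V'}
    (h : ∀ w w' : List (Lt D), w.length ≤ L → w'.length ≤ L → (E w = E w' ↔ E' w = E' w'))
    {A : List (List (Lt D))} (hA : ∀ p ∈ A, p.length ≤ L) {q : List (Lt D)} (hq : q.length ≤ L) :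
    E q ∈ A.map E ↔ E' q ∈ A.map E' := by
  simp only [List.mem_map]
  constructor
  · rintro ⟨p, hp, hpq⟩
    exact ⟨p, hp, (h p q (hA p hp) hq).mp hpq⟩
  · rintro ⟨p, hp, hpq⟩
    exact ⟨p, hp, (h p q (hA p hp) hq).mpr hpq⟩

theorem Loc_cfg1 {E : List (Lt D) → V} {E' : List (Lt D) → V'}
    (h : ∀ w w' : List (Lt D), w.length ≤ L → w'.length ≤ L → (E w = E w' ↔ E' w = E' w'))
    {v y : List (Lt D)} {A C B F : List (List (Lt D))} (hv : v.length ≤ L) (hy : y.length ≤ L)
    (hA : ∀ p ∈ A, p.length ≤ L) (hC : ∀ p ∈ C, p.length ≤ L) (hB : ∀ p ∈ B, p.length ≤ L)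
    (hF : ∀ p ∈ F, p.length ≤ L) :
    cfg1 (E v) (E y) (A.map E) (C.map E) (B.map E) (F.map E) ↔
      cfg1 (E' v) (E' y) (A.map E') (C.map E') (B.map E') (F.map E') := by
  have hvA : ∀ p ∈ v :: A, p.length ≤ L := by
    intro p hp
    rcases List.mem_cons.mp hp with h | h
    · rw [h]; exact hv
    · exact hA p h
  have hyC : ∀ p ∈ y :: C, p.length ≤ L := by
    intro p hp
    rcases List.mem_cons.mp hp with h | h
    · rw [h]; exact hy
    · exact hC p h
  unfold cfg1
  rw [← List.map_cons, ← List.map_cons, ← List.map_cons, ← List.map_cons]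
  refine and_congr ?_ (and_congr ?_ ?_)
  · simp only [List.forall_mem_map]
    refine forall₂_congr fun p hp => not_congr (Loc_mem h hyC (hvA p hp))
  · simp only [List.forall_mem_map]
    refine forall₂_congr fun p hp => ?_
    rw [Loc_mem h hvA (hB p hp), Loc_mem h hyC (hB p hp), h p v (hB p hp) hv]
  · simp only [List.forall_mem_map]
    refine forall₂_congr fun p hp => ?_
    rw [Loc_mem h hvA (hF p hp), Loc_mem h hyC (hF p hp), h p y (hF p hp) hy]

theorem Loc_nodup {E : List (Lt D) → V} {E' : List (Lt D) → V'}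
    (h : ∀ w w' : List (Lt D), w.length ≤ L → w'.length ≤ L → (E w = E w' ↔ E' w = E' w'))
    {A : List (List (Lt D))} (hA : ∀ p ∈ A, p.length ≤ L) :
    (A.map E).Nodup ↔ (A.map E').Nodup := by
  unfold List.Nodup
  rw [List.pairwise_map, List.pairwise_map]
  refine List.Pairwise.iff_of_mem fun {a b} ha hb => ?_
  exact not_congr (h a b (hA a ha) (hA b hb))

theorem Loc_cfg2 {E : List (Lt D) → V} {E' : List (Lt D) → V'}
    (h : ∀ w w' : List (Lt D), w.length ≤ L → w'.length ≤ L → (E w = E w' ↔ E' w = E' w'))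
    {v y : List (Lt D)} {A F B : List (List (Lt D))} (hv : v.length ≤ L) (hy : y.length ≤ L)
    (hA : ∀ p ∈ A, p.length ≤ L) (hF : ∀ p ∈ F, p.length ≤ L) (hB : ∀ p ∈ B, p.length ≤ L) :
    cfg2 (E v) (E y) (A.map E) (F.map E) (B.map E) ↔
      cfg2 (E' v) (E' y) (A.map E') (F.map E') (B.map E') := by
  have hvA : ∀ p ∈ v :: A, p.length ≤ L := by
    intro p hp
    rcases List.mem_cons.mp hp with h | h
    · rw [h]; exact hv
    · exact hA p h
  have hyF : ∀ p ∈ y :: F, p.length ≤ L := by
    intro p hp
    rcases List.mem_cons.mp hp with h | h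
    · rw [h]; exact hy
    · exact hF p h
  unfold cfg2
  rw [← List.map_cons, ← List.map_cons, ← List.map_cons, ← List.map_cons, Loc_lst, Loc_lst,
    ← List.map_dropLast, ← List.map_dropLast]
  refine and_congr ?_ (and_congr ?_ (and_congr ?_ ?_))
  · exact h _ _ (hvA _ (Loc_lst_mem v A)) hv
  · exact Loc_nodup h fun p hp => hvA p (List.mem_of_mem_dropLast hp)
  · simp only [List.forall_mem_map]
    refine forall₂_congr fun p hp => ?_
    rw [Loc_mem h hvA (hyF p hp), h p y (hyF p hp) hy]
  · simp only [List.forall_mem_map]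
    refine forall₂_congr fun p hp => ?_
    rw [Loc_mem h hvA (hB p hp), Loc_mem h hyF (hB p hp), h p v (hB p hp) hv]

theorem pk_loc (h : ∀ w w' : List (Lt D), w.length ≤ L → w'.length ≤ L →
    (endp nb o w = endp nb o w' ↔ endp nb' o' w = endp nb' o' w')) {t : ℕ} (ht : t ≤ L) :
    pk nb t o o = pk nb' t o' o' := by
  unfold pk
  rw [Loc_Ex0 nb o, Loc_Ex0 nb' o']
  refine Loc_EW_congr fun w hw => ?_
  have h1 := Loc_lst (endp nb o) [] (Loc_wl [] w)
  have h2 := Loc_lst (endp nb' o') [] (Loc_wl [] w)
  have h3 : ((Loc_wl [] w).getLastD []).length ≤ L := by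
    rcases List.mem_cons.mp (Loc_lst_mem [] (Loc_wl [] w)) with h | h
    · rw [h]; exact Nat.zero_le _
    · have := Loc_wl_length [] w _ h
      simp only [List.length_nil] at this
      omega
  have h4 := h _ [] h3 (Nat.zero_le _)
  change lst o _ = _ at h1
  change lst o' _ = _ at h2
  change _ = o ↔ _ = o' at h4
  simp only [h1, h2]
  exact ind_congr h4

theorem kp1_loc (h : ∀ w w' : List (Lt D), w.length ≤ L → w'.length ≤ L →
    (endp nb o w = endp nb o w' ↔ endp nb' o' w = endp nb' o' w')) {R l : ℕ} (hR : 1 + R ≤ L) (hl : 1 + l ≤ L) :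
    kp1 nb R l o = kp1 nb' R l o' := by
  unfold kp1
  congr 1
  refine Finset.sum_congr rfl fun s _ => ?_
  have e1 : mv nb o s = endp nb o [s] := rfl
  have e2 : mv nb' o' s = endp nb' o' [s] := rfl
  have o1 : o = endp nb o [] := rfl
  have o2 : o' = endp nb' o' [] := rfl
  rw [e1, e2, Loc_Ex0 nb o, Loc_Ex0 nb' o']
  refine Loc_EW_congr fun a ha => ?_
  rw [Loc_Ex nb o, Loc_Ex nb' o']
  refine Loc_EW_congr fun c hc => ?_
  rw [Loc_Ex0 nb o, Loc_Ex0 nb' o']
  refine Loc_EW_congr fun b hb => ?_
  rw [Loc_Ex nb o, Loc_Ex nb' o']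
  refine Loc_EW_congr fun e he => ?_
  refine ind_congr ?_
  refine Loc_cfg1 (v := []) (y := [s]) h (Nat.zero_le _) ?_ ?_ ?_ ?_ ?_
  · simp only [List.length_cons, List.length_nil]; omega
  · intro p hp
    have := Loc_wl_length [] a p hp
    simp only [List.length_nil] at this
    omega
  · intro p hp
    have := Loc_wl_length [s] c p hp
    simp only [List.length_cons, List.length_nil] at this
    omega
  · intro p hp
    have := Loc_wl_length [] b p hp
    simp only [List.length_nil] at this
    omega
  · intro p hp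
    have := Loc_wl_length [s] e p hp
    simp only [List.length_cons, List.length_nil] at this
    omega

theorem kp2_loc (h : ∀ w w' : List (Lt D), w.length ≤ L → w'.length ≤ L →
    (endp nb o w = endp nb o w' ↔ endp nb' o' w = endp nb' o' w')) {g i R l : ℕ} (hi : i ≤ g)
    (hR : g + R ≤ L) (hl : g + l ≤ L) :
    kp2 nb g i R l o = kp2 nb' g i R l o' := by
  unfold kp2
  rw [Loc_Ex0 nb o, Loc_Ex0 nb' o']
  refine Loc_EW_congr fun α hα => ?_
  have g1 : (o :: (Loc_wl [] α).map (endp nb o)).getD i o
      = endp nb o (([] :: Loc_wl [] α).getD i []) := by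
    have := List.getD_map (l := [] :: Loc_wl [] α) (d := []) (n := i) (endp nb o)
    exact this
  have g2 : (o' :: (Loc_wl [] α).map (endp nb' o')).getD i o'
      = endp nb' o' (([] :: Loc_wl [] α).getD i []) := by
    have := List.getD_map (l := [] :: Loc_wl [] α) (d := []) (n := i) (endp nb' o')
    exact this
  have g3 : (([] :: Loc_wl [] α).getD i []).length ≤ g := by
    have hall : ∀ p ∈ [] :: Loc_wl [] α, p.length ≤ g := by
      intro p hp
      rcases List.mem_cons.mp hp with h | h
      · rw [h]; exact Nat.zero_le _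
      · have := Loc_wl_length [] α p h
        simp only [List.length_nil] at this
        omega
    by_cases hlen : i < ([] :: Loc_wl [] α).length
    · rw [List.getD_eq_getElem _ _ hlen]
      exact hall _ (List.getElem_mem hlen)
    · rw [List.getD_eq_default _ _ (not_lt.mp hlen)]
      exact Nat.zero_le _
  rw [g1, g2, Loc_Ex nb o, Loc_Ex nb' o']
  refine Loc_EW_congr fun f hf => ?_
  rw [Loc_Ex0 nb o, Loc_Ex0 nb' o']
  refine Loc_EW_congr fun b hb => ?_
  refine ind_congr ?_
  refine Loc_cfg2 (v := []) (y := ([] :: Loc_wl [] α).getD i []) h (Nat.zero_le _) ?_ ?_ ?_ ?_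
  · omega
  · intro p hp
    have := Loc_wl_length [] α p hp
    simp only [List.length_nil] at this
    omega
  · intro p hp
    have := Loc_wl_length _ f p hp
    omega
  · intro p hp
    have := Loc_wl_length [] b p hp
    simp only [List.length_nil] at this
    omega

end Pool.Agent.UQ
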