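import Pool.Agent.UQ.FinB
import Pool.Agent.UQ.D5
import Pool.Agent.UQ.D6
import Pool.Agent.UQ.Lim
import Pool.Agent.UQ.Loc
import Pool.Agent.UQ.KB
import Pool.Agent.UQ.Grow
import Pool.Agent.UQ.Est
import Pool.Agent.UQ.Ess

/-!
# B30 Lock : the local theorem
-/

open Finset Filter Pool.Agent.helper20.HP

namespace Pool.Agent.UQ

theorem tail_small {f : ℕ → ℝ} {θ : ℝ} (hf : ∀ u, 0 ≤ f u) (hb : ∀ T, ∑ u ∈ range T, f u ≤ θ)
    {δ : ℝ} (hδ : 0 < δ) : ∃ r : ℕ, 1 ≤ r ∧ ∀ T, ∑ u ∈ Ioc r T, f u ≤ δ := by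
  have hs : Summable f := summable_of_sum_range_le hf hb
  have ht := hs.hasSum.tendsto_sum_nat
  have : ∀ᶠ n in atTop, (∑' i, f i) - δ < ∑ i ∈ range n, f i :=
    ht.eventually (lt_mem_nhds (by linarith))
  obtain ⟨n, hn⟩ := this.exists_forall_of_atTop
  refine ⟨n + 1, by omega, fun T => ?_⟩
  rcases lt_or_ge T (n + 1) with h | h
  · rw [Finset.Ioc_eq_empty (by omega), Finset.sum_empty]
    exact hδ.le
  · have e1 : ∑ u ∈ Ioc (n + 1) T, f u = ∑ u ∈ range (T + 1), f u - ∑ u ∈ range (n + 2), f u := by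
      rw [← Finset.sum_range_add_sum_Ico (f := f) (show n + 2 ≤ T + 1 by omega)]
      have : Ioc (n + 1) T = Ico (n + 2) (T + 1) := by
        ext u; simp only [Finset.mem_Ioc, Finset.mem_Ico]; omega
      rw [this]; ring
    have e2 : ∑ u ∈ range (T + 1), f u ≤ ∑' i, f i := hs.sum_le_tsum _ (fun i _ => hf i)
    have e3 := hn (n + 2) (by omega)
    rw [e1]; linarith

theorem mR_nonneg {V : Type} [Fintype V] [DecidableEq V] (K : HW V) (z : ℂ) (N R : ℕ) :
    0 ≤ mR K z N R := by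
  unfold mR
  exact avg_nonneg (fun v => W_nonneg K (fun l _ => norm_nonneg _))

theorem EB_nonneg {V : Type} [Fintype V] [DecidableEq V] (K : HW V) (z : ℂ) (N R l j : ℕ) :
    0 ≤ EB K z N R l j := by
  unfold EB
  have := bad_nonneg K (R + j) l N
  have h1 : 0 ≤ eta K z N R j := Real.sqrt_nonneg _
  have h2 : 0 ≤ eta K z N (R + j) l := Real.sqrt_nonneg _
  linarith

/-- abstract final step -/
theorem lock_core (𝒰 : Ultrafilter ℕ) (V : ℕ → Type) [∀ k, Fintype (V k)] [∀ k, DecidableEq (V k)]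
    [∀ k, Nonempty (V k)] (K : ∀ k, HW (V k)) (o : ∀ k, V k) {θ : ℝ} (hθ : 1 ≤ θ)
    (hsmb : ∀ T : ℕ, ∀ᶠ k in (𝒰 : Filter ℕ),
      ∑ t ∈ range T, ((t : ℝ) + 1) * (K k).pt t (o k) (o k) ≤ θ)
    (htail : ∀ δ : ℝ, 0 < δ → ∃ r : ℕ, 1 ≤ r ∧ ∀ T : ℕ, ∀ᶠ k in (𝒰 : Filter ℕ),
      ∑ t ∈ Ioc r T, ((t : ℝ) + 1) * (K k).pt t (o k) (o k) ≤ δ)
    {z : ℂ} (hz : ‖z‖ = 1) (κ : ℕ → ℕ → ℕ → ℝ) {d : ℝ} (hd : 0 < d) (J : ℕ)
    (hcmp : ∀ᶠ k in (𝒰 : Filter ℕ), ∀ N, 0 < N → ∀ R l B, (∀ j, j ≤ J → EB (K k) z N R l j ≤ B) →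
      d * mR (K k) z N R * κ k R l ≤ 8 * B)
    {c : ℝ} (hc : 0 < c) (hκ : ∀ R l, ∀ᶠ k in (𝒰 : Filter ℕ), c ≤ κ k R l)
    {ε : ℝ} (hε : 0 < ε) :
    ∃ N, 0 < N ∧ ∀ R₀, ∃ R₁, ∀ᶠ k in (𝒰 : Filter ℕ), ∃ R, R₀ ≤ R ∧ R ≤ R₁ ∧ mR (K k) z N R ≤ ε := by
  set β : ℝ := ε * d * c / 8 with hβ
  have hβpos : 0 < β := by positivity
  have hθ0 : 0 < θ := by linarith
  have hq0 : 0 ≤ 1 - 1 / (2 * θ) := by
    have : 1 / (2 * θ) ≤ 1 := by
      rw [div_le_one (by positivity)]; linarith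
    linarith
  have hq1 : 1 - 1 / (2 * θ) < 1 := by
    have : 0 < 1 / (2 * θ) := by positivity
    linarith
  obtain ⟨m, hm⟩ := exists_pow_lt_of_lt_one (show (0 : ℝ) < β / 8 by positivity) hq1
  set δ : ℝ := min (1 / 2) (β / (8 * ((m : ℝ) + 1))) with hδdef
  have hδ0 : 0 < δ := by
    rw [hδdef]; apply lt_min
    · norm_num
    · positivity
  obtain ⟨r, hr, hT⟩ := htail δ hδ0
  set s : ℝ := (J : ℝ) + 2 * r * m with hs
  have hs0 : 0 ≤ s := by positivity
  obtain ⟨N, hN⟩ := exists_nat_gt (8 * s / ((β / 4) ^ 2 / 2))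
  obtain ⟨M, hM⟩ := exists_nat_gt (1 / ((β / 4) ^ 2 / 2))
  have hb4 : 0 < (β / 4) ^ 2 / 2 := by positivity
  have hNpos : (0 : ℝ) < N := lt_of_le_of_lt (by positivity) hN
  have hMpos : (0 : ℝ) < M := lt_trans (by positivity) hM
  have hN' : 0 < N := by exact_mod_cast hNpos
  have hM' : 0 < M := by exact_mod_cast hMpos
  have hNb : 8 * s / N ≤ (β / 4) ^ 2 / 2 := by
    rw [div_lt_iff₀ hb4] at hN
    rw [div_le_iff₀ hNpos]; linarith
  have hMb : 1 / (M : ℝ) ≤ (β / 4) ^ 2 / 2 := by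
    rw [div_lt_iff₀ hb4] at hM
    rw [div_le_iff₀ hMpos]; linarith
  have hsqrt : Real.sqrt (1 / (M : ℝ) + 8 * ((J : ℝ) + 2 * r * m) / (N : ℝ)) ≤ β / 4 := by
    rw [Real.sqrt_le_left (by positivity)]
    rw [← hs]; linarith
  have hmδ : (m : ℝ) * δ ≤ β / 8 := by
    have h1 : δ ≤ β / (8 * ((m : ℝ) + 1)) := min_le_right _ _
    have h2 : (m : ℝ) * δ ≤ m * (β / (8 * ((m : ℝ) + 1))) :=
      mul_le_mul_of_nonneg_left h1 (Nat.cast_nonneg m)
    have h3 : (m : ℝ) * (β / (8 * ((m : ℝ) + 1))) ≤ β / 8 := by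
      rw [mul_div_assoc', div_le_div_iff₀ (by positivity) (by positivity)]
      nlinarith [hβpos, Nat.cast_nonneg (α := ℝ) m]
    linarith
  have hB : 2 * Real.sqrt (1 / (M : ℝ) + 8 * ((J : ℝ) + 2 * r * m) / (N : ℝ))
          + 2 * ((1 - 1 / (2 * θ)) ^ m + m * δ) ≤ β := by
    linarith
  refine ⟨N, hN', fun R₀ => ⟨R₀ + (J + 2 * r * m) * M, ?_⟩⟩
  set R₁ := R₀ + (J + 2 * r * m) * M with hR₁
  set T := 4 * r + (R₁ + J + 2 * r * m + N) with hTdef
  have hκall : ∀ᶠ k in (𝒰 : Filter ℕ), ∀ R ∈ Finset.range (R₁ + 1), c ≤ κ k R (2 * r * m) := by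
    rw [Filter.eventually_all_finset]
    intro R _
    exact hκ R (2 * r * m)
  filter_upwards [hsmb (2 * r + 1), hT T, hcmp, hκall] with k h1 h2 h3 h4
  obtain ⟨R, hR0, hR1, hEB⟩ := fin_bound (K k) hz hN' hθ hr m J hM' R₀ T (o k)
    (min_le_left _ _ : δ ≤ 1 / 2) (by omega) (by omega) h1 h2
  refine ⟨R, hR0, hR1, ?_⟩
  have hk := h4 R (Finset.mem_range.2 (by omega))
  have h5 := h3 N hN' R (2 * r * m) β (fun j hj => (hEB j hj).trans hB)
  have hm0 := mR_nonneg (K k) z N R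
  have h6 : d * mR (K k) z N R * c ≤ d * mR (K k) z N R * κ k R (2 * r * m) :=
    mul_le_mul_of_nonneg_left hk (by positivity)
  have h7 : d * c * mR (K k) z N R ≤ d * c * ε := by
    have : 8 * β = ε * d * c := by rw [hβ]; ring
    nlinarith
  exact le_of_mul_le_mul_left h7 (by positivity)

theorem lock {D : ℕ} (𝒰 : Ultrafilter ℕ) (V : ℕ → Type) [∀ k, Fintype (V k)]
    [∀ k, DecidableEq (V k)] [∀ k, Nonempty (V k)] (K : ∀ k, HW (V k)) (nb : ∀ k, V k → Fin D → V k)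
    (hreg : ∀ᶠ k in (𝒰 : Filter ℕ), Reg (nb k)) (htra : ∀ᶠ k in (𝒰 : Filter ℕ), Tra (nb k))
    (hker : ∀ᶠ k in (𝒰 : Filter ℕ), KerOf (K k) (nb k)) {θ : ℝ} (hθ : 1 ≤ θ)
    (hsmb : ∀ T : ℕ, ∀ᶠ k in (𝒰 : Filter ℕ), ∀ x,
      ∑ t ∈ range T, ((t : ℝ) + 1) * (K k).pt t x x ≤ θ)
    {z : ℂ} (hz : ‖z‖ = 1)
    (hcase : z ^ 2 ≠ 1 ∨ (z = -1 ∧ ∃ L : ℕ, ∀ᶠ k in (𝒰 : Filter ℕ), ∃ (x : V k) (w : List (Fin D)),
      w.length ≤ L ∧ Odd w.length ∧ endp (nb k) x (w.map (fun i => ((true, i) : Lt D))) = x))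
    {ε : ℝ} (hε : 0 < ε) :
    ∃ N, 0 < N ∧ ∀ R₀, ∃ R₁, ∀ᶠ k in (𝒰 : Filter ℕ), ∃ R, R₀ ≤ R ∧ R ≤ R₁ ∧ mR (K k) z N R ≤ ε := by
  classical
  -- roots, and an odd closed word in the second case
  obtain ⟨o, ho⟩ : ∃ o : ∀ k, V k, z ^ 2 = 1 → z = -1 ∧ ∃ w : List (Fin D), Odd w.length ∧
      ∀ᶠ k in (𝒰 : Filter ℕ), endp (nb k) (o k) (w.map (fun i => ((true, i) : Lt D))) = o k := by
    rcases hcase with h | ⟨hz1, L, hL⟩
    · exact ⟨fun k => Classical.arbitrary _, fun h' => absurd h' h⟩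
    · let o : ∀ k, V k := fun k =>
        if h : ∃ (x : V k) (w : List (Fin D)), w.length ≤ L ∧ Odd w.length ∧
          endp (nb k) x (w.map (fun i => ((true, i) : Lt D))) = x then h.choose
        else Classical.arbitrary _
      refine ⟨o, fun _ => ⟨hz1, ?_⟩⟩
      have hfin : {w : List (Fin D) | w.length ≤ L}.Finite := List.finite_length_le (Fin D) L
      have h1 : ∀ᶠ k in (𝒰 : Filter ℕ), ∃ w ∈ {w : List (Fin D) | w.length ≤ L}, Odd w.length ∧
          endp (nb k) (o k) (w.map (fun i => ((true, i) : Lt D))) = o k := by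
        filter_upwards [hL] with k hk
        have : o k = hk.choose := by simp only [o, dif_pos hk]
        obtain ⟨w, hw1, hw2, hw3⟩ := hk.choose_spec
        exact ⟨w, hw1, hw2, by rw [this]; exact hw3⟩
      obtain ⟨w, _, hw⟩ := (Ultrafilter.eventually_exists_mem_iff hfin).1 h1
      obtain ⟨k, hk⟩ := hw.exists
      exact ⟨w, hk.1, hw.mono fun k hk => hk.2⟩
  obtain ⟨U, nbU, oU, hrU, htU, hcU, hloc⟩ := exists_limit 𝒰 V nb o hreg htra
  have hD : 0 < D := by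
    obtain ⟨k, hk⟩ := hker.exists
    rcases Nat.eq_zero_or_pos D with h | h
    · exfalso
      subst h
      have := (K k).sum_one (o k)
      rw [Finset.sum_congr rfl (fun y _ => hk (o k) y)] at this
      simp at this
    · exact h
  have hptU : ∀ T : ℕ, ∀ᶠ k in (𝒰 : Filter ℕ), ∀ t, t < T → (K k).pt t (o k) (o k) = pk nbU t oU oU := by
    intro T
    filter_upwards [hloc T, hker] with k h1 h2 t ht
    rw [← pk_eq_pt h2, pk_loc h1 ht.le]
  have hsU : Smb nbU θ := by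
    intro x T
    obtain ⟨k, h1, h2⟩ := ((hptU T).and (hsmb T)).exists
    refine le_trans (le_of_eq ?_) (h2 (o k))
    apply Finset.sum_congr rfl
    intro t ht
    rw [h1 t (Finset.mem_range.1 ht), pk_homog hrU htU t x oU]
  obtain ⟨hdeg, hinf⟩ := grow hrU hD hsU oU
  have G : GInf nbU θ := ⟨hrU, htU, hcU, hsU, hdeg, hinf⟩
  have htail : ∀ δ : ℝ, 0 < δ → ∃ r : ℕ, 1 ≤ r ∧ ∀ T : ℕ, ∀ᶠ k in (𝒰 : Filter ℕ),
      ∑ t ∈ Ioc r T, ((t : ℝ) + 1) * (K k).pt t (o k) (o k) ≤ δ := by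
    intro δ hδ
    obtain ⟨r, hr, hr'⟩ := tail_small (f := fun u : ℕ => ((u : ℝ) + 1) * pk nbU u oU oU)
      (fun u => mul_nonneg (by positivity) (pk_nonneg u oU oU)) (fun T => hsU oU T) hδ
    refine ⟨r, hr, fun T => ?_⟩
    filter_upwards [hptU (T + 1)] with k hk
    refine le_trans (le_of_eq ?_) (hr' T)
    apply Finset.sum_congr rfl
    intro t ht
    rw [hk t (by have := (Finset.mem_Ioc.1 ht).2; omega)]
  have hsmb' : ∀ T : ℕ, ∀ᶠ k in (𝒰 : Filter ℕ),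
      ∑ t ∈ range T, ((t : ℝ) + 1) * (K k).pt t (o k) (o k) ≤ θ := fun T =>
    (hsmb T).mono fun k hk => hk (o k)
  by_cases hz2 : z ^ 2 = 1
  · -- z = -1 with an odd closed walk
    obtain ⟨hz1, w, hw, hcl⟩ := ho hz2
    have hclU : endp nbU oU (w.map (fun i => ((true, i) : Lt D))) = oU := by
      obtain ⟨k, h1, h2⟩ := ((hloc w.length).and hcl).exists
      have := (h1 (w.map (fun i => ((true, i) : Lt D))) [] (by simp) (by simp)).1 (by
        rw [h2]; rfl)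
      rw [this]; rfl
    obtain ⟨g, i, hg, hi, hig, c, hc, hkp⟩ := estar2 G oU w hw hclU
    have hd : ‖z ^ i - z ^ (g - i)‖ = 2 := by
      rw [hz1]
      rcases Nat.even_or_odd i with he | hodd
      · have ho' : Odd (g - i) := by
          rcases Nat.even_or_odd (g - i) with h | h
          · exfalso
            have : Even (g - i + i) := h.add he
            rw [Nat.sub_add_cancel hig.le] at this
            exact (Nat.not_even_iff_odd.2 hg) this
          · exact h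
        rw [he.neg_one_pow, ho'.neg_one_pow]
        norm_num
      · have he' : Even (g - i) := by
          rcases Nat.even_or_odd (g - i) with h | h
          · exact h
          · exfalso
            have : Even (g - i + i) := h.add_odd hodd
            rw [Nat.sub_add_cancel hig.le] at this
            exact (Nat.not_even_iff_odd.2 hg) this
        rw [hodd.neg_one_pow, he'.neg_one_pow]
        norm_num
    refine lock_core 𝒰 V K o hθ hsmb' htail hz (fun k R l => avg (kap2 (K k) g i R l))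
      (d := 2) (by norm_num) g ?_ hc ?_ hε
    · filter_upwards with k N hN R l B hB
      have h1 := D6 (K k) hz hN hi hig R l
      rw [hd] at h1
      have h2 := hB i hig.le
      have h3 := hB (g - i) (by omega)
      have h4 := hB 0 (by omega)
      have h5 := EB_nonneg (K k) z N R l 0
      linarith
    · intro R l
      filter_upwards [hloc (g + R + l), hker, hreg, htra] with k h1 h2 h3 h4
      have h5 : ∀ v, kap2 (K k) g i R l v = kp2 nbU g i R l oU := by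
        intro v
        rw [← kp2_eq_kap2 h2, kp2_homog h3 h4 g i R l v (o k),
          kp2_loc h1 hig.le (by omega) (by omega)]
      have h6 : kap2 (K k) g i R l = fun _ => kp2 nbU g i R l oU := funext h5
      show c ≤ avg (kap2 (K k) g i R l)
      rw [h6, avg_const]
      exact hkp oU R l
  · obtain ⟨c, hc, hkp⟩ := estar G
    have hd : 0 < ‖1 - z ^ 2‖ := by
      rw [norm_pos_iff]
      intro h
      exact hz2 (by rw [sub_eq_zero] at h; exact h.symm)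
    refine lock_core 𝒰 V K o hθ hsmb' htail hz (fun k R l => avg (kap1 (K k) R l)) hd 1 ?_ hc ?_ hε
    · filter_upwards with k N hN R l B hB
      have h1 := D5 (K k) hz hN R l
      have h2 := hB 0 (by omega)
      have h3 := hB 1 (by omega)
      linarith
    · intro R l
      filter_upwards [hloc (1 + R + l), hker, hreg, htra] with k h1 h2 h3 h4
      have h5 : ∀ v, kap1 (K k) R l v = kp1 nbU R l oU := by
        intro v
        rw [← kp1_eq_kap1 h2, kp1_homog h3 h4 R l v (o k), kp1_loc h1 (by omega) (by omega)]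
      have h6 : kap1 (K k) R l = fun _ => kp1 nbU R l oU := funext h5
      show c ≤ avg (kap1 (K k) R l)
      rw [h6, avg_const]
      exact hkp oU R l

end Pool.Agent.UQ
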