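import Pool.Agent.UQ.Base

/-!
# A7 RunLem : loop erasure combinatorics

`HP.stp γ y = if y ∈ γ then γ.dropWhile (· ≠ y) else y :: γ`, `run γ l = l.foldl HP.stp γ`, `LEs (x :: l) = run [x] l`.
* `run_append_avoid`: induction on `l`; if `y ∉ γ'` then `stp (δ ++ γ') y = stp δ y ++ γ'` (if `y ∈ δ` the
  `dropWhile` stops inside `δ`).
* `LEs p = run [] p` for all `p` (since `stp [] x = [x]`), hence `LEs (p ++ q) = run (LEs p) q`.
* `LEs_append_disjoint`: `run (LEs p) q = run ([] ++ LEs p) q = run [] q ++ LEs p`.
* `length_join`: `LEs p = v :: γ'` with `v ∉ γ'` (nodup), elements of `γ'` are in `p`, so `B.tail` avoids `γ'` (an element of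
  `B.tail` lying in `p` is `v`), so `run (v :: γ') B.tail = run ([v] ++ γ') B.tail = run [v] B.tail ++ γ' = LEs B ++ γ'`.
-/

open Finset Pool.Agent.helper20.HP

namespace Pool.Agent.UQ

variable {V : Type} [Fintype V] [DecidableEq V]

theorem run_append (γ l m : List V) : run γ (l ++ m) = run (run γ l) m := by
  unfold run
  rw [List.foldl_append]

theorem RunLem_dropWhile_append (δ γ' : List V) (y : V) (h : y ∈ δ) :
    (δ ++ γ').dropWhile (fun z => decide (z ≠ y)) =
      δ.dropWhile (fun z => decide (z ≠ y)) ++ γ' := by
  induction δ with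
  | nil => simp at h
  | cons a t ih =>
    by_cases ha : a = y
    · simp [List.dropWhile_cons, ha]
    · have hy : y ∈ t := by
        rcases List.mem_cons.1 h with h | h
        · exact absurd h.symm ha
        · exact h
      simp only [List.cons_append, List.dropWhile_cons]
      simp only [ne_eq, ha, not_false_eq_true, decide_true, if_true]
      simpa using ih hy

theorem RunLem_stp_append (δ γ' : List V) (y : V) (h : y ∉ γ') :
    stp (δ ++ γ') y = stp δ y ++ γ' := by
  unfold stp
  by_cases hy : y ∈ δ
  · rw [if_pos (List.mem_append_left _ hy), if_pos hy]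
    exact RunLem_dropWhile_append δ γ' y hy
  · rw [if_neg (by simp [hy, h]), if_neg hy]
    rfl

theorem run_append_avoid (δ γ' l : List V) (h : ∀ y ∈ l, y ∉ γ') :
    run (δ ++ γ') l = run δ l ++ γ' := by
  induction l generalizing δ with
  | nil => rfl
  | cons y t ih =>
    have h1 : run (δ ++ γ') (y :: t) = run (stp (δ ++ γ') y) t := rfl
    have h2 : run δ (y :: t) = run (stp δ y) t := rfl
    rw [h1, h2, RunLem_stp_append δ γ' y (h y (by simp))]
    exact ih (stp δ y) (fun z hz => h z (by simp [hz]))

theorem LEs_eq_run (p : List V) : LEs p = run [] p := by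
  cases p with
  | nil => rfl
  | cons x l =>
    show run [x] l = run (stp [] x) l
    have : stp ([] : List V) x = [x] := by simp [stp]
    rw [this]

theorem LEs_append (p q : List V) : LEs (p ++ q) = run (LEs p) q := by
  rw [LEs_eq_run, LEs_eq_run, run_append]

theorem RunLem_stp_nodup (γ : List V) (y : V) (h : γ.Nodup) : (stp γ y).Nodup := by
  unfold stp
  split_ifs with hy
  · exact h.sublist (List.dropWhile_sublist _)
  · exact List.nodup_cons.2 ⟨hy, h⟩

theorem RunLem_stp_subset (γ : List V) (y : V) : ∀ u ∈ stp γ y, u ∈ γ ∨ u = y := by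
  intro u hu
  unfold stp at hu
  split_ifs at hu with hy
  · exact Or.inl ((List.dropWhile_sublist _).subset hu)
  · rcases List.mem_cons.1 hu with h | h
    · exact Or.inr h
    · exact Or.inl h

theorem RunLem_run_nodup (l : List V) : ∀ γ : List V, γ.Nodup → (run γ l).Nodup := by
  induction l with
  | nil => intro γ h; exact h
  | cons y t ih => intro γ h; exact ih (stp γ y) (RunLem_stp_nodup γ y h)

theorem RunLem_run_subset (l : List V) : ∀ γ : List V, ∀ u ∈ run γ l, u ∈ γ ∨ u ∈ l := by
  induction l with
  | nil => intro γ u h; exact Or.inl h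
  | cons y t ih =>
    intro γ u h
    rcases ih (stp γ y) u h with h | h
    · rcases RunLem_stp_subset γ y u h with h | h
      · exact Or.inl h
      · exact Or.inr (by simp [h])
    · exact Or.inr (by simp [h])

theorem LEs_nodup (p : List V) : (LEs p).Nodup := by
  rw [LEs_eq_run]
  exact RunLem_run_nodup p [] List.nodup_nil

theorem LEs_subset (p : List V) : ∀ u ∈ LEs p, u ∈ p := by
  intro u hu
  rw [LEs_eq_run] at hu
  rcases RunLem_run_subset p [] u hu with h | h
  · simp at h
  · exact h

theorem RunLem_dropWhile_head (γ : List V) (y : V) (h : y ∈ γ) :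
    ∃ t, γ.dropWhile (fun z => decide (z ≠ y)) = y :: t := by
  induction γ with
  | nil => simp at h
  | cons a t ih =>
    by_cases ha : a = y
    · exact ⟨t, by simp [List.dropWhile_cons, ha]⟩
    · have hy : y ∈ t := by
        rcases List.mem_cons.1 h with h | h
        · exact absurd h.symm ha
        · exact h
      obtain ⟨s, hs⟩ := ih hy
      refine ⟨s, ?_⟩
      rw [List.dropWhile_cons]
      simp only [ne_eq, ha, not_false_eq_true, decide_true, if_true]
      simpa using hs

theorem RunLem_stp_head (γ : List V) (y : V) : ∃ t, stp γ y = y :: t := by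
  unfold stp
  split_ifs with hy
  · exact RunLem_dropWhile_head γ y hy
  · exact ⟨γ, rfl⟩

theorem RunLem_lst_cons (x y : V) (t : List V) : lst x (y :: t) = lst y t := by
  unfold lst
  cases t with
  | nil => rfl
  | cons z s => simp [List.getLastD]

theorem RunLem_run_head (l : List V) : ∀ (x : V) (γ : List V), ∃ t, run (x :: γ) l = lst x l :: t := by
  induction l with
  | nil => intro x γ; exact ⟨γ, rfl⟩
  | cons y t ih =>
    intro x γ
    obtain ⟨s, hs⟩ := RunLem_stp_head (x :: γ) y
    obtain ⟨r, hr⟩ := ih y s
    refine ⟨r, ?_⟩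
    have h1 : run (x :: γ) (y :: t) = run (stp (x :: γ) y) t := rfl
    rw [h1, hs, hr, RunLem_lst_cons]

/-- the head of the state is the last vertex of the path -/
theorem LEs_head (x : V) (l : List V) : ∃ t, LEs (x :: l) = lst x l :: t := by
  exact RunLem_run_head l x []

theorem LEs_append_disjoint (p q : List V) (h : List.Disjoint p q) :
    LEs (p ++ q) = LEs q ++ LEs p := by
  rw [LEs_append, LEs_eq_run q]
  have := run_append_avoid [] (LEs p) q (fun y hy hy2 => h (LEs_subset p y hy2) hy)
  simpa using this

/-- a simple path is its own loop erasure -/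
theorem LEs_of_nodup (p : List V) (h : p.Nodup) : LEs p = p.reverse := by
  induction p using List.reverseRecOn with
  | nil => rfl
  | append_singleton l a ih =>
    rw [List.nodup_append] at h
    obtain ⟨h1, h2, h3⟩ := h
    rw [LEs_append, ih h1]
    have ha : a ∉ l.reverse := by
      intro hh
      exact h3 a (List.mem_reverse.1 hh) a (by simp) rfl
    show stp l.reverse a = _
    unfold stp
    rw [if_neg ha]
    simp

theorem RunLem_getLast (p : List V) (v : V) (hp : p.getLast? = some v) :
    ∃ x l, p = x :: l ∧ lst x l = v := by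
  cases p with
  | nil => simp at hp
  | cons x l =>
    refine ⟨x, l, rfl, ?_⟩
    unfold lst
    cases l with
    | nil => simpa using hp
    | cons y t =>
      rw [List.getLast?_cons_cons] at hp
      rw [List.getLastD_eq_getLast?, hp]
      rfl

theorem RunLem_state (p : List V) (v : V) (hp : p.getLast? = some v) :
    ∃ t, LEs p = v :: t ∧ v ∉ t ∧ ∀ u ∈ t, u ∈ p := by
  obtain ⟨x, l, rfl, hv⟩ := RunLem_getLast p v hp
  obtain ⟨t, ht⟩ := LEs_head x l
  rw [hv] at ht
  have hn := LEs_nodup (x :: l)
  rw [ht] at hn
  refine ⟨t, ht, (List.nodup_cons.1 hn).1, ?_⟩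
  intro u hu
  apply LEs_subset
  rw [ht]
  simp [hu]

/-- joining two paths at the vertex `v`, the second one meeting the first one only in `v` -/
theorem length_join (p : List V) (v : V) (b : List V) (hp : p.getLast? = some v)
    (h : ∀ u ∈ b, u ∈ p → u = v) :
    (LEs (p ++ b)).length + 1 = (LEs p).length + (LEs (v :: b)).length := by
  obtain ⟨t, ht, hv, hs⟩ := RunLem_state p v hp
  rw [LEs_append, ht]
  have h1 : run ([v] ++ t) b = run [v] b ++ t := by
    apply run_append_avoid
    intro y hy hyt
    have := h y hy (hs y hyt)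
    exact hv (this ▸ hyt)
  have h2 : LEs (v :: b) = run [v] b := rfl
  rw [h2]
  have h3 : run (v :: t) b = run [v] b ++ t := h1
  rw [h3]
  simp
  omega

/-- if the path `p ++ b ++ e` has a range cut at a time inside `b`, then the increment of the level during
`e` does not depend on `p` -/
theorem length_cut (p : List V) (v : V) (b e : List V) (hp : p.getLast? = some v) (c : ℕ)
    (h1 : p.length ≤ c) (h2 : c < (p ++ b).length)
    (h3 : List.Disjoint ((p ++ b ++ e).take c) ((p ++ b ++ e).drop c)) :
    (LEs (p ++ b ++ e)).length + (LEs (v :: b)).length =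
      (LEs (p ++ b)).length + (LEs (v :: b ++ e)).length := by
  -- split `b = b1 ++ b2` at `c`
  set k := c - p.length with hk
  have hck : c = p.length + k := by omega
  have hkb : k < b.length := by
    rw [List.length_append] at h2
    omega
  set b1 := b.take k with hb1
  set b2 := b.drop k with hb2
  have hb : b = b1 ++ b2 := (List.take_append_drop k b).symm
  have hlen1 : b1.length = k := by
    rw [hb1, List.length_take]
    omega
  have htake : (p ++ b ++ e).take c = p ++ b1 := by
    have : p ++ b ++ e = (p ++ b1) ++ (b2 ++ e) := by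
      conv_lhs => rw [hb]
      simp [List.append_assoc]
    rw [this]
    apply List.take_left'
    rw [List.length_append, hlen1]
    exact hck.symm
  have hdrop : (p ++ b ++ e).drop c = b2 ++ e := by
    have : p ++ b ++ e = (p ++ b1) ++ (b2 ++ e) := by
      conv_lhs => rw [hb]
      simp [List.append_assoc]
    rw [this]
    apply List.drop_left'
    rw [List.length_append, hlen1]
    exact hck.symm
  rw [htake, hdrop] at h3
  have hvp : v ∈ p := List.mem_of_getLast? hp
  have e1 : LEs (p ++ b ++ e) = LEs (b2 ++ e) ++ LEs (p ++ b1) := by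
    have : p ++ b ++ e = (p ++ b1) ++ (b2 ++ e) := by
      conv_lhs => rw [hb]
      simp [List.append_assoc]
    rw [this]
    exact LEs_append_disjoint _ _ h3
  have e2 : LEs (p ++ b) = LEs b2 ++ LEs (p ++ b1) := by
    have : p ++ b = (p ++ b1) ++ b2 := by
      conv_lhs => rw [hb]
      simp [List.append_assoc]
    rw [this]
    apply LEs_append_disjoint
    intro u hu hu2
    exact h3 hu (List.mem_append_left _ hu2)
  have e3 : LEs (v :: b) = LEs b2 ++ LEs (v :: b1) := by
    have : v :: b = (v :: b1) ++ b2 := by
      conv_lhs => rw [hb]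
      simp
    rw [this]
    apply LEs_append_disjoint
    intro u hu hu2
    refine h3 (a := u) ?_ (List.mem_append_left _ hu2)
    rcases List.mem_cons.1 hu with h | h
    · rw [h]; exact List.mem_append_left _ hvp
    · exact List.mem_append_right _ h
  have e4 : LEs (v :: b ++ e) = LEs (b2 ++ e) ++ LEs (v :: b1) := by
    have : v :: b ++ e = (v :: b1) ++ (b2 ++ e) := by
      conv_lhs => rw [hb]
      simp [List.append_assoc]
    rw [this]
    apply LEs_append_disjoint
    intro u hu hu2
    refine h3 (a := u) ?_ hu2
    rcases List.mem_cons.1 hu with h | h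
    · rw [h]; exact List.mem_append_left _ hvp
    · exact List.mem_append_right _ h
  rw [e1, e2, e3, e4]
  simp only [List.length_append]
  omega

end Pool.Agent.UQ
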