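import Pool.Agent.UQ.WSym
import Pool.Agent.UQ.RunLem

/-!
# A9 NL : near lock

For a path `p = x :: l` with last vertex `h` one has (`LEs_append`, `LEs_head`)
`FP p = N⁻¹ ∑_{s<N} WC s h (e ↦ z ^ |LEs (p ++ e)|)` (`FP_eq`).
By `WC_append`, `WC j h (b ↦ FP (p ++ b)) = N⁻¹ ∑_{s<N} WC (j+s) h (e ↦ z^|LEs (p ++ e)|)`, so it differs from `FP p` by at most
`2 j / N` (`mean_FP`): the two sums over `s ∈ [j, j+N)` and `s ∈ [0, N)` differ in at most `2 min j N` terms of norm `≤ 1`.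
Expand `‖u - w‖² = ‖u‖² - 2 Re (conj w * u) + ‖w‖²` with `u = FP (p ++ b)`, `w = FP p`:
`W j h (‖FP (p++b) - FP p‖²) ≤ W j h (‖FP (p++b)‖²) - ‖FP p‖² + 4 j / N`. Average over `x` and `l` (`W_append`):
`NL_sq`. Then `avgW_le_sqrt` gives `NL_one`.
-/

open Finset Pool.Agent.helper20.HP

namespace Pool.Agent.UQ

variable {V : Type} [Fintype V] [DecidableEq V] (K : HW V)

theorem FP_eq (z : ℂ) (N : ℕ) (x : V) (l : List V) :
    FP K z N (x :: l) = (N : ℂ)⁻¹ * ∑ s ∈ range N,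
      WC K s (lst x l) (fun e => z ^ (LEs (x :: l ++ e)).length) := by
  obtain ⟨t, ht⟩ := LEs_head x l
  unfold FP
  have h : ∀ e, LEs (x :: l ++ e) = run (lst x l :: t) e := by
    intro e
    rw [LEs_append, ht]
  simp_rw [h]
  rw [ht]
  rfl

theorem NL_norm_le {z : ℂ} (hz : ‖z‖ = 1) (s : ℕ) (h : V) (n : List V → ℕ) :
    ‖WC K s h (fun e => z ^ n e)‖ ≤ 1 := by
  refine (norm_WC_le K s h _).trans ?_
  have : W K s h (fun l => ‖z ^ n l‖) = 1 := by
    have e : ∀ l, ‖z ^ n l‖ = 1 := by intro l; rw [norm_pow, hz, one_pow]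
    simp_rw [e]
    exact W_const K s h 1
  exact this.le

theorem norm_FP_le {z : ℂ} (hz : ‖z‖ = 1) (N : ℕ) (p : List V) : ‖FP K z N p‖ ≤ 1 := by
  cases p with
  | nil =>
    have : FP K z N ([] : List V) = 0 := rfl
    rw [this, norm_zero]
    exact zero_le_one
  | cons x l =>
    rw [FP_eq, norm_mul, norm_inv, Complex.norm_natCast]
    have h1 : ‖∑ s ∈ range N, WC K s (lst x l) (fun e => z ^ (LEs (x :: l ++ e)).length)‖ ≤ (N : ℝ) := by
      refine (norm_sum_le _ _).trans ?_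
      refine (Finset.sum_le_sum (fun s _ => NL_norm_le K hz s (lst x l) _)).trans ?_
      simp
    rcases Nat.eq_zero_or_pos N with hN | hN
    · subst hN
      simp
    · have hN' : (0 : ℝ) < N := by exact_mod_cast hN
      calc (N : ℝ)⁻¹ * ‖∑ s ∈ range N, WC K s (lst x l) (fun e => z ^ (LEs (x :: l ++ e)).length)‖
          ≤ (N : ℝ)⁻¹ * N := mul_le_mul_of_nonneg_left h1 (by positivity)
        _ = 1 := by field_simp

theorem norm_cF {z : ℂ} (hz : ‖z‖ = 1) (N : ℕ) (p : List V) : ‖cF K z N p‖ = ‖FP K z N p‖ := by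
  unfold cF
  rw [norm_mul, RCLike.norm_conj, norm_pow, hz, one_pow, one_mul]

theorem mean_FP {z : ℂ} (hz : ‖z‖ = 1) {N : ℕ} (hN : 0 < N) (j : ℕ) (x : V) (l : List V) :
    ‖WC K j (lst x l) (fun b => FP K z N (x :: l ++ b)) - FP K z N (x :: l)‖
      ≤ 2 * (j : ℝ) / (N : ℝ) := by
  have hN' : (0 : ℝ) < N := by exact_mod_cast hN
  set A : ℕ → ℂ := fun s => WC K s (lst x l) (fun e => z ^ (LEs (x :: l ++ e)).length) with hA
  have h1 : WC K j (lst x l) (fun b => FP K z N (x :: l ++ b)) =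
      (N : ℂ)⁻¹ * ∑ s ∈ range N, A (j + s) := by
    have e1 : ∀ b, FP K z N (x :: l ++ b) = (N : ℂ)⁻¹ * ∑ s ∈ range N,
        WC K s (lst (lst x l) b) (fun e => z ^ (LEs (x :: l ++ (b ++ e))).length) := by
      intro b
      rw [List.cons_append, FP_eq]
      have hl : lst x (l ++ b) = lst (lst x l) b := by
        clear hA A
        induction l generalizing x with
        | nil => rfl
        | cons y l ih => rw [List.cons_append, WSym_lst_cons, WSym_lst_cons]; exact ih y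
      rw [hl]
      simp only [List.cons_append, List.append_assoc]
    simp_rw [e1]
    rw [WC_mul_left, WC_sum]
    congr 1
    refine Finset.sum_congr rfl (fun s _ => ?_)
    rw [hA]
    simp only
    rw [WC_append]
  have h2 : FP K z N (x :: l) = (N : ℂ)⁻¹ * ∑ s ∈ range N, A s := FP_eq K z N x l
  have h3 : ∑ s ∈ range N, A (j + s) - ∑ s ∈ range N, A s =
      ∑ s ∈ range j, A (N + s) - ∑ s ∈ range j, A s := by
    have a1 := Finset.sum_range_add A j N
    have a2 := Finset.sum_range_add A N j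
    rw [Nat.add_comm j N] at a1
    rw [a2] at a1
    linear_combination -a1
  rw [h1, h2, ← mul_sub, h3, norm_mul, norm_inv, Complex.norm_natCast]
  have hb : ∀ s, ‖A s‖ ≤ 1 := fun s => NL_norm_le K hz s (lst x l) _
  have h4 : ‖∑ s ∈ range j, A (N + s) - ∑ s ∈ range j, A s‖ ≤ 2 * (j : ℝ) := by
    refine (norm_sub_le _ _).trans ?_
    have b1 : ‖∑ s ∈ range j, A (N + s)‖ ≤ j := by
      refine (norm_sum_le _ _).trans ?_
      refine (Finset.sum_le_sum (fun s _ => hb (N + s))).trans ?_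
      simp
    have b2 : ‖∑ s ∈ range j, A s‖ ≤ j := by
      refine (norm_sum_le _ _).trans ?_
      refine (Finset.sum_le_sum (fun s _ => hb s)).trans ?_
      simp
    linarith
  rw [div_eq_inv_mul]
  exact mul_le_mul_of_nonneg_left h4 (by positivity)

theorem NL_pt {z : ℂ} (hz : ‖z‖ = 1) {N : ℕ} (hN : 0 < N) (j : ℕ) (x : V) (l : List V) :
    W K j (lst x l) (fun b => ‖FP K z N (x :: l ++ b) - FP K z N (x :: l)‖ ^ 2) ≤
      W K j (lst x l) (fun b => ‖FP K z N (x :: l ++ b)‖ ^ 2) - ‖FP K z N (x :: l)‖ ^ 2 +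
        4 * (j : ℝ) / (N : ℝ) := by
  have hN' : (0 : ℝ) < N := by exact_mod_cast hN
  set w := FP K z N (x :: l) with hw
  set u : List V → ℂ := fun b => FP K z N (x :: l ++ b) with hu
  have e1 : ∀ b, ‖u b - w‖ ^ 2 = ‖u b‖ ^ 2 - (2 * ((starRingEnd ℂ) w * u b).re - ‖w‖ ^ 2) := by
    intro b
    rw [← Complex.normSq_eq_norm_sq, ← Complex.normSq_eq_norm_sq, ← Complex.normSq_eq_norm_sq,
      Complex.normSq_sub, mul_comm ((starRingEnd ℂ) w) (u b)]
    ring
  have e2 : W K j (lst x l) (fun b => ‖u b - w‖ ^ 2) =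
      W K j (lst x l) (fun b => ‖u b‖ ^ 2) -
        (2 * ((starRingEnd ℂ) w * WC K j (lst x l) u).re - ‖w‖ ^ 2) := by
    simp_rw [e1]
    rw [W_sub, W_sub, W_const, W_mul_left, ← WC_re, WC_mul_left]
  have hm : ‖WC K j (lst x l) u - w‖ ≤ 2 * (j : ℝ) / (N : ℝ) := mean_FP K hz hN j x l
  have hw1 : ‖w‖ ≤ 1 := norm_FP_le K hz N _
  have e3 : ((starRingEnd ℂ) w * WC K j (lst x l) u).re =
      ‖w‖ ^ 2 + ((starRingEnd ℂ) w * (WC K j (lst x l) u - w)).re := by
    rw [mul_sub, Complex.sub_re, ← Complex.normSq_eq_norm_sq, ← Complex.normSq_eq_conj_mul_self,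
      Complex.ofReal_re]
    ring
  have e4 : -(2 * (j : ℝ) / (N : ℝ)) ≤ ((starRingEnd ℂ) w * (WC K j (lst x l) u - w)).re := by
    have a1 := Complex.abs_re_le_norm ((starRingEnd ℂ) w * (WC K j (lst x l) u - w))
    rw [norm_mul, RCLike.norm_conj] at a1
    have a2 : ‖w‖ * ‖WC K j (lst x l) u - w‖ ≤ 1 * (2 * (j : ℝ) / (N : ℝ)) :=
      mul_le_mul hw1 hm (norm_nonneg _) zero_le_one
    have a3 := (abs_le.mp (a1.trans a2)).1
    linarith
  rw [e2, e3]
  have e5 : 4 * (j : ℝ) / (N : ℝ) = 2 * (2 * (j : ℝ) / (N : ℝ)) := by ring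
  rw [e5]
  linarith

theorem NL_split (R j : ℕ) (x : V) (g : List V → ℝ) :
    W K R x (fun l => W K j (lst x l) (fun b => g (x :: l ++ b))) =
      W K (R + j) x (fun l => g (x :: l)) := by
  rw [W_append]
  rfl

theorem NL_sq [Nonempty V] {z : ℂ} (hz : ‖z‖ = 1) {N : ℕ} (hN : 0 < N) (R j : ℕ) :
    avg (fun x => W K R x (fun l => W K j (lst x l) (fun b =>
      ‖FP K z N (x :: l ++ b) - FP K z N (x :: l)‖ ^ 2)))
      ≤ aR K z N (R + j) - aR K z N R + 4 * (j : ℝ) / (N : ℝ) := by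
  have h1 : ∀ x, W K R x (fun l => W K j (lst x l) (fun b =>
      ‖FP K z N (x :: l ++ b) - FP K z N (x :: l)‖ ^ 2)) ≤
      (W K (R + j) x (fun l => ‖FP K z N (x :: l)‖ ^ 2) - W K R x (fun l => ‖FP K z N (x :: l)‖ ^ 2))
        + 4 * (j : ℝ) / (N : ℝ) := by
    intro x
    refine (W_mono K (fun l _ => NL_pt K hz hN j x l)).trans ?_
    rw [W_add, W_sub, W_const, NL_split K R j x (fun p => ‖FP K z N p‖ ^ 2)]
  refine (avg_mono h1).trans ?_
  rw [avg_add, avg_sub, avg_const]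
  rfl

theorem NL_one [Nonempty V] {z : ℂ} (hz : ‖z‖ = 1) {N : ℕ} (hN : 0 < N) (R j : ℕ) :
    avg (fun x => W K R x (fun l => W K j (lst x l) (fun b =>
      ‖FP K z N (x :: l ++ b) - FP K z N (x :: l)‖))) ≤ eta K z N R j := by
  have h1 : ∀ (n : ℕ) (x : V), W K (R + j) x (fun m => ‖FP K z N (x :: m) - FP K z N (x :: m.take R)‖ ^ n) =
      W K R x (fun l => W K j (lst x l) (fun b =>
        ‖FP K z N (x :: l ++ b) - FP K z N (x :: l)‖ ^ n)) := by
    intro n x
    rw [W_append]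
    refine W_congr K (fun l hl => W_congr K (fun b _ => ?_))
    rw [← hl, List.take_left, List.cons_append]
  have h2 := avgW_le_sqrt K (R + j) (fun x m => ‖FP K z N (x :: m) - FP K z N (x :: m.take R)‖)
  have h3 := NL_sq K hz hN R j
  have e1 : ∀ x, W K (R + j) x (fun m => ‖FP K z N (x :: m) - FP K z N (x :: m.take R)‖) =
      W K R x (fun l => W K j (lst x l) (fun b =>
        ‖FP K z N (x :: l ++ b) - FP K z N (x :: l)‖)) := by
    intro x
    have := h1 1 x
    simpa only [pow_one] using this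
  have e2 : ∀ x, W K (R + j) x (fun m => ‖FP K z N (x :: m) - FP K z N (x :: m.take R)‖ ^ 2) =
      W K R x (fun l => W K j (lst x l) (fun b =>
        ‖FP K z N (x :: l ++ b) - FP K z N (x :: l)‖ ^ 2)) := h1 2
  have h4 : avg (fun x => W K (R + j) x (fun m => ‖FP K z N (x :: m) - FP K z N (x :: m.take R)‖)) =
      avg (fun x => W K R x (fun l => W K j (lst x l) (fun b =>
        ‖FP K z N (x :: l ++ b) - FP K z N (x :: l)‖))) := by
    congr 1
    funext x
    exact e1 x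
  have h5 : avg (fun x => W K (R + j) x (fun m => ‖FP K z N (x :: m) - FP K z N (x :: m.take R)‖ ^ 2)) =
      avg (fun x => W K R x (fun l => W K j (lst x l) (fun b =>
        ‖FP K z N (x :: l ++ b) - FP K z N (x :: l)‖ ^ 2))) := by
    congr 1
    funext x
    exact e2 x
  rw [← h4]
  refine h2.trans ?_
  unfold eta
  apply Real.sqrt_le_sqrt
  exact h5.le.trans h3

theorem aR_nonneg (z : ℂ) (N R : ℕ) : 0 ≤ aR K z N R :=
  avg_nonneg (fun _ => W_nonneg K (fun _ _ => by positivity))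

theorem aR_le_one [Nonempty V] {z : ℂ} (hz : ‖z‖ = 1) (N R : ℕ) : aR K z N R ≤ 1 := by
  unfold aR
  have h : ∀ x, W K R x (fun l => ‖FP K z N (x :: l)‖ ^ 2) ≤ 1 := by
    intro x
    have : W K R x (fun l => ‖FP K z N (x :: l)‖ ^ 2) ≤ W K R x (fun _ => (1 : ℝ)) := by
      refine W_mono K (fun l _ => ?_)
      have := norm_FP_le K hz N (x :: l)
      exact pow_le_one₀ (norm_nonneg _) this
    rwa [W_const] at this
  have h2 := avg_mono (V := V) h
  rwa [avg_const] at h2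

/-- near monotonicity, from `NL_sq` -/
theorem aR_mono [Nonempty V] {z : ℂ} (hz : ‖z‖ = 1) {N : ℕ} (hN : 0 < N) (R j : ℕ) :
    aR K z N R ≤ aR K z N (R + j) + 4 * (j : ℝ) / (N : ℝ) := by
  have h := NL_sq K hz hN R j
  have h2 : 0 ≤ avg (fun x => W K R x (fun l => W K j (lst x l) (fun b =>
      ‖FP K z N (x :: l ++ b) - FP K z N (x :: l)‖ ^ 2))) :=
    avg_nonneg (fun _ => W_nonneg K (fun _ _ => W_nonneg K (fun _ _ => by positivity)))
  linarith

end Pool.Agent.UQ
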