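import Pool.Agent.UQ.XiEx

/-!
# B14 NulM : null sets are stable under finite modifications

* `nul_cons`: `μ S = 0` implies `μ (consW l ⁻¹' S) = 0` for measurable `S` by `LM.cons`; for general null sets use `toMeasurable`.
* `nul_drop1`: for measurable `S`, `μ {ω | dropW 1 ω ∈ S} = (2D)⁻¹ ∑_l μ {ω | dropW 1 (consW l ω) ∈ S} = μ S` (`dropW 1 (consW l ω) = ω`, `0 < D` since `μ` is a probability).
* words and `k` by induction; double version: inner first, then outer.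
-/

open Finset MeasureTheory Pool.Agent.helper20.HP

namespace Pool.Agent.UQ

variable {D : ℕ} {μ : Measure (ℕ → Lt D)}

theorem LM.pos (hμ : LM μ) : 0 < D := by
  rcases Nat.eq_zero_or_pos D with h | h
  · exfalso
    subst h
    haveI := hμ.prob
    have h1 := hμ.cons Set.univ MeasurableSet.univ
    rw [measure_univ] at h1
    have : ∑ l : Lt 0, μ (consW l ⁻¹' Set.univ) = 0 := Finset.sum_eq_zero (fun l _ => l.2.elim0)
    rw [this, mul_zero] at h1
    exact one_ne_zero h1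
  · exact h

theorem NulM_inv_ne (D : ℕ) : (2 * (D : ENNReal))⁻¹ ≠ 0 := by
  rw [Ne, ENNReal.inv_eq_zero]
  exact ENNReal.mul_ne_top (by simp) (by simp)

theorem NulM_card (hD : 0 < D) (c : ENNReal) :
    (2 * (D : ENNReal))⁻¹ * ∑ _l : Lt D, c = c := by
  rw [Finset.sum_const, Finset.card_univ, Fintype.card_prod, Fintype.card_bool, Fintype.card_fin,
    nsmul_eq_mul, ← mul_assoc]
  have h0 : (2 * (D : ENNReal)) ≠ 0 := by
    have : (D : ENNReal) ≠ 0 := by exact_mod_cast hD.ne'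
    exact mul_ne_zero (by simp) this
  have h1 : (2 * (D : ENNReal)) ≠ ⊤ := ENNReal.mul_ne_top (by simp) (by simp)
  push_cast
  rw [ENNReal.inv_mul_cancel h0 h1, one_mul]

theorem NulM_measDrop (k : ℕ) : Measurable (dropW k : (ℕ → Lt D) → (ℕ → Lt D)) := by
  rw [measurable_pi_iff]
  intro t
  exact measurable_pi_apply (k + t)

theorem NulM_drop_cons (l : Lt D) (ω : ℕ → Lt D) : dropW 1 (consW l ω) = ω := by
  funext t
  unfold dropW
  rw [Nat.add_comm]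
  rfl

theorem nul_cons (hμ : LM μ) {P : (ℕ → Lt D) → Prop} (h : ∀ᵐ ω ∂μ, P ω) (l : Lt D) :
    ∀ᵐ ω ∂μ, P (consW l ω) := by
  rw [ae_iff] at h ⊢
  have hS : μ (toMeasurable μ {ω | ¬ P ω}) = 0 := by rw [measure_toMeasurable]; exact h
  have h1 := hμ.cons _ (measurableSet_toMeasurable μ {ω | ¬ P ω})
  rw [hS] at h1
  have h2 : ∑ l : Lt D, μ (consW l ⁻¹' (toMeasurable μ {ω | ¬ P ω})) = 0 := by
    rcases mul_eq_zero.1 h1.symm with h3 | h3
    · exact absurd h3 (NulM_inv_ne D)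
    · exact h3
  have h4 := (Finset.sum_eq_zero_iff.1 h2) l (Finset.mem_univ l)
  refine measure_mono_null ?_ h4
  intro ω hω
  exact subset_toMeasurable μ {ω | ¬ P ω} hω

theorem nul_drop1 (hμ : LM μ) {P : (ℕ → Lt D) → Prop} (h : ∀ᵐ ω ∂μ, P ω) :
    ∀ᵐ ω ∂μ, P (dropW 1 ω) := by
  rw [ae_iff] at h ⊢
  have hS : μ (toMeasurable μ {ω | ¬ P ω}) = 0 := by rw [measure_toMeasurable]; exact h
  have hm := measurableSet_toMeasurable μ {ω | ¬ P ω}
  have h1 := hμ.cons (dropW 1 ⁻¹' (toMeasurable μ {ω | ¬ P ω})) (NulM_measDrop 1 hm)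
  have h2 : ∀ l : Lt D, consW l ⁻¹' (dropW 1 ⁻¹' (toMeasurable μ {ω | ¬ P ω}))
      = toMeasurable μ {ω | ¬ P ω} := by
    intro l
    ext ω
    simp only [Set.mem_preimage, NulM_drop_cons]
  simp only [h2] at h1
  rw [NulM_card hμ.pos, hS] at h1
  refine measure_mono_null ?_ h1
  intro ω hω
  exact subset_toMeasurable μ {ω | ¬ P ω} hω

theorem NulM_app (hμ : LM μ) (w : List (Lt D)) : ∀ {P : (ℕ → Lt D) → Prop},
    (∀ᵐ ω ∂μ, P ω) → ∀ᵐ ω ∂μ, P (appW w ω) := by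
  induction w with
  | nil => intro P h; exact h
  | cons l w ih =>
    intro P h
    exact ih (nul_cons hμ h l)

theorem NulM_drop (hμ : LM μ) (k : ℕ) : ∀ {P : (ℕ → Lt D) → Prop},
    (∀ᵐ ω ∂μ, P ω) → ∀ᵐ ω ∂μ, P (dropW k ω) := by
  induction k with
  | zero =>
    intro P h
    have : ∀ ω : ℕ → Lt D, dropW 0 ω = ω := by
      intro ω; funext t; unfold dropW; rw [Nat.zero_add]
    simpa only [this] using h
  | succ k ih =>
    intro P h
    have h1 := nul_drop1 hμ (ih h)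
    have : ∀ ω : ℕ → Lt D, dropW k (dropW 1 ω) = dropW (k + 1) ω := by
      intro ω; funext t; unfold dropW; congr 1; omega
    simpa only [this] using h1

theorem nul1 (hμ : LM μ) {P : (ℕ → Lt D) → Prop} (h : ∀ᵐ ω ∂μ, P ω) (w : List (Lt D)) (k : ℕ) :
    ∀ᵐ ω ∂μ, P (appW w (dropW k ω)) :=
  NulM_drop hμ k (P := fun ω => P (appW w ω)) (NulM_app hμ w h)

theorem nul2 (hμ : LM μ) {P : (ℕ → Lt D) → (ℕ → Lt D) → Prop} (h : ∀ᵐ ω ∂μ, ∀ᵐ ω' ∂μ, P ω ω')
    (w : List (Lt D)) (k : ℕ) (w' : List (Lt D)) (k' : ℕ) :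
    ∀ᵐ ω ∂μ, ∀ᵐ ω' ∂μ, P (appW w (dropW k ω)) (appW w' (dropW k' ω')) := by
  have h1 : ∀ᵐ ω ∂μ, ∀ᵐ ω' ∂μ, P ω (appW w' (dropW k' ω')) := by
    filter_upwards [h] with ω hω
    exact nul1 hμ hω w' k'
  exact nul1 hμ (P := fun ω => ∀ᵐ ω' ∂μ, P ω (appW w' (dropW k' ω'))) h1 w k

end Pool.Agent.UQ
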