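import Pool.Agent.UQ.KfCross
import Pool.Agent.UQ.KfLoc

/-!
# Q6 OneStep : the one step identity

`K.p x x = 1/2`. For a word `l` with state `γ = run (x::ρ) l`, tip `t = lst x l`, and a next vertex `y` call the step bad if `y ≠ t` and `z^|stp γ y| ≠ z * z^|γ|`. Then
`WC 1 t (z^sl(l ++ [y])) = (1+z)/2 z^sl(l) + O(2 * P(bad))`. Choose `u`, `‖u‖ = 1`, with `Re (u (1 - (1+z)/2) z ∑_y z^(r+y) Phi (r+y)) = ‖(1-z)/2‖ ‖∑ …‖` and use `Kf_chi_mul` (for `φ n = Re (u z^n)` and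
`φ n = Re (u (1+z)/2 z^n)`) and `Kf_me` with `s = 1`, `G = Re (u z^sl)`.
A next vertex `y ∈ Γ` costs at most `Kf_kill` with `s = 1`. The mass of the words with a bad next step `y ∉ Γ`: hypothesis `hbad` says that a bad step from a state with nodup start which is not a long hit (`HP.LH`) is a local event `ψ` of the last `2h` steps and of the next vertex; its probability is `≤ δ`:
`Kf (chi * W 1 (ind bad)) ≤ Kf (chi * W 1 (ind (LHin (2h) 1 (l ++ [y])))) + Kf (chi * ψ-part)`; first term `Kf_LHnext` with `R = 0`, `N = 1`; second term: `Kf_loc'` with `k = 2h` (words of length `≥ 2h`; for shorter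
words bound by 1, that is inside `Kf_loc'` since `hfψ` only concerns words `l ++ l'`) and `ψ' v l' = W 1 (lst v l') (fun m => ψ v (l' ++ m))`, `W (2h) v ψ' = W (2h+1) v ψ ≤ δ`.
-/

open Finset Filter Pool.Agent.helper20.HP

namespace Pool.Agent.UQ

variable {V : Type} [Fintype V] [DecidableEq V] {K : HW V} {θ : ℝ} {h : ℕ} {Γ : List V}

omit [Fintype V] in
theorem OneStep_sl (x : V) (ρ l : List V) (y : V) :
    sl x ρ (l ++ [y]) = (stp (run (x :: ρ) l) y).length := by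
  unfold sl
  rw [run_append, run_cons, run_nil]

omit [Fintype V] in
theorem OneStep_stay (x : V) (ρ l : List V) : sl x ρ (l ++ [lst x l]) = sl x ρ l := by
  rw [OneStep_sl]
  obtain ⟨τ, hτ⟩ := run_head x ρ l
  unfold sl
  rw [hτ]
  unfold stp
  simp

/-- the step `l'` (one vertex) moves the tip and does not multiply `z ^ level` by `z` -/
def OneStep_bad (z : ℂ) (x : V) (ρ l l' : List V) : Prop :=
  lst x (l ++ l') ≠ lst x l ∧ z ^ sl x ρ (l ++ l') ≠ z * z ^ sl x ρ l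

theorem OneStep_W1 (K : HW V) (t : V) (f : List V → ℝ) : W K 1 t f = ∑ y, K.p t y * f [y] := by
  rw [Pool.Agent.helper20.HP.W_succ]
  refine Finset.sum_congr rfl fun y _ => ?_
  rw [Pool.Agent.helper20.HP.W_zero]

theorem OneStep_re_le {u z : ℂ} (hu : ‖u‖ = 1) (hz : ‖z‖ = 1) (n : ℕ) : |(u * z ^ n).re| ≤ 1 := by
  refine (Complex.abs_re_le_norm _).trans ?_
  rw [norm_mul, norm_pow, hu, hz, one_pow, one_mul]

theorem OneStep_pt (hhalf : ∀ x, K.p x x = 1 / 2) {z u : ℂ} (hz : ‖z‖ = 1) (hu : ‖u‖ = 1)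
    (x : V) (ρ l : List V) :
    |W K 1 (lst x l) (fun l' => (u * z ^ sl x ρ (l ++ l')).re) -
      (u * ((1 + z) / 2) * z ^ sl x ρ l).re| ≤
      2 * W K 1 (lst x l) (fun l' => Pool.Agent.helper20.HP.ind (OneStep_bad z x ρ l l')) := by
  set t := lst x l with ht
  set N := sl x ρ l with hN
  set a : ℝ := (u * z ^ N).re with ha
  set b : ℝ := (u * (z * z ^ N)).re with hb
  have hb1 : |b| ≤ 1 := by
    have := OneStep_re_le hu hz (N + 1)
    rw [pow_succ, mul_comm (z ^ N) z] at this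
    exact this
  have e1 : (u * ((1 + z) / 2) * z ^ N).re = a / 2 + b / 2 := by
    have : u * ((1 + z) / 2) * z ^ N = (u * z ^ N) * ((1 / 2 : ℝ) : ℂ) +
        (u * (z * z ^ N)) * ((1 / 2 : ℝ) : ℂ) := by
      push_cast; ring
    rw [this, Complex.add_re, Complex.re_mul_ofReal, Complex.re_mul_ofReal, ← ha, ← hb]
    ring
  have e2 : a / 2 + b / 2 = ∑ y, K.p t y * (if y = t then a else b) := by
    have h1 : ∀ y, K.p t y * (if y = t then a else b) =
        K.p t y * b + (if y = t then K.p t t * (a - b) else 0) := by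
      intro y
      split_ifs with hy
      · subst hy; ring
      · ring
    simp only [h1]
    rw [Finset.sum_add_distrib, ← Finset.sum_mul, K.sum_one, Finset.sum_ite_eq' Finset.univ t,
      if_pos (Finset.mem_univ _), hhalf]
    ring
  rw [OneStep_W1, OneStep_W1, e1, e2, ← Finset.sum_sub_distrib, Finset.mul_sum]
  refine (Finset.abs_sum_le_sum_abs _ _).trans (Finset.sum_le_sum fun y _ => ?_)
  rw [← mul_sub, abs_mul, abs_of_nonneg (K.nonneg _ _)]
  have key : |(u * z ^ sl x ρ (l ++ [y])).re - (if y = t then a else b)| ≤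
      2 * Pool.Agent.helper20.HP.ind (OneStep_bad z x ρ l [y]) := by
    by_cases hy : y = t
    · rw [if_pos hy, hy, ht, OneStep_stay, ← hN, ← ha, sub_self, abs_zero]
      exact mul_nonneg (by norm_num) (Pool.Agent.helper20.HP.ind_nonneg _)
    · rw [if_neg hy]
      by_cases hz' : z ^ sl x ρ (l ++ [y]) = z * z ^ N
      · rw [hz', ← hb, sub_self, abs_zero]
        exact mul_nonneg (by norm_num) (Pool.Agent.helper20.HP.ind_nonneg _)
      · have hbad : OneStep_bad z x ρ l [y] := by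
          refine ⟨?_, hz'⟩
          rw [lst_concat]
          exact hy
        rw [Pool.Agent.helper20.HP.ind_true hbad]
        have h1 := OneStep_re_le hu hz (sl x ρ (l ++ [y]))
        rw [abs_le] at h1 hb1 ⊢
        constructor <;> linarith [h1.1, h1.2, hb1.1, hb1.2]
  calc K.p t y * |(u * z ^ sl x ρ (l ++ [y])).re - (if y = t then a else b)|
      ≤ K.p t y * (2 * Pool.Agent.helper20.HP.ind (OneStep_bad z x ρ l [y])) :=
        mul_le_mul_of_nonneg_left key (K.nonneg _ _)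
    _ = _ := by ring

theorem OneStep_key (hΓ : Γ.Nodup) (z c : ℂ) (r w : ℕ) :
    Kf K Γ (fun x ρ l => chi r w x ρ l * (c * z ^ sl x ρ l).re) =
      (c * z * ∑ y ∈ range w, z ^ (r + y) * ((Phi K Γ (r + y) : ℝ) : ℂ)).re := by
  rw [Kf_chi_mul K hΓ r w (fun n => (c * z ^ n).re), Finset.mul_sum, Complex.re_sum]
  refine Finset.sum_congr rfl fun y _ => ?_
  have : c * z * (z ^ (r + y) * ((Phi K Γ (r + y) : ℝ) : ℂ)) =
      (c * z ^ (r + y + 1)) * ((Phi K Γ (r + y) : ℝ) : ℂ) := by ring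
  rw [this, Complex.re_mul_ofReal]

/-- the bad steps which are neither killed nor long hits -/
def OneStep_E (Γ : List V) (h : ℕ) (z : ℂ) (x : V) (ρ l l' : List V) : Prop :=
  OneStep_bad z x ρ l l' ∧ (∀ y ∈ l', y ∉ Γ) ∧ ¬ LHin (2 * h) (0 + 1) x ρ (l ++ l')

theorem OneStep_wk {x : V} {l : List V} {y : V} (h1 : Wk K x l) (h2 : Wk K (lst x l) [y]) :
    Wk K x (l ++ [y]) := by
  unfold Wk at h1 h2 ⊢
  rw [← List.cons_append, List.isChain_append]
  refine ⟨h1, List.isChain_singleton y, ?_⟩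
  intro a ha b hb
  have ha' : lst x l = a := by
    unfold lst
    cases l with
    | nil => simpa using ha
    | cons y l =>
      rw [List.getLast?_cons_cons] at ha
      rw [List.getLastD_eq_getLast?]
      rw [Option.mem_def] at ha
      rw [ha]; rfl
  simp only [List.head?_cons, Option.mem_def, Option.some.injEq] at hb
  subst hb
  rw [List.isChain_cons_cons] at h2
  rw [← ha']
  exact h2.1

theorem OneStep_bad_mass (hP : Par K θ h) (hΓ : Γ.Nodup) {z : ℂ}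
    {r w m : ℕ} (hm : r + w + 8 * h ≤ m) (ψ : V → List V → ℝ) (h0 : ∀ v l, 0 ≤ ψ v l)
    (h1 : ∀ v l, ψ v l ≤ 1) {δ : ℝ} (hδ : ∀ v, W K (2 * h + 1) v (ψ v) ≤ δ)
    (hbad : ∀ x ρ l l' y, (x :: ρ).Nodup → (∀ u ∈ x :: ρ, u ∈ Γ) → (∀ u ∈ l ++ l' ++ [y], u ∉ Γ) →
      Wk K x (l ++ l' ++ [y]) → l'.length = 2 * h → y ≠ lst x (l ++ l') →
      z ^ (stp (run (x :: ρ) (l ++ l')) y).length ≠ z * z ^ sl x ρ (l ++ l') →
      ¬ LH (2 * h) x ρ (l ++ l') y → ψ (lst x l) (l' ++ [y]) = 1) :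
    Kf K Γ (fun x ρ l => chi r w x ρ l *
      W K 1 (lst x l) (fun l' => Pool.Agent.helper20.HP.ind (OneStep_bad z x ρ l l'))) ≤
      Γ.length + (Γ.length + 4 * (w * CZ θ * 2) + 2 * (2 * h) * PB θ (Fintype.card V) m) +
      (δ * ((w + 8 * h) * PB θ (Fintype.card V) m) + 3 * (w * CZ θ * (2 * (h : ℝ) + 1))) := by
  have hh1 := hP.h_pos
  -- the three functions
  set f₁ : V → List V → List V → ℝ := fun x _ l => W K 1 (lst x l) (fun l' => 1 - av Γ l') with hf₁
  set f₂ : V → List V → List V → ℝ := fun x ρ l => chi r w x ρ l * W K 1 (lst x l) (fun l' =>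
      Pool.Agent.helper20.HP.ind (LHin (2 * h) (0 + 1) x ρ (l ++ l'))) with hf₂
  set g₃ : V → List V → List V → ℝ := fun x ρ l => W K 1 (lst x l) (fun l' =>
      Pool.Agent.helper20.HP.ind (OneStep_E Γ h z x ρ l l')) with hg₃
  set f₃ : V → List V → List V → ℝ := fun x ρ l => chi r w x ρ l * g₃ x ρ l with hf₃
  have hi0 : ∀ p : Prop, 0 ≤ Pool.Agent.helper20.HP.ind p := fun p =>
    Pool.Agent.helper20.HP.ind_nonneg p
  have hi1 : ∀ p : Prop, Pool.Agent.helper20.HP.ind p ≤ 1 := fun p =>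
    Pool.Agent.helper20.HP.ind_le_one p
  have hc0 := KfLoc_chi_nonneg (V := V) r w
  have hc1 := KfLoc_chi_le_one (V := V) r w
  have hW0 : ∀ (k : ℕ) (x : V) (f : List V → ℝ), (∀ l, 0 ≤ f l) → 0 ≤ W K k x f :=
    fun k x f hf => Pool.Agent.helper20.HP.W_nonneg K k x fun l _ => hf l
  have hB1 : Bd f₁ := KfLoc_Bd
    (fun x ρ l => hW0 _ _ _ fun l' => by have := KfLoc_av_le_one Γ l'; linarith)
    (fun x ρ l => KfLoc_W_le_one _ _ fun l' => by have := KfLoc_av_nonneg Γ l'; linarith)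
  have hB2 : Bd f₂ := KfLoc_Bd
    (fun x ρ l => mul_nonneg (hc0 _ _ _) (hW0 _ _ _ fun l' => hi0 _))
    (fun x ρ l => mul_le_one₀ (hc1 _ _ _) (hW0 _ _ _ fun l' => hi0 _)
      (KfLoc_W_le_one _ _ fun l' => hi1 _))
  have hg30 : ∀ x ρ l, 0 ≤ g₃ x ρ l := fun x ρ l => hW0 _ _ _ fun l' => hi0 _
  have hg31 : ∀ x ρ l, g₃ x ρ l ≤ 1 := fun x ρ l => KfLoc_W_le_one _ _ fun l' => hi1 _
  have hB3 : Bd f₃ := KfLoc_Bd
    (fun x ρ l => mul_nonneg (hc0 _ _ _) (hg30 _ _ _))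
    (fun x ρ l => mul_le_one₀ (hc1 _ _ _) (hg30 _ _ _) (hg31 _ _ _))
  have hB0 : Bd (fun x ρ l => chi r w x ρ l *
      W K 1 (lst x l) (fun l' => Pool.Agent.helper20.HP.ind (OneStep_bad z x ρ l l'))) := KfLoc_Bd
    (fun x ρ l => mul_nonneg (hc0 _ _ _) (hW0 _ _ _ fun l' => hi0 _))
    (fun x ρ l => mul_le_one₀ (hc1 _ _ _) (hW0 _ _ _ fun l' => hi0 _)
      (KfLoc_W_le_one _ _ fun l' => hi1 _))
  have hB12 : Bd (fun x ρ l => f₁ x ρ l + f₂ x ρ l) := by
    obtain ⟨C₁, hC₁⟩ := hB1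
    obtain ⟨C₂, hC₂⟩ := hB2
    exact ⟨C₁ + C₂, fun x ρ l => (abs_add_le _ _).trans (add_le_add (hC₁ x ρ l) (hC₂ x ρ l))⟩
  have hB123 : Bd (fun x ρ l => f₁ x ρ l + f₂ x ρ l + f₃ x ρ l) := by
    obtain ⟨C₁, hC₁⟩ := hB12
    obtain ⟨C₂, hC₂⟩ := hB3
    exact ⟨C₁ + C₂, fun x ρ l => (abs_add_le _ _).trans (add_le_add (hC₁ x ρ l) (hC₂ x ρ l))⟩
  have hmain : Kf K Γ (fun x ρ l => chi r w x ρ l *
      W K 1 (lst x l) (fun l' => Pool.Agent.helper20.HP.ind (OneStep_bad z x ρ l l'))) ≤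
      Kf K Γ (fun x ρ l => f₁ x ρ l + f₂ x ρ l + f₃ x ρ l) := by
    refine Kf_mono K hΓ hB0 hB123 fun x ρ l _ _ _ _ => ?_
    have hp : W K 1 (lst x l) (fun l' => Pool.Agent.helper20.HP.ind (OneStep_bad z x ρ l l')) ≤
        W K 1 (lst x l) (fun l' => (1 - av Γ l') +
          (Pool.Agent.helper20.HP.ind (LHin (2 * h) (0 + 1) x ρ (l ++ l')) +
          Pool.Agent.helper20.HP.ind (OneStep_E Γ h z x ρ l l'))) := by
      refine Pool.Agent.helper20.HP.W_mono K 1 _ fun l' _ => ?_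
      have a1 : 0 ≤ 1 - av Γ l' := by have := KfLoc_av_le_one Γ l'; linarith
      by_cases hb : OneStep_bad z x ρ l l'
      · by_cases hav : ∀ y ∈ l', y ∉ Γ
        · by_cases hL : LHin (2 * h) (0 + 1) x ρ (l ++ l')
          · rw [Pool.Agent.helper20.HP.ind_true hL]
            linarith [hi1 (OneStep_bad z x ρ l l'), hi0 (OneStep_E Γ h z x ρ l l')]
          · have hE : OneStep_E Γ h z x ρ l l' := ⟨hb, hav, hL⟩
            rw [Pool.Agent.helper20.HP.ind_true hE]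
            linarith [hi1 (OneStep_bad z x ρ l l'), hi0 (LHin (2 * h) (0 + 1) x ρ (l ++ l'))]
        · have : av Γ l' = 0 := Pool.Agent.helper20.HP.ind_false hav
          rw [this]
          linarith [hi1 (OneStep_bad z x ρ l l'), hi0 (LHin (2 * h) (0 + 1) x ρ (l ++ l')),
            hi0 (OneStep_E Γ h z x ρ l l')]
      · rw [Pool.Agent.helper20.HP.ind_false hb]
        linarith [hi0 (LHin (2 * h) (0 + 1) x ρ (l ++ l')), hi0 (OneStep_E Γ h z x ρ l l')]
    rw [Pool.Agent.helper20.HP.W_add, Pool.Agent.helper20.HP.W_add] at hp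
    have h2 := mul_le_mul_of_nonneg_left hp (hc0 x ρ l)
    refine h2.trans ?_
    have h3 : 0 ≤ W K 1 (lst x l) (fun l' => 1 - av Γ l') := hW0 _ _ _ fun l' => by
      have := KfLoc_av_le_one Γ l'; linarith
    have h4 : chi r w x ρ l * W K 1 (lst x l) (fun l' => 1 - av Γ l') ≤
        W K 1 (lst x l) (fun l' => 1 - av Γ l') := mul_le_of_le_one_left h3 (hc1 x ρ l)
    simp only [hf₁, hf₂, hf₃, hg₃]
    linarith
  refine hmain.trans ?_
  rw [Kf_add K hΓ hB12 hB3, Kf_add K hΓ hB1 hB2]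
  have e1 : Kf K Γ f₁ ≤ Γ.length := by
    have := Kf_kill K hΓ 1
    rw [Nat.cast_one, one_mul] at this
    exact this
  have e2 : Kf K Γ f₂ ≤ Γ.length + 4 * (w * CZ θ * 2) + 2 * (2 * h) * PB θ (Fintype.card V) m := by
    have := Kf_LHnext hP hΓ (R := 0) (N := 1) (by omega) (by omega) (r := r) (w := w) (m := m)
      (by omega)
    push_cast at this
    rw [one_mul, zero_add] at this
    have e : (1 : ℝ) + 1 = 2 := by norm_num
    rw [e] at this
    exact this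
  have e3 : Kf K Γ f₃ ≤ δ * ((w + 8 * h) * PB θ (Fintype.card V) m) +
      3 * (w * CZ θ * (2 * (h : ℝ) + 1)) := by
    have := Kf_loc' hP hΓ (k := 2 * h) (by omega) hm g₃ hg30 hg31
      (fun v l' => W K 1 (lst v l') (fun m => ψ v (l' ++ m)))
      (fun v l' => hW0 _ _ _ fun _ => h0 _ _) (fun v l' => KfLoc_W_le_one _ _ fun _ => h1 _ _)
      (by
        intro x ρ l l' hnd hin hout hwk hlen
        have hlst : lst x (l ++ l') = lst (lst x l) l' := lst_append x l l'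
        simp only [hg₃]
        rw [← hlst]
        refine W_mono_supp K fun m' hm' hwk' => ?_
        obtain ⟨y, rfl⟩ := List.length_eq_one_iff.mp hm'
        by_cases hE : OneStep_E Γ h z x ρ (l ++ l') [y]
        · obtain ⟨⟨hE1, hE2⟩, hE3, hE4⟩ := hE
          rw [lst_concat] at hE1
          rw [OneStep_sl] at hE2
          have hLH : ¬ LH (2 * h) x ρ (l ++ l') y := fun hL =>
            hE4 ⟨l ++ l', y, [], rfl, by simp, hL⟩
          have := hbad x ρ l l' y hnd hin (by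
            intro u hu
            rcases List.mem_append.mp hu with hu | hu
            · exact hout u hu
            · exact hE3 u hu) (OneStep_wk hwk hwk') hlen hE1 hE2 hLH
          rw [this]
          exact hi1 _
        · rw [Pool.Agent.helper20.HP.ind_false hE]
          exact h0 _ _)
      (ε₀ := δ) (by
        intro v
        have := hδ v
        rw [Pool.Agent.helper20.HP.W_split] at this
        exact this)
    push_cast at this
    exact this
  linarith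

theorem one_step (hP : Par K θ h) (hΓ : Γ.Nodup) (hhalf : ∀ x, K.p x x = 1 / 2) {z : ℂ} (hz : ‖z‖ = 1)
    {r w m : ℕ} (hm : r + w + 8 * h ≤ m) (ψ : V → List V → ℝ) (h0 : ∀ v l, 0 ≤ ψ v l)
    (h1 : ∀ v l, ψ v l ≤ 1) {δ : ℝ} (hδ : ∀ v, W K (2 * h + 1) v (ψ v) ≤ δ)
    (hbad : ∀ x ρ l l' y, (x :: ρ).Nodup → (∀ u ∈ x :: ρ, u ∈ Γ) → (∀ u ∈ l ++ l' ++ [y], u ∉ Γ) →
      Wk K x (l ++ l' ++ [y]) → l'.length = 2 * h → y ≠ lst x (l ++ l') →
      z ^ (stp (run (x :: ρ) (l ++ l')) y).length ≠ z * z ^ sl x ρ (l ++ l') →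
      ¬ LH (2 * h) x ρ (l ++ l') y → ψ (lst x l) (l' ++ [y]) = 1) :
    ‖(1 - z) / 2‖ * ‖∑ y ∈ range w, z ^ (r + y) * ((Phi K Γ (r + y) : ℝ) : ℂ)‖ ≤
      2 * (δ * ((w + 8 * h) * PB θ (Fintype.card V) m))
      + (30 * (w * CZ θ * (2 * (h : ℝ) + 1)) + 8 * (2 * h) * PB θ (Fintype.card V) m
        + 5 * Γ.length) := by
  have hh1 := hP.h_pos
  set S : ℂ := ∑ y ∈ range w, z ^ (r + y) * ((Phi K Γ (r + y) : ℝ) : ℂ) with hS
  obtain ⟨u, hu, hu2⟩ := Complex.exists_norm_eq_mul_self ((1 - z) / 2 * z * S)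
  have hnorm : ‖(1 - z) / 2‖ * ‖S‖ = (u * z * S).re - (u * ((1 + z) / 2) * z * S).re := by
    have h2 : ‖(1 - z) / 2 * z * S‖ = ‖(1 - z) / 2‖ * ‖S‖ := by
      rw [norm_mul, norm_mul, hz, mul_one]
    rw [← h2, ← Complex.sub_re]
    have h3 : u * z * S - u * ((1 + z) / 2) * z * S = u * ((1 - z) / 2 * z * S) := by ring
    rw [h3, ← hu2, Complex.ofReal_re]
  have k1 := OneStep_key (K := K) hΓ z u r w
  have k2 := OneStep_key (K := K) hΓ z (u * ((1 + z) / 2)) r w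
  rw [← hS] at k1 k2
  rw [hnorm, ← k1, ← k2]
  have hc0 := KfLoc_chi_nonneg (V := V) r w
  have hc1 := KfLoc_chi_le_one (V := V) r w
  have hme := Kf_me hP hΓ (s := 1) (by omega) (r := r) (w := w) (m := m) (by omega)
    (fun (x : V) (ρ l : List V) => (u * z ^ sl x ρ l).re) (fun _ _ _ => OneStep_re_le hu hz _)
  have hmass := OneStep_bad_mass hP hΓ hm ψ h0 h1 hδ hbad
  have hB1 : Bd (fun x ρ l => chi r w x ρ l *
      W K 1 (lst x l) (fun l' => (u * z ^ sl x ρ (l ++ l')).re)) := by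
    refine ⟨1, fun x ρ l => ?_⟩
    rw [abs_mul, abs_of_nonneg (hc0 x ρ l)]
    refine mul_le_one₀ (hc1 x ρ l) (abs_nonneg _) ?_
    refine (Pool.Agent.helper20.HP.W_abs_le K 1 _ _).trans ?_
    exact KfLoc_W_le_one _ _ fun l' => OneStep_re_le hu hz _
  have hB2 : Bd (fun (x : V) (ρ l : List V) =>
      chi r w x ρ l * (u * ((1 + z) / 2) * z ^ sl x ρ l).re) := by
    refine ⟨1, fun x ρ l => ?_⟩
    rw [abs_mul, abs_of_nonneg (hc0 x ρ l)]
    refine mul_le_one₀ (hc1 x ρ l) (abs_nonneg _) ?_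
    refine (Complex.abs_re_le_norm _).trans ?_
    rw [norm_mul, norm_mul, norm_pow, hu, hz, one_pow, one_mul, mul_one, norm_div]
    have : ‖(1 : ℂ) + z‖ ≤ 2 := by
      refine (norm_add_le _ _).trans ?_
      rw [norm_one, hz]; norm_num
    rw [Complex.norm_ofNat]
    linarith
  have hB3 : Bd (fun x ρ l => chi r w x ρ l *
      W K 1 (lst x l) (fun l' => Pool.Agent.helper20.HP.ind (OneStep_bad z x ρ l l'))) := KfLoc_Bd
    (fun x ρ l => mul_nonneg (hc0 _ _ _) (Pool.Agent.helper20.HP.W_nonneg K _ _ fun l' _ =>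
      Pool.Agent.helper20.HP.ind_nonneg _))
    (fun x ρ l => mul_le_one₀ (hc1 _ _ _) (Pool.Agent.helper20.HP.W_nonneg K _ _ fun l' _ =>
      Pool.Agent.helper20.HP.ind_nonneg _)
      (KfLoc_W_le_one _ _ fun l' => Pool.Agent.helper20.HP.ind_le_one _))
  have hB4 : Bd (fun x ρ l => 2 * (chi r w x ρ l *
      W K 1 (lst x l) (fun l' => Pool.Agent.helper20.HP.ind (OneStep_bad z x ρ l l')))) := by
    obtain ⟨C, hC⟩ := hB3
    refine ⟨2 * C, fun x ρ l => ?_⟩
    rw [abs_mul, abs_two]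
    exact mul_le_mul_of_nonneg_left (hC x ρ l) (by norm_num)
  have hB5 : Bd (fun x ρ l => chi r w x ρ l * (u * ((1 + z) / 2) * z ^ sl x ρ l).re +
      2 * (chi r w x ρ l *
      W K 1 (lst x l) (fun l' => Pool.Agent.helper20.HP.ind (OneStep_bad z x ρ l l')))) := by
    obtain ⟨C₁, hC₁⟩ := hB2
    obtain ⟨C₂, hC₂⟩ := hB4
    exact ⟨C₁ + C₂, fun x ρ l => (abs_add_le _ _).trans (add_le_add (hC₁ x ρ l) (hC₂ x ρ l))⟩
  have hcmp : Kf K Γ (fun x ρ l => chi r w x ρ l *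
      W K 1 (lst x l) (fun l' => (u * z ^ sl x ρ (l ++ l')).re)) ≤
      Kf K Γ (fun x ρ l => chi r w x ρ l * (u * ((1 + z) / 2) * z ^ sl x ρ l).re) +
      2 * Kf K Γ (fun x ρ l => chi r w x ρ l *
        W K 1 (lst x l) (fun l' => Pool.Agent.helper20.HP.ind (OneStep_bad z x ρ l l'))) := by
    rw [← Kf_mul_left, ← Kf_add K hΓ hB2 hB4]
    refine Kf_mono K hΓ hB1 hB5 fun x ρ l _ _ _ _ => ?_
    have hpt := (abs_le.mp (OneStep_pt hhalf hz hu x ρ l)).2
    have := mul_le_mul_of_nonneg_left hpt (hc0 x ρ l)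
    linarith
  have hme2 := (abs_le.mp hme).2
  rw [Nat.cast_one, one_mul] at hme2
  have hCZ : 0 ≤ CZ θ := by unfold CZ; positivity
  have hwC : 0 ≤ (w : ℝ) * CZ θ := by positivity
  have hh : (1 : ℝ) ≤ h := by exact_mod_cast hh1
  have hwh : (w : ℝ) * CZ θ ≤ w * CZ θ * h := le_mul_of_one_le_right hwC hh
  linarith

end Pool.Agent.UQ
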