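import Pool.Agent.UQ.Trans

/-!
# B16 P3 : sets from which one cannot escape are finite

Suppose `W` infinite. By `nonesc_finite` for `Φ ∪ I` there is `v ∈ W` with `Esc (Φ ∪ I) v`. A walk from `v` avoiding `Φ ∪ I` stays in `W \ I`
(induction on `t`, by `hcl`), so it avoids `R` (by `hR`). So `Esc R v` with `v ∈ W \ I`, contradicting `htr`.
-/


open Finset MeasureTheory Pool.Agent.helper20.HP

namespace Pool.Agent.UQ

variable {V : Type} {D : ℕ} {nb : V → Fin D → V} {μ : Measure (ℕ → Lt D)}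

theorem finw {θ : ℝ} (G : GInf nb θ) (hμ : LM μ) {W I Φ R : Set V} (hI : I.Finite) (hΦ : Φ.Finite)
    (hcl : ∀ w ∈ W, ∀ u, Adj nb w u → u ∈ W ∨ u ∈ Φ) (hR : ∀ w ∈ W, w ∈ R → w ∈ I)
    (htr : ∀ w ∈ W, w ∉ I → ¬ Esc nb μ R w) : W.Finite := by
  by_contra hW
  have hW' : W.Infinite := hW
  have hfin := nonesc_finite G hμ (hΦ.union hI)
  obtain ⟨v, hvW, hv⟩ := (hW'.sdiff hfin).nonempty
  simp only [Set.mem_ofPred_eq, not_not] at hv
  have hne : {ω : ℕ → Lt D | ∀ t, Xi nb v ω t ∉ Φ ∪ I}.Nonempty := by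
    by_contra hemp
    rw [Set.not_nonempty_iff_eq_empty] at hemp
    unfold Esc at hv
    rw [hemp] at hv
    simp at hv
  have hvI : v ∉ I := by
    obtain ⟨ω, hω⟩ := hne
    have := hω 0
    simp only [Xi] at this
    exact fun h => this (Or.inr h)
  refine htr v hvW hvI ?_
  unfold Esc at hv ⊢
  refine lt_of_lt_of_le hv (measure_mono ?_)
  intro ω hω t
  simp only [Set.mem_ofPred_eq] at hω
  have hstay : ∀ t, Xi nb v ω t ∈ W := by
    intro t
    induction t with
    | zero => simpa [Xi] using hvW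
    | succ t ih =>
      have hnot := hω (t + 1)
      simp only [Xi] at hnot ⊢
      unfold mv at hnot ⊢
      by_cases hb : (ω t).1 = true
      · rw [if_pos hb] at hnot ⊢
        rcases hcl _ ih (nb (Xi nb v ω t) (ω t).2) ⟨(ω t).2, rfl⟩ with h | h
        · exact h
        · exact absurd (Or.inl h) hnot
      · rw [if_neg hb]
        exact ih
  intro hRt
  exact hω t (Or.inr (hR _ (hstay t) hRt))

end Pool.Agent.UQ
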