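import Pool.Agent.UQ.EscB
import Pool.Agent.UQ.PK

/-!
# B11 Trans : transience

* `∑_t μ {X_t = x} = ∑_t ofReal (pk t v x) < ∞` by `pk_le` and `Smb_half`; Borel-Cantelli (`measure_setOf_frequently_eq_zero` /
  `ae_finite_setOf_mem`): `fin_visits`.
* `nonesc_finite`: if `¬ Esc Φ v` then `1 = μ {∃ t, X_t ∈ Φ} ≤ ∑_{x ∈ Φ} ∑_t pk t v x`. Choose `T₀` with `Smb_tail` for `ε = 1/(2 (|Φ|+1))`. If `x ∈ Φ` is not of the form `endp v w` with
  `|w| < T₀`, the terms `t < T₀` vanish (`pk_reach`) and the sum over `t ≥ T₀` is `≤ ε`. So some `x ∈ Φ` is within `T₀` of `v`, so (`Reg`: walks can be reversed) `v` is among the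
  finitely many end points of words of length `≤ T₀` from `x ∈ Φ`.
* `countable_of_cnn`: `w ↦ endp nb o w` is surjective from the countable type of words.
-/

open Finset MeasureTheory Pool.Agent.helper20.HP

namespace Pool.Agent.UQ

variable {V : Type} {D : ℕ} {nb : V → Fin D → V} {μ : Measure (ℕ → Lt D)}

theorem reach_word (hc : Cnn nb) (x y : V) : ∃ w : List (Lt D), endp nb x w = y := by
  induction hc x y with
  | refl => exact ⟨[], rfl⟩
  | tail _ hab ih =>
    obtain ⟨w, hw⟩ := ih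
    obtain ⟨i, hi⟩ := hab
    refine ⟨w ++ [(true, i)], ?_⟩
    rw [endp_append, hw]
    exact hi

theorem countable_of_cnn (hc : Cnn nb) : Countable V := by
  rcases isEmpty_or_nonempty V with h | ⟨⟨o⟩⟩
  · infer_instance
  · have : Function.Surjective (fun w : List (Lt D) => endp nb o w) := fun y => reach_word hc o y
    exact this.countable

/-- reversal of a word -/
theorem word_rev (hr : Reg nb) (x : V) (w : List (Lt D)) :
    ∃ w' : List (Lt D), w'.length = w.length ∧ endp nb (endp nb x w) w' = x := by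
  induction w generalizing x with
  | nil => exact ⟨[], rfl, rfl⟩
  | cons l w ih =>
    obtain ⟨w', hw', he⟩ := ih (mv nb x l)
    obtain ⟨l', hl'⟩ : ∃ l' : Lt D, mv nb (mv nb x l) l' = x := by
      obtain ⟨b, i⟩ := l
      cases b with
      | false => exact ⟨(false, i), rfl⟩
      | true =>
        obtain ⟨j, hj⟩ := hr.symm x i
        exact ⟨(true, j), hj⟩
    refine ⟨w' ++ [l'], by simp [hw'], ?_⟩
    have e1 : endp nb x (l :: w) = endp nb (mv nb x l) w := rfl
    rw [e1, endp_append, he]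
    exact hl'

theorem Trans_tsum_le {θ : ℝ} (G : GInf nb θ) (hμ : LM μ) (v x : V) :
    ∑' t, μ {ω | Xi nb v ω t = x} ≤ ENNReal.ofReal (3 * θ) := by
  have hD : 0 < D := by have := G.deg; omega
  refine ENNReal.tsum_le_of_sum_range_le fun n => ?_
  calc ∑ t ∈ range n, μ {ω | Xi nb v ω t = x}
      = ∑ t ∈ range n, ENNReal.ofReal (pk nb t v x) :=
        Finset.sum_congr rfl fun t _ => mu_Xi_eq nb hμ v x t
    _ = ENNReal.ofReal (∑ t ∈ range n, pk nb t v x) :=
        (ENNReal.ofReal_sum_of_nonneg fun t _ => pk_nonneg t v x).symm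
    _ ≤ ENNReal.ofReal (3 * θ) := by
        refine ENNReal.ofReal_le_ofReal ?_
        refine le_trans (Finset.sum_le_sum fun t _ => ?_) (Smb_half G.reg G.tra G.smb x n)
        have h1 := pk_le G.reg G.tra hD t v x x
        have h2 : 0 ≤ pk nb (2 * (t / 2)) x x := pk_nonneg _ _ _
        have h3 : (0 : ℝ) ≤ t := Nat.cast_nonneg t
        nlinarith

theorem fin_visits {θ : ℝ} (G : GInf nb θ) (hμ : LM μ) (v x : V) :
    ∀ᵐ ω ∂μ, {t | Xi nb v ω t = x}.Finite := by
  have h1 : ∑' t, μ {ω | Xi nb v ω t = x} ≠ ⊤ :=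
    ne_top_of_le_ne_top ENNReal.ofReal_ne_top (Trans_tsum_le G hμ v x)
  have h2 := measure_setOfPred_frequently_eq_zero h1
  rw [ae_iff]
  refine measure_mono_null (fun ω hω => ?_) h2
  simp only [Set.mem_ofPred_eq] at hω ⊢
  exact Nat.frequently_atTop_iff_infinite.mpr hω

/-- almost surely the walk is a `TrWalk` -/
theorem trWalk_ae {θ : ℝ} (G : GInf nb θ) (hμ : LM μ) (v : V) : ∀ᵐ ω ∂μ, TrWalk nb (Xi nb v ω) := by
  have := countable_of_cnn G.cnn
  have h1 : ∀ᵐ ω ∂μ, ∀ x, {t | Xi nb v ω t = x}.Finite :=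
    ae_all_iff.mpr fun x => fin_visits G hμ v x
  filter_upwards [h1] with ω hω
  exact ⟨fun t => Xi_step nb v ω t, hω⟩

theorem nonesc_finite {θ : ℝ} (G : GInf nb θ) (hμ : LM μ) {Φ : Set V} (hΦ : Φ.Finite) :
    {v | ¬ Esc nb μ Φ v}.Finite := by
  classical
  have hD : 0 < D := by have := G.deg; omega
  have hprob := hμ.prob
  obtain ⟨o⟩ : Nonempty V := by have := G.infV; exact Infinite.nonempty V
  set N : ℕ := hΦ.toFinset.card with hN
  set ε : ℝ := 1 / (2 * ((N : ℝ) + 1)) with hε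
  have hεpos : 0 < ε := by positivity
  obtain ⟨T₀, hT₀⟩ := Smb_tail G.reg G.tra G.smb o hεpos
  have hfin : (⋃ x ∈ Φ, (fun w : List (Lt D) => endp nb x w) '' {w | w.length < T₀}).Finite := by
    refine hΦ.biUnion fun x _ => ?_
    exact (List.finite_length_lt (Lt D) T₀).image _
  refine hfin.subset fun v hv => ?_
  by_contra hcon
  simp only [Set.mem_iUnion, Set.mem_image, Set.mem_ofPred_eq, not_exists, not_and, exists_prop] at hcon hv
  -- terms with t < T₀ vanish
  have hzero : ∀ x ∈ Φ, ∀ t < T₀, pk nb t v x = 0 := by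
    intro x hx t ht
    by_contra hne
    obtain ⟨w, hw, he⟩ := pk_reach hne
    obtain ⟨w', hw', he'⟩ := word_rev G.reg v w
    rw [he] at he'
    exact hcon x hx w' (by omega) he'
  have hsum : ∀ x ∈ Φ, ∑' t, μ {ω | Xi nb v ω t = x} ≤ ENNReal.ofReal ε := by
    intro x hx
    refine ENNReal.tsum_le_of_sum_range_le fun n => ?_
    calc ∑ t ∈ range n, μ {ω | Xi nb v ω t = x}
        = ∑ t ∈ range n, ENNReal.ofReal (pk nb t v x) :=
          Finset.sum_congr rfl fun t _ => mu_Xi_eq nb hμ v x t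
      _ = ENNReal.ofReal (∑ t ∈ range n, pk nb t v x) :=
          (ENNReal.ofReal_sum_of_nonneg fun t _ => pk_nonneg t v x).symm
      _ ≤ ENNReal.ofReal ε := by
          refine ENNReal.ofReal_le_ofReal ?_
          refine le_trans ?_ (hT₀ n)
          have h1 : ∑ t ∈ Ico T₀ n, pk nb t v x = ∑ t ∈ range n, pk nb t v x := by
            refine Finset.sum_subset (fun t ht => ?_) (fun t ht ht' => ?_)
            · rw [Finset.mem_Ico] at ht
              exact Finset.mem_range.mpr ht.2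
            · rw [Finset.mem_range] at ht
              rw [Finset.mem_Ico] at ht'
              exact hzero x hx t (by omega)
          rw [← h1]
          refine Finset.sum_le_sum fun t _ => ?_
          have h1 := pk_le G.reg G.tra hD t v x o
          have h2 : 0 ≤ pk nb (2 * (t / 2)) o o := pk_nonneg _ _ _
          have h3 : (0 : ℝ) ≤ t := Nat.cast_nonneg t
          nlinarith
  have hnot : μ {ω | ∀ t, Xi nb v ω t ∉ Φ} = 0 := by
    by_contra h0
    exact hv (pos_iff_ne_zero.mpr h0)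
  have hcover : (Set.univ : Set (ℕ → Lt D)) ⊆ {ω | ∀ t, Xi nb v ω t ∉ Φ} ∪
      ⋃ x ∈ hΦ.toFinset, ⋃ t, {ω | Xi nb v ω t = x} := by
    intro ω _
    by_cases h : ∀ t, Xi nb v ω t ∉ Φ
    · exact Or.inl h
    · push Not at h
      obtain ⟨t, ht⟩ := h
      refine Or.inr ?_
      simp only [Set.mem_iUnion, Set.mem_ofPred_eq, exists_prop]
      exact ⟨Xi nb v ω t, hΦ.mem_toFinset.mpr ht, t, rfl⟩
  have h1 : (1 : ENNReal) ≤ N * ENNReal.ofReal ε := by
    calc (1 : ENNReal) = μ Set.univ := measure_univ.symm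
      _ ≤ μ ({ω | ∀ t, Xi nb v ω t ∉ Φ} ∪ ⋃ x ∈ hΦ.toFinset, ⋃ t, {ω | Xi nb v ω t = x}) :=
          measure_mono hcover
      _ ≤ μ {ω | ∀ t, Xi nb v ω t ∉ Φ} + μ (⋃ x ∈ hΦ.toFinset, ⋃ t, {ω | Xi nb v ω t = x}) :=
          measure_union_le _ _
      _ = μ (⋃ x ∈ hΦ.toFinset, ⋃ t, {ω | Xi nb v ω t = x}) := by rw [hnot, zero_add]
      _ ≤ ∑ x ∈ hΦ.toFinset, μ (⋃ t, {ω | Xi nb v ω t = x}) := measure_biUnion_finset_le _ _
      _ ≤ ∑ x ∈ hΦ.toFinset, ENNReal.ofReal ε := by
          refine Finset.sum_le_sum fun x hx => ?_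
          exact (measure_iUnion_le _).trans (hsum x (hΦ.mem_toFinset.mp hx))
      _ = N * ENNReal.ofReal ε := by rw [Finset.sum_const, nsmul_eq_mul]
  have h2 : (N : ENNReal) * ENNReal.ofReal ε = ENNReal.ofReal (N * ε) := by
    rw [ENNReal.ofReal_mul (Nat.cast_nonneg N), ENNReal.ofReal_natCast]
  rw [h2] at h1
  have h3 : (1 : ENNReal) = ENNReal.ofReal 1 := ENNReal.ofReal_one.symm
  rw [h3, ENNReal.ofReal_le_ofReal_iff (by positivity)] at h1
  have h4 : (N : ℝ) * ε < 1 := by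
    rw [hε, mul_one_div, div_lt_one (by positivity)]
    have : (0 : ℝ) ≤ N := Nat.cast_nonneg N
    linarith
  linarith

end Pool.Agent.UQ
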