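import Pool.Agent.UQ.Ind

/-!
# A1 WBasic : calculus of `W` and `WC`
All by induction on the number of steps (`W K (k+1) x f = ∑ y, K.p x y * W K k y (fun l => f (y :: l))` is `rfl`).
`lst x l = l.getLastD x`.
-/

open Finset Pool.Agent.helper20.HP

namespace Pool.Agent.UQ

variable {V : Type} [Fintype V] [DecidableEq V] (K : HW V)

/-- only words of length `k` matter -/
theorem W_congr {k : ℕ} {x : V} {f g : List V → ℝ} (h : ∀ l, l.length = k → f l = g l) :
    W K k x f = W K k x g := by
  induction k generalizing x f g with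
  | zero => exact h [] rfl
  | succ k ih =>
    refine Finset.sum_congr rfl (fun y _ => ?_)
    rw [ih (x := y) (fun l hl => h (y :: l) (by simp [hl]))]

theorem W_mono {k : ℕ} {x : V} {f g : List V → ℝ} (h : ∀ l, l.length = k → f l ≤ g l) :
    W K k x f ≤ W K k x g := by
  induction k generalizing x f g with
  | zero => exact h [] rfl
  | succ k ih =>
    refine Finset.sum_le_sum (fun y _ => mul_le_mul_of_nonneg_left ?_ (K.nonneg x y))
    exact ih (x := y) (fun l hl => h (y :: l) (by simp [hl]))

theorem W_const (k : ℕ) (x : V) (c : ℝ) : W K k x (fun _ => c) = c := by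
  induction k generalizing x with
  | zero => rfl
  | succ k ih =>
    change ∑ y, K.p x y * W K k y (fun _ => c) = c
    rw [Finset.sum_congr rfl (fun y _ => by rw [ih y]), ← Finset.sum_mul, K.sum_one, one_mul]

theorem W_nonneg {k : ℕ} {x : V} {f : List V → ℝ} (h : ∀ l, l.length = k → 0 ≤ f l) :
    0 ≤ W K k x f := by
  have := W_mono K (x := x) (f := fun _ => 0) (g := f) h
  rwa [W_const] at this

theorem W_add (k : ℕ) (x : V) (f g : List V → ℝ) :
    W K k x (fun l => f l + g l) = W K k x f + W K k x g := by
  induction k generalizing x f g with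
  | zero => rfl
  | succ k ih =>
    change ∑ y, K.p x y * W K k y (fun l => f (y :: l) + g (y :: l)) =
      ∑ y, K.p x y * W K k y (fun l => f (y :: l)) + ∑ y, K.p x y * W K k y (fun l => g (y :: l))
    rw [← Finset.sum_add_distrib]
    refine Finset.sum_congr rfl (fun y _ => ?_)
    rw [ih y (fun l => f (y :: l)) (fun l => g (y :: l)), mul_add]

theorem W_mul_left (k : ℕ) (x : V) (c : ℝ) (f : List V → ℝ) :
    W K k x (fun l => c * f l) = c * W K k x f := by
  induction k generalizing x f with
  | zero => rfl
  | succ k ih =>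
    change ∑ y, K.p x y * W K k y (fun l => c * f (y :: l)) =
      c * ∑ y, K.p x y * W K k y (fun l => f (y :: l))
    rw [Finset.mul_sum]
    refine Finset.sum_congr rfl (fun y _ => ?_)
    rw [ih y (fun l => f (y :: l))]
    ring

theorem W_sub (k : ℕ) (x : V) (f g : List V → ℝ) :
    W K k x (fun l => f l - g l) = W K k x f - W K k x g := by
  have h : (fun l => f l - g l) = fun l => f l + (-1) * g l := by
    funext l; ring
  rw [h, W_add, W_mul_left]
  ring

theorem W_sum {ι : Type} (s : Finset ι) (k : ℕ) (x : V) (f : ι → List V → ℝ) :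
    W K k x (fun l => ∑ i ∈ s, f i l) = ∑ i ∈ s, W K k x (f i) := by
  classical
  induction s using Finset.induction_on with
  | empty => simp [W_const]
  | insert a s ha ih =>
    rw [Finset.sum_insert ha, ← ih, ← W_add]
    congr 1
    funext l
    rw [Finset.sum_insert ha]

omit [Fintype V] [DecidableEq V] in
theorem WBasic_lst_cons (x y : V) (l : List V) : lst x (y :: l) = lst y l := by
  unfold lst
  rw [List.getLastD_cons]

/-- Markov property -/
theorem W_append (j k : ℕ) (x : V) (f : List V → ℝ) :
    W K (j + k) x f = W K j x (fun l => W K k (lst x l) (fun m => f (l ++ m))) := by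
  induction j generalizing x f with
  | zero => rw [Nat.zero_add]; rfl
  | succ j ih =>
    rw [show j + 1 + k = (j + k) + 1 by omega]
    change ∑ y, K.p x y * W K (j + k) y (fun l => f (y :: l)) =
      ∑ y, K.p x y * W K j y (fun l => W K k (lst x (y :: l)) (fun m => f ((y :: l) ++ m)))
    refine Finset.sum_congr rfl (fun y _ => ?_)
    rw [ih y (fun l => f (y :: l))]
    simp only [WBasic_lst_cons, List.cons_append]

/-- prefix: a function of the first `j` vertices -/
theorem W_take (j k : ℕ) (x : V) (f : List V → ℝ) :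
    W K (j + k) x (fun l => f (l.take j)) = W K j x f := by
  rw [W_append]
  refine W_congr K (fun l hl => ?_)
  have : ∀ m : List V, (l ++ m).take j = l := by
    intro m
    rw [← hl, List.take_left']
    rfl
  simp only [this, W_const]

/-- independent walks can be exchanged -/
theorem W_comm (j k : ℕ) (x y : V) (f : List V → List V → ℝ) :
    W K j x (fun l => W K k y (fun m => f l m)) = W K k y (fun m => W K j x (fun l => f l m)) := by
  induction j generalizing x f with
  | zero => rfl
  | succ j ih =>
    change ∑ z, K.p x z * W K j z (fun l => W K k y (fun m => f (z :: l) m)) =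
      W K k y (fun m => ∑ z, K.p x z * W K j z (fun l => f (z :: l) m))
    have h1 : ∀ z, K.p x z * W K j z (fun l => W K k y (fun m => f (z :: l) m))
        = W K k y (fun m => K.p x z * W K j z (fun l => f (z :: l) m)) := by
      intro z
      rw [ih z (fun l m => f (z :: l) m), W_mul_left]
    rw [Finset.sum_congr rfl (fun z _ => h1 z)]
    exact (W_sum K Finset.univ k y
      (fun z m => K.p x z * W K j z (fun l => f (z :: l) m))).symm

/-- Cauchy-Schwarz / Jensen -/
theorem W_sq_le (k : ℕ) (x : V) (f : List V → ℝ) :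
    (W K k x f) ^ 2 ≤ W K k x (fun l => (f l) ^ 2) := by
  have h : 0 ≤ W K k x (fun l => (f l - W K k x f) ^ 2) := W_nonneg K (fun l _ => sq_nonneg _)
  have h2 : W K k x (fun l => (f l - W K k x f) ^ 2)
      = W K k x (fun l => (f l) ^ 2) - (W K k x f) ^ 2 := by
    have e : (fun l => (f l - W K k x f) ^ 2)
        = fun l => ((f l) ^ 2 - (2 * W K k x f) * f l) + (W K k x f) ^ 2 := by
      funext l; ring
    rw [e, W_add K k x (fun l => (f l) ^ 2 - (2 * W K k x f) * f l) (fun _ => (W K k x f) ^ 2),
      W_sub K k x (fun l => (f l) ^ 2) (fun l => (2 * W K k x f) * f l), W_mul_left, W_const]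
    ring
  linarith

theorem abs_W_le (k : ℕ) (x : V) (f : List V → ℝ) :
    |W K k x f| ≤ W K k x (fun l => |f l|) := by
  rw [abs_le]
  constructor
  · have h : W K k x (fun l => (-1) * |f l|) ≤ W K k x f :=
      W_mono K (fun l _ => by have := neg_abs_le (f l); linarith)
    rw [W_mul_left] at h
    linarith
  · exact W_mono K (fun l _ => le_abs_self _)

/-! complex valued version -/

theorem WC_congr {k : ℕ} {x : V} {f g : List V → ℂ} (h : ∀ l, l.length = k → f l = g l) :
    WC K k x f = WC K k x g := by
  induction k generalizing x f g with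
  | zero => exact h [] rfl
  | succ k ih =>
    refine Finset.sum_congr rfl (fun y _ => ?_)
    rw [ih (x := y) (fun l hl => h (y :: l) (by simp [hl]))]

theorem WC_const (k : ℕ) (x : V) (c : ℂ) : WC K k x (fun _ => c) = c := by
  induction k generalizing x with
  | zero => rfl
  | succ k ih =>
    change ∑ y, (K.p x y : ℂ) * WC K k y (fun _ => c) = c
    rw [Finset.sum_congr rfl (fun y _ => by rw [ih y]), ← Finset.sum_mul]
    have : ∑ y, (K.p x y : ℂ) = 1 := by
      rw [← Complex.ofReal_sum, K.sum_one]
      simp
    rw [this, one_mul]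

theorem WC_add (k : ℕ) (x : V) (f g : List V → ℂ) :
    WC K k x (fun l => f l + g l) = WC K k x f + WC K k x g := by
  induction k generalizing x f g with
  | zero => rfl
  | succ k ih =>
    change ∑ y, (K.p x y : ℂ) * WC K k y (fun l => f (y :: l) + g (y :: l)) =
      ∑ y, (K.p x y : ℂ) * WC K k y (fun l => f (y :: l))
        + ∑ y, (K.p x y : ℂ) * WC K k y (fun l => g (y :: l))
    rw [← Finset.sum_add_distrib]
    refine Finset.sum_congr rfl (fun y _ => ?_)
    rw [ih y (fun l => f (y :: l)) (fun l => g (y :: l)), mul_add]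

theorem WC_mul_left (k : ℕ) (x : V) (c : ℂ) (f : List V → ℂ) :
    WC K k x (fun l => c * f l) = c * WC K k x f := by
  induction k generalizing x f with
  | zero => rfl
  | succ k ih =>
    change ∑ y, (K.p x y : ℂ) * WC K k y (fun l => c * f (y :: l)) =
      c * ∑ y, (K.p x y : ℂ) * WC K k y (fun l => f (y :: l))
    rw [Finset.mul_sum]
    refine Finset.sum_congr rfl (fun y _ => ?_)
    rw [ih y (fun l => f (y :: l))]
    ring

theorem WC_sub (k : ℕ) (x : V) (f g : List V → ℂ) :
    WC K k x (fun l => f l - g l) = WC K k x f - WC K k x g := by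
  have h : (fun l => f l - g l) = fun l => f l + (-1) * g l := by
    funext l; ring
  rw [h, WC_add, WC_mul_left]
  ring

theorem WC_sum {ι : Type} (s : Finset ι) (k : ℕ) (x : V) (f : ι → List V → ℂ) :
    WC K k x (fun l => ∑ i ∈ s, f i l) = ∑ i ∈ s, WC K k x (f i) := by
  classical
  induction s using Finset.induction_on with
  | empty => simp [WC_const]
  | insert a s ha ih =>
    rw [Finset.sum_insert ha, ← ih, ← WC_add]
    congr 1
    funext l
    rw [Finset.sum_insert ha]

theorem WC_append (j k : ℕ) (x : V) (f : List V → ℂ) :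
    WC K (j + k) x f = WC K j x (fun l => WC K k (lst x l) (fun m => f (l ++ m))) := by
  induction j generalizing x f with
  | zero => rw [Nat.zero_add]; rfl
  | succ j ih =>
    rw [show j + 1 + k = (j + k) + 1 by omega]
    change ∑ y, (K.p x y : ℂ) * WC K (j + k) y (fun l => f (y :: l)) =
      ∑ y, (K.p x y : ℂ) * WC K j y (fun l => WC K k (lst x (y :: l)) (fun m => f ((y :: l) ++ m)))
    refine Finset.sum_congr rfl (fun y _ => ?_)
    rw [ih y (fun l => f (y :: l))]
    simp only [WBasic_lst_cons, List.cons_append]

theorem WC_take (j k : ℕ) (x : V) (f : List V → ℂ) :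
    WC K (j + k) x (fun l => f (l.take j)) = WC K j x f := by
  rw [WC_append]
  refine WC_congr K (fun l hl => ?_)
  have : ∀ m : List V, (l ++ m).take j = l := by
    intro m
    rw [← hl, List.take_left']
    rfl
  simp only [this, WC_const]

theorem norm_WC_le (k : ℕ) (x : V) (f : List V → ℂ) :
    ‖WC K k x f‖ ≤ W K k x (fun l => ‖f l‖) := by
  induction k generalizing x f with
  | zero => exact le_refl _
  | succ k ih =>
    refine (norm_sum_le _ _).trans (Finset.sum_le_sum (fun y _ => ?_))
    rw [norm_mul, Complex.norm_real, Real.norm_of_nonneg (K.nonneg x y)]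
    exact mul_le_mul_of_nonneg_left (ih y (fun l => f (y :: l))) (K.nonneg x y)

theorem WC_re (k : ℕ) (x : V) (f : List V → ℂ) :
    (WC K k x f).re = W K k x (fun l => (f l).re) := by
  induction k generalizing x f with
  | zero => rfl
  | succ k ih =>
    change (∑ y, (K.p x y : ℂ) * WC K k y (fun l => f (y :: l))).re =
      ∑ y, K.p x y * W K k y (fun l => (f (y :: l)).re)
    rw [Complex.re_sum]
    refine Finset.sum_congr rfl (fun y _ => ?_)
    rw [Complex.re_ofReal_mul, ih y (fun l => f (y :: l))]

/-! uniform average -/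

theorem avg_const [Nonempty V] (c : ℝ) : avg (fun _ : V => c) = c := by
  unfold avg
  have h : (Fintype.card V : ℝ) ≠ 0 := by
    exact_mod_cast Fintype.card_ne_zero
  rw [Finset.sum_const, Finset.card_univ, nsmul_eq_mul]
  field_simp

theorem avg_mono {f g : V → ℝ} (h : ∀ v, f v ≤ g v) : avg f ≤ avg g := by
  unfold avg
  exact div_le_div_of_nonneg_right (Finset.sum_le_sum (fun v _ => h v)) (Nat.cast_nonneg _)

theorem avg_nonneg {f : V → ℝ} (h : ∀ v, 0 ≤ f v) : 0 ≤ avg f :=
  div_nonneg (Finset.sum_nonneg (fun v _ => h v)) (Nat.cast_nonneg _)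

theorem avg_add (f g : V → ℝ) : avg (fun v => f v + g v) = avg f + avg g := by
  unfold avg
  rw [Finset.sum_add_distrib, add_div]

theorem avg_sub (f g : V → ℝ) : avg (fun v => f v - g v) = avg f - avg g := by
  unfold avg
  rw [Finset.sum_sub_distrib, sub_div]

theorem avg_mul_left (c : ℝ) (f : V → ℝ) : avg (fun v => c * f v) = c * avg f := by
  unfold avg
  rw [← Finset.mul_sum, mul_div_assoc]

theorem avg_sum {ι : Type} (s : Finset ι) (f : ι → V → ℝ) :
    avg (fun v => ∑ i ∈ s, f i v) = ∑ i ∈ s, avg (f i) := by
  unfold avg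
  rw [Finset.sum_comm, Finset.sum_div]

/-- Cauchy-Schwarz for the joint average over the start and the path -/
theorem avgW_le_sqrt (k : ℕ) (f : V → List V → ℝ) :
    avg (fun x => W K k x (f x)) ≤ Real.sqrt (avg (fun x => W K k x (fun l => (f x l) ^ 2))) := by
  by_cases hV : Nonempty V
  · refine Real.le_sqrt_of_sq_le ?_
    set m := avg (fun x => W K k x (f x)) with hm
    have h : 0 ≤ avg (fun x => W K k x (fun l => (f x l - m) ^ 2)) :=
      avg_nonneg (fun x => W_nonneg K (fun l _ => sq_nonneg _))
    have e : (fun x => W K k x (fun l => (f x l - m) ^ 2))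
        = fun x => (W K k x (fun l => (f x l) ^ 2) - (2 * m) * W K k x (f x)) + m ^ 2 := by
      funext x
      have e1 : (fun l => (f x l - m) ^ 2)
          = fun l => ((f x l) ^ 2 - (2 * m) * f x l) + m ^ 2 := by
        funext l; ring
      rw [e1, W_add K k x (fun l => (f x l) ^ 2 - (2 * m) * f x l) (fun _ => m ^ 2),
        W_sub K k x (fun l => (f x l) ^ 2) (fun l => (2 * m) * f x l), W_mul_left, W_const]
    rw [e, avg_add (fun x => W K k x (fun l => (f x l) ^ 2) - (2 * m) * W K k x (f x))
      (fun _ => m ^ 2), avg_sub (fun x => W K k x (fun l => (f x l) ^ 2))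
      (fun x => (2 * m) * W K k x (f x)), avg_mul_left, avg_const, ← hm] at h
    nlinarith
  · have hE : IsEmpty V := not_nonempty_iff.mp hV
    unfold avg
    simp

end Pool.Agent.UQ
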