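import Pool.Agent.UQ.WBasic

/-!
# A2 WSym : automorphism invariance, reversibility, stationarity

* `W_map`: by induction on `k`, reindexing the sum over `y` with `σ` (`Equiv.sum_comp`).
* `avg_edge`: symmetry `K.p v y = K.p y v` and `Finset.sum_comm`.
* `avg_W_reverse`: put `T k f = ∑ x, W K k x (fun l => f (x :: l))`. By one step at the beginning and symmetry
  `T (k+1) f = ∑ x y, p x y W k y (l ↦ f (x :: y :: l)) = T k (p ↦ ∑ z, p (head p) z * f (z :: p))`.
  Induction (for all `f`): `= T k (p ↦ ∑ z, p (last p) z * f (z :: p.reverse)) = T (k+1) (f ∘ reverse)` by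
  `W_append` with the last step at the end.
* `avg_W_last` : `avg (x ↦ W k x (l ↦ g (lst x l))) = avg g` (from reversal: the last vertex becomes the first one).
-/

open Finset Pool.Agent.helper20.HP

namespace Pool.Agent.UQ

variable {V : Type} [Fintype V] [DecidableEq V] (K : HW V)

theorem WSym_W_zero (x : V) (f : List V → ℝ) : W K 0 x f = f [] := rfl

theorem WSym_W_succ (k : ℕ) (x : V) (f : List V → ℝ) :
    W K (k + 1) x f = ∑ y, K.p x y * W K k y (fun l => f (y :: l)) := rfl

theorem WSym_WC_zero (x : V) (f : List V → ℂ) : WC K 0 x f = f [] := rfl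

theorem WSym_WC_succ (k : ℕ) (x : V) (f : List V → ℂ) :
    WC K (k + 1) x f = ∑ y, (K.p x y : ℂ) * WC K k y (fun l => f (y :: l)) := rfl

theorem WSym_lst_cons (x y : V) (l : List V) : lst x (y :: l) = lst y l := by
  unfold lst
  cases l with
  | nil => rfl
  | cons z l => simp [List.getLastD]

theorem WSym_lst_append (x : V) (l : List V) (y : V) : lst x (l ++ [y]) = y := by
  induction l generalizing x with
  | nil => rfl
  | cons z l ih => rw [List.cons_append, WSym_lst_cons]; exact ih z

theorem WSym_rev (x : V) (l : List V) :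
    ∃ m, (x :: l).reverse = lst x l :: m ∧ lst (lst x l) m = x := by
  induction l generalizing x with
  | nil => exact ⟨[], rfl, rfl⟩
  | cons z l ih =>
    obtain ⟨m, hm, -⟩ := ih z
    refine ⟨m ++ [x], ?_, WSym_lst_append _ _ _⟩
    rw [List.reverse_cons, hm, WSym_lst_cons]
    rfl

theorem W_map (σ : Equiv.Perm V) (hσ : ∀ u v, K.p (σ u) (σ v) = K.p u v) (k : ℕ) (x : V)
    (f : List V → ℝ) : W K k (σ x) f = W K k x (fun l => f (l.map σ)) := by
  induction k generalizing x f with
  | zero => rfl
  | succ k ih =>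
    rw [WSym_W_succ, WSym_W_succ, ← Equiv.sum_comp σ]
    refine Finset.sum_congr rfl (fun y _ => ?_)
    rw [hσ, ih]
    rfl

theorem WC_map (σ : Equiv.Perm V) (hσ : ∀ u v, K.p (σ u) (σ v) = K.p u v) (k : ℕ) (x : V)
    (f : List V → ℂ) : WC K k (σ x) f = WC K k x (fun l => f (l.map σ)) := by
  induction k generalizing x f with
  | zero => rfl
  | succ k ih =>
    rw [WSym_WC_succ, WSym_WC_succ, ← Equiv.sum_comp σ]
    refine Finset.sum_congr rfl (fun y _ => ?_)
    rw [hσ, ih]
    rfl

theorem avg_edge (ψ : V → V → ℝ) :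
    avg (fun v => ∑ y, K.p v y * ψ v y) = avg (fun v => ∑ y, K.p v y * ψ y v) := by
  unfold avg
  rw [Finset.sum_comm]
  congr 1
  refine Finset.sum_congr rfl (fun v _ => Finset.sum_congr rfl (fun y _ => ?_))
  rw [K.symm]

/-- right recursion -/
theorem WSym_W_succ' (k : ℕ) (x : V) (f : List V → ℝ) :
    W K (k + 1) x f = W K k x (fun l => ∑ y, K.p (lst x l) y * f (l ++ [y])) := by
  rw [W_append]
  refine W_congr K (fun l _ => ?_)
  rw [WSym_W_succ]
  refine Finset.sum_congr rfl (fun y _ => ?_)
  rw [WSym_W_zero]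

/-- auxiliary function for the time reversal -/
noncomputable def WSym_g (f : List V → ℝ) : List V → ℝ
  | [] => 0
  | z :: m => ∑ y, K.p z y * f (y :: z :: m)

/-- time reversal for sums -/
theorem WSym_sum_rev (k : ℕ) (f : List V → ℝ) :
    ∑ x, W K k x (fun l => f (x :: l)) = ∑ x, W K k x (fun l => f (x :: l).reverse) := by
  induction k generalizing f with
  | zero => simp only [WSym_W_zero]; rfl
  | succ k ih =>
    have h1 : ∀ x, W K (k + 1) x (fun l => f (x :: l).reverse)
        = W K k x (fun l => WSym_g K f (x :: l).reverse) := by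
      intro x
      rw [WSym_W_succ']
      refine W_congr K (fun l _ => ?_)
      obtain ⟨m, hm, -⟩ := WSym_rev x l
      rw [hm]
      simp only [WSym_g]
      refine Finset.sum_congr rfl (fun y _ => ?_)
      rw [show x :: (l ++ [y]) = (x :: l) ++ [y] by simp, List.reverse_append, hm]
      rfl
    simp_rw [h1]
    rw [← ih]
    have h2 : ∀ x, W K k x (fun l => WSym_g K f (x :: l))
        = ∑ y, K.p x y * W K k x (fun l => f (y :: x :: l)) := by
      intro x
      have : W K k x (fun l => WSym_g K f (x :: l))
          = W K k x (fun l => ∑ y, K.p x y * f (y :: x :: l)) :=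
        W_congr K (fun l _ => rfl)
      rw [this, W_sum]
      refine Finset.sum_congr rfl (fun y _ => ?_)
      rw [W_mul_left]
    simp_rw [h2]
    rw [Finset.sum_comm]
    refine Finset.sum_congr rfl (fun x _ => ?_)
    rw [WSym_W_succ]
    refine Finset.sum_congr rfl (fun y _ => ?_)
    rw [K.symm x y]

/-- reversal of the whole path -/
theorem avg_W_reverse (k : ℕ) (f : List V → ℝ) :
    avg (fun x => W K k x (fun l => f (x :: l))) = avg (fun x => W K k x (fun l => f (x :: l).reverse)) := by
  unfold avg
  rw [WSym_sum_rev]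

/-- auxiliary function for the two sided form -/
noncomputable def WSym_t (ψ : V → List V → ℝ) : List V → ℝ
  | [] => 0
  | y :: m => ψ (lst y m) (y :: m)

theorem WSym_two_sided (k : ℕ) (ψ : V → List V → ℝ) :
    avg (fun v => W K k v (fun a => ψ v (v :: a).reverse)) =
      avg (fun x => W K k x (fun l => ψ (lst x l) (x :: l))) := by
  have h := avg_W_reverse K k (WSym_t ψ)
  have e1 : ∀ x, W K k x (fun l => WSym_t ψ (x :: l)) =
      W K k x (fun l => ψ (lst x l) (x :: l)) := fun x => W_congr K (fun l _ => rfl)
  have e2 : ∀ x, W K k x (fun l => WSym_t ψ (x :: l).reverse) =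
      W K k x (fun l => ψ x (x :: l).reverse) := by
    intro x
    refine W_congr K (fun l _ => ?_)
    obtain ⟨m, hm, hm'⟩ := WSym_rev x l
    rw [hm]
    simp only [WSym_t]
    rw [hm']
  simp_rw [e1, e2] at h
  exact h.symm

/-- stationarity -/
theorem avg_W_last (k : ℕ) (g : V → ℝ) : avg (fun x => W K k x (fun l => g (lst x l))) = avg g := by
  have h := WSym_two_sided K k (fun v _ => g v)
  rw [← h]
  simp_rw [W_const]

/-- reversal, conditional form: a walk `l` from `x` followed by something that depends on its last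
vertex and on the path = a walk `a` from `v` read backwards. -/
theorem avg_W_two_sided (k : ℕ) (ψ : V → List V → ℝ) :
    avg (fun v => W K k v (fun a => ψ v (v :: a).reverse)) =
      avg (fun x => W K k x (fun l => ψ (lst x l) (x :: l))) := WSym_two_sided K k ψ

/-- homogeneity for functions of the path which are invariant under all automorphisms -/
theorem W_homog {k : ℕ} (f : V → List V → ℝ)
    (hf : ∀ σ : Equiv.Perm V, (∀ u v, K.p (σ u) (σ v) = K.p u v) → ∀ x l, f (σ x) (l.map σ) = f x l)
    (x y : V) : W K k x (f x) = W K k y (f y) := by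
  obtain ⟨σ, hσ, hxy⟩ := K.homog x y
  rw [← hxy, W_map K σ hσ]
  exact W_congr K (fun l _ => (hf σ hσ x l).symm)

end Pool.Agent.UQ
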