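import Pool.Agent.UQ.ExBasic

/-!
# B9 XiEx : the infinite walk, measurability, relation with `Ex`

* `meas_Xi`: an event depending only on the first `t` letters is measurable (finitely many letters; e.g. induction on `t`:
  `{ω | Xi v ω (t+1) ∈ S} = ⋃_l ({ω | ω t = l} ∩ {ω | Xi v ω t ∈ (mv nb · l) ⁻¹' S})`).
* `meas_pre`: likewise for any property of the first `k` vertices.
* `mu_pre`: induction on `k` (all `v`, `P`) with `LM.cons`: `pre v (consW l ω) (k+1) = mv v l :: pre (mv v l) ω k`.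
* `Ex_ge`: `{ω | c' ≤ f (pre v ω k)}` is measurable, contains `S` and has measure `ofReal (Ex (ind (c' ≤ f)))`, and `c' * ind (c' ≤ f) ≤ f`.
-/

open Finset MeasureTheory Pool.Agent.helper20.HP

namespace Pool.Agent.UQ

variable {V : Type} {D : ℕ} (nb : V → Fin D → V)

/-- the `k` vertices following `v` in the infinite walk -/
def pre (v : V) (ω : ℕ → Lt D) (k : ℕ) : List V := (List.range k).map (fun t => Xi nb v ω (t + 1))

theorem Xi_cons (v : V) (l : Lt D) (ω : ℕ → Lt D) (t : ℕ) :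
    Xi nb v (consW l ω) (t + 1) = Xi nb (mv nb v l) ω t := by
  induction t with
  | zero => rfl
  | succ t ih =>
    show mv nb (Xi nb v (consW l ω) (t + 1)) (consW l ω (t + 1)) = _
    rw [ih]; rfl

theorem Xi_app (v : V) (w : List (Lt D)) (ω : ℕ → Lt D) (t : ℕ) :
    Xi nb v (appW w ω) (w.length + t) = Xi nb (endp nb v w) ω t := by
  induction w generalizing v with
  | nil => simp [appW, endp]
  | cons l w ih =>
    have h1 : (l :: w).length + t = (w.length + t) + 1 := by simp [List.length_cons]; omega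
    rw [h1]
    show Xi nb v (consW l (appW w ω)) (w.length + t + 1) = _
    rw [Xi_cons, ih]; rfl

theorem Xi_app_lt (v : V) (w : List (Lt D)) (ω : ℕ → Lt D) (t : ℕ) (ht : t ≤ w.length) :
    Xi nb v (appW w ω) t = endp nb v (w.take t) := by
  induction w generalizing v t with
  | nil =>
    have : t = 0 := by simpa using ht
    subst this; rfl
  | cons l w ih =>
    cases t with
    | zero => rfl
    | succ t =>
      show Xi nb v (consW l (appW w ω)) (t + 1) = _
      rw [Xi_cons, ih (mv nb v l) t (by simpa using ht)]; rfl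

theorem Xi_drop (v : V) (ω : ℕ → Lt D) (k t : ℕ) :
    Xi nb (Xi nb v ω k) (dropW k ω) t = Xi nb v ω (k + t) := by
  induction t with
  | zero => rfl
  | succ t ih =>
    show mv nb (Xi nb (Xi nb v ω k) (dropW k ω) t) (dropW k ω t) = _
    rw [ih]; rfl

theorem Xi_step (v : V) (ω : ℕ → Lt D) (t : ℕ) :
    Xi nb v ω (t + 1) = Xi nb v ω t ∨ Adj nb (Xi nb v ω t) (Xi nb v ω (t + 1)) := by
  show mv nb (Xi nb v ω t) (ω t) = _ ∨ Adj nb _ (mv nb (Xi nb v ω t) (ω t))
  unfold mv
  by_cases h : (ω t).1 = true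
  · right; rw [if_pos h]; exact ⟨(ω t).2, rfl⟩
  · left; rw [if_neg h]

theorem XiEx_meas_eq (t : ℕ) (l : Lt D) : MeasurableSet {ω : ℕ → Lt D | ω t = l} := by
  have h : {ω : ℕ → Lt D | ω t = l} = (fun ω : ℕ → Lt D => ω t) ⁻¹' {l} := by
    ext ω; simp
  rw [h]
  exact measurable_pi_apply t (measurableSet_singleton l)

theorem meas_Xi (v : V) (t : ℕ) (S : Set V) : MeasurableSet {ω : ℕ → Lt D | Xi nb v ω t ∈ S} := by
  induction t generalizing S with
  | zero =>
    have h : {ω : ℕ → Lt D | Xi nb v ω 0 ∈ S} = {_ω : ℕ → Lt D | v ∈ S} := rfl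
    rw [h]; exact MeasurableSet.const _
  | succ t ih =>
    have h : {ω : ℕ → Lt D | Xi nb v ω (t + 1) ∈ S}
        = ⋃ l : Lt D, ({ω : ℕ → Lt D | ω t = l} ∩ {ω : ℕ → Lt D | Xi nb v ω t ∈ {x | mv nb x l ∈ S}}) := by
      ext ω
      simp only [Set.mem_ofPred_eq, Set.mem_iUnion, Set.mem_inter_iff]
      constructor
      · intro h; exact ⟨ω t, rfl, h⟩
      · rintro ⟨l, rfl, h⟩; exact h
    rw [h]
    refine MeasurableSet.iUnion fun l => MeasurableSet.inter ?_ (ih _)
    exact XiEx_meas_eq t l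

theorem XiEx_meas_dropW (k : ℕ) : Measurable (dropW k : (ℕ → Lt D) → (ℕ → Lt D)) :=
  measurable_pi_lambda _ fun t => measurable_pi_apply (k + t)

theorem XiEx_cons_drop (ω : ℕ → Lt D) : consW (ω 0) (dropW 1 ω) = ω := by
  funext t
  cases t with
  | zero => rfl
  | succ t => show ω (1 + t) = ω (t + 1); rw [add_comm]

theorem XiEx_pre_cons (v : V) (l : Lt D) (ω : ℕ → Lt D) (k : ℕ) :
    pre nb v (consW l ω) (k + 1) = mv nb v l :: pre nb (mv nb v l) ω k := by
  unfold pre
  rw [List.range_succ_eq_map, List.map_cons, List.map_map]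
  congr 1
  refine List.map_congr_left fun t _ => ?_
  show Xi nb v (consW l ω) (t + 1 + 1) = _
  rw [Xi_cons]

theorem XiEx_lst_pre (v : V) (ω : ℕ → Lt D) (t : ℕ) : lst v (pre nb v ω t) = Xi nb v ω t := by
  cases t with
  | zero => rfl
  | succ t =>
    unfold pre lst
    rw [List.range_succ, List.map_append]
    simp

theorem meas_pre (v : V) (k : ℕ) (P : List V → Prop) :
    MeasurableSet {ω : ℕ → Lt D | P (pre nb v ω k)} := by
  induction k generalizing v P with
  | zero =>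
    have h : {ω : ℕ → Lt D | P (pre nb v ω 0)} = {_ω : ℕ → Lt D | P []} := rfl
    rw [h]; exact MeasurableSet.const _
  | succ k ih =>
    have h : {ω : ℕ → Lt D | P (pre nb v ω (k + 1))}
        = ⋃ l : Lt D, ({ω : ℕ → Lt D | ω 0 = l} ∩
          (dropW 1 ⁻¹' {ω : ℕ → Lt D | P (mv nb v l :: pre nb (mv nb v l) ω k)})) := by
      ext ω
      simp only [Set.mem_ofPred_eq, Set.mem_iUnion, Set.mem_inter_iff, Set.mem_preimage]
      constructor
      · intro h
        refine ⟨ω 0, rfl, ?_⟩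
        rw [← XiEx_pre_cons, XiEx_cons_drop]; exact h
      · rintro ⟨l, rfl, h⟩
        rw [← XiEx_pre_cons, XiEx_cons_drop] at h; exact h
    rw [h]
    refine MeasurableSet.iUnion fun l => MeasurableSet.inter ?_
      (XiEx_meas_dropW 1 (ih (mv nb v l) (fun m => P (mv nb v l :: m))))
    exact XiEx_meas_eq 0 l

theorem meas_avoid (v : V) (R : Set V) : MeasurableSet {ω : ℕ → Lt D | ∀ t, Xi nb v ω t ∉ R} := by
  have h : {ω : ℕ → Lt D | ∀ t, Xi nb v ω t ∉ R} = ⋂ t, {ω : ℕ → Lt D | Xi nb v ω t ∈ Rᶜ} := by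
    ext ω; simp
  rw [h]
  exact MeasurableSet.iInter fun t => meas_Xi nb v t Rᶜ

variable {μ : Measure (ℕ → Lt D)}

theorem mu_pre (hμ : LM μ) (v : V) (k : ℕ) (P : List V → Prop) :
    μ {ω | P (pre nb v ω k)} = ENNReal.ofReal (Ex nb k v (fun l => ind (P l))) := by
  have := hμ.prob
  induction k generalizing v P with
  | zero =>
    show μ {ω : ℕ → Lt D | P []} = ENNReal.ofReal (ind (P []))
    by_cases h : P []
    · rw [ind_true h]; simp [h]
    · rw [ind_false h]; simp [h]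
  | succ k ih =>
    rw [hμ.cons _ (meas_pre nb v (k + 1) P)]
    have h1 : ∀ l : Lt D, μ (consW l ⁻¹' {ω : ℕ → Lt D | P (pre nb v ω (k + 1))})
        = ENNReal.ofReal (Ex nb k (mv nb v l) (fun m => ind (P (mv nb v l :: m)))) := by
      intro l
      rw [← ih (mv nb v l) (fun m => P (mv nb v l :: m))]
      congr 1
      ext ω
      simp only [Set.mem_preimage, Set.mem_ofPred_eq, XiEx_pre_cons]
    rw [Finset.sum_congr rfl fun l _ => h1 l]
    show _ = ENNReal.ofReal ((2 * (D : ℝ))⁻¹ * ∑ l : Lt D,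
      Ex nb k (mv nb v l) (fun m => ind (P (mv nb v l :: m))))
    rcases Nat.eq_zero_or_pos D with hD | hD
    · subst hD
      simp
    · have h2 : (0 : ℝ) < 2 * (D : ℝ) := by positivity
      rw [ENNReal.ofReal_mul (inv_nonneg.mpr h2.le), ENNReal.ofReal_inv_of_pos h2,
        ENNReal.ofReal_mul (by norm_num), ENNReal.ofReal_natCast,
        ENNReal.ofReal_sum_of_nonneg (fun l _ => Ex_nonneg nb (fun m _ => ind_nonneg _))]
      norm_num

theorem mu_Xi_eq (hμ : LM μ) (v x : V) (t : ℕ) :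
    μ {ω | Xi nb v ω t = x} = ENNReal.ofReal (pk nb t v x) := by
  have h := mu_pre nb hμ v t (fun m => lst v m = x)
  simp only [XiEx_lst_pre] at h
  exact h

/-- lower bound for `Ex` from an (outer measure) event of infinite walks -/
theorem Ex_ge (hμ : LM μ) (v : V) (k : ℕ) {f : List V → ℝ} (hf : ∀ l, 0 ≤ f l) {S : Set (ℕ → Lt D)}
    {c c' : ℝ} (hc : 0 ≤ c) (hc' : 0 ≤ c') (hS : ENNReal.ofReal c ≤ μ S)
    (h : ∀ ω ∈ S, c' ≤ f (pre nb v ω k)) : c * c' ≤ Ex nb k v f := by
  have h1 : ENNReal.ofReal c ≤ ENNReal.ofReal (Ex nb k v (fun l => ind (c' ≤ f l))) := by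
    rw [← mu_pre nb hμ v k (fun l => c' ≤ f l)]
    exact hS.trans (measure_mono fun ω hω => h ω hω)
  have h2 : c ≤ Ex nb k v (fun l => ind (c' ≤ f l)) :=
    (ENNReal.ofReal_le_ofReal_iff (Ex_nonneg nb (fun l _ => ind_nonneg _))).mp h1
  calc c * c' ≤ Ex nb k v (fun l => ind (c' ≤ f l)) * c' := mul_le_mul_of_nonneg_right h2 hc'
    _ = Ex nb k v (fun l => c' * ind (c' ≤ f l)) := by rw [Ex_mul_left, mul_comm]
    _ ≤ Ex nb k v f := by
      refine Ex_mono nb fun l _ => ?_
      by_cases h3 : c' ≤ f l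
      · rw [ind_true h3, mul_one]; exact h3
      · rw [ind_false h3, mul_zero]; exact hf l

/-- shift: one step decomposition of the avoidance probability -/
theorem mu_avoid_cons (hμ : LM μ) (v : V) (R : Set V) :
    μ {ω | ∀ t, Xi nb v ω (t + 1) ∉ R} =
      (2 * (D : ENNReal))⁻¹ * ∑ l : Lt D, μ {ω | ∀ t, Xi nb (mv nb v l) ω t ∉ R} := by
  have hm : MeasurableSet {ω : ℕ → Lt D | ∀ t, Xi nb v ω (t + 1) ∉ R} := by
    have h : {ω : ℕ → Lt D | ∀ t, Xi nb v ω (t + 1) ∉ R}
        = ⋂ t, {ω : ℕ → Lt D | Xi nb v ω (t + 1) ∈ Rᶜ} := by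
      ext ω; simp
    rw [h]
    exact MeasurableSet.iInter fun t => meas_Xi nb v (t + 1) Rᶜ
  rw [hμ.cons _ hm]
  congr 1
  refine Finset.sum_congr rfl fun l _ => ?_
  congr 1
  ext ω
  simp only [Set.mem_preimage, Set.mem_ofPred_eq, Xi_cons]

end Pool.Agent.UQ
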